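import Pool.Agent.LibSP15.Defs

/-!
# SP15, row A1 (size M)

PLAN. Positive value in every square class. Copy the proof of `Kloo.exists_neg` (LibKloosterman/Negative.lean, same file has `T_eq`, `K_im`,
`K_ne_zero`, `sum_chi_psi` ...). `T k := ∑_u K(α u²) ψ(k u) = 1 - χ(α) χ(1 - k²/(4α)) d`. If χ(α) = -1: `T 0 = 1 + d > 0`, so some term is > 0.
If χ(α) = 1: `(4α)⁻¹ = m²` with m ≠ 0; take k = 5/(3m): `1 - k² (4α)⁻¹ = 1 - 25/9 = -(4/3)²`, nonzero, χ = χ(-1) = -1 (`chi_neg_one`), so `T k = 1 + d`,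
`T 0 = 1 - d`. If all `re K ≤ 0` then `re (T k) ≤ ∑ |K| = - re (T 0) = d - 1 < d + 1` (|ψ| = 1, K real). 3, 4, 5 ≠ 0 mod d since d ≡ 3 mod 4, d > 3 (d ≠ 5).
-/

set_option autoImplicit false

namespace SP15

open Finset Filter

theorem A1_exists_pos {d : ℕ} [Fact d.Prime] (h3 : d % 4 = 3) (h7 : 3 < d) (α : ZMod d) (hα : α ≠ 0) :
    ∃ u : (ZMod d)ˣ, 0 < (Kloo.K d (α * (u : ZMod d) ^ 2)).re := by
  by_contra hcon
  push Not at hcon
  have hnz : ∀ n : ℕ, 0 < n → n < d → ((n : ℕ) : ZMod d) ≠ 0 := by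
    intro n hn hn' h
    rw [ZMod.natCast_eq_zero_iff] at h
    have := Nat.le_of_dvd hn h
    omega
  have h2 : (2 : ZMod d) ≠ 0 := by exact_mod_cast hnz 2 (by norm_num) (by omega)
  have h3' : (3 : ZMod d) ≠ 0 := by exact_mod_cast hnz 3 (by norm_num) (by omega)
  have h4 : (4 : ZMod d) ≠ 0 := by exact_mod_cast hnz 4 (by norm_num) (by omega)
  have h5 : (5 : ZMod d) ≠ 0 := by exact_mod_cast hnz 5 (by norm_num) (by omega)
  have hT0 := Kloo.T_eq h3 α 0 hα (by simp)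
  simp only [ne_eq, OfNat.ofNat_ne_zero, not_false_eq_true, zero_pow, zero_mul, sub_zero,
    map_one, mul_one, AddChar.map_zero_eq_one] at hT0
  have hd0 : (3 : ℝ) < d := by exact_mod_cast h7
  have hre0 := congrArg Complex.re hT0
  rw [Complex.re_sum] at hre0
  rcases quadraticChar_dichotomy (F := ZMod d) hα with hχ | hχ
  · -- χ(α) = 1
    rw [Kloo.chi_apply, hχ] at hre0
    obtain ⟨s, hs⟩ := (quadraticChar_one_iff_isSquare hα).1 hχ
    have hs0 : s ≠ 0 := by rintro rfl; exact hα (by rw [hs, mul_zero])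
    set k : ZMod d := 5 / (3 * (2 * s)⁻¹) with hk
    have hm : 1 - k ^ 2 * (4 * α)⁻¹ = (-1) * (4 / 3) ^ 2 := by
      rw [hk, hs]
      field_simp
      norm_num
    have hm0 : (4 / 3 : ZMod d) ≠ 0 := div_ne_zero h4 h3'
    have hTk := Kloo.T_eq h3 α k hα (by
      rw [hm]; exact mul_ne_zero (neg_ne_zero.2 one_ne_zero) (pow_ne_zero 2 hm0))
    rw [hm] at hTk
    have hχ1 : Kloo.chi d ((-1) * (4 / 3) ^ 2) = -1 := by
      rw [map_mul, Kloo.chi_neg_one h3, pow_two, map_mul, Kloo.chi_mul_self _ hm0, mul_one]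
    rw [hχ1] at hTk
    have hrek := congrArg Complex.re hTk
    rw [Complex.re_sum, Kloo.chi_apply, hχ] at hrek
    have h6 : ∀ u : (ZMod d)ˣ, (Kloo.K d (α * (u : ZMod d) ^ 2) *
        ZMod.stdAddChar (k * (u : ZMod d))).re = (Kloo.K d (α * (u : ZMod d) ^ 2)).re *
        (ZMod.stdAddChar (k * (u : ZMod d)) : ℂ).re := by
      intro u
      rw [Complex.mul_re, Kloo.K_im, zero_mul, sub_zero]
    rw [sum_congr rfl fun u _ => h6 u] at hrek
    have h7' : ∑ u : (ZMod d)ˣ, (Kloo.K d (α * (u : ZMod d) ^ 2)).re *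
        (ZMod.stdAddChar (k * (u : ZMod d)) : ℂ).re ≤
        ∑ u : (ZMod d)ˣ, -(Kloo.K d (α * (u : ZMod d) ^ 2)).re := by
      refine sum_le_sum fun u _ => ?_
      have hn : ‖(ZMod.stdAddChar (k * (u : ZMod d)) : ℂ)‖ = 1 := by
        rw [ZMod.stdAddChar_apply]; exact Circle.norm_coe _
      have h8 := Complex.abs_re_le_norm (ZMod.stdAddChar (k * (u : ZMod d)) : ℂ)
      rw [hn] at h8
      have h9 := (abs_le.1 h8).1
      nlinarith [hcon u]
    rw [sum_neg_distrib, hre0, hrek] at h7'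
    simp at h7'
    linarith
  · rw [Kloo.chi_apply, hχ] at hre0
    simp at hre0
    have : ∑ u : (ZMod d)ˣ, (Kloo.K d (α * (u : ZMod d) ^ 2)).re ≤ 0 :=
      sum_nonpos fun u _ => hcon u
    linarith

end SP15
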