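import Pool.Agent.LibSP15.Defs
import Pool.Agent.LibSP15.A1

/-!
# SP15, row A2 (size S)

PLAN. With α := a * (w⁻¹)² in ZMod l (nonzero). `Kloo.exists_neg_fourth` gives B with `K (α * (((B)^2)⁻¹)^2) < 0`; take s := (B : ZMod l).val; then
`((w * s^2 : ℕ) : ZMod l)⁻¹ ^ 2 = (w⁻¹)^2 * ((B^2)⁻¹)^2`. For the positive one copy the proof of `exists_neg_fourth` with A1_exists_pos.
-/

set_option autoImplicit false

namespace SP15

open Finset Filter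

/-- the positive fourth power class -/
lemma A2_exists_pos_fourth {d : ℕ} [Fact d.Prime] (h3 : d % 4 = 3) (h7 : 3 < d) (α : ZMod d)
    (hα : α ≠ 0) :
    ∃ A : (ZMod d)ˣ, 0 < (Kloo.K d (α * (((A : ZMod d) ^ 2)⁻¹) ^ 2)).re := by
  obtain ⟨u, hu⟩ := A1_exists_pos h3 h7 α hα
  have hu0 : (u : ZMod d) ≠ 0 := u.ne_zero
  have hsq : IsSquare ((u : ZMod d)⁻¹) ∨ IsSquare (-(u : ZMod d)⁻¹) := by
    by_contra hcon
    push Not at hcon
    have h1 := quadraticChar_neg_one_iff_not_isSquare.2 hcon.1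
    have h2 := quadraticChar_neg_one_iff_not_isSquare.2 hcon.2
    have h4 : quadraticChar (ZMod d) (-1) = -1 := by
      rw [quadraticChar_neg_one (Kloo.ringChar_ne h3), ZMod.card, ZMod.χ₄_nat_three_mod_four h3]
    rw [neg_eq_neg_one_mul, map_mul, h4, h1] at h2
    norm_num at h2
  rcases hsq with ⟨r, hr⟩ | ⟨r, hr⟩
  · have hr0 : r ≠ 0 := by
      rintro rfl; rw [mul_zero] at hr; exact (inv_ne_zero hu0) hr
    refine ⟨Units.mk0 r hr0, ?_⟩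
    have : ((Units.mk0 r hr0 : (ZMod d)ˣ) : ZMod d) = r := rfl
    rw [this, pow_two r, ← hr, inv_inv]
    exact hu
  · have hr0 : r ≠ 0 := by
      rintro rfl; rw [mul_zero] at hr; exact (neg_ne_zero.2 (inv_ne_zero hu0)) hr
    refine ⟨Units.mk0 r hr0, ?_⟩
    have : ((Units.mk0 r hr0 : (ZMod d)ˣ) : ZMod d) = r := rfl
    rw [this, pow_two r, ← hr, inv_neg, inv_inv, neg_sq]
    exact hu

theorem A2_exists_t (a : ℤ) (l w : ℕ) [Fact l.Prime] (h3 : l % 4 = 3) (h7 : 3 < l)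
    (ha : ¬ (l : ℤ) ∣ a) (hw : l.Coprime w) :
    ∃ t s : ℕ, t < l ∧ s < l ∧ l.Coprime t ∧ l.Coprime s ∧ 0 < Kl a l w t ∧ Kl a l w s < 0 := by
  have hl : l.Prime := Fact.out
  have ha0 : ((a : ℤ) : ZMod l) ≠ 0 := by
    rw [Ne, ZMod.intCast_zmod_eq_zero_iff_dvd]; exact ha
  have hw0 : ((w : ℕ) : ZMod l) ≠ 0 := by
    rw [Ne, ZMod.natCast_eq_zero_iff]
    exact (Nat.Prime.coprime_iff_not_dvd hl).1 hw
  have hα : ((a : ℤ) : ZMod l) * (((w : ℕ) : ZMod l)⁻¹) ^ 2 ≠ 0 :=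
    mul_ne_zero ha0 (pow_ne_zero 2 (inv_ne_zero hw0))
  obtain ⟨A, hA⟩ := A2_exists_pos_fourth h3 h7 _ hα
  obtain ⟨B, hB⟩ := Kloo.exists_neg_fourth h3 h7 _ hα
  have hcop : ∀ C : (ZMod l)ˣ, l.Coprime (C : ZMod l).val := by
    intro C
    rw [Nat.Prime.coprime_iff_not_dvd hl, ← ZMod.natCast_eq_zero_iff, ZMod.natCast_zmod_val]
    exact C.ne_zero
  have hval : ∀ C : (ZMod l)ˣ, Kl a l w (C : ZMod l).val =
      (Kloo.K l (((a : ℤ) : ZMod l) * (((w : ℕ) : ZMod l)⁻¹) ^ 2 *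
        ((((C : ZMod l) ^ 2)⁻¹)) ^ 2)).re := by
    intro C
    unfold Kl
    congr 2
    push_cast
    rw [ZMod.natCast_zmod_val, mul_inv]
    ring
  refine ⟨(A : ZMod l).val, (B : ZMod l).val, ZMod.val_lt _, ZMod.val_lt _, hcop A, hcop B, ?_, ?_⟩
  · rw [hval]; exact hA
  · rw [hval]; exact hB

end SP15
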