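import Pool.Agent.LibKloosterman.Two
import Mathlib

/-!
# SP15: definitions (spectators theorem, MP_6ea630_nt)
-/

set_option autoImplicit false

namespace SP15

open Finset

/-- numerical parameters: `T` length of a bin, `a`, `b` numbers of primes per bin of `w`, `u`; the prime `l` -/
structure Par where
  T : ℕ
  a : ℕ
  b : ℕ
  l : ℕ
  ha : 1 ≤ a
  hb : 1 ≤ b
  haT : a < T
  hbT : b < T
  hl : l.Prime
  h3 : l % 4 = 3
  hl3 : 3 < l

/-- number of primes per bin of `w u u'` -/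
def Par.A (P : Par) : ℕ := P.a + 2 * P.b

/-- `log log X` -/
noncomputable def LL (X : ℕ) : ℝ := Real.log (Real.log X)

/-- `y = (log X)^10` -/
noncomputable def yy (X : ℕ) : ℝ := (Real.log X) ^ 10

/-- `z = X^(1/(1000 L))` -/
noncomputable def zz (X : ℕ) : ℕ := ⌊Real.exp (Real.log X / (1000 * LL X))⌋₊

/-- `z' = X^(1/(10^6 L^2))` -/
noncomputable def zs (X : ℕ) : ℕ := ⌊Real.exp (Real.log X / (10 ^ 6 * LL X ^ 2))⌋₊

/-- first bin -/
noncomputable def h0 (P : Par) (X : ℕ) : ℕ := ⌈Real.log (10 * LL X) / P.T⌉₊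

/-- end of the bins -/
noncomputable def h1 (P : Par) (X : ℕ) : ℕ := ⌊Real.log (Real.log X / (10 ^ 5 * P.A * LL X)) / P.T⌋₊

/-- number of bins -/
noncomputable def HH (P : Par) (X : ℕ) : ℕ := h1 P X - h0 P X

/-- the `h`-th bin: primes `p` with `e^(hT) < log p ≤ e^((h+1)T)` -/
noncomputable def Bin (T h : ℕ) : Finset ℕ :=
  (Icc 1 ⌊Real.exp (Real.exp ((h + 1) * T))⌋₊).filter fun p => p.Prime ∧ Real.exp (h * T) < Real.log p

/-- sets of primes from the bins `i ≤ h < j` with exactly `e` elements in every bin -/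
noncomputable def Rg (T i j e : ℕ) : Finset (Finset ℕ) :=
  ((Ico i j).biUnion (Bin T)).powerset.filter fun U => ∀ h ∈ Ico i j, #(U ∩ Bin T h) = e

noncomputable def Reg (P : Par) (X e : ℕ) : Finset (Finset ℕ) := Rg P.T (h0 P X) (h1 P X) e

/-- product of a set of primes -/
def pr (U : Finset ℕ) : ℕ := ∏ p ∈ U, p

/-- weight `1 / pr U` -/
noncomputable def iw (U : Finset ℕ) : ℝ := ∏ p ∈ U, (p : ℝ)⁻¹

/-- odd primes `≤ z` other than `l` -/
def PQ (l z : ℕ) : Finset ℕ := (Icc 3 z).filter fun p => p.Prime ∧ p ≠ l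

/-- the primes of `PQ l z` that divide `n` -/
def sm (l z n : ℕ) : Finset ℕ := (PQ l z).filter fun p => p ∣ n

/-- `z`-rough -/
def Rough (z r : ℕ) : Prop := ∀ p : ℕ, p.Prime → p ∣ r → z < p

/-- `Xi = (T^b/b!)^H` -/
noncomputable def Xi (P : Par) (X : ℕ) : ℝ := ((P.T : ℝ) ^ P.b / (P.b).factorial) ^ HH P X

/-- `Th = (T^a/a!)^H` -/
noncomputable def Th (P : Par) (X : ℕ) : ℝ := ((P.T : ℝ) ^ P.a / (P.a).factorial) ^ HH P X

/-- multinomial coefficient `A!/(a! b!^2)` -/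
noncomputable def mu (P : Par) : ℝ := (P.A).factorial / ((P.a).factorial * (P.b).factorial ^ 2)

/-- `F0 = X (log X)^(-3) Th Xi^3` -/
noncomputable def F0 (P : Par) (X : ℕ) : ℝ := X / Real.log X ^ 3 * (Th P X * Xi P X ^ 3)

/-- the size `N^2 Xi^3 / (log X)^3` -/
noncomputable def Sz (P : Par) (X N : ℕ) : ℝ := (N : ℝ) ^ 2 / Real.log X ^ 3 * Xi P X ^ 3

/-- `N_w` -/
def Nw (l X w : ℕ) : ℕ := Nat.sqrt (X / (8 * l * w))

open Classical in
/-- the triples `(n0, n2)`, `n1 = n0 + n2`, for the spectators `W` and the residue `t` mod `l` -/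
noncomputable def Tri (P : Par) (X N t : ℕ) (W : Finset ℕ) : Finset (ℕ × ℕ) :=
  (Ioc N (2 * N) ×ˢ Ioc N (2 * N)).filter fun x =>
    (x.1 % 4 = 1 ∧ x.2 % 4 = 1 ∧ x.1 % P.l = t % P.l ∧ x.2 % P.l = t % P.l) ∧
    (sm P.l (zz X) x.1 ∈ Reg P X P.b ∧ sm P.l (zz X) x.2 ∈ Reg P X P.b ∧
      sm P.l (zz X) (x.1 + x.2) ∈ Reg P X P.b) ∧
    (Disjoint (sm P.l (zz X) x.1) (sm P.l (zz X) x.2) ∧
      Disjoint (sm P.l (zz X) x.1) (sm P.l (zz X) (x.1 + x.2)) ∧
      Disjoint (sm P.l (zz X) x.2) (sm P.l (zz X) (x.1 + x.2))) ∧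
    (Disjoint W (sm P.l (zz X) x.1) ∧ Disjoint W (sm P.l (zz X) x.2) ∧
      Disjoint W (sm P.l (zz X) (x.1 + x.2)))

/-- the good triples -/
noncomputable def Good (P : Par) (X N t : ℕ) (W : Finset ℕ) : Finset (ℕ × ℕ) :=
  (Tri P X N t W).filter fun x => Squarefree (x.1 * x.2 * (x.1 + x.2))

/-- the three moduli of a triple -/
def mods (l w : ℕ) (x : ℕ × ℕ) : Finset ℕ :=
  {l * w * (x.1 * x.2), l * w * (x.1 * (x.1 + x.2)), l * w * (x.2 * (x.1 + x.2))}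

/-- real part of the Kloosterman sum `S(a,1;c)` -/
noncomputable def Fre (a : ℤ) (c : ℕ) : ℝ := if h : c ≠ 0 then (@Kloo.F a c 1 ⟨h⟩).re else 0

/-- the sign datum at `l`: `S` at the residue `t` for the spectator `w` -/
noncomputable def Kl (a : ℤ) (l w t : ℕ) [NeZero l] : ℝ :=
  (Kloo.K l ((a : ZMod l) * ((((w * t ^ 2 : ℕ) : ZMod l))⁻¹) ^ 2)).re

end SP15
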