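import Pool.Agent.LibSP15.Defs

/-!
# SP15, row A3 (size L)

PLAN. SIX PRODUCT. From squarefreeness l, w, x.1, x.2, x.1+x.2 are pairwise coprime and squarefree (same for m). `F_mul` twice: for n, n' two of the three
numbers of x: `F a (l*w*(n n')) 1 = F a l (w n n') * F a w (l n n') * F a (n n') (l w)`. `F_triple a x.1 x.2 (x.1+x.2) (l*w)`: the product of the three last factors is
the square of a nonzero real (F_real, F_re_ne_zero). The product over the three pairs of `F a w (l n n')` depends only on x.1, x.2 mod w (`F_congr`), so x and m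
give the same nonzero real: square > 0. At l: x.1 ≡ x.2 ≡ t, so `F a l (w x.1 (x.1+x.2)) = F a l (w x.2 (x.1+x.2))` (square > 0) and `F a l (w x.1 x.2) =
K l (a ((w t²)⁻¹)²)`, real part Kl a l w t > 0; for m it is Kl a l w s < 0. So the product of the six real numbers Fre a c is < 0: one is > 0 and one is < 0.
Model: `Kloo.triple_neg`, `Kloo.prod_neg3` (LibKloosterman/Two.lean).
-/

set_option autoImplicit false

namespace SP15

open Finset Filter

private theorem A3_split (a : ℤ) (l w n : ℕ) [NeZero l] [NeZero w] [NeZero n] (hlw : l.Coprime w)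
    (hn : (l * w).Coprime n) :
    Fre a (l * w * n) = (Kloo.F a l (w * n)).re * (Kloo.F a w (l * n)).re *
      (Kloo.F a n (l * w)).re := by
  have h0 : l * w * n ≠ 0 := mul_ne_zero (mul_ne_zero (NeZero.ne l) (NeZero.ne w)) (NeZero.ne n)
  unfold Fre
  rw [dif_pos h0]
  have h1 := Kloo.F_mul a (c := l * w) (c' := n) (w := 1) hn (Nat.coprime_one_left _)
  have h2 := Kloo.F_mul a (c := l) (c' := w) (w := n * 1) hlw (by rw [mul_one]; exact hn.symm)
  rw [h2] at h1
  rw [mul_one, mul_one] at h1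
  rw [h1, Kloo.F_real a l, Kloo.F_real a w, Kloo.F_real a n]
  simp only [← Complex.ofReal_mul, Complex.ofReal_re]

private theorem A3_prod (a : ℤ) (l w t : ℕ) [Fact l.Prime] [NeZero w] (A B : ℕ)
    (hs : Squarefree (l * w * (A * B * (A + B)))) (hA : A % l = t % l) (hB : B % l = t % l) :
    ∃ q : ℝ, 0 < q ∧ Fre a (l * w * (A * B)) * Fre a (l * w * (A * (A + B))) *
      Fre a (l * w * (B * (A + B))) =
      Kl a l w t * ((Kloo.F a w (l * (A * B))).re * (Kloo.F a w (l * (A * (A + B)))).re *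
        (Kloo.F a w (l * (B * (A + B)))).re) * q := by
  obtain ⟨C, hC⟩ : ∃ C, C = A + B := ⟨_, rfl⟩
  rw [← hC] at hs ⊢
  obtain ⟨h1, h2, h3⟩ := Nat.squarefree_mul_iff.1 hs
  obtain ⟨hlw, hsl, hsw⟩ := Nat.squarefree_mul_iff.1 h2
  obtain ⟨h4, h5, hsC⟩ := Nat.squarefree_mul_iff.1 h3
  obtain ⟨hAB, hsA, hsB⟩ := Nat.squarefree_mul_iff.1 h5
  haveI : NeZero A := ⟨hsA.ne_zero⟩
  haveI : NeZero B := ⟨hsB.ne_zero⟩
  haveI : NeZero C := ⟨hsC.ne_zero⟩
  have hnC : (l * w).Coprime C := h1.coprime_mul_left_right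
  have hnAB : (l * w).Coprime (A * B) := h1.coprime_mul_right_right
  have hnA : (l * w).Coprime A := hnAB.coprime_mul_right_right
  have hnB : (l * w).Coprime B := hnAB.coprime_mul_left_right
  rw [A3_split a l w (A * B) hlw hnAB, A3_split a l w (A * C) hlw (hnA.mul_right hnC),
    A3_split a l w (B * C) hlw (hnB.mul_right hnC)]
  have hAt : (A : ZMod l) = t := (ZMod.natCast_eq_natCast_iff' A t l).2 hA
  have hBt : (B : ZMod l) = t := (ZMod.natCast_eq_natCast_iff' B t l).2 hB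
  have e1 : (Kloo.F a l (w * (A * B))).re = Kl a l w t := by
    have : Kloo.F a l (w * (A * B)) = Kloo.F a l (w * t ^ 2) := by
      apply Kloo.F_congr
      push_cast
      rw [hAt, hBt]
      ring
    rw [this]
    rfl
  have e2 : Kloo.F a l (w * (B * C)) = Kloo.F a l (w * (A * C)) := by
    apply Kloo.F_congr
    push_cast
    rw [hAt, hBt]
  have key := Kloo.F_triple a A B C (l * w) hC.symm hAB hnA hnB hnC
  rw [Kloo.F_cast a (l * w) (mul_comm C A), Kloo.F_real a (A * B), Kloo.F_real a (B * C),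
    Kloo.F_real a (A * C), Kloo.F_real a A, Kloo.F_real a B, Kloo.F_real a C] at key
  have key' : (Kloo.F a (A * B) (l * w)).re * (Kloo.F a (B * C) (l * w)).re *
      (Kloo.F a (A * C) (l * w)).re =
      ((Kloo.F a A (B * (l * w))).re * (Kloo.F a B (A * (l * w))).re *
        (Kloo.F a C (A * (l * w))).re) ^ 2 := by
    exact_mod_cast key
  refine ⟨(Kloo.F a l (w * (A * C))).re ^ 2 * ((Kloo.F a (A * B) (l * w)).re *
    (Kloo.F a (B * C) (l * w)).re * (Kloo.F a (A * C) (l * w)).re), ?_, ?_⟩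
  · rw [key']
    have := Kloo.F_re_ne_zero a A (B * (l * w)) hsA
    have := Kloo.F_re_ne_zero a B (A * (l * w)) hsB
    have := Kloo.F_re_ne_zero a C (A * (l * w)) hsC
    have := Kloo.F_re_ne_zero a l (w * (A * C)) hsl
    positivity
  · rw [e1, e2]
    ring

private theorem A3_sign {a b c d e f : ℝ} (h : (a * b * c) * (d * e * f) < 0) :
    (0 < a ∨ 0 < b ∨ 0 < c ∨ 0 < d ∨ 0 < e ∨ 0 < f) ∧
    (a < 0 ∨ b < 0 ∨ c < 0 ∨ d < 0 ∨ e < 0 ∨ f < 0) := by
  constructor
  · by_contra hcon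
    push Not at hcon
    obtain ⟨h1, h2, h3, h4, h5, h6⟩ := hcon
    have h7 : 0 ≤ a * b := mul_nonneg_of_nonpos_of_nonpos h1 h2
    have h8 : 0 ≤ d * e := mul_nonneg_of_nonpos_of_nonpos h4 h5
    have h9 : 0 ≤ c * f := mul_nonneg_of_nonpos_of_nonpos h3 h6
    have h10 : 0 ≤ (a * b) * (d * e) * (c * f) := mul_nonneg (mul_nonneg h7 h8) h9
    have h11 : (a * b) * (d * e) * (c * f) = (a * b * c) * (d * e * f) := by ring
    linarith
  · by_contra hcon
    push Not at hcon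
    obtain ⟨h1, h2, h3, h4, h5, h6⟩ := hcon
    have h10 : 0 ≤ (a * b * c) * (d * e * f) := by positivity
    linarith

theorem A3_six (a : ℤ) (l w t s : ℕ) [Fact l.Prime] (h2 : 2 < l) (x m : ℕ × ℕ)
    (hx : Squarefree (l * w * (x.1 * x.2 * (x.1 + x.2)))) (hm : Squarefree (l * w * (m.1 * m.2 * (m.1 + m.2))))
    (hxt : x.1 % l = t % l ∧ x.2 % l = t % l) (hms : m.1 % l = s % l ∧ m.2 % l = s % l)
    (hxm : x.1 % w = m.1 % w ∧ x.2 % w = m.2 % w) (ht : 0 < Kl a l w t) (hs : Kl a l w s < 0) :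
    (∃ c ∈ mods l w x ∪ mods l w m, 0 < Fre a c) ∧ ∃ c ∈ mods l w x ∪ mods l w m, Fre a c < 0 := by
  have hsw : Squarefree w := by
    have h3 := (Nat.squarefree_mul_iff.1 hx).2.1
    exact (Nat.squarefree_mul_iff.1 h3).2.2
  haveI : NeZero w := ⟨hsw.ne_zero⟩
  obtain ⟨q, hq, hqe⟩ := A3_prod a l w t x.1 x.2 hx hxt.1 hxt.2
  obtain ⟨r, hr, hre⟩ := A3_prod a l w s m.1 m.2 hm hms.1 hms.2
  have h1 : (x.1 : ZMod w) = m.1 := (ZMod.natCast_eq_natCast_iff' _ _ _).2 hxm.1
  have h3 : (x.2 : ZMod w) = m.2 := (ZMod.natCast_eq_natCast_iff' _ _ _).2 hxm.2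
  have g1 : Kloo.F a w (l * (x.1 * x.2)) = Kloo.F a w (l * (m.1 * m.2)) := by
    apply Kloo.F_congr
    push_cast
    rw [h1, h3]
  have g2 : Kloo.F a w (l * (x.1 * (x.1 + x.2))) = Kloo.F a w (l * (m.1 * (m.1 + m.2))) := by
    apply Kloo.F_congr
    push_cast
    rw [h1, h3]
  have g3 : Kloo.F a w (l * (x.2 * (x.1 + x.2))) = Kloo.F a w (l * (m.2 * (m.1 + m.2))) := by
    apply Kloo.F_congr
    push_cast
    rw [h1, h3]
  rw [g1, g2, g3] at hqe
  have n1 := Kloo.F_re_ne_zero a w (l * (m.1 * m.2)) hsw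
  have n2 := Kloo.F_re_ne_zero a w (l * (m.1 * (m.1 + m.2))) hsw
  have n3 := Kloo.F_re_ne_zero a w (l * (m.2 * (m.1 + m.2))) hsw
  obtain ⟨G, hG⟩ : ∃ G, G = (Kloo.F a w (l * (m.1 * m.2))).re *
    (Kloo.F a w (l * (m.1 * (m.1 + m.2)))).re * (Kloo.F a w (l * (m.2 * (m.1 + m.2)))).re :=
    ⟨_, rfl⟩
  have hG0 : G ≠ 0 := by
    rw [hG]
    exact mul_ne_zero (mul_ne_zero n1 n2) n3
  rw [← hG] at hqe hre
  have hneg : (Fre a (l * w * (x.1 * x.2)) * Fre a (l * w * (x.1 * (x.1 + x.2))) *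
      Fre a (l * w * (x.2 * (x.1 + x.2)))) * (Fre a (l * w * (m.1 * m.2)) *
      Fre a (l * w * (m.1 * (m.1 + m.2))) * Fre a (l * w * (m.2 * (m.1 + m.2)))) < 0 := by
    rw [hqe, hre]
    have h4 : Kl a l w t * G * q * (Kl a l w s * G * r) =
        (Kl a l w t * Kl a l w s) * (G ^ 2 * (q * r)) := by ring
    rw [h4]
    exact mul_neg_of_neg_of_pos (mul_neg_of_pos_of_neg ht hs) (by positivity)
  obtain ⟨hp, hn⟩ := A3_sign hneg
  constructor
  · rcases hp with h | h | h | h | h | h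
    · exact ⟨_, by simp [mods], h⟩
    · exact ⟨_, by simp [mods], h⟩
    · exact ⟨_, by simp [mods], h⟩
    · exact ⟨_, by simp [mods], h⟩
    · exact ⟨_, by simp [mods], h⟩
    · exact ⟨_, by simp [mods], h⟩
  · rcases hn with h | h | h | h | h | h
    · exact ⟨_, by simp [mods], h⟩
    · exact ⟨_, by simp [mods], h⟩
    · exact ⟨_, by simp [mods], h⟩
    · exact ⟨_, by simp [mods], h⟩
    · exact ⟨_, by simp [mods], h⟩
    · exact ⟨_, by simp [mods], h⟩

end SP15
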