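import Pool.Agent.LibSP15.Defs
import Pool.Agent.LibMaier.Mertens

/-!
# SP15, row B1 (size S)

PLAN. `DR_sub` (LibMaier/Mertens2): |DR b - DR a| ≤ 2K/log a for 2 ≤ a ≤ b, DR t = ∑_{p ≤ t} 1/p - log log t. Take a = exp(exp(hT)), b = exp(exp((h+1)T)): log log b - log log a = T, log a = exp(hT). (a ≥ e > 2.)
The bin is exactly the set of primes p with a < p ≤ b.
-/

set_option autoImplicit false

namespace SP15

open Finset Filter

private theorem B1_bin (T h : ℕ) : ∑ p ∈ Bin T h, 1 / (p : ℝ) =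
    ∑ n ∈ Ioc ⌊Real.exp (Real.exp (h * T))⌋₊ ⌊Real.exp (Real.exp ((h + 1) * T))⌋₊,
      (if n.Prime then 1 / (n : ℝ) else 0) := by
  rw [← Finset.sum_filter]
  refine Finset.sum_congr ?_ fun _ _ => rfl
  ext p
  simp only [Bin, Finset.mem_filter, Finset.mem_Icc, Finset.mem_Ioc]
  constructor
  · rintro ⟨⟨h1, h2⟩, h3, h4⟩
    have hp : (0 : ℝ) < p := by exact_mod_cast h1
    refine ⟨⟨?_, h2⟩, h3⟩
    rw [Nat.floor_lt (Real.exp_pos _).le]
    rwa [Real.lt_log_iff_exp_lt hp] at h4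
  · rintro ⟨⟨h1, h2⟩, h3⟩
    have hp : (0 : ℝ) < p := by exact_mod_cast h3.pos
    refine ⟨⟨h3.pos, h2⟩, h3, ?_⟩
    rw [Nat.floor_lt (Real.exp_pos _).le] at h1
    rwa [Real.lt_log_iff_exp_lt hp]

theorem B1_sum : ∃ C : ℝ, 1 ≤ C ∧ ∀ T h : ℕ, 1 ≤ T →
    |∑ p ∈ Bin T h, 1 / (p : ℝ) - T| ≤ C * Real.exp (-(h * T)) := by
  obtain ⟨K, hK0, hK⟩ := Pool.Agent.LibMaier.mertens_first
  refine ⟨max 1 (2 * K), le_max_left _ _, fun T h _ => ?_⟩
  set a : ℝ := Real.exp (Real.exp (h * T)) with ha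
  set b : ℝ := Real.exp (Real.exp ((h + 1) * T)) with hb
  have ha1 : 1 < a := by
    rw [ha, Real.one_lt_exp_iff]
    exact Real.exp_pos _
  have hab : a ≤ b := by
    rw [ha, hb, Real.exp_le_exp, Real.exp_le_exp]
    have : (0 : ℝ) ≤ T := Nat.cast_nonneg T
    nlinarith
  have h1 := Pool.Agent.LibMaier.DR_sub hK ha1 hab
  have hfl : ⌊a⌋₊ ≤ ⌊b⌋₊ := Nat.floor_le_floor hab
  have e1 : Real.log a = Real.exp (h * T) := by rw [ha, Real.log_exp]
  have e2 : Real.log b = Real.exp ((h + 1) * T) := by rw [hb, Real.log_exp]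
  have e3 : Pool.Agent.LibMaier.DR b - Pool.Agent.LibMaier.DR a =
      ∑ p ∈ Bin T h, 1 / (p : ℝ) - T := by
    rw [B1_bin, ← Pool.Agent.LibMaier.RN_sub hfl, Pool.Agent.LibMaier.DR,
      Pool.Agent.LibMaier.DR, e1, e2, Real.log_exp, Real.log_exp]
    ring
  rw [e3, e1] at h1
  refine h1.trans ?_
  rw [div_eq_mul_inv, ← Real.exp_neg]
  exact mul_le_mul_of_nonneg_right (le_max_right _ _) (Real.exp_pos _).le

end SP15
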