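import Pool.Agent.LibSP15.Defs

/-!
# SP15, row E1 (size M)

PLAN. Elementary asymptotics, all with x = log X → ∞, L = log x → ∞. Floors: log zz ≥ log(exp(x/(1000L)) - 1) ≥ x/(2000 L). h1 T ≤ log(x/(10^5 A L)) and h1 T ≥ that - T; h0 T ≥ log(10 L), h0 T ≤ log(10 L) + T.
So H T ≥ L - log L - log(10^5 A) - T - log(10L) - T ≥ L - C log L. (A = P.A ≥ 3 real, T ≥ 2.) yy = exp(10 L) ≤ zs as log zs ~ x/(10^6 L²).
-/

set_option autoImplicit false

namespace SP15

open Finset Filter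

private theorem E1_floor {u : ℝ} (hu : 2 ≤ u) :
    u / 2 ≤ Real.log (⌊Real.exp u⌋₊ : ℝ) ∧ Real.log (⌊Real.exp u⌋₊ : ℝ) ≤ u ∧
      Real.exp u - 1 ≤ (⌊Real.exp u⌋₊ : ℝ) := by
  have h1 : Real.exp u - 1 < (⌊Real.exp u⌋₊ : ℝ) := Nat.sub_one_lt_floor _
  have h2 : (⌊Real.exp u⌋₊ : ℝ) ≤ Real.exp u := Nat.floor_le (Real.exp_pos _).le
  have h3 : Real.exp u = Real.exp (u / 2) ^ 2 := by
    rw [← Real.exp_nat_mul]
    congr 1
    push_cast
    ring
  have h4 : 2 ≤ Real.exp (u / 2) := by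
    have := Real.add_one_le_exp (u / 2)
    linarith
  have h5 : Real.exp (u / 2) ≤ (⌊Real.exp u⌋₊ : ℝ) := by
    rw [h3] at h1
    rw [h3]
    nlinarith
  refine ⟨?_, ?_, h1.le⟩
  · rw [Real.le_log_iff_exp_le (by linarith)]
    exact h5
  · rw [← Real.log_exp u]
    rw [Real.log_exp u]
    calc Real.log (⌊Real.exp u⌋₊ : ℝ) ≤ Real.log (Real.exp u) :=
          Real.log_le_log (by linarith) h2
      _ = u := Real.log_exp u

private theorem E1_cube (K : ℝ) : ∀ᶠ L : ℝ in atTop, K * L ^ 3 ≤ Real.exp L := by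
  filter_upwards [(Real.tendsto_exp_div_pow_atTop 3).eventually_ge_atTop K,
    eventually_gt_atTop 0] with L h1 h2
  rwa [le_div_iff₀ (by positivity)] at h1

private theorem E1_log (c : ℝ) : ∀ᶠ L : ℝ in atTop, 2 * Real.log L + c ≤ L := by
  have h1 := Real.isLittleO_log_id_atTop.bound (show (0 : ℝ) < 1 / 4 by norm_num)
  filter_upwards [h1, eventually_ge_atTop (1 : ℝ), eventually_ge_atTop (2 * c)] with L h2 h3 h4
  simp only [Real.norm_eq_abs, id] at h2
  have h5 : Real.log L ≤ 1 / 4 * L := by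
    rw [abs_of_nonneg (by linarith : (0 : ℝ) ≤ L)] at h2
    exact (le_abs_self _).trans h2
  linarith

private theorem E1_LL : Tendsto (fun X : ℕ => LL X) atTop atTop :=
  Real.tendsto_log_atTop.comp (Real.tendsto_log_atTop.comp tendsto_natCast_atTop_atTop)

/-- all the elementary inequalities between the scales, for large `X` -/
theorem E1_scales (P : Par) : ∃ C : ℝ, 1 ≤ C ∧ ∀ᶠ X : ℕ in atTop,
    100 ≤ LL X ∧ 100 ≤ zs X ∧ yy X ≤ zs X ∧ (X : ℝ) ≤ Real.exp (Real.log X) ∧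
    Real.log X / (2000 * LL X) ≤ Real.log (zz X) ∧ Real.log (zz X) ≤ Real.log X / (1000 * LL X) ∧
    Real.log X / (2 * 10 ^ 6 * LL X ^ 2) ≤ Real.log (zs X) ∧
    Real.log (zs X) ≤ Real.log X / (10 ^ 6 * LL X ^ 2) ∧
    h0 P X ≤ h1 P X ∧ 10 * LL X ≤ Real.exp (h0 P X * P.T) ∧
    Real.exp (h1 P X * P.T) ≤ Real.log X / (10 ^ 5 * P.A * LL X) ∧
    LL X - C * Real.log (LL X) ≤ HH P X * P.T ∧ (HH P X * P.T : ℝ) ≤ LL X ∧
    Real.exp (-(h1 P X * P.T)) ≤ C * LL X / Real.log X := by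
  have hT0 : (0 : ℝ) < P.T := by
    have h1 := P.ha
    have h2 := P.haT
    have : 0 < P.T := by omega
    exact_mod_cast this
  have hA1 : (1 : ℝ) ≤ P.A := by
    have h1 := P.ha
    have : 1 ≤ P.A := by unfold Par.A; omega
    exact_mod_cast this
  obtain ⟨B, hB⟩ : ∃ B : ℝ, B = 10 ^ 5 * P.A := ⟨_, rfl⟩
  have hB1 : (1 : ℝ) ≤ B := by rw [hB]; linarith
  have hB0 : (0 : ℝ) < B := by linarith
  obtain ⟨c0, hc0⟩ : ∃ c0 : ℝ, c0 = Real.log 10 + Real.log B + 2 * P.T := ⟨_, rfl⟩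
  have hlogB : 0 ≤ Real.log B := Real.log_nonneg hB1
  have hlog10 : 0 ≤ Real.log 10 := Real.log_nonneg (by norm_num)
  have hc0p : 0 ≤ c0 := by rw [hc0]; positivity
  have heT : 1 ≤ Real.exp P.T := Real.one_le_exp hT0.le
  obtain ⟨C, hC⟩ : ∃ C : ℝ, C = 2 + c0 + Real.exp P.T * B := ⟨_, rfl⟩
  have hCe : Real.exp P.T * B ≤ C := by rw [hC]; linarith
  have heB : 0 ≤ Real.exp P.T * B := by positivity
  refine ⟨C, by rw [hC]; linarith, ?_⟩
  filter_upwards [E1_LL.eventually (eventually_ge_atTop (100 : ℝ)),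
    E1_LL.eventually (E1_cube (10 ^ 8)), E1_LL.eventually (E1_log c0)] with X hL hcube hlog
  obtain ⟨L, hLd⟩ : ∃ L, L = LL X := ⟨_, rfl⟩
  rw [← hLd] at hL hcube hlog ⊢
  obtain ⟨x, hxd⟩ : ∃ x, x = Real.log X := ⟨_, rfl⟩
  have hx0' : 0 ≤ x := by rw [hxd]; exact Real.log_natCast_nonneg X
  have hLx : L = Real.log x := by rw [hLd, hxd]; rfl
  have hx0 : 0 < x := by
    rcases hx0'.lt_or_eq with h | h
    · exact h
    · exfalso
      rw [← h, Real.log_zero] at hLx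
      linarith
  have hxe : x = Real.exp L := by rw [hLx, Real.exp_log hx0]
  have hL0 : 0 < L := by linarith
  -- size of `x`
  rw [← hxe] at hcube
  have hL2 : 100 ^ 2 ≤ L ^ 2 := pow_le_pow_left₀ (by norm_num) hL 2
  have hu2 : 10 * L + 1 ≤ x / (10 ^ 6 * L ^ 2) := by
    rw [le_div_iff₀ (by positivity)]
    nlinarith [pow_pos hL0 3, pow_pos hL0 2]
  have hu1 : 2 ≤ x / (1000 * L) := by
    rw [le_div_iff₀ (by positivity)]
    nlinarith [pow_pos hL0 3, pow_pos hL0 2]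
  have hzz : (zz X : ℝ) = (⌊Real.exp (x / (1000 * L))⌋₊ : ℝ) := by rw [hxd, hLd]; rfl
  have hzs : (zs X : ℝ) = (⌊Real.exp (x / (10 ^ 6 * L ^ 2))⌋₊ : ℝ) := by rw [hxd, hLd]; rfl
  obtain ⟨z1, z2, -⟩ := E1_floor hu1
  obtain ⟨s1, s2, s3⟩ := E1_floor (u := x / (10 ^ 6 * L ^ 2)) (by linarith)
  rw [← hzz] at z1 z2
  rw [← hzs] at s1 s2 s3
  have hyy : yy X = x ^ 10 := by rw [hxd]; rfl
  have hyy2 : x ^ 10 = Real.exp (10 * L) := by
    rw [hxe, ← Real.exp_nat_mul]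
    norm_num
  have hx100 : 100 ≤ x := by
    rw [hxe]
    have := Real.add_one_le_exp L
    linarith
  have hyyzs : yy X ≤ zs X := by
    rw [hyy, hyy2]
    have h1 : Real.exp (10 * L + 1) ≤ Real.exp (x / (10 ^ 6 * L ^ 2)) := Real.exp_le_exp.2 hu2
    rw [Real.exp_add] at h1
    have h2 : 2 ≤ Real.exp 1 := by
      have := Real.add_one_le_exp (1 : ℝ)
      linarith
    have h3 : 1 ≤ Real.exp (10 * L) := Real.one_le_exp (by positivity)
    nlinarith
  have hzs100 : (100 : ℝ) ≤ zs X := by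
    refine le_trans ?_ hyyzs
    rw [hyy]
    calc (100 : ℝ) ≤ x := hx100
      _ = x ^ 1 := (pow_one x).symm
      _ ≤ x ^ 10 := pow_le_pow_right₀ (by linarith) (by norm_num)
  -- the bins
  have hlogL : 1 ≤ Real.log L := by
    rw [Real.le_log_iff_exp_le hL0]
    have := Real.exp_one_lt_d9
    linarith
  obtain ⟨α, hα⟩ : ∃ α, α = Real.log (10 * L) := ⟨_, rfl⟩
  have hα' : α = Real.log 10 + Real.log L := by
    rw [hα, Real.log_mul (by norm_num) hL0.ne']
  obtain ⟨β, hβ⟩ : ∃ β, β = Real.log (x / (B * L)) := ⟨_, rfl⟩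
  have hβ' : β = L - Real.log B - Real.log L := by
    rw [hβ, Real.log_div hx0.ne' (by positivity), Real.log_mul hB0.ne' hL0.ne', ← hLx]
    ring
  have hα0 : 0 ≤ α := by rw [hα']; linarith
  have hβ0 : 0 ≤ β := by rw [hβ']; linarith
  have hh0 : (h0 P X : ℝ) = (⌈α / P.T⌉₊ : ℝ) := by rw [hα, hLd]; rfl
  have hh1 : (h1 P X : ℝ) = (⌊β / P.T⌋₊ : ℝ) := by rw [hβ, hLd, hxd, hB]; rfl
  have a1 : α ≤ h0 P X * P.T := by
    rw [hh0, ← div_le_iff₀ hT0]
    exact Nat.le_ceil _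
  have a2 : (h0 P X * P.T : ℝ) ≤ α + P.T := by
    have h := (Nat.ceil_lt_add_one (div_nonneg hα0 hT0.le)).le
    rw [← hh0] at h
    calc (h0 P X * P.T : ℝ) ≤ (α / P.T + 1) * P.T := mul_le_mul_of_nonneg_right h hT0.le
      _ = α + P.T := by rw [add_mul, div_mul_cancel₀ _ hT0.ne', one_mul]
  have b1 : (h1 P X * P.T : ℝ) ≤ β := by
    rw [hh1, ← le_div_iff₀ hT0]
    exact Nat.floor_le (div_nonneg hβ0 hT0.le)
  have b2 : β - P.T ≤ h1 P X * P.T := by
    have h := (Nat.sub_one_lt_floor (β / P.T)).le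
    rw [← hh1] at h
    calc β - P.T = (β / P.T - 1) * P.T := by rw [sub_mul, div_mul_cancel₀ _ hT0.ne', one_mul]
      _ ≤ h1 P X * P.T := mul_le_mul_of_nonneg_right h hT0.le
  have hle : h0 P X ≤ h1 P X := by
    have h : (h0 P X : ℝ) * P.T ≤ h1 P X * P.T := by
      refine a2.trans (le_trans ?_ b2)
      rw [hα', hβ']
      rw [hc0] at hlog
      linarith
    exact_mod_cast le_of_mul_le_mul_right h hT0
  have hHH : (HH P X : ℝ) = h1 P X - h0 P X := by
    unfold HH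
    rw [Nat.cast_sub hle]
  refine ⟨hL, by exact_mod_cast hzs100, hyyzs, Real.le_exp_log _, ?_, ?_, ?_, ?_, hle, ?_, ?_, ?_,
    ?_, ?_⟩
  · rw [← hxd]
    refine le_trans (le_of_eq ?_) z1
    rw [div_div]
    congr 1
    ring
  · rw [← hxd]
    exact z2
  · rw [← hxd]
    refine le_trans (le_of_eq ?_) s1
    rw [div_div]
    congr 1
    ring
  · rw [← hxd]
    exact s2
  · calc 10 * L = Real.exp α := by rw [hα, Real.exp_log (by positivity)]
      _ ≤ Real.exp (h0 P X * P.T) := Real.exp_le_exp.2 a1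
  · rw [← hxd, ← hB]
    calc Real.exp (h1 P X * P.T) ≤ Real.exp β := Real.exp_le_exp.2 b1
      _ = x / (B * L) := by rw [hβ, Real.exp_log (by positivity)]
  · rw [hHH, sub_mul]
    have h1 : L - (2 + c0) * Real.log L ≤ h1 P X * P.T - h0 P X * P.T := by
      have h2 : c0 ≤ c0 * Real.log L := le_mul_of_one_le_right hc0p hlogL
      have h3 : c0 = Real.log 10 + Real.log B + 2 * P.T := hc0
      linarith
    refine le_trans ?_ h1
    have h4 : (2 + c0) * Real.log L ≤ C * Real.log L :=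
      mul_le_mul_of_nonneg_right (by rw [hC]; linarith) (by linarith)
    linarith
  · rw [hHH, sub_mul]
    have h2 : 0 ≤ (h0 P X : ℝ) * P.T := by positivity
    linarith
  · rw [← hxd]
    have h1 : Real.exp (-(h1 P X * P.T)) ≤ Real.exp (P.T - β) := Real.exp_le_exp.2 (by linarith)
    refine h1.trans ?_
    rw [Real.exp_sub, hβ, Real.exp_log (by positivity), div_div_eq_mul_div]
    rw [div_le_div_iff_of_pos_right hx0]
    calc Real.exp P.T * (B * L) = (Real.exp P.T * B) * L := by ring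
      _ ≤ C * L := mul_le_mul_of_nonneg_right hCe hL0.le

end SP15
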