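import Pool.Agent.LibSP15.Defs
import Pool.Agent.LibSP15.E1

/-!
# SP15, row B3 (size M)

PLAN. log pr U = ∑_{p ∈ U} log p ≤ e ∑_{h0 ≤ h < h1} exp((h+1)T) ≤ 2 A exp(h1 T) ≤ 2 log X/(10^5 L) ≤ (1/20) log zz (log zz ≥ log X/(1000 L) - log 2 because zz ≥ exp(..)/2: need it sharper than E1: (1/50) x/(1000L) ≤ (1/20) (x/(1000 L) - log 2)).
log p > exp(h0 T) ≥ 10 L gives p > exp(10 L) = (log X)^10 = yy; p ≤ exp(exp(h1 T)) ≤ zz; p ≥ 3, p ≠ l because p > yy > l. #U = e H ≤ A H ≤ A LL (T ≥ 1). ∑ 1/p ≤ #U/yy ≤ 1/100.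
-/

set_option autoImplicit false

namespace SP15

open Finset Filter

private theorem B3_geo {T : ℝ} (hT : 1 ≤ T) (n : ℕ) :
    ∑ h ∈ range n, Real.exp ((h + 1) * T) ≤ 2 * Real.exp (n * T) := by
  induction n with
  | zero => simp
  | succ n ih =>
    rw [sum_range_succ]
    have h1 : Real.exp ((n + 1) * T) = Real.exp (n * T) * Real.exp T := by
      rw [← Real.exp_add]
      congr 1
      ring
    have h2 : 2 ≤ Real.exp T := by
      have := Real.add_one_le_exp T
      linarith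
    have h3 : 0 < Real.exp (n * T) := Real.exp_pos _
    push_cast
    rw [h1] at *
    nlinarith

/-- sums over `U` are bounded by sums over the bins -/
private theorem B3_sum {T i j e : ℕ} {U : Finset ℕ} (hU : U ∈ Rg T i j e) (g : ℕ → ℝ)
    (hg : ∀ p, 0 ≤ g p) :
    ∑ p ∈ U, g p ≤ ∑ h ∈ Ico i j, ∑ p ∈ U ∩ Bin T h, g p := by
  obtain ⟨h1, -⟩ := mem_filter.1 hU
  rw [mem_powerset] at h1
  have h2 : ∀ h ∈ Ico i j, ∑ p ∈ U ∩ Bin T h, g p = ∑ p ∈ U, if p ∈ Bin T h then g p else 0 := by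
    intro h _
    rw [← sum_filter, filter_mem_eq_inter]
  rw [sum_congr rfl h2, sum_comm]
  refine sum_le_sum fun p hp => ?_
  obtain ⟨h, hh, hpB⟩ := mem_biUnion.1 (h1 hp)
  have h3 := single_le_sum (f := fun h => if p ∈ Bin T h then g p else 0)
    (fun h _ => by
      split_ifs
      · exact hg p
      · exact le_rfl) hh
  simp only [if_pos hpB] at h3
  exact h3

theorem B3_size (P : Par) : ∀ᶠ X : ℕ in atTop, ∀ e ≤ P.A, ∀ U ∈ Reg P X e,
    (pr U : ℝ) ≤ (zz X : ℝ) ^ (1 / 20 : ℝ) ∧ (∀ p ∈ U, yy X < p ∧ p ∈ PQ P.l (zz X)) ∧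
    (#U : ℝ) ≤ P.A * LL X ∧ ∑ p ∈ U, 1 / (p : ℝ) ≤ 1 / 100 := by
  have hT1 : 1 ≤ P.T := by
    have h1 := P.ha
    have h2 := P.haT
    omega
  have hT1' : (1 : ℝ) ≤ P.T := by exact_mod_cast hT1
  have hA1 : 1 ≤ P.A := by
    have h1 := P.ha
    unfold Par.A
    omega
  have hA1' : (1 : ℝ) ≤ P.A := by exact_mod_cast hA1
  obtain ⟨C, -, hC⟩ := E1_scales P
  have hLL : Tendsto (fun X : ℕ => LL X) atTop atTop :=
    Real.tendsto_log_atTop.comp (Real.tendsto_log_atTop.comp tendsto_natCast_atTop_atTop)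
  filter_upwards [hC, hLL.eventually (eventually_ge_atTop (P.l : ℝ)),
    hLL.eventually (eventually_ge_atTop (P.A : ℝ))] with X hX hXl hXA e he U hU
  obtain ⟨hL, -, -, -, hz1, -, -, -, hle, hh0, hh1, -, hHT, -⟩ := hX
  obtain ⟨L, hLd⟩ : ∃ L, L = LL X := ⟨_, rfl⟩
  rw [← hLd] at hL hz1 hh0 hh1 hHT hXl hXA ⊢
  obtain ⟨x, hxd⟩ : ∃ x, x = Real.log X := ⟨_, rfl⟩
  have hx0' : 0 ≤ x := by rw [hxd]; exact Real.log_natCast_nonneg X
  have hLx : L = Real.log x := by rw [hLd, hxd]; rfl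
  have hx0 : 0 < x := by
    rcases hx0'.lt_or_eq with h | h
    · exact h
    · exfalso
      rw [← h, Real.log_zero] at hLx
      linarith
  have hxe : x = Real.exp L := by rw [hLx, Real.exp_log hx0]
  have hL0 : 0 < L := by linarith
  have hxL : L + 1 ≤ x := by
    rw [hxe]
    exact Real.add_one_le_exp L
  rw [← hxd] at hz1 hh1
  have hzpos : 0 < Real.log (zz X) := lt_of_lt_of_le (by positivity) hz1
  have hz0 : (0 : ℝ) < zz X := by
    by_contra h
    have h2 : (zz X : ℝ) = 0 := le_antisymm (not_lt.1 h) (Nat.cast_nonneg _)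
    rw [h2, Real.log_zero] at hzpos
    exact lt_irrefl _ hzpos
  have hyy : yy X = x ^ 10 := by rw [hxd]; rfl
  have hyy2 : x ^ 10 = Real.exp (10 * L) := by
    rw [hxe, ← Real.exp_nat_mul]
    norm_num
  have hUs := mem_filter.1 hU
  have hUsub := mem_powerset.1 hUs.1
  -- properties of the elements
  have hmem : ∀ p ∈ U, ∃ h ∈ Ico (h0 P X) (h1 P X), p ∈ Bin P.T h := by
    intro p hp
    obtain ⟨h, hh, hpB⟩ := mem_biUnion.1 (hUsub hp)
    exact ⟨h, hh, hpB⟩
  have hbin : ∀ h, ∀ p ∈ Bin P.T h, p.Prime ∧ Real.exp (h * P.T) < Real.log p ∧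
      Real.log p ≤ Real.exp ((h + 1) * P.T) := by
    intro h p hp
    obtain ⟨h2, h3, h4⟩ := mem_filter.1 hp
    refine ⟨h3, h4, ?_⟩
    have h5 := (mem_Icc.1 h2).2
    have h6 : (p : ℝ) ≤ Real.exp (Real.exp ((h + 1) * P.T)) := by
      refine le_trans ?_ (Nat.floor_le (Real.exp_pos _).le)
      exact_mod_cast h5
    have h7 : (0 : ℝ) < p := by exact_mod_cast h3.pos
    calc Real.log p ≤ Real.log (Real.exp (Real.exp ((h + 1) * P.T))) := Real.log_le_log h7 h6
      _ = _ := Real.log_exp _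
  have hprime : ∀ p ∈ U, p.Prime := by
    intro p hp
    obtain ⟨h, -, hpB⟩ := hmem p hp
    exact (hbin h p hpB).1
  have hcardbin : ∀ h ∈ Ico (h0 P X) (h1 P X), (#(U ∩ Bin P.T h) : ℝ) ≤ P.A := by
    intro h hh
    rw [hUs.2 h hh]
    exact_mod_cast he
  have hge : ∀ p ∈ U, yy X < p := by
    intro p hp
    obtain ⟨h, hh, hpB⟩ := hmem p hp
    obtain ⟨hpp, hp1, -⟩ := hbin h p hpB
    have h2 : Real.exp (h0 P X * P.T) ≤ Real.exp (h * P.T) := by
      apply Real.exp_le_exp.2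
      apply mul_le_mul_of_nonneg_right _ (by linarith)
      exact_mod_cast (mem_Ico.1 hh).1
    have h3 : 10 * L < Real.log p := lt_of_le_of_lt (hh0.trans h2) hp1
    have h4 : (0 : ℝ) < p := by exact_mod_cast hpp.pos
    rw [hyy, hyy2]
    calc Real.exp (10 * L) < Real.exp (Real.log p) := Real.exp_lt_exp.2 h3
      _ = p := Real.exp_log h4
  have hlogp : ∀ p ∈ U, Real.log p ≤ Real.log (zz X) := by
    intro p hp
    obtain ⟨h, hh, hpB⟩ := hmem p hp
    obtain ⟨hpp, -, hp2⟩ := hbin h p hpB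
    have h2 : Real.exp ((h + 1) * P.T) ≤ Real.exp (h1 P X * P.T) := by
      apply Real.exp_le_exp.2
      apply mul_le_mul_of_nonneg_right _ (by linarith)
      exact_mod_cast (mem_Ico.1 hh).2
    refine hp2.trans (h2.trans (hh1.trans (le_trans ?_ hz1)))
    apply div_le_div_of_nonneg_left hx0.le (by positivity)
    have h3 : (2000 : ℝ) ≤ 10 ^ 5 * P.A := by linarith
    exact mul_le_mul_of_nonneg_right h3 hL0.le
  have hx1 : 1 ≤ x := by linarith
  have hx10 : x ^ 3 ≤ x ^ 10 := pow_le_pow_right₀ hx1 (by norm_num)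
  have hx3 : x ≤ x ^ 3 := by
    calc x = x ^ 1 := (pow_one x).symm
      _ ≤ x ^ 3 := pow_le_pow_right₀ hx1 (by norm_num)
  have hyx : x ≤ yy X := by rw [hyy]; exact hx3.trans hx10
  have hcard : (#U : ℝ) ≤ P.A * L := by
    have h2 := B3_sum hU (fun _ => 1) (fun _ => zero_le_one)
    simp only [sum_const, nsmul_eq_mul, mul_one] at h2
    have h3 : ∑ h ∈ Ico (h0 P X) (h1 P X), (#(U ∩ Bin P.T h) : ℝ) ≤
        ∑ _h ∈ Ico (h0 P X) (h1 P X), (P.A : ℝ) := sum_le_sum hcardbin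
    rw [sum_const, nsmul_eq_mul, Nat.card_Ico] at h3
    have h4 : ((h1 P X - h0 P X : ℕ) : ℝ) ≤ L := by
      refine le_trans ?_ hHT
      exact le_mul_of_one_le_right (Nat.cast_nonneg _) hT1'
    calc (#U : ℝ) ≤ ((h1 P X - h0 P X : ℕ) : ℝ) * P.A := h2.trans h3
      _ ≤ L * P.A := mul_le_mul_of_nonneg_right h4 (by linarith)
      _ = P.A * L := mul_comm _ _
  refine ⟨?_, ?_, hcard, ?_⟩
  · -- the product
    have h2 : Real.log (pr U) = ∑ p ∈ U, Real.log p := by
      unfold pr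
      push_cast
      rw [Real.log_prod]
      intro p hp
      exact_mod_cast (hprime p hp).ne_zero
    have h3 : Real.log (pr U) ≤ 2 * P.A * Real.exp (h1 P X * P.T) := by
      rw [h2]
      have h4 := B3_sum hU (fun p => Real.log p) (fun p => Real.log_natCast_nonneg p)
      refine h4.trans ?_
      have h5 : ∀ h ∈ Ico (h0 P X) (h1 P X), ∑ p ∈ U ∩ Bin P.T h, Real.log (p : ℝ) ≤
          P.A * Real.exp ((h + 1) * P.T) := by
        intro h hh
        have h6 : ∀ p ∈ U ∩ Bin P.T h, Real.log (p : ℝ) ≤ Real.exp ((h + 1) * P.T) := fun p hp =>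
          (hbin h p (mem_inter.1 hp).2).2.2
        refine (sum_le_card_nsmul _ _ _ h6).trans ?_
        rw [nsmul_eq_mul]
        exact mul_le_mul_of_nonneg_right (hcardbin h hh) (Real.exp_pos _).le
      refine (sum_le_sum h5).trans ?_
      rw [← mul_sum]
      have h7 : ∑ h ∈ Ico (h0 P X) (h1 P X), Real.exp (((h : ℝ) + 1) * P.T) ≤
          ∑ h ∈ range (h1 P X), Real.exp (((h : ℝ) + 1) * P.T) := by
        apply sum_le_sum_of_subset_of_nonneg
        · intro h hh
          exact mem_range.2 (mem_Ico.1 hh).2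
        · intro h _ _
          exact (Real.exp_pos _).le
      have h8 := h7.trans (B3_geo hT1' (h1 P X))
      calc (P.A : ℝ) * ∑ h ∈ Ico (h0 P X) (h1 P X), Real.exp (((h : ℝ) + 1) * P.T)
          ≤ P.A * (2 * Real.exp (h1 P X * P.T)) := mul_le_mul_of_nonneg_left h8 (by linarith)
        _ = _ := by ring
    have h4 : Real.log (pr U) ≤ Real.log (zz X) * (1 / 20) := by
      refine h3.trans ?_
      have h5 : 2 * (P.A : ℝ) * Real.exp (h1 P X * P.T) ≤ 2 * P.A * (x / (10 ^ 5 * P.A * L)) :=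
        mul_le_mul_of_nonneg_left hh1 (by positivity)
      have h6 : 2 * (P.A : ℝ) * (x / (10 ^ 5 * P.A * L)) = x / L * (1 / 50000) := by
        have : (P.A : ℝ) ≠ 0 := by linarith
        field_simp
        ring
      have h7 : x / (2000 * L) = x / L * (1 / 2000) := by
        field_simp
      rw [h7] at hz1
      have h8 : 0 ≤ x / L := by positivity
      rw [h6] at h5
      linarith
    have h5 : (0 : ℝ) < pr U := by
      have : 0 < pr U := prod_pos fun p hp => (hprime p hp).pos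
      exact_mod_cast this
    rw [Real.rpow_def_of_pos hz0]
    calc (pr U : ℝ) = Real.exp (Real.log (pr U)) := (Real.exp_log h5).symm
      _ ≤ _ := Real.exp_le_exp.2 h4
  · intro p hp
    refine ⟨hge p hp, ?_⟩
    have h2 := hge p hp
    have h3 : (0 : ℝ) < p := by exact_mod_cast (hprime p hp).pos
    unfold PQ
    rw [mem_filter, mem_Icc]
    refine ⟨⟨?_, ?_⟩, hprime p hp, ?_⟩
    · have h4 : (3 : ℝ) ≤ p := by linarith
      exact_mod_cast h4
    · have h4 : (p : ℝ) ≤ zz X := (Real.log_le_log_iff h3 hz0).1 (hlogp p hp)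
      exact_mod_cast h4
    · intro hpl
      have h4 : (p : ℝ) = P.l := by exact_mod_cast hpl
      linarith
  · have h2 : ∀ p ∈ U, 1 / (p : ℝ) ≤ 1 / x ^ 10 := by
      intro p hp
      apply one_div_le_one_div_of_le (by positivity)
      rw [← hyy]
      exact (hge p hp).le
    refine (sum_le_card_nsmul _ _ _ h2).trans ?_
    rw [nsmul_eq_mul, mul_one_div, div_le_div_iff₀ (by positivity) (by norm_num)]
    have h3 : (P.A : ℝ) * L * 100 ≤ x ^ 3 := by
      have h4 : (P.A : ℝ) * L ≤ x * x :=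
        mul_le_mul (by linarith) (by linarith) hL0.le hx0.le
      calc (P.A : ℝ) * L * 100 ≤ x * x * x :=
            mul_le_mul h4 (by linarith) (by norm_num) (by positivity)
        _ = x ^ 3 := by ring
    calc (#U : ℝ) * 100 ≤ P.A * L * 100 := by linarith
      _ ≤ x ^ 3 := h3
      _ ≤ 1 * x ^ 10 := by rw [one_mul]; exact hx10

end SP15
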