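import Pool.Agent.LibSP15.Defs

/-!
# SP15, row B4 (size M)

PLAN. The bins are pairwise disjoint (for T = 0 all empty). Bijection U ↦ (U ∩ Bin h)_h: induction on j (Ico i (j+1) = insert j): a subset of A ⊔ B is a pair of subsets. Mathlib: `Finset.prod_sum`, `Finset.sum_prod_piFinset`,
or induction with `Finset.sum_nbij'` (model: `sum_powerset_disj` in LibVinogradov/Weights.lean). Case j ≤ i: both sides 1.
-/

set_option autoImplicit false

namespace SP15

open Finset Filter

private lemma B4_disj (T : ℕ) {h h' : ℕ} (hh : h < h') : Disjoint (Bin T h) (Bin T h') := by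
  rw [Finset.disjoint_left]
  intro p hp hp'
  unfold Bin at hp hp'
  rw [mem_filter, mem_Icc] at hp hp'
  obtain ⟨⟨hp1, hp2⟩, hpp, -⟩ := hp
  obtain ⟨-, -, hlp⟩ := hp'
  have h1 : (p : ℝ) ≤ Real.exp (Real.exp ((h + 1) * T)) :=
    (Nat.le_floor_iff (Real.exp_pos _).le).mp hp2
  have hp0 : (0 : ℝ) < p := by exact_mod_cast hpp.pos
  have h2 : Real.log p ≤ Real.exp ((h + 1) * T) := by
    rw [Real.log_le_iff_le_exp hp0]; exact h1
  have h3 : Real.exp (((h : ℝ) + 1) * T) ≤ Real.exp ((h' : ℝ) * T) := by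
    apply Real.exp_le_exp.mpr
    apply mul_le_mul_of_nonneg_right _ (Nat.cast_nonneg _)
    exact_mod_cast hh
  linarith

private lemma B4_disj' (T : ℕ) {h h' : ℕ} (hh : h ≠ h') : Disjoint (Bin T h) (Bin T h') := by
  rcases lt_or_gt_of_ne hh with h1 | h1
  · exact B4_disj T h1
  · exact (B4_disj T h1).symm

private lemma B4_gen (B : ℕ → Finset ℕ) (hB : ∀ h h', h ≠ h' → Disjoint (B h) (B h')) (f : ℕ → ℝ)
    (𝓕 : ℕ → Finset (Finset ℕ)) (h𝓕 : ∀ h, ∀ V ∈ 𝓕 h, V ⊆ B h) (I : Finset ℕ) :
    ∑ U ∈ (I.biUnion B).powerset.filter (fun U => ∀ h ∈ I, U ∩ B h ∈ 𝓕 h), ∏ p ∈ U, f p =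
      ∏ h ∈ I, ∑ V ∈ 𝓕 h, ∏ p ∈ V, f p := by
  induction I using Finset.induction_on with
  | empty =>
    simp
  | insert a I ha ih =>
    rw [prod_insert ha, ← ih, sum_mul_sum, ← sum_product']
    have hd : ∀ W : Finset ℕ, W ⊆ I.biUnion B → Disjoint W (B a) := by
      intro W hW
      refine Finset.disjoint_of_subset_left hW ?_
      rw [Finset.disjoint_biUnion_left]
      intro h hh
      exact hB h a (fun h1 => ha (h1 ▸ hh))
    symm
    refine sum_bij' (fun x _ => x.1 ∪ x.2) (fun U _ => (U ∩ B a, U ∩ I.biUnion B)) ?_ ?_ ?_ ?_ ?_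
    · rintro ⟨V, W⟩ hx
      rw [mem_product, mem_filter, mem_powerset] at hx
      obtain ⟨hV, hW, hW2⟩ := hx
      simp only at hV hW hW2
      rw [mem_filter, mem_powerset, biUnion_insert]
      refine ⟨union_subset_union (h𝓕 a V hV) hW, ?_⟩
      intro h hh
      simp only
      rcases mem_insert.mp hh with h1 | h1
      · subst h1
        have h2 : (V ∪ W) ∩ B h = V := by
          rw [union_inter_distrib_right, inter_eq_left.mpr (h𝓕 h V hV),
            disjoint_iff_inter_eq_empty.mp (hd W hW), union_empty]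
        rw [h2]; exact hV
      · have h2 : (V ∪ W) ∩ B h = W ∩ B h := by
          have h3 : Disjoint V (B h) :=
            Finset.disjoint_of_subset_left (h𝓕 a V hV) (hB a h (fun h4 => ha (h4 ▸ h1)))
          rw [union_inter_distrib_right, disjoint_iff_inter_eq_empty.mp h3, empty_union]
        rw [h2]; exact hW2 h h1
    · intro U hU
      rw [mem_filter, mem_powerset, biUnion_insert] at hU
      obtain ⟨hU1, hU2⟩ := hU
      rw [mem_product, mem_filter, mem_powerset]
      refine ⟨hU2 a (mem_insert_self _ _), inter_subset_right, ?_⟩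
      intro h hh
      have h2 : (U ∩ I.biUnion B) ∩ B h = U ∩ B h := by
        rw [inter_assoc, inter_eq_right.mpr (subset_biUnion_of_mem B hh)]
      simp only
      rw [h2]
      exact hU2 h (mem_insert_of_mem hh)
    · rintro ⟨V, W⟩ hx
      rw [mem_product, mem_filter, mem_powerset] at hx
      obtain ⟨hV, hW, hW2⟩ := hx
      simp only at hV hW hW2
      have h2 : (V ∪ W) ∩ B a = V := by
        rw [union_inter_distrib_right, inter_eq_left.mpr (h𝓕 a V hV),
          disjoint_iff_inter_eq_empty.mp (hd W hW), union_empty]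
      have h3 : Disjoint V (I.biUnion B) := by
        rw [Finset.disjoint_biUnion_right]
        intro h hh
        exact Finset.disjoint_of_subset_left (h𝓕 a V hV) (hB a h (fun h4 => ha (h4 ▸ hh)))
      have h4 : (V ∪ W) ∩ I.biUnion B = W := by
        rw [union_inter_distrib_right, disjoint_iff_inter_eq_empty.mp h3, empty_union,
          inter_eq_left.mpr hW]
      simp only [h2, h4]
    · intro U hU
      rw [mem_filter, mem_powerset, biUnion_insert] at hU
      simp only
      rw [← inter_union_distrib_left, inter_eq_left.mpr hU.1]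
    · rintro ⟨V, W⟩ hx
      rw [mem_product, mem_filter, mem_powerset] at hx
      obtain ⟨hV, hW, hW2⟩ := hx
      simp only at hV hW hW2
      simp only
      rw [prod_union]
      exact Finset.disjoint_of_subset_left (h𝓕 a V hV) (hd W hW).symm

/-- factorisation over the bins -/
theorem B4_fac (T i j : ℕ) (f : ℕ → ℝ) (𝓕 : ℕ → Finset (Finset ℕ)) (h𝓕 : ∀ h, ∀ V ∈ 𝓕 h, V ⊆ Bin T h) :
    ∑ U ∈ ((Ico i j).biUnion (Bin T)).powerset.filter (fun U => ∀ h ∈ Ico i j, U ∩ Bin T h ∈ 𝓕 h),
        ∏ p ∈ U, f p = ∏ h ∈ Ico i j, ∑ V ∈ 𝓕 h, ∏ p ∈ V, f p :=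
  B4_gen (Bin T) (fun _ _ hh => B4_disj' T hh) f 𝓕 h𝓕 (Ico i j)

end SP15
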