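import Pool.Agent.LibSP15.Defs

/-!
# SP15, row B5 (size S)

PLAN. Induction on e: (e+1) ∑_{#U = e+1} ∏ f = ∑_{p ∈ B} f p ∑_{#V = e, p ∉ V} ∏ f ≤ (∑ f) ∑_{#V = e} ∏ f. (The library may have it: grep esymm / powersetCard ... factorial.)
-/

set_option autoImplicit false

namespace SP15

open Finset Filter

theorem B5_pow_bern (S y : ℝ) (hS : 0 ≤ S) (hy : 0 ≤ y) (s : ℕ) :
    S ^ (s + 1) + (s + 1) * y * S ^ s ≤ (y + S) ^ (s + 1) := by
  induction s with
  | zero => simp; linarith
  | succ s ih =>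
    have h1 : 0 ≤ S ^ s := pow_nonneg hS s
    have h2 : (y + S) * (S ^ (s + 1) + (s + 1) * y * S ^ s) ≤ (y + S) * (y + S) ^ (s + 1) :=
      mul_le_mul_of_nonneg_left ih (by positivity)
    have h3 : 0 ≤ ((s : ℝ) + 1) * y ^ 2 * S ^ s := by positivity
    have e1 : (y + S) ^ (s + 1 + 1) = (y + S) * (y + S) ^ (s + 1) := by ring
    rw [e1]
    refine le_trans ?_ h2
    push_cast
    have e2 : (y + S) * (S ^ (s + 1) + (s + 1) * y * S ^ s) =
        S ^ (s + 1 + 1) + ((s : ℝ) + 1 + 1) * y * S ^ (s + 1) + ((s : ℝ) + 1) * y ^ 2 * S ^ s := by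
      ring
    rw [e2]
    linarith

theorem B5_aux {ι : Type*} [DecidableEq ι] (P : Finset ι) (x : ι → ℝ) (h0 : ∀ i ∈ P, 0 ≤ x i)
    (s : ℕ) :
    ∑ D ∈ P.powersetCard s, ∏ i ∈ D, x i ≤ (∑ i ∈ P, x i) ^ s / s.factorial := by
  induction P using Finset.induction_on generalizing s with
  | empty =>
    cases s with
    | zero => simp
    | succ s =>
      rw [Finset.powersetCard_eq_empty.2 (by simp)]
      simp
  | insert a P ha ih =>
    have h0' : ∀ i ∈ P, 0 ≤ x i := fun i hi => h0 i (mem_insert_of_mem hi)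
    have hya : 0 ≤ x a := h0 a (mem_insert_self a P)
    have hS : 0 ≤ ∑ i ∈ P, x i := sum_nonneg h0'
    cases s with
    | zero => simp
    | succ s =>
      have hdisj : Disjoint (P.powersetCard (s + 1)) ((P.powersetCard s).image (insert a)) := by
        rw [Finset.disjoint_left]
        intro D hD hD'
        obtain ⟨E, _, rfl⟩ := mem_image.1 hD'
        exact ha ((mem_powersetCard.1 hD).1 (mem_insert_self a E))
      have hinj : Set.InjOn (insert a : Finset ι → Finset ι) (P.powersetCard s : Finset (Finset ι)) := by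
        intro D hD E hE h
        have hD1 : a ∉ D := fun h => ha ((mem_powersetCard.1 (mem_coe.1 hD)).1 h)
        have hE1 : a ∉ E := fun h => ha ((mem_powersetCard.1 (mem_coe.1 hE)).1 h)
        rw [← erase_insert hD1, ← erase_insert hE1]
        exact congrArg (fun F => F.erase a) h
      rw [powersetCard_succ_insert ha, sum_union hdisj, sum_image hinj, sum_insert ha]
      have e : ∀ D ∈ P.powersetCard s, ∏ i ∈ insert a D, x i = x a * ∏ i ∈ D, x i := by
        intro D hD
        rw [prod_insert]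
        intro h
        exact ha ((mem_powersetCard.1 hD).1 h)
      rw [sum_congr rfl e, ← mul_sum]
      have h1 := ih h0' (s+1)
      have h2 := mul_le_mul_of_nonneg_left (ih h0' s) hya
      refine (add_le_add h1 h2).trans ?_
      have hf : (0 : ℝ) < (s.factorial : ℝ) := by exact_mod_cast s.factorial_pos
      have hf1 : ((s + 1).factorial : ℝ) = (s + 1) * s.factorial := by
        rw [Nat.factorial_succ]; push_cast; ring
      have hf2 : (0 : ℝ) < ((s + 1).factorial : ℝ) := by exact_mod_cast (s + 1).factorial_pos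
      rw [le_div_iff₀ hf2]
      have e3 : ((∑ i ∈ P, x i) ^ (s + 1) / ((s + 1).factorial : ℝ) +
          x a * ((∑ i ∈ P, x i) ^ s / (s.factorial : ℝ))) * ((s + 1).factorial : ℝ) =
          (∑ i ∈ P, x i) ^ (s + 1) + (s + 1) * x a * (∑ i ∈ P, x i) ^ s := by
        rw [hf1]
        field_simp
      rw [e3]
      exact B5_pow_bern _ _ hS hya s

/-- one bin, upper bound -/
theorem B5_esymm_le (B : Finset ℕ) (f : ℕ → ℝ) (hf : ∀ p ∈ B, 0 ≤ f p) (e : ℕ) :
    ∑ U ∈ B.powersetCard e, ∏ p ∈ U, f p ≤ (∑ p ∈ B, f p) ^ e / e.factorial :=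
  B5_aux B f hf e

end SP15
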