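import Pool.Agent.LibSP15.Defs
import Pool.Agent.LibSP15.E1
import Pool.Agent.LibSP15.B1
import Pool.Agent.LibSP15.B4
import Pool.Agent.LibSP15.B5
import Pool.Agent.LibSP15.B3

/-!
# SP15, row B7 (size L)

PLAN. B4 with 𝓕 h = powersetCard e (Bin h), f = 1/p, and B5: ≤ ∏_h σ_h^e/e!, σ_h ≤ T + C e^(-hT) (B1): ∏_h (σ_h/T)^e ≤ exp(e ∑_h C e^(-hT)/T) ≤ C. Second part: 𝓕 h = {V ∈ powersetCard e (Bin h) : G ∩ Bin h ⊆ V}; if G ⊄ ∪ bins the
sum is 0; V ↦ V \ G: sum over the bin ≤ iw(G ∩ Bin h) σ_h^(e-g)/(e-g)! ≤ iw(G ∩ Bin h) σ_h^e/e! because σ_h ≥ T - 1 ≥ e (e! /(e-g)! ≤ e^g ≤ σ_h^g).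
-/

set_option autoImplicit false

namespace SP15

open Finset Filter

private theorem B7_bin (B S : Finset ℕ) (hS : S ⊆ B) (f : ℕ → ℝ) (hf : ∀ p ∈ B, 0 ≤ f p) (e : ℕ)
    (hσ : (e : ℝ) ≤ ∑ p ∈ B, f p) :
    ∑ V ∈ (B.powersetCard e).filter (fun V => S ⊆ V), ∏ p ∈ V, f p ≤
      (∏ p ∈ S, f p) * ((∑ p ∈ B, f p) ^ e / e.factorial) := by
  classical
  have hσ0 : 0 ≤ ∑ p ∈ B, f p := sum_nonneg hf
  have hS0 : 0 ≤ ∏ p ∈ S, f p := prod_nonneg fun p hp => hf p (hS hp)
  by_cases hg : #S ≤ e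
  · have h1 : ∑ V ∈ (B.powersetCard e).filter (fun V => S ⊆ V), ∏ p ∈ V, f p ≤
        ∑ W ∈ B.powersetCard (e - #S), (∏ p ∈ S, f p) * ∏ p ∈ W, f p := by
      have h2 : ∑ V ∈ (B.powersetCard e).filter (fun V => S ⊆ V), ∏ p ∈ V, f p =
          ∑ W ∈ ((B.powersetCard e).filter (fun V => S ⊆ V)).image (fun V => V \ S),
            (∏ p ∈ S, f p) * ∏ p ∈ W, f p := by
        rw [sum_image]
        · refine sum_congr rfl fun V hV => ?_
          rw [mem_filter] at hV
          rw [mul_comm]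
          exact (prod_sdiff hV.2).symm
        · intro V hV V' hV' h
          have hV1 : S ⊆ V := (mem_filter.1 hV).2
          have hV2 : S ⊆ V' := (mem_filter.1 hV').2
          have h3 : V \ S = V' \ S := h
          rw [← sdiff_union_of_subset hV1, ← sdiff_union_of_subset hV2, h3]
      rw [h2]
      refine sum_le_sum_of_subset_of_nonneg ?_ ?_
      · intro W hW
        obtain ⟨V, hV, rfl⟩ := mem_image.1 hW
        rw [mem_filter, mem_powersetCard] at hV
        rw [mem_powersetCard]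
        refine ⟨sdiff_subset.trans hV.1.1, ?_⟩
        rw [card_sdiff_of_subset hV.2, hV.1.2]
      · intro W hW _
        rw [mem_powersetCard] at hW
        exact mul_nonneg hS0 (prod_nonneg fun p hp => hf p (hW.1 hp))
    refine h1.trans ?_
    rw [← mul_sum]
    refine mul_le_mul_of_nonneg_left ((B5_esymm_le B f hf (e - #S)).trans ?_) hS0
    rw [div_le_div_iff₀ (by positivity) (by positivity)]
    have h4 : ((e - #S).factorial : ℝ) * (e.descFactorial #S : ℕ) = (e.factorial : ℝ) := by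
      exact_mod_cast Nat.factorial_mul_descFactorial hg
    have h5 : ((e.descFactorial #S : ℕ) : ℝ) ≤ (∑ p ∈ B, f p) ^ #S := by
      have h6 : ((e.descFactorial #S : ℕ) : ℝ) ≤ (e : ℝ) ^ #S := by
        exact_mod_cast Nat.descFactorial_le_pow e #S
      exact h6.trans (pow_le_pow_left₀ (Nat.cast_nonneg _) hσ _)
    rw [← h4]
    calc (∑ p ∈ B, f p) ^ (e - #S) * (((e - #S).factorial : ℝ) * (e.descFactorial #S : ℕ))
        = ((e - #S).factorial : ℝ) * ((∑ p ∈ B, f p) ^ (e - #S) * (e.descFactorial #S : ℕ)) := by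
          ring
      _ ≤ ((e - #S).factorial : ℝ) * ((∑ p ∈ B, f p) ^ (e - #S) * (∑ p ∈ B, f p) ^ #S) := by
          gcongr
      _ = (∑ p ∈ B, f p) ^ e * (e - #S).factorial := by
          rw [← pow_add, Nat.sub_add_cancel hg, mul_comm]
  · have h1 : (B.powersetCard e).filter (fun V => S ⊆ V) = ∅ := by
      refine filter_eq_empty_iff.2 fun V hV hSV => hg ?_
      rw [mem_powersetCard] at hV
      rw [← hV.2]
      exact card_le_card hSV
    rw [h1, sum_empty]
    positivity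

private theorem B7_geom (T i j : ℕ) (hT : 1 ≤ T) :
    ∑ h ∈ Ico i j, Real.exp (-(h * T : ℝ)) ≤ 2 := by
  have h1 : ∑ h ∈ Ico i j, Real.exp (-(h * T : ℝ)) ≤ ∑ h ∈ range j, Real.exp (-1) ^ h := by
    refine le_trans (sum_le_sum_of_subset_of_nonneg (s := Ico i j) (t := range j) ?_ ?_)
      (sum_le_sum fun h _ => ?_)
    · intro h hh
      rw [mem_Ico] at hh
      exact mem_range.2 hh.2
    · intro h _ _
      exact (Real.exp_pos _).le
    · rw [← Real.exp_nat_mul]
      refine Real.exp_le_exp.2 ?_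
      have h2 : (1 : ℝ) ≤ T := by exact_mod_cast hT
      have h3 : (0 : ℝ) ≤ h := Nat.cast_nonneg _
      nlinarith
  have he : Real.exp (-1) ≤ 1 / 2 := by
    rw [Real.exp_neg, ← one_div]
    refine one_div_le_one_div_of_le (by norm_num) ?_
    have := Real.add_one_le_exp (1 : ℝ)
    linarith
  have h4 : ∑ h ∈ range j, Real.exp (-1) ^ h ≤ ∑ h ∈ range j, (1 / 2 : ℝ) ^ h :=
    sum_le_sum fun h _ => pow_le_pow_left₀ (Real.exp_pos _).le he h
  have h5 : ∑ h ∈ range j, (1 / 2 : ℝ) ^ h ≤ 2 := by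
    rw [geom_sum_eq (by norm_num)]
    have h6 : (0 : ℝ) < (1 / 2) ^ j := by positivity
    rw [div_le_iff_of_neg (by norm_num)]
    linarith
  linarith

private theorem B7_cover (T i j e : ℕ) (G : Finset ℕ) (hG : G ⊆ (Ico i j).biUnion (Bin T)) :
    (Rg T i j e).filter (fun U => G ⊆ U) =
      ((Ico i j).biUnion (Bin T)).powerset.filter (fun U => ∀ h ∈ Ico i j,
        U ∩ Bin T h ∈ ((Bin T h).powersetCard e).filter (fun V => G ∩ Bin T h ⊆ V)) := by
  classical
  ext U
  unfold Rg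
  simp only [mem_filter, mem_powerset, mem_powersetCard]
  constructor
  · rintro ⟨⟨h1, h2⟩, h3⟩
    exact ⟨h1, fun h hh => ⟨⟨inter_subset_right, h2 h hh⟩,
      inter_subset_inter_right h3⟩⟩
  · rintro ⟨h1, h2⟩
    refine ⟨⟨h1, fun h hh => (h2 h hh).1.2⟩, fun p hp => ?_⟩
    obtain ⟨h, hh, hph⟩ := mem_biUnion.1 (hG hp)
    exact (mem_inter.1 ((h2 h hh).2 (mem_inter.2 ⟨hp, hph⟩))).1

private theorem B7_iw (T i j : ℕ) (G : Finset ℕ) (hG : G ⊆ (Ico i j).biUnion (Bin T)) :
    ∏ h ∈ Ico i j, ∏ p ∈ G ∩ Bin T h, (p : ℝ)⁻¹ = iw G := by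
  classical
  have h1 := B4_fac T i j (fun p => (p : ℝ)⁻¹) (fun h => {G ∩ Bin T h}) (fun h V hV => by
    rw [mem_singleton] at hV
    rw [hV]
    exact inter_subset_right)
  simp only [sum_singleton] at h1
  rw [← h1]
  have h2 : ((Ico i j).biUnion (Bin T)).powerset.filter
      (fun U => ∀ h ∈ Ico i j, U ∩ Bin T h ∈ ({G ∩ Bin T h} : Finset (Finset ℕ))) = {G} := by
    ext U
    simp only [mem_filter, mem_powerset, mem_singleton]
    constructor
    · rintro ⟨h3, h4⟩
      ext p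
      constructor
      · intro hp
        obtain ⟨h, hh, hph⟩ := mem_biUnion.1 (h3 hp)
        have h5 : p ∈ U ∩ Bin T h := mem_inter.2 ⟨hp, hph⟩
        rw [h4 h hh] at h5
        exact (mem_inter.1 h5).1
      · intro hp
        obtain ⟨h, hh, hph⟩ := mem_biUnion.1 (hG hp)
        have h5 : p ∈ G ∩ Bin T h := mem_inter.2 ⟨hp, hph⟩
        rw [← h4 h hh] at h5
        exact (mem_inter.1 h5).1
    · rintro rfl
      exact ⟨hG, fun _ _ => rfl⟩
  rw [h2, sum_singleton]
  rfl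

private theorem B7_LL : Tendsto (fun X : ℕ => LL X) atTop atTop := by
  unfold LL
  exact Real.tendsto_log_atTop.comp (Real.tendsto_log_atTop.comp tendsto_natCast_atTop_atTop)

theorem B7_reg_le (P : Par) (e : ℕ) (he : e < P.T) : ∃ C : ℝ, 1 ≤ C ∧ ∀ᶠ X : ℕ in atTop,
    ∑ U ∈ Reg P X e, iw U ≤ C * ((P.T : ℝ) ^ e / e.factorial) ^ HH P X ∧
    ∀ G : Finset ℕ, ∑ U ∈ (Reg P X e).filter (fun U => G ⊆ U), iw U ≤
      C * iw G * ((P.T : ℝ) ^ e / e.factorial) ^ HH P X := by
  classical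
  obtain ⟨C1, hC1, hB1⟩ := B1_sum
  obtain ⟨C2, -, hE1⟩ := E1_scales P
  have hT1 : 1 ≤ P.T := by omega
  have hTR : (1 : ℝ) ≤ P.T := by exact_mod_cast hT1
  have hTpos : (0 : ℝ) < P.T := by linarith
  have hCpos : (0 : ℝ) ≤ C1 := by linarith
  refine ⟨Real.exp (2 * e * C1), Real.one_le_exp (by positivity), ?_⟩
  filter_upwards [hE1, B7_LL.eventually_ge_atTop C1] with X hX hLL
  obtain ⟨-, -, -, -, -, -, -, -, -, hh0, -⟩ := hX
  -- the second part
  have key : ∀ G : Finset ℕ, ∑ U ∈ (Reg P X e).filter (fun U => G ⊆ U), iw U ≤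
      Real.exp (2 * e * C1) * iw G * ((P.T : ℝ) ^ e / e.factorial) ^ HH P X := by
    intro G
    have hiw : 0 ≤ iw G := prod_nonneg fun p _ => inv_nonneg.2 (Nat.cast_nonneg p)
    by_cases hG : G ⊆ (Ico (h0 P X) (h1 P X)).biUnion (Bin P.T)
    · have hcov := B7_cover P.T (h0 P X) (h1 P X) e G hG
      have hsum : ∑ U ∈ (Reg P X e).filter (fun U => G ⊆ U), iw U =
          ∏ h ∈ Ico (h0 P X) (h1 P X),
            ∑ V ∈ ((Bin P.T h).powersetCard e).filter (fun V => G ∩ Bin P.T h ⊆ V),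
              ∏ p ∈ V, (p : ℝ)⁻¹ := by
        unfold Reg
        rw [hcov]
        exact B4_fac P.T (h0 P X) (h1 P X) (fun p => (p : ℝ)⁻¹)
          (fun h => ((Bin P.T h).powersetCard e).filter (fun V => G ∩ Bin P.T h ⊆ V))
          (fun h V hV => (mem_powersetCard.1 (mem_filter.1 hV).1).1)
      rw [hsum]
      -- the bins
      have hbin : ∀ h ∈ Ico (h0 P X) (h1 P X),
          ∑ V ∈ ((Bin P.T h).powersetCard e).filter (fun V => G ∩ Bin P.T h ⊆ V),
              ∏ p ∈ V, (p : ℝ)⁻¹ ≤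
            (∏ p ∈ G ∩ Bin P.T h, (p : ℝ)⁻¹) *
              ((P.T : ℝ) ^ e / e.factorial * Real.exp (e * C1 * Real.exp (-(h * P.T : ℝ)))) := by
        intro h hh
        rw [mem_Ico] at hh
        have hb := abs_le.1 (hB1 P.T h hT1)
        have hsum1 : ∑ p ∈ Bin P.T h, (p : ℝ)⁻¹ = ∑ p ∈ Bin P.T h, 1 / (p : ℝ) :=
          sum_congr rfl fun p _ => (one_div _).symm
        have hsmall : C1 * Real.exp (-(h * P.T : ℝ)) ≤ 1 := by
          have h3 : Real.exp (h0 P X * P.T) ≤ Real.exp (h * P.T) := by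
            refine Real.exp_le_exp.2 ?_
            have : ((h0 P X : ℕ) : ℝ) ≤ h := by exact_mod_cast hh.1
            nlinarith
          have h4 : C1 ≤ Real.exp (h * P.T) := by linarith
          rw [Real.exp_neg, ← div_eq_mul_inv]
          exact (div_le_one (Real.exp_pos _)).2 h4
        have hσlow : (e : ℝ) ≤ ∑ p ∈ Bin P.T h, (p : ℝ)⁻¹ := by
          rw [hsum1]
          have h5 : (e : ℝ) + 1 ≤ P.T := by exact_mod_cast he
          linarith [hb.1]
        refine (B7_bin (Bin P.T h) (G ∩ Bin P.T h) inter_subset_right (fun p => (p : ℝ)⁻¹)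
          (fun p _ => inv_nonneg.2 (Nat.cast_nonneg p)) e hσlow).trans ?_
        refine mul_le_mul_of_nonneg_left ?_
          (prod_nonneg fun p _ => inv_nonneg.2 (Nat.cast_nonneg p))
        rw [hsum1, div_mul_eq_mul_div]
        refine div_le_div_of_nonneg_right ?_ (by positivity)
        have h6 : ∑ p ∈ Bin P.T h, 1 / (p : ℝ) ≤
            P.T * Real.exp (C1 * Real.exp (-(h * P.T : ℝ))) := by
          have h7 := Real.add_one_le_exp (C1 * Real.exp (-(h * P.T : ℝ)))
          have h8 : 0 ≤ C1 * Real.exp (-(h * P.T : ℝ)) := by positivity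
          have h9 : ∑ p ∈ Bin P.T h, 1 / (p : ℝ) ≤ P.T + C1 * Real.exp (-(h * P.T : ℝ)) := by
            linarith [hb.2]
          refine h9.trans ?_
          nlinarith
        have h10 : 0 ≤ ∑ p ∈ Bin P.T h, 1 / (p : ℝ) :=
          sum_nonneg fun p _ => by positivity
        refine (pow_le_pow_left₀ h10 h6 e).trans (le_of_eq ?_)
        rw [mul_pow, ← Real.exp_nat_mul]
        congr 2
        ring
      refine (prod_le_prod (fun h _ => sum_nonneg fun V _ => prod_nonneg fun p _ =>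
        inv_nonneg.2 (Nat.cast_nonneg p)) hbin).trans ?_
      rw [prod_mul_distrib, B7_iw P.T _ _ G hG, prod_mul_distrib, prod_const, Nat.card_Ico,
        ← Real.exp_sum]
      have hexp : Real.exp (∑ h ∈ Ico (h0 P X) (h1 P X), e * C1 * Real.exp (-(h * P.T : ℝ))) ≤
          Real.exp (2 * e * C1) := by
        refine Real.exp_le_exp.2 ?_
        rw [← mul_sum]
        have := B7_geom P.T (h0 P X) (h1 P X) hT1
        have h11 : 0 ≤ (e : ℝ) * C1 := by positivity
        nlinarith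
      have h12 : (0 : ℝ) ≤ ((P.T : ℝ) ^ e / e.factorial) ^ (h1 P X - h0 P X) := by positivity
      calc iw G * (((P.T : ℝ) ^ e / e.factorial) ^ (h1 P X - h0 P X) *
            Real.exp (∑ h ∈ Ico (h0 P X) (h1 P X), e * C1 * Real.exp (-(h * P.T : ℝ))))
          ≤ iw G * (((P.T : ℝ) ^ e / e.factorial) ^ (h1 P X - h0 P X) *
            Real.exp (2 * e * C1)) := by gcongr
        _ = Real.exp (2 * e * C1) * iw G * ((P.T : ℝ) ^ e / e.factorial) ^ HH P X := by
          unfold HH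
          ring
    · have h1 : (Reg P X e).filter (fun U => G ⊆ U) = ∅ := by
        refine filter_eq_empty_iff.2 fun U hU hGU => hG ?_
        unfold Reg Rg at hU
        rw [mem_filter, mem_powerset] at hU
        exact hGU.trans hU.1
      rw [h1, sum_empty]
      positivity
  refine ⟨?_, key⟩
  have h1 := key ∅
  have h2 : (Reg P X e).filter (fun U => (∅ : Finset ℕ) ⊆ U) = Reg P X e :=
    filter_true_of_mem fun U _ => empty_subset U
  have h3 : iw ∅ = 1 := prod_empty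
  rw [h2, h3, mul_one] at h1
  exact h1

end SP15
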