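import Pool.Agent.LibSP15.Defs

/-!
# SP15, row B6 (size M)

PLAN. Put B' = B \ S, σ' = ∑_{B'} f ≥ σ - s δ. Claim: for B' with f ≤ δ: ∑_{#U = e} ∏_U f ≥ (σ' - e δ)^e/e! if σ' ≥ e δ: induction on e: (e+1) E_{e+1}(B') = ∑_{p ∈ B'} f p E_e(B' \ p) ≥ σ' (σ' - δ - e δ)^e/e!.
-/

set_option autoImplicit false

namespace SP15

open Finset Filter

private lemma B6_double (B : Finset ℕ) (f : ℕ → ℝ) (e : ℕ) :
    ∑ p ∈ B, f p * ∑ V ∈ (B.erase p).powersetCard e, ∏ q ∈ V, f q =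
      (e + 1) * ∑ U ∈ B.powersetCard (e + 1), ∏ q ∈ U, f q := by
  have h1 : ∑ p ∈ B, f p * ∑ V ∈ (B.erase p).powersetCard e, ∏ q ∈ V, f q =
      ∑ x ∈ B.sigma (fun p => (B.erase p).powersetCard e), f x.1 * ∏ q ∈ x.2, f q := by
    rw [sum_sigma]
    refine sum_congr rfl fun p _ => ?_
    rw [mul_sum]
  have h2 : (e + 1 : ℝ) * ∑ U ∈ B.powersetCard (e + 1), ∏ q ∈ U, f q =
      ∑ x ∈ (B.powersetCard (e + 1)).sigma (fun U => U), ∏ q ∈ x.1, f q := by
    rw [sum_sigma, mul_sum]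
    refine sum_congr rfl fun U hU => ?_
    show (e + 1 : ℝ) * ∏ q ∈ U, f q = ∑ _s ∈ U, ∏ q ∈ U, f q
    rw [sum_const, (mem_powersetCard.mp hU).2, nsmul_eq_mul]
    push_cast
    ring
  rw [h1, h2]
  refine sum_bij' (fun x _ => (⟨insert x.1 x.2, x.1⟩ : (_ : Finset ℕ) × ℕ))
    (fun x _ => (⟨x.2, x.1.erase x.2⟩ : (_ : ℕ) × Finset ℕ)) ?_ ?_ ?_ ?_ ?_
  · rintro ⟨p, V⟩ hx
    rw [mem_sigma, mem_powersetCard] at hx
    obtain ⟨hp, hV, hc⟩ := hx
    simp only at hp hV hc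
    have hpV : p ∉ V := fun h => (notMem_erase p B) (hV h)
    rw [mem_sigma, mem_powersetCard]
    refine ⟨⟨?_, ?_⟩, mem_insert_self _ _⟩
    · intro q hq
      rcases mem_insert.mp hq with h | h
      · rw [h]; exact hp
      · exact mem_of_mem_erase (hV h)
    · simp only
      rw [card_insert_of_notMem hpV, hc]
  · rintro ⟨U, p⟩ hx
    rw [mem_sigma, mem_powersetCard] at hx
    obtain ⟨⟨hU, hc⟩, hp⟩ := hx
    simp only at hU hc hp
    rw [mem_sigma, mem_powersetCard]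
    refine ⟨hU hp, ?_, ?_⟩
    · exact erase_subset_erase p hU
    · simp only
      rw [card_erase_of_mem hp, hc]
      rfl
  · rintro ⟨p, V⟩ hx
    rw [mem_sigma, mem_powersetCard] at hx
    obtain ⟨hp, hV, hc⟩ := hx
    simp only at hp hV hc
    have hpV : p ∉ V := fun h => (notMem_erase p B) (hV h)
    simp only [erase_insert hpV]
  · rintro ⟨U, p⟩ hx
    rw [mem_sigma] at hx
    have hp : p ∈ U := hx.2
    simp only [insert_erase hp]
  · rintro ⟨p, V⟩ hx
    rw [mem_sigma, mem_powersetCard] at hx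
    obtain ⟨hp, hV, hc⟩ := hx
    simp only at hp hV hc
    have hpV : p ∉ V := fun h => (notMem_erase p B) (hV h)
    simp only
    rw [prod_insert hpV]

private lemma B6_core (f : ℕ → ℝ) (δ : ℝ) (hδ0 : 0 ≤ δ) (e : ℕ) : ∀ B : Finset ℕ,
    (∀ p ∈ B, 0 ≤ f p ∧ f p ≤ δ) → e * δ ≤ ∑ p ∈ B, f p →
    (∑ p ∈ B, f p - e * δ) ^ e / e.factorial ≤ ∑ U ∈ B.powersetCard e, ∏ p ∈ U, f p := by
  induction e with
  | zero =>
    intro B _ _
    simp
  | succ e ih =>
    intro B hf hs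
    set σ := ∑ p ∈ B, f p with hσ
    have hfac : (0 : ℝ) < e.factorial := by exact_mod_cast e.factorial_pos
    push_cast at hs ⊢
    have hstep : ∀ p ∈ B, f p * ((σ - (e + 1) * δ) ^ e / e.factorial) ≤
        f p * ∑ V ∈ (B.erase p).powersetCard e, ∏ q ∈ V, f q := by
      intro p hp
      apply mul_le_mul_of_nonneg_left _ (hf p hp).1
      have h1 : ∑ q ∈ B.erase p, f q = σ - f p := by
        rw [hσ, ← add_sum_erase B f hp]; ring
      have h2 := ih (B.erase p) (fun q hq => hf q (mem_of_mem_erase hq))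
        (by rw [h1]; linarith [(hf p hp).2])
      rw [h1] at h2
      refine le_trans ?_ h2
      apply div_le_div_of_nonneg_right _ hfac.le
      apply pow_le_pow_left₀ (by linarith)
      linarith [(hf p hp).2]
    have h3 := sum_le_sum hstep
    rw [B6_double, ← sum_mul, ← hσ] at h3
    have h4 : (σ - (e + 1) * δ) * ((σ - (e + 1) * δ) ^ e / e.factorial) ≤
        σ * ((σ - (e + 1) * δ) ^ e / e.factorial) := by
      apply mul_le_mul_of_nonneg_right
      · have : 0 ≤ ((e : ℝ) + 1) * δ := by positivity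
        linarith
      · have : 0 ≤ σ - (e + 1) * δ := by linarith
        positivity
    have h5 : (σ - (e + 1) * δ) ^ (e + 1) / (e + 1).factorial =
        ((σ - (e + 1) * δ) * ((σ - (e + 1) * δ) ^ e / e.factorial)) / (e + 1) := by
      rw [Nat.factorial_succ, pow_succ]
      push_cast
      field_simp
    rw [h5, div_le_iff₀ (by positivity)]
    linarith

/-- one bin, lower bound, avoiding the set `S` -/
theorem B6_esymm_ge (B S : Finset ℕ) (f : ℕ → ℝ) (δ : ℝ) (hδ0 : 0 ≤ δ)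
    (hf : ∀ p ∈ B, 0 ≤ f p ∧ f p ≤ δ) (e s : ℕ)
    (hS : #(S ∩ B) ≤ s) (hδ : (s + e) * δ ≤ ∑ p ∈ B, f p) :
    (∑ p ∈ B, f p - (s + e) * δ) ^ e / e.factorial ≤
      ∑ U ∈ (B.powersetCard e).filter (fun U => Disjoint U S), ∏ p ∈ U, f p := by
  have hset : (B.powersetCard e).filter (fun U => Disjoint U S) = (B \ S).powersetCard e := by
    ext U
    rw [mem_filter, mem_powersetCard, mem_powersetCard, subset_sdiff]
    tauto
  rw [hset]
  have hsplit : ∑ p ∈ B, f p = ∑ p ∈ B \ S, f p + ∑ p ∈ S ∩ B, f p := by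
    rw [inter_comm, ← sum_sdiff (inter_subset_left : B ∩ S ⊆ B), sdiff_inter_self_left]
  have hint : ∑ p ∈ S ∩ B, f p ≤ s * δ := by
    calc ∑ p ∈ S ∩ B, f p ≤ ∑ _p ∈ S ∩ B, δ :=
          sum_le_sum fun p hp => (hf p (mem_inter.mp hp).2).2
      _ = #(S ∩ B) * δ := by rw [sum_const, nsmul_eq_mul]
      _ ≤ s * δ := by
          apply mul_le_mul_of_nonneg_right _ hδ0
          exact_mod_cast hS
  have h1 := B6_core f δ hδ0 e (B \ S) (fun p hp => hf p (mem_sdiff.mp hp).1) (by linarith)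
  refine le_trans ?_ h1
  apply div_le_div_of_nonneg_right _ (by positivity)
  apply pow_le_pow_left₀ (by linarith)
  linarith

end SP15
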