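import Pool.Agent.LibSP15.Defs
import Pool.Agent.LibSP15.E1
import Pool.Agent.LibSP15.B1
import Pool.Agent.LibSP15.B4
import Pool.Agent.LibSP15.B6
import Pool.Agent.LibSP15.B3

/-!
# SP15, row B8 (size L)

PLAN. B4 with 𝓕 h = {V ∈ powersetCard e (Bin h), Disjoint V S} and B6 with δ = 1/yy (elements of the bins h ≥ h0 are > yy): factor ≥ (σ_h - (s+e)/yy)^e/e! ≥ (T - C e^(-hT) - (s+e)/yy)^e/e!; product of the ratios to T^e ≥ c because
∑_h (C e^(-hT) + (s+e)/yy) → 0 (1 - x ≥ e^(-2x)).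
-/

set_option autoImplicit false

namespace SP15

open Finset Filter

private lemma B8_exp {y : ℝ} (h0 : 0 ≤ y) (h1 : y ≤ 1 / 2) : Real.exp (-(2 * y)) ≤ 1 - y := by
  rw [Real.exp_neg, inv_le_comm₀ (Real.exp_pos _) (by linarith)]
  have h2 := Real.add_one_le_exp (2 * y)
  refine le_trans ?_ h2
  rw [inv_le_iff_one_le_mul₀ (by linarith)]
  nlinarith

private lemma B8_LL : Tendsto LL atTop atTop := by
  unfold LL
  exact Real.tendsto_log_atTop.comp (Real.tendsto_log_atTop.comp tendsto_natCast_atTop_atTop)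

private lemma B8_filter (T i j e : ℕ) (S : Finset ℕ) :
    (Rg T i j e).filter (fun U => Disjoint U S) =
      ((Ico i j).biUnion (Bin T)).powerset.filter (fun U => ∀ h ∈ Ico i j,
        U ∩ Bin T h ∈ ((Bin T h).powersetCard e).filter (fun U => Disjoint U S)) := by
  ext U
  unfold Rg
  simp only [mem_filter, mem_powerset, mem_powersetCard]
  constructor
  · rintro ⟨⟨h1, h2⟩, h3⟩
    refine ⟨h1, fun h hh => ⟨⟨inter_subset_right, h2 h hh⟩, ?_⟩⟩
    exact Finset.disjoint_of_subset_left inter_subset_left h3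
  · rintro ⟨h1, h2⟩
    refine ⟨⟨h1, fun h hh => (h2 h hh).1.2⟩, ?_⟩
    rw [Finset.disjoint_left]
    intro p hp hpS
    have h3 := h1 hp
    rw [mem_biUnion] at h3
    obtain ⟨h, hh, hph⟩ := h3
    exact (Finset.disjoint_left.mp (h2 h hh).2) (mem_inter.mpr ⟨hp, hph⟩) hpS

private lemma B8_geom (T i j : ℕ) (hT : 1 ≤ T) :
    ∑ h ∈ Ico i j, Real.exp (-((h : ℝ) * T)) ≤ 2 := by
  have h1 : ∀ h ∈ Ico i j, Real.exp (-((h : ℝ) * T)) ≤ (1 / 2 : ℝ) ^ h := by
    intro h _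
    have hT' : (1 : ℝ) ≤ T := by exact_mod_cast hT
    have h2 : Real.exp (-((h : ℝ) * T)) ≤ Real.exp (-(h : ℝ)) := by
      apply Real.exp_le_exp.mpr
      have : (0 : ℝ) ≤ h := Nat.cast_nonneg h
      nlinarith
    refine h2.trans ?_
    have h3 : Real.exp (-(h : ℝ)) = (Real.exp (-1)) ^ h := by
      rw [← Real.exp_nat_mul]
      congr 1
      ring
    rw [h3]
    apply pow_le_pow_left₀ (Real.exp_pos _).le
    rw [Real.exp_neg, inv_le_comm₀ (Real.exp_pos _) (by norm_num)]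
    have := Real.add_one_le_exp (1 : ℝ)
    linarith
  refine (sum_le_sum h1).trans ?_
  have h2 : ∑ h ∈ Ico i j, (1 / 2 : ℝ) ^ h ≤ ∑ h ∈ range j, (1 / 2 : ℝ) ^ h := by
    apply sum_le_sum_of_subset_of_nonneg
    · intro x hx
      rw [mem_Ico] at hx
      exact mem_range.mpr hx.2
    · intro x _ _
      positivity
  refine h2.trans ?_
  rw [geom_sum_eq (by norm_num)]
  have : (0 : ℝ) < (1 / 2) ^ j := by positivity
  rw [div_le_iff_of_neg (by norm_num)]
  linarith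

theorem B8_reg_ge (P : Par) (e s : ℕ) : ∃ c : ℝ, 0 < c ∧ ∀ᶠ X : ℕ in atTop, ∀ S : Finset ℕ,
    (∀ h ∈ Ico (h0 P X) (h1 P X), #(S ∩ Bin P.T h) ≤ s) →
    c * ((P.T : ℝ) ^ e / e.factorial) ^ HH P X ≤
      ∑ U ∈ (Reg P X e).filter (fun U => Disjoint U S), iw U := by
  obtain ⟨C, hC, hB1⟩ := B1_sum
  obtain ⟨C', hC', hE⟩ := E1_scales P
  have hT1 : 1 ≤ P.T := le_trans (by have := P.ha; omega) P.haT.le
  have hT : (1 : ℝ) ≤ P.T := by exact_mod_cast hT1
  refine ⟨Real.exp (-(2 * e * (2 * C + (s + e)))), Real.exp_pos _, ?_⟩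
  filter_upwards [hE, B8_LL.eventually_ge_atTop (max C (s + e))] with X hX hLX S hS
  obtain ⟨k1, -, -, -, -, -, -, -, k9, k10, -, -, k13, -⟩ := hX
  have hLC : C ≤ LL X := le_trans (le_max_left _ _) hLX
  have hLs : (s : ℝ) + e ≤ LL X := le_trans (le_max_right _ _) hLX
  have hse : (0 : ℝ) ≤ s + e := by positivity
  -- log X > 0
  have hlog : 0 < Real.log X := by
    rcases (Real.log_natCast_nonneg X).lt_or_eq with h | h
    · exact h
    · exfalso
      unfold LL at k1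
      rw [← h, Real.log_zero] at k1
      linarith
  have hyy : yy X = Real.exp (10 * LL X) := by
    unfold yy LL
    rw [show (10 : ℝ) * Real.log (Real.log X) = ((10 : ℕ) : ℝ) * Real.log (Real.log X) by norm_num,
      Real.exp_nat_mul, Real.exp_log hlog]
  have hyy1 : 10 * LL X + 1 ≤ yy X := by
    rw [hyy]; exact Real.add_one_le_exp _
  have hyy0 : 0 < yy X := by linarith
  -- elements of the bins
  have hbin : ∀ h ∈ Ico (h0 P X) (h1 P X), ∀ p ∈ Bin P.T h, 0 ≤ ((p : ℝ))⁻¹ ∧ ((p : ℝ))⁻¹ ≤ 1 / yy X := by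
    intro h hh p hp
    rw [mem_Ico] at hh
    unfold Bin at hp
    rw [mem_filter] at hp
    obtain ⟨-, hpp, hlp⟩ := hp
    have hp0 : (0 : ℝ) < p := by exact_mod_cast hpp.pos
    refine ⟨by positivity, ?_⟩
    rw [one_div]
    apply inv_anti₀ hyy0
    rw [hyy, ← Real.exp_log hp0]
    apply Real.exp_le_exp.mpr
    refine le_trans k10 (le_trans ?_ hlp.le)
    apply Real.exp_le_exp.mpr
    have : (h0 P X : ℝ) ≤ h := by exact_mod_cast hh.1
    nlinarith
  -- the quantities y_h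
  set y : ℕ → ℝ := fun h => C * Real.exp (-((h : ℝ) * P.T)) + (s + e) / yy X with hy
  have hy0 : ∀ h, 0 ≤ y h := by
    intro h
    have := Real.exp_pos (-((h : ℝ) * P.T))
    simp only [hy]
    positivity
  have hse4 : ((s : ℝ) + e) / yy X ≤ 1 / 4 := by
    rw [div_le_iff₀ hyy0]
    linarith
  have hy4 : ∀ h ∈ Ico (h0 P X) (h1 P X), C * Real.exp (-((h : ℝ) * P.T)) ≤ 1 / 4 := by
    intro h hh
    rw [mem_Ico] at hh
    have h1 : 10 * LL X ≤ Real.exp ((h : ℝ) * P.T) := by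
      refine le_trans k10 ?_
      apply Real.exp_le_exp.mpr
      have : (h0 P X : ℝ) ≤ h := by exact_mod_cast hh.1
      nlinarith
    have h2 : 0 < Real.exp ((h : ℝ) * P.T) := Real.exp_pos _
    rw [Real.exp_neg, ← div_eq_mul_inv, div_le_iff₀ h2]
    linarith
  have hfac : ∀ h ∈ Ico (h0 P X) (h1 P X),
      (P.T : ℝ) ^ e / e.factorial * Real.exp (-(2 * e * y h)) ≤
      ∑ V ∈ ((Bin P.T h).powersetCard e).filter (fun U => Disjoint U S), ∏ p ∈ V, ((p : ℝ))⁻¹ := by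
    intro h hh
    have h1 := hB1 P.T h hT1
    have h2 : ∑ p ∈ Bin P.T h, 1 / (p : ℝ) = ∑ p ∈ Bin P.T h, ((p : ℝ))⁻¹ :=
      sum_congr rfl fun p _ => one_div _
    rw [h2, abs_le] at h1
    have h3 : (P.T : ℝ) - C * Real.exp (-((h : ℝ) * P.T)) ≤ ∑ p ∈ Bin P.T h, ((p : ℝ))⁻¹ := by
      linarith [h1.1]
    have h4 := hy4 h hh
    have h5 : ((s : ℝ) + e) * (1 / yy X) = (s + e) / yy X := by ring
    have h6 := B6_esymm_ge (Bin P.T h) S (fun p => ((p : ℝ))⁻¹) (1 / yy X)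
      (one_div_pos.mpr hyy0).le (hbin h hh) e s (hS h hh) (by rw [h5]; linarith)
    rw [h5] at h6
    refine le_trans ?_ h6
    rw [div_mul_eq_mul_div]
    apply div_le_div_of_nonneg_right _ (by positivity)
    have h7 : Real.exp (-(2 * e * y h)) = Real.exp (-(2 * y h)) ^ e := by
      rw [← Real.exp_nat_mul]
      congr 1
      ring
    rw [h7, ← mul_pow]
    apply pow_le_pow_left₀ (by positivity)
    have h8 : y h ≤ 1 / 2 := by simp only [hy]; linarith
    have h9 := B8_exp (hy0 h) h8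
    have h10 : (P.T : ℝ) * Real.exp (-(2 * y h)) ≤ P.T * (1 - y h) :=
      mul_le_mul_of_nonneg_left h9 (by linarith)
    have h11 : (P.T : ℝ) * (1 - y h) ≤ P.T - y h := by nlinarith [hy0 h]
    have h12 : (P.T : ℝ) - y h ≤ ∑ p ∈ Bin P.T h, ((p : ℝ))⁻¹ - (s + e) / yy X := by
      simp only [hy]; linarith
    linarith
  -- factorisation
  have hsum : ∑ U ∈ (Reg P X e).filter (fun U => Disjoint U S), iw U =
      ∏ h ∈ Ico (h0 P X) (h1 P X), ∑ V ∈ ((Bin P.T h).powersetCard e).filter (fun U => Disjoint U S),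
        ∏ p ∈ V, ((p : ℝ))⁻¹ := by
    unfold Reg iw
    rw [B8_filter]
    exact B4_fac P.T (h0 P X) (h1 P X) (fun p => ((p : ℝ))⁻¹)
      (fun h => ((Bin P.T h).powersetCard e).filter (fun U => Disjoint U S))
      (fun h V hV => (mem_powersetCard.mp (mem_filter.mp hV).1).1)
  rw [hsum]
  have hprod : ∏ h ∈ Ico (h0 P X) (h1 P X), ((P.T : ℝ) ^ e / e.factorial * Real.exp (-(2 * e * y h))) ≤
      ∏ h ∈ Ico (h0 P X) (h1 P X), ∑ V ∈ ((Bin P.T h).powersetCard e).filter (fun U => Disjoint U S),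
        ∏ p ∈ V, ((p : ℝ))⁻¹ :=
    prod_le_prod (fun h _ => by positivity) hfac
  refine le_trans ?_ hprod
  rw [prod_mul_distrib, prod_const, Nat.card_Ico, ← Real.exp_sum, mul_comm]
  have hHH : HH P X = h1 P X - h0 P X := rfl
  rw [← hHH]
  apply mul_le_mul_of_nonneg_left _ (by positivity)
  apply Real.exp_le_exp.mpr
  have hsy : ∑ h ∈ Ico (h0 P X) (h1 P X), y h ≤ 2 * C + (s + e) := by
    simp only [hy]
    rw [sum_add_distrib, ← mul_sum, sum_const, Nat.card_Ico, nsmul_eq_mul, ← hHH]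
    have g1 := B8_geom P.T (h0 P X) (h1 P X) hT1
    have h2 : C * ∑ h ∈ Ico (h0 P X) (h1 P X), Real.exp (-((h : ℝ) * P.T)) ≤ C * 2 :=
      mul_le_mul_of_nonneg_left g1 (by linarith)
    have h3 : (HH P X : ℝ) ≤ yy X := by
      have h4 : (HH P X : ℝ) ≤ HH P X * P.T := by
        have : (0 : ℝ) ≤ HH P X := Nat.cast_nonneg _
        nlinarith
      linarith
    have h5 : (HH P X : ℝ) * ((s + e) / yy X) ≤ s + e := by
      rw [mul_div_assoc', div_le_iff₀ hyy0]
      nlinarith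
    linarith
  have h6 : ∑ h ∈ Ico (h0 P X) (h1 P X), -(2 * (e : ℝ) * y h) =
      -(2 * e * ∑ h ∈ Ico (h0 P X) (h1 P X), y h) := by
    rw [sum_neg_distrib, mul_sum]
  rw [h6]
  have h7 : 2 * (e : ℝ) * ∑ h ∈ Ico (h0 P X) (h1 P X), y h ≤ 2 * e * (2 * C + (s + e)) :=
    mul_le_mul_of_nonneg_left hsy (by positivity)
  linarith

end SP15
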