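import Pool.Agent.LibSP15.Defs
import Pool.Agent.LibSP15.B7
import Pool.Agent.LibSP15.B8

/-!
# SP15, row B10 (size S)

PLAN. B7 and B8 (S = ∅) with e = a.
-/

set_option autoImplicit false

namespace SP15

open Finset Filter

theorem B10_W (P : Par) : ∃ c C : ℝ, 0 < c ∧ 1 ≤ C ∧ ∀ᶠ X : ℕ in atTop,
    c * Th P X ≤ ∑ W ∈ Reg P X P.a, iw W ∧ ∑ W ∈ Reg P X P.a, iw W ≤ C * Th P X := by
  obtain ⟨C, hC, h1⟩ := B7_reg_le P P.a P.haT
  obtain ⟨c, hc, h2⟩ := B8_reg_ge P P.a 0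
  refine ⟨c, C, hc, hC, ?_⟩
  filter_upwards [h1, h2] with X hX1 hX2
  refine ⟨?_, hX1.1⟩
  have h3 := hX2 ∅ (fun h _ => by simp)
  have h4 : (Reg P X P.a).filter (fun U => Disjoint U ∅) = Reg P X P.a :=
    Finset.filter_true_of_mem fun U _ => Finset.disjoint_empty_right U
  rw [h4] at h3
  exact h3

end SP15
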