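import Pool.Agent.LibSP15.Defs

/-!
# SP15, row B2 (size S)

PLAN. If the set is nonempty, with p in it: KQ ≥ p > exp(exp(hT)), so log(KQ) > exp(hT) ≥ 1. The sum is ≤ (1/Q) π(KQ) ≤ (1/Q) C0 K Q/log(KQ) ≤ C0 K exp(-hT). Chebyshev upper bound π(x) ≤ C0 x/log x: Mathlib
`Chebyshev`/`Nat.primeCounting` files or LibMaier (UniversalPNT) or LibLargeSieve Brun-Titchmarsh or LibRD69 `bt_sharp`.
-/

set_option autoImplicit false

namespace SP15

open Finset Filter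

theorem B2_short (K : ℝ) (hK : 1 ≤ K) : ∃ C : ℝ, 1 ≤ C ∧ ∀ (T h : ℕ) (Q : ℝ), 1 ≤ T → 0 < Q →
    ∑ p ∈ (Bin T h).filter (fun p : ℕ => Q ≤ (p : ℝ) ∧ (p : ℝ) ≤ K * Q), 1 / (p : ℝ) ≤
      C * Real.exp (-(h * T)) := by
  have hlog4 : 1 ≤ Real.log 4 := by
    rw [show (4 : ℝ) = 2 ^ 2 by norm_num, Real.log_pow]
    have := Real.log_two_gt_d9
    push_cast
    linarith
  refine ⟨Real.log 4 * K, by nlinarith, fun T h Q _ hQ => ?_⟩
  set F := (Bin T h).filter (fun p : ℕ => Q ≤ (p : ℝ) ∧ (p : ℝ) ≤ K * Q) with hF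
  have hmem : ∀ p ∈ F, p.Prime ∧ Real.exp (h * T) < Real.log p ∧ Q ≤ (p : ℝ) ∧ (p : ℝ) ≤ K * Q := by
    intro p hp
    rw [hF, Finset.mem_filter] at hp
    obtain ⟨h1, h2, h3⟩ := hp
    unfold Bin at h1
    rw [Finset.mem_filter] at h1
    exact ⟨h1.2.1, h1.2.2, h2, h3⟩
  have hKQ : 0 ≤ K * Q := by positivity
  have h1 : (#F : ℝ) * Real.exp (h * T) ≤ Real.log 4 * (K * Q) := by
    calc (#F : ℝ) * Real.exp (h * T) = ∑ _p ∈ F, Real.exp (h * T) := by
          rw [Finset.sum_const, nsmul_eq_mul]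
      _ ≤ ∑ p ∈ F, Real.log p := Finset.sum_le_sum fun p hp => (hmem p hp).2.1.le
      _ ≤ Chebyshev.theta (K * Q) := by
          unfold Chebyshev.theta
          refine Finset.sum_le_sum_of_subset_of_nonneg ?_ ?_
          · intro p hp
            obtain ⟨a1, _, _, a4⟩ := hmem p hp
            rw [Finset.mem_filter, Finset.mem_Ioc]
            exact ⟨⟨a1.pos, Nat.le_floor a4⟩, a1⟩
          · intro p hp _
            rw [Finset.mem_filter, Finset.mem_Ioc] at hp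
            exact Real.log_nonneg (by exact_mod_cast hp.1.1)
      _ ≤ _ := Chebyshev.theta_le_log4_mul_x hKQ
  have h2 : ∑ p ∈ F, 1 / (p : ℝ) ≤ #F * (1 / Q) := by
    calc ∑ p ∈ F, 1 / (p : ℝ) ≤ ∑ _p ∈ F, 1 / Q := by
          refine Finset.sum_le_sum fun p hp => ?_
          exact one_div_le_one_div_of_le hQ (hmem p hp).2.2.1
      _ = _ := by rw [Finset.sum_const, nsmul_eq_mul]
  have h3 : (#F : ℝ) ≤ Real.log 4 * (K * Q) * Real.exp (-(h * T)) := by
    rw [Real.exp_neg, ← div_eq_mul_inv, le_div_iff₀ (Real.exp_pos _)]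
    exact h1
  calc ∑ p ∈ F, 1 / (p : ℝ) ≤ #F * (1 / Q) := h2
    _ ≤ (Real.log 4 * (K * Q) * Real.exp (-(h * T))) * (1 / Q) := by
        apply mul_le_mul_of_nonneg_right h3
        positivity
    _ = _ := by
        field_simp

end SP15
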