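import Pool.Agent.LibSP15.Defs
import Pool.Agent.LibSP15.B7
import Pool.Agent.LibSP15.B8

/-!
# SP15, row B9 (size M)
-/

set_option autoImplicit false

namespace SP15

open Finset Filter

private theorem B9_iw_nonneg (U : Finset ℕ) : 0 ≤ iw U :=
  Finset.prod_nonneg fun p _ => by positivity

private theorem B9_card {P : Par} {X e : ℕ} {U : Finset ℕ} (hU : U ∈ Reg P X e) :
    ∀ h ∈ Ico (h0 P X) (h1 P X), #(U ∩ Bin P.T h) = e := by
  unfold Reg Rg at hU
  exact (Finset.mem_filter.1 hU).2

private theorem B9_union (U V : Finset ℕ) (T h : ℕ) :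
    #((U ∪ V) ∩ Bin T h) ≤ #(U ∩ Bin T h) + #(V ∩ Bin T h) := by
  rw [Finset.union_inter_distrib_right]
  exact Finset.card_union_le _ _

/-- sum over the three disjoint sets `U0, U1, U2` -/
theorem B9_three (P : Par) : ∃ c C : ℝ, 0 < c ∧ 1 ≤ C ∧ ∀ᶠ X : ℕ in atTop, ∀ W ∈ Reg P X P.a,
    c * Xi P X ^ 3 ≤ ∑ u ∈ ((Reg P X P.b) ×ˢ (Reg P X P.b) ×ˢ (Reg P X P.b)).filter (fun u =>
      (Disjoint u.1 u.2.1 ∧ Disjoint u.1 u.2.2 ∧ Disjoint u.2.1 u.2.2) ∧
      (Disjoint W u.1 ∧ Disjoint W u.2.1 ∧ Disjoint W u.2.2)), iw u.1 * iw u.2.1 * iw u.2.2 ∧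
    ∑ u ∈ (Reg P X P.b) ×ˢ (Reg P X P.b) ×ˢ (Reg P X P.b), iw u.1 * iw u.2.1 * iw u.2.2 ≤
      C * Xi P X ^ 3 := by
  obtain ⟨C, hC1, hC⟩ := B7_reg_le P P.b P.hbT
  obtain ⟨c, hc, hB8⟩ := B8_reg_ge P P.b (P.a + 2 * P.b)
  refine ⟨c ^ 3, C ^ 3, by positivity, one_le_pow₀ hC1, ?_⟩
  filter_upwards [hC, hB8] with X hCX hcX W hW
  have hXi : ((P.T : ℝ) ^ P.b / (P.b).factorial) ^ HH P X = Xi P X := rfl
  rw [hXi] at hCX hcX
  have hXi0 : 0 ≤ Xi P X := by
    unfold Xi
    positivity
  set R := Reg P X P.b with hR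
  constructor
  · -- lower bound
    have hnest : ∑ u ∈ (R ×ˢ R ×ˢ R).filter (fun u =>
        (Disjoint u.1 u.2.1 ∧ Disjoint u.1 u.2.2 ∧ Disjoint u.2.1 u.2.2) ∧
        (Disjoint W u.1 ∧ Disjoint W u.2.1 ∧ Disjoint W u.2.2)), iw u.1 * iw u.2.1 * iw u.2.2 =
        ∑ u0 ∈ R.filter (fun U => Disjoint U W), iw u0 *
          ∑ u1 ∈ R.filter (fun U => Disjoint U (W ∪ u0)), iw u1 *
            ∑ u2 ∈ R.filter (fun U => Disjoint U (W ∪ u0 ∪ u1)), iw u2 := by
      rw [Finset.sum_filter, Finset.sum_product, Finset.sum_filter]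
      apply Finset.sum_congr rfl
      intro u0 _
      rw [Finset.sum_product]
      by_cases h0 : Disjoint u0 W
      · rw [if_pos h0, Finset.sum_filter, Finset.mul_sum]
        apply Finset.sum_congr rfl
        intro u1 _
        by_cases h1 : Disjoint u1 (W ∪ u0)
        · rw [if_pos h1, Finset.sum_filter, Finset.mul_sum, Finset.mul_sum]
          apply Finset.sum_congr rfl
          intro u2 _
          rw [Finset.disjoint_union_right] at h1
          by_cases h2 : Disjoint u2 (W ∪ u0 ∪ u1)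
          · rw [if_pos h2]
            rw [Finset.disjoint_union_right, Finset.disjoint_union_right] at h2
            rw [if_pos ⟨⟨h1.2.symm, h2.1.2.symm, h2.2.symm⟩, h0.symm, h1.1.symm, h2.1.1.symm⟩]
            ring
          · rw [if_neg h2, mul_zero, mul_zero, if_neg]
            rintro ⟨⟨-, g1, g2⟩, -, -, g3⟩
            apply h2
            rw [Finset.disjoint_union_right, Finset.disjoint_union_right]
            exact ⟨⟨g3.symm, g1.symm⟩, g2.symm⟩
        · rw [if_neg h1, mul_zero]
          apply Finset.sum_eq_zero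
          intro u2 _
          rw [if_neg]
          rintro ⟨⟨g1, -, -⟩, -, g2, -⟩
          apply h1
          rw [Finset.disjoint_union_right]
          exact ⟨g2.symm, g1.symm⟩
      · rw [if_neg h0]
        apply Finset.sum_eq_zero
        intro u1 _
        apply Finset.sum_eq_zero
        intro u2 _
        rw [if_neg]
        rintro ⟨-, g1, -⟩
        exact h0 g1.symm
    rw [hnest]
    have hcXi : 0 ≤ c * Xi P X := by positivity
    have hW1 := B9_card hW
    calc c ^ 3 * Xi P X ^ 3 = (c * Xi P X) * ((c * Xi P X) * (c * Xi P X)) := by ring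
      _ ≤ (∑ u0 ∈ R.filter (fun U => Disjoint U W), iw u0) * ((c * Xi P X) * (c * Xi P X)) := by
          apply mul_le_mul_of_nonneg_right _ (by positivity)
          apply hcX
          intro h hh
          rw [hW1 h hh]
          omega
      _ = ∑ u0 ∈ R.filter (fun U => Disjoint U W), iw u0 * ((c * Xi P X) * (c * Xi P X)) :=
          Finset.sum_mul _ _ _
      _ ≤ ∑ u0 ∈ R.filter (fun U => Disjoint U W), iw u0 *
          ∑ u1 ∈ R.filter (fun U => Disjoint U (W ∪ u0)), iw u1 *
            ∑ u2 ∈ R.filter (fun U => Disjoint U (W ∪ u0 ∪ u1)), iw u2 := by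
          apply Finset.sum_le_sum
          intro u0 hu0
          apply mul_le_mul_of_nonneg_left _ (B9_iw_nonneg _)
          have hu0' := B9_card (Finset.mem_filter.1 hu0).1
          calc (c * Xi P X) * (c * Xi P X)
              ≤ (∑ u1 ∈ R.filter (fun U => Disjoint U (W ∪ u0)), iw u1) * (c * Xi P X) := by
                apply mul_le_mul_of_nonneg_right _ hcXi
                apply hcX
                intro h hh
                have := B9_union W u0 P.T h
                rw [hW1 h hh, hu0' h hh] at this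
                omega
            _ = ∑ u1 ∈ R.filter (fun U => Disjoint U (W ∪ u0)), iw u1 * (c * Xi P X) :=
                Finset.sum_mul _ _ _
            _ ≤ _ := by
                apply Finset.sum_le_sum
                intro u1 hu1
                apply mul_le_mul_of_nonneg_left _ (B9_iw_nonneg _)
                have hu1' := B9_card (Finset.mem_filter.1 hu1).1
                apply hcX
                intro h hh
                have g1 := B9_union W u0 P.T h
                have g2 := B9_union (W ∪ u0) u1 P.T h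
                rw [hW1 h hh, hu0' h hh] at g1
                rw [hu1' h hh] at g2
                omega
  · -- upper bound
    have hprod : ∑ u ∈ R ×ˢ R ×ˢ R, iw u.1 * iw u.2.1 * iw u.2.2 = (∑ U ∈ R, iw U) ^ 3 := by
      rw [Finset.sum_product]
      have h1 : ∀ u0 : Finset ℕ, ∑ y ∈ R ×ˢ R, iw u0 * iw y.1 * iw y.2 =
          iw u0 * ((∑ U ∈ R, iw U) * ∑ U ∈ R, iw U) := by
        intro u0
        rw [Finset.sum_product, Finset.sum_mul_sum, Finset.mul_sum]
        apply Finset.sum_congr rfl
        intro u1 _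
        rw [Finset.mul_sum]
        apply Finset.sum_congr rfl
        intro u2 _
        ring
      calc ∑ u0 ∈ R, ∑ y ∈ R ×ˢ R, iw u0 * iw y.1 * iw y.2
          = ∑ u0 ∈ R, iw u0 * ((∑ U ∈ R, iw U) * ∑ U ∈ R, iw U) :=
            Finset.sum_congr rfl fun u0 _ => h1 u0
        _ = (∑ U ∈ R, iw U) * ((∑ U ∈ R, iw U) * ∑ U ∈ R, iw U) := (Finset.sum_mul _ _ _).symm
        _ = _ := by ring
    rw [hprod, ← mul_pow]
    exact pow_le_pow_left₀ (Finset.sum_nonneg fun U _ => B9_iw_nonneg U) hCX.1 3

end SP15
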