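import Pool.Agent.LibSP15.Defs
import Pool.Agent.LibSP15.E1

/-!
# SP15, row E2 (size S)

PLAN. zz ≤ exp(x/(1000L)): zz^(100L) ≤ exp(x/10) = X^(1/10). zs^(100 L) ≤ exp(x/(10^4 L)); zz ≥ exp(x/(1000L)) - 1 ≥ (1/2) exp(..), so zz^(1/5) ≥ (1/2) exp(x/(5000 L)); the quotient tends to ∞.
-/

set_option autoImplicit false

namespace SP15

open Finset Filter

private def E2_par : Par where
  T := 2
  a := 1
  b := 1
  l := 7
  ha := le_rfl
  hb := le_rfl
  haT := by norm_num
  hbT := by norm_num
  hl := by norm_num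
  h3 := by norm_num
  hl3 := by norm_num

private theorem E2_big {L : ℝ} (hL : 100 ≤ L) : 20000 * L ≤ Real.exp L := by
  have h1 : L / 8 ≤ Real.exp (L / 8) := by
    have := Real.add_one_le_exp (L / 8)
    linarith
  have h2 : Real.exp L = Real.exp (L / 8) ^ 8 := by
    rw [← Real.exp_nat_mul]
    congr 1
    push_cast
    ring
  have h3 : (L / 8) ^ 8 ≤ Real.exp (L / 8) ^ 8 := pow_le_pow_left₀ (by positivity) h1 8
  have h4 : (12 : ℝ) ^ 7 ≤ (L / 8) ^ 7 := pow_le_pow_left₀ (by norm_num) (by linarith) 7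
  have h5 : (L / 8) ^ 8 = (L / 8) * (L / 8) ^ 7 := by ring
  have h6 : 0 < L / 8 := by positivity
  nlinarith

/-- `z'^(100 L) ≤ z^(1/10) * 2`, `z^(100 L) ≤ X^(1/10)` and growth facts -/
theorem E2_powers : ∀ᶠ X : ℕ in atTop, (zz X : ℝ) ^ (100 * LL X) ≤ (X : ℝ) ^ (1 / 10 : ℝ) ∧
    4 * (zs X : ℝ) ^ (100 * LL X) ≤ (zz X : ℝ) ^ (1 / 5 : ℝ) ∧ zs X ≤ zz X ∧
    (zz X : ℝ) ≤ (X : ℝ) ^ (1 / 1000 : ℝ) ∧ Real.log (Real.log (zz X)) ≤ LL X ∧
    Real.log (Real.log (zs X)) ≤ LL X := by
  obtain ⟨C, -, hC⟩ := E1_scales E2_par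
  filter_upwards [hC] with X hX
  obtain ⟨hL, hzs, -, -, hz1, hz2, hs1, hs2, -⟩ := hX
  set L := LL X with hLdef
  set x := Real.log (X : ℝ) with hxdef
  have hx0 : 0 ≤ x := Real.log_natCast_nonneg X
  have hx : 0 < x := by
    rcases hx0.lt_or_eq with h | h
    · exact h
    · exfalso
      have h1 : L = Real.log x := rfl
      rw [← h, Real.log_zero] at h1
      linarith
  have hexL : Real.exp L = x := by
    have h1 : L = Real.log x := rfl
    rw [h1, Real.exp_log hx]
  have hbig : 20000 * L ≤ x := by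
    rw [← hexL]
    exact E2_big hL
  have hLp : 0 < L := by linarith
  have hXp : (0 : ℝ) < X := by
    rcases Nat.eq_zero_or_pos X with h | h
    · exfalso
      rw [hxdef, h] at hx
      simp at hx
    · exact_mod_cast h
  have hXe : Real.exp x = X := Real.exp_log hXp
  have hzlog : 0 < Real.log (zz X) := lt_of_lt_of_le (by positivity) hz1
  have hslog : 0 < Real.log (zs X) := lt_of_lt_of_le (by positivity) hs1
  have hzp : (0 : ℝ) < zz X := by
    rcases Nat.eq_zero_or_pos (zz X) with h | h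
    · exfalso
      rw [h] at hzlog
      simp at hzlog
    · exact_mod_cast h
  have hsp : (0 : ℝ) < zs X := by
    have : 0 < zs X := by
      have h1 : (100 : ℝ) ≤ zs X := by exact_mod_cast hzs
      have h2 : (0 : ℝ) < zs X := by linarith
      exact_mod_cast h2
    exact_mod_cast this
  refine ⟨?_, ?_, ?_, ?_, ?_, ?_⟩
  · rw [Real.rpow_def_of_pos hzp, Real.rpow_def_of_pos hXp]
    apply Real.exp_le_exp.mpr
    rw [← hxdef]
    rw [le_div_iff₀ (by positivity)] at hz2
    linarith
  · -- `log zz ≥ x/(1000 L) - log 2`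
    have hex : 2 ≤ Real.exp (x / (1000 * L)) := by
      have h1 := Real.add_one_le_exp (x / (1000 * L))
      have h2 : 1 ≤ x / (1000 * L) := by
        rw [le_div_iff₀ (by positivity)]
        linarith
      linarith
    have hfl : Real.exp (x / (1000 * L)) / 2 ≤ zz X := by
      have h1 : Real.exp (x / (1000 * L)) - 1 < zz X := by
        have := Nat.lt_floor_add_one (Real.exp (x / (1000 * L)))
        have h2 : (zz X : ℝ) = (⌊Real.exp (x / (1000 * L))⌋₊ : ℝ) := rfl
        linarith
      linarith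
    have hlz : x / (1000 * L) - Real.log 2 ≤ Real.log (zz X) := by
      have h1 := Real.log_le_log (by positivity) hfl
      rw [Real.log_div (Real.exp_pos _).ne' (by norm_num), Real.log_exp] at h1
      exact h1
    have hl2 := Real.log_two_lt_d9
    have h4 : (4 : ℝ) = Real.exp (2 * Real.log 2) := by
      have h5 : 2 * Real.log 2 = Real.log 4 := by
        rw [show (4 : ℝ) = 2 ^ 2 by norm_num, Real.log_pow]
        norm_num
      rw [h5, Real.exp_log (by norm_num)]
    rw [Real.rpow_def_of_pos hzp, Real.rpow_def_of_pos hsp, h4, ← Real.exp_add]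
    apply Real.exp_le_exp.mpr
    have h6 : Real.log (zs X) * (100 * L) ≤ x / (10000 * L) := by
      rw [le_div_iff₀ (by positivity)] at hs2 ⊢
      nlinarith
    have h7 : x / (1000 * L) = 10 * (x / (10000 * L)) := by
      field_simp
      norm_num
    have h8 : 2 ≤ x / (10000 * L) := by
      rw [le_div_iff₀ (by positivity)]
      linarith
    linarith
  · apply Nat.floor_le_floor
    apply Real.exp_le_exp.mpr
    apply div_le_div_of_nonneg_left hx0 (by positivity)
    nlinarith
  · have h1 : (zz X : ℝ) ≤ Real.exp (x / (1000 * L)) := Nat.floor_le (Real.exp_pos _).le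
    refine h1.trans ?_
    rw [Real.rpow_def_of_pos hXp]
    apply Real.exp_le_exp.mpr
    rw [← hxdef, div_le_iff₀ (by positivity)]
    nlinarith
  · have h1 : Real.log (zz X) ≤ x := hz2.trans (by
      rw [div_le_iff₀ (by positivity)]
      nlinarith)
    exact Real.log_le_log hzlog h1
  · have h0 : (1 : ℝ) ≤ 10 ^ 6 * L ^ 2 := by nlinarith
    have h1 : Real.log (zs X) ≤ x := hs2.trans (by
      rw [div_le_iff₀ (by positivity)]
      exact le_mul_of_one_le_right hx0 h0)
    exact Real.log_le_log hslog h1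

end SP15
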