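import Pool.Agent.LibSP15.Defs
import Pool.Agent.LibSP15.E1
import Pool.Agent.LibSP15.E2
import Pool.Agent.LibSP15.B3

/-!
# SP15, row C0 (size S)

PLAN. pr W ≤ zz^(1/20) ≤ X^(1/1000). Nw = sqrt(X/(8 l w)): Nw² ≤ X/(8lw), (Nw+1)² > X/(8lw) ⇒ Nw² ≥ X/(32 l w) as X/(8lw) is large. iw W = 1/pr W.
-/

set_option autoImplicit false

namespace SP15

open Finset Filter

theorem C0_iw (W : Finset ℕ) : iw W = ((pr W : ℕ) : ℝ)⁻¹ := by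
  unfold iw pr
  rw [Nat.cast_prod, Finset.prod_inv_distrib]

/-- the real inequality behind `C0_Nw` -/
theorem C0_real {x w l : ℝ} (hx : 1 ≤ x) (hl : 0 < l) (hw : 0 < w) (hwx : w ≤ x ^ (1 / 100 : ℝ))
    (hlx : 32 * l ≤ x ^ (1 / 3 - 1 / 100 : ℝ)) : x ^ (1 / 3 : ℝ) + 1 ≤ √(x / (8 * l * w)) := by
  have hx0 : 0 < x := by linarith
  have h3 : 1 ≤ x ^ (1 / 3 : ℝ) := Real.one_le_rpow hx (by norm_num)
  apply Real.le_sqrt_of_sq_le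
  rw [le_div_iff₀ (by positivity)]
  have h1 : (x ^ (1 / 3 : ℝ) + 1) ^ 2 ≤ 4 * (x ^ (1 / 3 : ℝ)) ^ 2 := by nlinarith
  have e1 : (x ^ (1 / 3 : ℝ)) ^ 2 * (x ^ (1 / 100 : ℝ) * x ^ (1 / 3 - 1 / 100 : ℝ)) = x := by
    rw [← Real.rpow_natCast, ← Real.rpow_mul hx0.le, ← Real.rpow_add hx0, ← Real.rpow_add hx0]
    norm_num
  calc (x ^ (1 / 3 : ℝ) + 1) ^ 2 * (8 * l * w) ≤ (4 * (x ^ (1 / 3 : ℝ)) ^ 2) * (8 * l * w) := by gcongr
    _ = (x ^ (1 / 3 : ℝ)) ^ 2 * (w * (32 * l)) := by ring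
    _ ≤ (x ^ (1 / 3 : ℝ)) ^ 2 * (x ^ (1 / 100 : ℝ) * x ^ (1 / 3 - 1 / 100 : ℝ)) := by gcongr
    _ = x := e1

/-- size of `N_w` -/
theorem C0_Nw (P : Par) : ∀ᶠ X : ℕ in atTop, ∀ W ∈ Reg P X P.a,
    (X : ℝ) ^ (1 / 3 : ℝ) ≤ Nw P.l X (pr W) ∧ Nw P.l X (pr W) ≤ X ∧
    8 * P.l * pr W * Nw P.l X (pr W) ^ 2 ≤ X ∧
    (X : ℝ) / (32 * P.l) * iw W ≤ (Nw P.l X (pr W) : ℝ) ^ 2 := by
  have hlim : ∀ᶠ X : ℕ in atTop, 32 * (P.l : ℝ) ≤ (X : ℝ) ^ (1 / 3 - 1 / 100 : ℝ) :=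
    ((tendsto_rpow_atTop (by norm_num : (0:ℝ) < 1 / 3 - 1 / 100)).comp tendsto_natCast_atTop_atTop).eventually_ge_atTop _
  filter_upwards [hlim, B3_size P, E2_powers, eventually_ge_atTop 1] with X h1 h2 h3 h4 W hW
  obtain ⟨g1, g2, -, -⟩ := h2 P.a (by unfold Par.A; omega) W hW
  have hz := h3.2.2.2.1
  have hx : (1:ℝ) ≤ X := by exact_mod_cast h4
  have hx0 : (0:ℝ) < X := by linarith
  have hl : 0 < P.l := P.hl.pos
  have hw : 0 < pr W := by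
    unfold pr
    refine Finset.prod_pos fun p hp => ?_
    have := (g2 p hp).2
    unfold PQ at this
    rw [Finset.mem_filter] at this
    exact this.2.1.pos
  set w := pr W with hwdef
  have hwx : (w : ℝ) ≤ (X : ℝ) ^ (1 / 100 : ℝ) := by
    refine g1.trans ?_
    calc (zz X : ℝ) ^ (1 / 20 : ℝ) ≤ ((X : ℝ) ^ (1 / 1000 : ℝ)) ^ (1 / 20 : ℝ) := by
          apply Real.rpow_le_rpow (by positivity) hz (by norm_num)
      _ = (X : ℝ) ^ (1 / 1000 * (1 / 20) : ℝ) := by rw [← Real.rpow_mul hx0.le]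
      _ ≤ _ := Real.rpow_le_rpow_of_exponent_le hx (by norm_num)
  have hl' : (0:ℝ) < P.l := by exact_mod_cast hl
  have hw' : (0:ℝ) < w := by exact_mod_cast hw
  have h5 := C0_real hx hl' hw' hwx h1
  set n := X / (8 * P.l * w) with hn
  have hN : Nw P.l X w = Nat.sqrt n := rfl
  rw [hN]
  have h8 : 0 < 8 * P.l * w := by positivity
  have h6 : (X : ℝ) / (8 * P.l * w) < (Nat.sqrt n + 1 : ℝ) ^ 2 := by
    have a1 : X < 8 * P.l * w * (n + 1) := by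
      have := Nat.lt_mul_div_succ X h8
      exact this
    have a2 : n + 1 ≤ (Nat.sqrt n + 1) ^ 2 := by
      have := Nat.lt_succ_sqrt' n
      exact this
    have a3 : X < 8 * P.l * w * (Nat.sqrt n + 1) ^ 2 := lt_of_lt_of_le a1 (Nat.mul_le_mul_left _ a2)
    have a4 : (X : ℝ) < 8 * P.l * w * (Nat.sqrt n + 1 : ℝ) ^ 2 := by exact_mod_cast a3
    rw [div_lt_iff₀ (by positivity)]
    linarith
  have h7 : √((X : ℝ) / (8 * P.l * w)) < Nat.sqrt n + 1 := by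
    rw [Real.sqrt_lt' (by positivity)]
    exact h6
  have c1 : (X : ℝ) ^ (1 / 3 : ℝ) ≤ Nat.sqrt n := by linarith
  have h3' : 1 ≤ (X : ℝ) ^ (1 / 3 : ℝ) := Real.one_le_rpow hx (by norm_num)
  refine ⟨c1, ?_, ?_, ?_⟩
  · exact (Nat.sqrt_le_self n).trans (Nat.div_le_self _ _)
  · calc 8 * P.l * w * Nat.sqrt n ^ 2 ≤ 8 * P.l * w * n := Nat.mul_le_mul_left _ (Nat.sqrt_le' n)
      _ ≤ X := Nat.mul_div_le _ _
  · rw [C0_iw, ← hwdef]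
    have b1 : (1:ℝ) ≤ Nat.sqrt n := h3'.trans c1
    have b2 : (Nat.sqrt n + 1 : ℝ) ^ 2 ≤ 4 * (Nat.sqrt n : ℝ) ^ 2 := by nlinarith
    have b3 : (X : ℝ) / (32 * P.l) * (w : ℝ)⁻¹ = (X : ℝ) / (8 * P.l * w) / 4 := by
      field_simp
      norm_num
    rw [b3]
    linarith

end SP15
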