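import Pool.Agent.LibSP15.Defs
import Pool.Agent.LibMaier.Mertens

/-!
# SP15, row P1 (size M)

PLAN. Mertens lower bounds. `mertens_third` (LibMaier): ∏_{p ≤ z} (1-1/p) log z → e^(-γ), so ∏_{p ≤ z}(1-1/p) ≥ c/log z for z ≥ 2; a sub-product is larger. For 2: 1 - 2/p ≥
(1-1/p)² (1 - 1/(p-1)²) and ∏_{p ≥ 3} (1 - 1/(p-1)²) ≥ ∏_{n ≥ 2}(1-1/n²) ≥ 1/2. Compare `LibRD69/ME.lean` (mertens_prod, ME_nat).
-/

set_option autoImplicit false

namespace SP15

open Finset Filter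

private theorem P1_pos (S : Finset ℕ) : 0 < ∏ p ∈ S.filter Nat.Prime, (1 - 1 / (p : ℝ)) := by
  refine prod_pos fun p hp => ?_
  have h1 : p.Prime := (mem_filter.1 hp).2
  have h2 : (2 : ℝ) ≤ p := by exact_mod_cast h1.two_le
  have h3 : 1 / (p : ℝ) ≤ 1 / 2 := one_div_le_one_div_of_le (by norm_num) h2
  linarith

private theorem P1_nat : ∃ c C : ℝ, 0 < c ∧ 0 < C ∧ ∀ n : ℕ, 2 ≤ n →
    c ≤ (∏ p ∈ (range (n + 1)).filter Nat.Prime, (1 - 1 / (p : ℝ))) * Real.log n ∧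
    (∏ p ∈ (range (n + 1)).filter Nat.Prime, (1 - 1 / (p : ℝ))) * Real.log n ≤ C := by
  set f : ℕ → ℝ := fun n =>
    (∏ p ∈ (range (n + 1)).filter Nat.Prime, (1 - 1 / (p : ℝ))) * Real.log n with hf
  set L : ℝ := Real.exp (-Real.eulerMascheroniConstant) with hL
  have hL0 : 0 < L := Real.exp_pos _
  have hlim : Filter.Tendsto f Filter.atTop (nhds L) := Pool.Agent.LibMaier.mertens_third
  have hpos : ∀ n : ℕ, 2 ≤ n → 0 < f n := by
    intro n hn
    have h1 : (1 : ℝ) < n := by exact_mod_cast hn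
    exact mul_pos (P1_pos _) (Real.log_pos h1)
  have e1 : ∀ᶠ n in Filter.atTop, L / 2 < f n := hlim.eventually (lt_mem_nhds (by linarith))
  have e2 : ∀ᶠ n in Filter.atTop, f n < 2 * L := hlim.eventually (gt_mem_nhds (by linarith))
  obtain ⟨N, hN⟩ := Filter.eventually_atTop.1 (e1.and e2)
  have hfin : ∀ N : ℕ, ∃ c C : ℝ, 0 < c ∧ 0 < C ∧ ∀ n, 2 ≤ n → n < N → c ≤ f n ∧ f n ≤ C := by
    intro N
    induction N with
    | zero => exact ⟨1, 1, one_pos, one_pos, fun n _ h => absurd h (Nat.not_lt_zero n)⟩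
    | succ N ih =>
      obtain ⟨c, C, hc, hC, h⟩ := ih
      by_cases h2 : 2 ≤ N
      · refine ⟨min c (f N), max C (f N), lt_min hc (hpos N h2), lt_max_of_lt_left hC, ?_⟩
        intro n hn hnN
        rcases Nat.lt_succ_iff_lt_or_eq.1 hnN with h3 | h3
        · exact ⟨(min_le_left _ _).trans (h n hn h3).1, (h n hn h3).2.trans (le_max_left _ _)⟩
        · subst h3
          exact ⟨min_le_right _ _, le_max_right _ _⟩
      · refine ⟨c, C, hc, hC, ?_⟩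
        intro n hn hnN
        exact absurd hn (by omega)
  obtain ⟨c, C, hc, hC, h⟩ := hfin N
  refine ⟨min c (L / 2), max C (2 * L), lt_min hc (by linarith), lt_max_of_lt_left hC, ?_⟩
  intro n hn
  by_cases h3 : n < N
  · exact ⟨(min_le_left _ _).trans (h n hn h3).1, (h n hn h3).2.trans (le_max_left _ _)⟩
  · have h4 := hN n (not_lt.1 h3)
    exact ⟨(min_le_right _ _).trans h4.1.le, h4.2.le.trans (le_max_right _ _)⟩

private theorem P1_sub (S T : Finset ℕ) (h : S ⊆ T) (f : ℕ → ℝ) (h0 : ∀ x ∈ T, 0 ≤ f x) (h1 : ∀ x ∈ T, f x ≤ 1) :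
    ∏ x ∈ T, f x ≤ ∏ x ∈ S, f x := by
  rw [← Finset.prod_sdiff h]
  refine mul_le_of_le_one_left (Finset.prod_nonneg fun x hx => h0 x (h hx)) ?_
  exact Finset.prod_le_one (fun x hx => h0 x (Finset.sdiff_subset hx)) fun x hx => h1 x (Finset.sdiff_subset hx)

private theorem P1_tel (n : ℕ) : ∏ m ∈ Ico 2 (n + 2), (1 - 1 / (m : ℝ) ^ 2) = ((n : ℝ) + 2) / (2 * ((n : ℝ) + 1)) := by
  induction n with
  | zero => norm_num
  | succ n ih =>
    rw [Finset.prod_Ico_succ_top (by omega : 2 ≤ n + 2), ih]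
    have h1 : (n : ℝ) + 1 ≠ 0 := by positivity
    have h2 : (n : ℝ) + 2 ≠ 0 := by positivity
    push_cast
    field_simp
    ring

private theorem P1_half (z : ℕ) (Q : Finset ℕ) (hQ : ∀ p ∈ Q, p.Prime ∧ 3 ≤ p ∧ p ≤ z) :
    1 / 2 ≤ ∏ p ∈ Q, (1 - 1 / ((p : ℝ) - 1) ^ 2) := by
  have e1 : ∏ p ∈ Q, (1 - 1 / ((p : ℝ) - 1) ^ 2) = ∏ m ∈ Q.image (fun p : ℕ => p - 1), (1 - 1 / (m : ℝ) ^ 2) := by
    rw [Finset.prod_image]
    · refine Finset.prod_congr rfl fun p hp => ?_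
      have := (hQ p hp).2.1
      rw [Nat.cast_sub (by omega)]
      push_cast
      rfl
    · intro x hx y hy hxy
      have h1 := (hQ x hx).2.1
      have h2 := (hQ y hy).2.1
      have h3 : x - 1 = y - 1 := hxy
      omega
  have hsub : Q.image (fun p : ℕ => p - 1) ⊆ Ico 2 (z + 2) := by
    intro m hm
    obtain ⟨p, hp, rfl⟩ := Finset.mem_image.1 hm
    obtain ⟨_, h1, h2⟩ := hQ p hp
    rw [Finset.mem_Ico]
    omega
  rw [e1]
  refine le_trans ?_ (P1_sub _ _ hsub _ ?_ ?_)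
  · rw [P1_tel, div_le_div_iff₀ (by norm_num) (by positivity)]
    have : (0 : ℝ) ≤ z := Nat.cast_nonneg _
    linarith
  · intro m hm
    rw [Finset.mem_Ico] at hm
    have h1 : (2 : ℝ) ≤ m := by exact_mod_cast hm.1
    rw [sub_nonneg, div_le_one (by positivity)]
    nlinarith
  · intro m _
    have : (0 : ℝ) ≤ 1 / (m : ℝ) ^ 2 := by positivity
    linarith

theorem P1_lower : ∃ c : ℝ, 0 < c ∧ ∀ z : ℕ, 3 ≤ z → ∀ Q : Finset ℕ, (∀ p ∈ Q, p.Prime ∧ 3 ≤ p ∧ p ≤ z) →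
    c / Real.log z ≤ ∏ p ∈ Q, (1 - 1 / (p : ℝ)) ∧ c / Real.log z ^ 2 ≤ ∏ p ∈ Q, (1 - 2 / (p : ℝ)) := by
  obtain ⟨c, C, hc, hC, h⟩ := P1_nat
  refine ⟨min c (c ^ 2 / 2), lt_min hc (by positivity), fun z hz Q hQ => ?_⟩
  have hz3 : (3 : ℝ) ≤ z := by exact_mod_cast hz
  have hlog : 0 < Real.log z := Real.log_pos (by linarith)
  have h1 := (h z (by omega)).1
  have hsub : Q ⊆ (range (z + 1)).filter Nat.Prime := by
    intro p hp
    obtain ⟨h2, _, h3⟩ := hQ p hp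
    rw [Finset.mem_filter, Finset.mem_range]
    exact ⟨by omega, h2⟩
  have h2 : ∏ p ∈ (range (z + 1)).filter Nat.Prime, (1 - 1 / (p : ℝ)) ≤ ∏ p ∈ Q, (1 - 1 / (p : ℝ)) := by
    refine P1_sub _ _ hsub _ ?_ ?_
    · intro p hp
      have h3 : (1 : ℝ) ≤ p := by exact_mod_cast (Finset.mem_filter.1 hp).2.one_lt.le
      rw [sub_nonneg, div_le_one (by linarith)]
      exact h3
    · intro p _
      have : (0 : ℝ) ≤ 1 / (p : ℝ) := by positivity
      linarith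
  have h3 : c / Real.log z ≤ ∏ p ∈ Q, (1 - 1 / (p : ℝ)) := by
    rw [div_le_iff₀ hlog]
    exact h1.trans (mul_le_mul_of_nonneg_right h2 hlog.le)
  constructor
  · refine le_trans ?_ h3
    exact div_le_div_of_nonneg_right (min_le_left _ _) hlog.le
  · have e : ∀ p ∈ Q, (1 - 2 / (p : ℝ)) = (1 - 1 / (p : ℝ)) ^ 2 * (1 - 1 / ((p : ℝ) - 1) ^ 2) := by
      intro p hp
      have h4 : (3 : ℝ) ≤ p := by exact_mod_cast (hQ p hp).2.1
      have h5 : (p : ℝ) ≠ 0 := by linarith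
      have h6 : (p : ℝ) - 1 ≠ 0 := by linarith
      field_simp
      ring
    rw [Finset.prod_congr rfl e, Finset.prod_mul_distrib, Finset.prod_pow]
    have h4 := P1_half z Q hQ
    have h5 : 0 < c / Real.log z := by positivity
    have h6 : (c / Real.log z) ^ 2 ≤ (∏ p ∈ Q, (1 - 1 / (p : ℝ))) ^ 2 := pow_le_pow_left₀ h5.le h3 2
    calc min c (c ^ 2 / 2) / Real.log z ^ 2 ≤ (c ^ 2 / 2) / Real.log z ^ 2 :=
          div_le_div_of_nonneg_right (min_le_right _ _) (by positivity)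
      _ = (c / Real.log z) ^ 2 * (1 / 2) := by
          field_simp
      _ ≤ (∏ p ∈ Q, (1 - 1 / (p : ℝ))) ^ 2 * ∏ p ∈ Q, (1 - 1 / ((p : ℝ) - 1) ^ 2) :=
          mul_le_mul h6 h4 (by norm_num) (by positivity)

end SP15
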