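import Pool.Agent.LibSP15.Defs
import Pool.Agent.LibMaier.Mertens

/-!
# SP15, row P2 (size M)

PLAN. 1 - k/p ≤ (1-1/p)^k (Bernoulli-type, k ≤ 3). So the product over all primes in (y, z] is ≤ (∏_{y<p≤z} (1-1/p))^k ≤ (C log y/log z)^k (two-sided mertens_third, see LibRD69/ME.lean
`mertens_prod`; y real: use ⌊y⌋). Removing D costs ∏_{p ∈ D, p > 4} (1-k/p)⁻¹ ≤ exp(3 ∑ k/p) ≤ e^9 (p ≥ 5, k ≤ 3: -log(1-x) ≤ 3 x on [0, 3/5]).
-/

set_option autoImplicit false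

namespace SP15

open Finset Filter

private theorem P2_pos (S : Finset ℕ) : 0 < ∏ p ∈ S.filter Nat.Prime, (1 - 1 / (p : ℝ)) := by
  refine prod_pos fun p hp => ?_
  have h1 : p.Prime := (mem_filter.1 hp).2
  have h2 : (2 : ℝ) ≤ p := by exact_mod_cast h1.two_le
  have h3 : 1 / (p : ℝ) ≤ 1 / 2 := one_div_le_one_div_of_le (by norm_num) h2
  linarith

private theorem P2_nat : ∃ c C : ℝ, 0 < c ∧ 0 < C ∧ ∀ n : ℕ, 2 ≤ n →
    c ≤ (∏ p ∈ (range (n + 1)).filter Nat.Prime, (1 - 1 / (p : ℝ))) * Real.log n ∧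
    (∏ p ∈ (range (n + 1)).filter Nat.Prime, (1 - 1 / (p : ℝ))) * Real.log n ≤ C := by
  set f : ℕ → ℝ := fun n =>
    (∏ p ∈ (range (n + 1)).filter Nat.Prime, (1 - 1 / (p : ℝ))) * Real.log n with hf
  set L : ℝ := Real.exp (-Real.eulerMascheroniConstant) with hL
  have hL0 : 0 < L := Real.exp_pos _
  have hlim : Filter.Tendsto f Filter.atTop (nhds L) := Pool.Agent.LibMaier.mertens_third
  have hpos : ∀ n : ℕ, 2 ≤ n → 0 < f n := by
    intro n hn
    have h1 : (1 : ℝ) < n := by exact_mod_cast hn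
    exact mul_pos (P2_pos _) (Real.log_pos h1)
  have e1 : ∀ᶠ n in Filter.atTop, L / 2 < f n := hlim.eventually (lt_mem_nhds (by linarith))
  have e2 : ∀ᶠ n in Filter.atTop, f n < 2 * L := hlim.eventually (gt_mem_nhds (by linarith))
  obtain ⟨N, hN⟩ := Filter.eventually_atTop.1 (e1.and e2)
  have hfin : ∀ N : ℕ, ∃ c C : ℝ, 0 < c ∧ 0 < C ∧ ∀ n, 2 ≤ n → n < N → c ≤ f n ∧ f n ≤ C := by
    intro N
    induction N with
    | zero => exact ⟨1, 1, one_pos, one_pos, fun n _ h => absurd h (Nat.not_lt_zero n)⟩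
    | succ N ih =>
      obtain ⟨c, C, hc, hC, h⟩ := ih
      by_cases h2 : 2 ≤ N
      · refine ⟨min c (f N), max C (f N), lt_min hc (hpos N h2), lt_max_of_lt_left hC, ?_⟩
        intro n hn hnN
        rcases Nat.lt_succ_iff_lt_or_eq.1 hnN with h3 | h3
        · exact ⟨(min_le_left _ _).trans (h n hn h3).1, (h n hn h3).2.trans (le_max_left _ _)⟩
        · subst h3
          exact ⟨min_le_right _ _, le_max_right _ _⟩
      · refine ⟨c, C, hc, hC, ?_⟩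
        intro n hn hnN
        exact absurd hn (by omega)
  obtain ⟨c, C, hc, hC, h⟩ := hfin N
  refine ⟨min c (L / 2), max C (2 * L), lt_min hc (by linarith), lt_max_of_lt_left hC, ?_⟩
  intro n hn
  by_cases h3 : n < N
  · exact ⟨(min_le_left _ _).trans (h n hn h3).1, (h n hn h3).2.trans (le_max_left _ _)⟩
  · have h4 := hN n (not_lt.1 h3)
    exact ⟨(min_le_right _ _).trans h4.1.le, h4.2.le.trans (le_max_right _ _)⟩

private theorem P2_exp (x : ℝ) (h0 : 0 ≤ x) (h1 : x ≤ 1 / 2) : Real.exp (-(2 * x)) ≤ 1 - x := by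
  have h2 : 0 < 1 - x := by linarith
  have h3 : 2 * x + 1 ≤ Real.exp (2 * x) := Real.add_one_le_exp _
  rw [Real.exp_neg, inv_le_comm₀ (Real.exp_pos _) h2]
  refine le_trans ?_ h3
  rw [← one_div, div_le_iff₀ h2]
  nlinarith

private theorem P2_pow (k : ℕ) (hk : k ≤ 3) (x : ℝ) (h0 : 0 ≤ x) (h1 : x ≤ 1 / 5) : 1 - k * x ≤ (1 - x) ^ k := by
  interval_cases k <;> norm_num <;> nlinarith [mul_nonneg h0 h0]

private theorem P2_main : ∃ C : ℝ, 1 ≤ C ∧ ∀ (y : ℝ) (z : ℕ), 4 ≤ y → y ≤ z →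
    ∏ p ∈ (Icc 1 z).filter (fun p : ℕ => p.Prime ∧ y < p), (1 - 1 / (p : ℝ)) ≤ C * (Real.log y / Real.log z) := by
  obtain ⟨c, C, hc, hC, h⟩ := P2_nat
  refine ⟨max 1 (C / c), le_max_left _ _, fun y z hy hyz => ?_⟩
  have hf4 : 4 ≤ ⌊y⌋₊ := Nat.le_floor (by exact_mod_cast hy)
  have hfy : ((⌊y⌋₊ : ℕ) : ℝ) ≤ y := Nat.floor_le (by linarith)
  have hfz : ⌊y⌋₊ ≤ z := by exact_mod_cast hfy.trans hyz
  have hz4 : (4 : ℝ) ≤ z := hy.trans hyz
  have hlz : 0 < Real.log z := Real.log_pos (by linarith)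
  have hf4R : (4 : ℝ) ≤ ((⌊y⌋₊ : ℕ) : ℝ) := by exact_mod_cast hf4
  have hlf : 0 < Real.log ((⌊y⌋₊ : ℕ) : ℝ) := Real.log_pos (by linarith)
  have hlfy : Real.log ((⌊y⌋₊ : ℕ) : ℝ) ≤ Real.log y := Real.log_le_log (by linarith) hfy
  have h1 := (h ⌊y⌋₊ (by omega)).1
  have h2 := (h z (by omega)).2
  have hsplit : (∏ p ∈ (range (⌊y⌋₊ + 1)).filter Nat.Prime, (1 - 1 / (p : ℝ))) *
      ∏ p ∈ (Icc 1 z).filter (fun p : ℕ => p.Prime ∧ y < p), (1 - 1 / (p : ℝ)) =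
      ∏ p ∈ (range (z + 1)).filter Nat.Prime, (1 - 1 / (p : ℝ)) := by
    rw [← prod_union]
    · refine prod_congr ?_ fun _ _ => rfl
      ext p
      simp only [mem_union, mem_filter, mem_range, mem_Icc]
      constructor
      · rintro (⟨g1, g2⟩ | ⟨g1, g2⟩)
        · exact ⟨by omega, g2⟩
        · exact ⟨by omega, g2.1⟩
      · rintro ⟨g1, g2⟩
        by_cases g3 : y < p
        · exact Or.inr ⟨⟨g2.one_lt.le, by omega⟩, g2, g3⟩
        · refine Or.inl ⟨?_, g2⟩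
          have := Nat.le_floor (not_lt.mp g3)
          omega
    · rw [disjoint_left]
      intro p g1 g2
      simp only [mem_filter, mem_range, mem_Icc] at g1 g2
      have g3 := (Nat.floor_lt (by linarith : (0 : ℝ) ≤ y)).mpr g2.2.2
      omega
  have hS : 0 ≤ ∏ p ∈ (Icc 1 z).filter (fun p : ℕ => p.Prime ∧ y < p), (1 - 1 / (p : ℝ)) := by
    refine prod_nonneg fun p hp => ?_
    have g1 : (1 : ℝ) ≤ p := by exact_mod_cast (mem_filter.1 hp).2.1.one_lt.le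
    rw [sub_nonneg, div_le_one (by linarith)]
    exact g1
  set S := ∏ p ∈ (Icc 1 z).filter (fun p : ℕ => p.Prime ∧ y < p), (1 - 1 / (p : ℝ)) with hSdef
  set A := ∏ p ∈ (range (⌊y⌋₊ + 1)).filter Nat.Prime, (1 - 1 / (p : ℝ)) with hAdef
  rw [← hsplit] at h2
  have h3 : c * (S * Real.log z) ≤ C * Real.log y := by
    calc c * (S * Real.log z) ≤ (A * Real.log ((⌊y⌋₊ : ℕ) : ℝ)) * (S * Real.log z) :=
          mul_le_mul_of_nonneg_right h1 (by positivity)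
      _ = (A * S * Real.log z) * Real.log ((⌊y⌋₊ : ℕ) : ℝ) := by ring
      _ ≤ C * Real.log ((⌊y⌋₊ : ℕ) : ℝ) := mul_le_mul_of_nonneg_right h2 hlf.le
      _ ≤ C * Real.log y := mul_le_mul_of_nonneg_left hlfy hC.le
  have hly : 0 < Real.log y := Real.log_pos (by linarith)
  have h4 : S ≤ C / c * (Real.log y / Real.log z) := by
    rw [div_mul_div_comm, le_div_iff₀ (by positivity)]
    calc S * (c * Real.log z) = c * (S * Real.log z) := by ring
      _ ≤ C * Real.log y := h3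
  exact h4.trans (mul_le_mul_of_nonneg_right (le_max_right _ _) (by positivity))

theorem P2_upper : ∃ C : ℝ, 1 ≤ C ∧ ∀ (k : ℕ) (y : ℝ) (z : ℕ), k ≤ 3 → 4 ≤ y → y ≤ z → ∀ D : Finset ℕ,
    (∀ p ∈ D, p.Prime) → ∑ p ∈ D, 1 / (p : ℝ) ≤ 1 →
    ∏ p ∈ (Icc 1 z).filter (fun p : ℕ => p.Prime ∧ y < p ∧ p ∉ D), (1 - (k : ℝ) / p) ≤
      C * (Real.log y / Real.log z) ^ k := by
  obtain ⟨C1, hC1, hmain⟩ := P2_main
  have hE : 1 ≤ Real.exp 2 := Real.one_le_exp (by norm_num)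
  refine ⟨(C1 * Real.exp 2) ^ 3, one_le_pow₀ (by nlinarith), ?_⟩
  intro k y z hk hy hyz D hD hDs
  have hz4 : (4 : ℝ) ≤ z := hy.trans hyz
  have hlz : 0 < Real.log z := Real.log_pos (by linarith)
  have hly : 0 < Real.log y := Real.log_pos (by linarith)
  set S := (Icc 1 z).filter (fun p : ℕ => p.Prime ∧ y < p) with hS
  have hp5 : ∀ p ∈ S, (5 : ℝ) ≤ p := by
    intro p hp
    have h1 := (mem_filter.1 hp).2.2
    have h2 : (4 : ℝ) < p := lt_of_le_of_lt hy h1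
    have h3 : 4 < p := by exact_mod_cast h2
    exact_mod_cast h3
  have hset : (Icc 1 z).filter (fun p : ℕ => p.Prime ∧ y < p ∧ p ∉ D) = S \ D := by
    ext p
    simp only [hS, mem_filter, Finset.mem_sdiff]
    tauto
  rw [hset]
  have hx : ∀ p ∈ S, 0 ≤ 1 / (p : ℝ) ∧ 1 / (p : ℝ) ≤ 1 / 5 := by
    intro p hp
    have h1 := hp5 p hp
    exact ⟨by positivity, one_div_le_one_div_of_le (by norm_num) h1⟩
  have h1 : ∏ p ∈ S \ D, (1 - (k : ℝ) / p) ≤ ∏ p ∈ S \ D, (1 - 1 / (p : ℝ)) ^ k := by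
    refine prod_le_prod ?_ ?_
    · intro p hp
      have h2 := hx p (Finset.mem_sdiff.1 hp).1
      have h3 : (k : ℝ) ≤ 3 := by exact_mod_cast hk
      have h4 : (k : ℝ) / p = k * (1 / (p : ℝ)) := by ring
      rw [h4]
      have h5 : (0 : ℝ) ≤ k := Nat.cast_nonneg _
      nlinarith [h2.1, h2.2]
    · intro p hp
      have h2 := hx p (Finset.mem_sdiff.1 hp).1
      have h4 : (k : ℝ) / p = k * (1 / (p : ℝ)) := by ring
      rw [h4]
      exact P2_pow k hk _ h2.1 h2.2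
  rw [prod_pow] at h1
  refine h1.trans ?_
  -- the removed primes
  have hsplit : (∏ p ∈ S \ D, (1 - 1 / (p : ℝ))) * ∏ p ∈ S ∩ D, (1 - 1 / (p : ℝ)) =
      ∏ p ∈ S, (1 - 1 / (p : ℝ)) := by
    rw [← sdiff_inter_self_left S D]
    exact prod_sdiff inter_subset_left
  have hdel : Real.exp (-2) ≤ ∏ p ∈ S ∩ D, (1 - 1 / (p : ℝ)) := by
    have h2 : ∏ p ∈ S ∩ D, Real.exp (-(2 * (1 / (p : ℝ)))) ≤ ∏ p ∈ S ∩ D, (1 - 1 / (p : ℝ)) := by
      refine prod_le_prod (fun p _ => (Real.exp_pos _).le) fun p hp => ?_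
      have h3 := hx p (mem_inter.1 hp).1
      exact P2_exp _ h3.1 (by linarith [h3.2])
    refine le_trans ?_ h2
    rw [← Real.exp_sum]
    apply Real.exp_le_exp.mpr
    have h3 : ∑ p ∈ S ∩ D, 1 / (p : ℝ) ≤ 1 := by
      refine le_trans (sum_le_sum_of_subset_of_nonneg inter_subset_right fun p _ _ => ?_) hDs
      positivity
    rw [sum_neg_distrib, ← mul_sum]
    linarith
  have hSD : 0 ≤ ∏ p ∈ S \ D, (1 - 1 / (p : ℝ)) := by
    refine prod_nonneg fun p hp => ?_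
    have h2 := hx p (Finset.mem_sdiff.1 hp).1
    linarith [h2.2]
  have hb : ∏ p ∈ S \ D, (1 - 1 / (p : ℝ)) ≤ C1 * Real.exp 2 * (Real.log y / Real.log z) := by
    have h2 := hmain y z hy hyz
    rw [← hS, ← hsplit] at h2
    have h3 : (∏ p ∈ S \ D, (1 - 1 / (p : ℝ))) * Real.exp (-2) ≤ C1 * (Real.log y / Real.log z) :=
      (mul_le_mul_of_nonneg_left hdel hSD).trans h2
    have h4 : Real.exp (-2) * Real.exp 2 = 1 := by
      rw [← Real.exp_add]
      norm_num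
    calc ∏ p ∈ S \ D, (1 - 1 / (p : ℝ)) = (∏ p ∈ S \ D, (1 - 1 / (p : ℝ))) * Real.exp (-2) * Real.exp 2 := by
          rw [mul_assoc, h4, mul_one]
      _ ≤ C1 * (Real.log y / Real.log z) * Real.exp 2 := mul_le_mul_of_nonneg_right h3 (Real.exp_pos _).le
      _ = _ := by ring
  calc (∏ p ∈ S \ D, (1 - 1 / (p : ℝ))) ^ k ≤ (C1 * Real.exp 2 * (Real.log y / Real.log z)) ^ k :=
        pow_le_pow_left₀ hSD hb k
    _ = (C1 * Real.exp 2) ^ k * (Real.log y / Real.log z) ^ k := by rw [mul_pow]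
    _ ≤ (C1 * Real.exp 2) ^ 3 * (Real.log y / Real.log z) ^ k := by
        refine mul_le_mul_of_nonneg_right ?_ (by positivity)
        exact pow_le_pow_right₀ (by nlinarith) hk

end SP15
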