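import Pool.Agent.LibSP15.Defs
import Pool.Agent.LibLG5.S2
import Pool.Agent.LibMaier.Mertens

/-!
# SP15, row S1 (size XL)

PLAN. ONE SIEVE LEMMA. `LibLG5.brun_hooley W c M x Q r J` with J = 1 (Q 0 = Q), r 0 := ⌈20 L⌉₊, x p n := if n % p ∈ Ω p then 1 else 0, P := V, g p n := if n % p = β p % p then 1
else 0. mean p (x p) = #(Ω p)/p, tot p (x p) = #(Ω p) ≤ 3, mean (g p) = amean (g p) = 1/p, tot (g p) = 1. The sum is the cardinality. Numbers: ∑_{p ∈ Q} #Ω/p ≤ 3 ∑_{p ≤ z} 1/p ≤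
3 (log log z + C0) ≤ 4L (mertens_second; for L ≥ L₀). Eb ≤ (4L)^(2r+1)/(2r+1)! ≤ (4 L e/(2r+1))^(2r+1) ≤ (e/10)^(40L) ≤ e^(-52L) (e_k ≤ (∑)^k/k!; n! ≥ (n/e)^n).
∏ (1 - #Ω/p) ≥ exp(-1.65 * 4L) because 1 - x ≥ exp(-1.65 x) on [0, 2/3]. So s := exp(-40 L), 6 s ≤ 1/4. Rem ≤ 2 (1 + 3 #Q)^(2r+1) ≤ 2 z^(2(2r+1)) ≤ 2 z^(80L+6) because
3 #Q + 1 ≤ 3 (z-1) + 1 ≤ z² ; and 2 z^(80L+6) ≤ (1/4) z^(100 L) exp(-6.6 L) for L ≥ L₀, z ≥ 2. Total error ≤ (1/4 + 1/4) * main.
-/

set_option autoImplicit false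

namespace SP15

open Finset Filter

namespace S1

theorem RN_le : ∃ C0 : ℝ, 0 ≤ C0 ∧ ∀ z : ℕ,
    Pool.Agent.LibMaier.RN z ≤ Real.log (Real.log z) + C0 := by
  obtain ⟨M, hM⟩ := Pool.Agent.LibMaier.mertens_second
  have h1 : Tendsto (fun z : ℕ => Pool.Agent.LibMaier.DR (z : ℝ)) atTop (nhds M) :=
    hM.comp tendsto_natCast_atTop_atTop
  obtain ⟨C, hC⟩ := h1.bddAbove_range
  refine ⟨max C 0, le_max_right _ _, fun z => ?_⟩
  have h2 : Pool.Agent.LibMaier.DR (z : ℝ) ≤ C := hC ⟨z, rfl⟩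
  have h3 : Pool.Agent.LibMaier.DR (z : ℝ) =
      Pool.Agent.LibMaier.RN z - Real.log (Real.log z) := by
    unfold Pool.Agent.LibMaier.DR
    rw [Nat.floor_natCast]
  have h4 := le_max_left C 0
  linarith

/-- elementary symmetric functions -/
theorem esymm_le' (B : Finset ℕ) (f : ℕ → ℝ) (hf : ∀ p ∈ B, 0 ≤ f p) (e : ℕ) :
    ∑ U ∈ B.powersetCard e, ∏ p ∈ U, f p ≤ (∑ p ∈ B, f p) ^ e / e.factorial := by
  induction B using Finset.induction_on generalizing e with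
  | empty =>
    cases e with
    | zero => simp
    | succ e =>
      rw [Finset.powersetCard_eq_empty.2 (by simp)]
      simp
  | insert a B ha ih =>
    have hfB : ∀ p ∈ B, 0 ≤ f p := fun p hp => hf p (mem_insert_of_mem hp)
    have hfa : 0 ≤ f a := hf a (mem_insert_self _ _)
    have hS : 0 ≤ ∑ p ∈ B, f p := sum_nonneg hfB
    cases e with
    | zero => simp
    | succ e =>
      have h1 : ∑ U ∈ (insert a B).powersetCard (e + 1), ∏ p ∈ U, f p =
          ∑ U ∈ B.powersetCard (e + 1), ∏ p ∈ U, f p +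
            f a * ∑ U ∈ B.powersetCard e, ∏ p ∈ U, f p := by
        rw [Finset.powersetCard_succ_insert ha, Finset.sum_union, Finset.sum_image, Finset.mul_sum]
        · congr 1
          refine Finset.sum_congr rfl fun U hU => ?_
          rw [Finset.prod_insert fun h => ha ((Finset.mem_powersetCard.1 hU).1 h)]
        · intro U hU U' hU' h
          have k1 : a ∉ U := fun h => ha ((Finset.mem_powersetCard.1 hU).1 h)
          have k2 : a ∉ U' := fun h => ha ((Finset.mem_powersetCard.1 hU').1 h)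
          rw [← Finset.erase_insert k1, ← Finset.erase_insert k2]
          exact congrArg (fun t => t.erase a) h
        · rw [Finset.disjoint_left]
          intro U hU hU'
          obtain ⟨U'', -, rfl⟩ := Finset.mem_image.1 hU'
          exact ha ((Finset.mem_powersetCard.1 hU).1 (mem_insert_self _ _))
      rw [h1, Finset.sum_insert ha]
      have h2 := ih hfB (e + 1)
      have h3 := ih hfB e
      set S := ∑ p ∈ B, f p with hSd
      have h4 : S ^ (e + 1) + (e + 1 : ℝ) * (f a * S ^ e) ≤ (f a + S) ^ (e + 1) := by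
        clear h1 h2 h3 ih hSd
        induction e with
        | zero => simp; linarith
        | succ e ih =>
          have h5 : (f a + S) ^ (e + 1 + 1) = (f a + S) ^ (e + 1) * (f a + S) := pow_succ _ _
          rw [h5]
          have h6 := mul_le_mul_of_nonneg_right ih (add_nonneg hfa hS)
          refine le_trans ?_ h6
          have h7 : 0 ≤ S ^ e := pow_nonneg hS e
          push_cast
          have h8 : (S ^ (e + 1) + (e + 1 : ℝ) * (f a * S ^ e)) * (f a + S) -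
              (S ^ (e + 1 + 1) + ((e : ℝ) + 1 + 1) * (f a * S ^ (e + 1))) =
              (e + 1 : ℝ) * (f a * f a * S ^ e) := by ring
          have h9 : 0 ≤ (e + 1 : ℝ) * (f a * f a * S ^ e) := by positivity
          linarith
      have h5 : (0 : ℝ) < ((e + 1).factorial : ℝ) := by exact_mod_cast (e + 1).factorial_pos
      have h6 : (0 : ℝ) < (e.factorial : ℝ) := by exact_mod_cast e.factorial_pos
      have h7 : ((e + 1).factorial : ℝ) = (e + 1) * e.factorial := by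
        rw [Nat.factorial_succ]; push_cast; ring
      calc ∑ U ∈ B.powersetCard (e + 1), ∏ p ∈ U, f p +
            f a * ∑ U ∈ B.powersetCard e, ∏ p ∈ U, f p
          ≤ S ^ (e + 1) / ((e + 1).factorial : ℝ) + f a * (S ^ e / (e.factorial : ℝ)) :=
            add_le_add h2 (mul_le_mul_of_nonneg_left h3 hfa)
        _ = (S ^ (e + 1) + (e + 1 : ℝ) * (f a * S ^ e)) / ((e + 1).factorial : ℝ) := by
            rw [h7]; field_simp
        _ ≤ (f a + S) ^ (e + 1) / ((e + 1).factorial : ℝ) :=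
            div_le_div_of_nonneg_right h4 h5.le

/-- the truncated sum -/
theorem trunc_le (B : Finset ℕ) (f : ℕ → ℝ) (hf : ∀ p ∈ B, 0 ≤ f p) (n : ℕ) :
    ∑ U ∈ B.powerset with #U ≤ n, ∏ p ∈ U, f p ≤ (1 + ∑ p ∈ B, f p) ^ n := by
  have hS : 0 ≤ ∑ p ∈ B, f p := sum_nonneg hf
  have h1 : ∑ U ∈ B.powerset with #U ≤ n, ∏ p ∈ U, f p =
      ∑ e ∈ range (n + 1), ∑ U ∈ B.powersetCard e, ∏ p ∈ U, f p := by
    have h2 : (B.powerset.filter fun U => #U ≤ n) =
        (range (n + 1)).biUnion fun e => B.powersetCard e := by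
      ext U
      simp only [mem_filter, mem_powerset, mem_biUnion, mem_range, mem_powersetCard]
      constructor
      · rintro ⟨h1, h2⟩
        exact ⟨#U, by omega, h1, rfl⟩
      · rintro ⟨e, he, h1, h2⟩
        exact ⟨h1, by omega⟩
    rw [h2, Finset.sum_biUnion]
    intro i _ j _ hij
    exact Finset.pairwise_disjoint_powersetCard B hij
  rw [h1, add_comm (1 : ℝ), add_pow]
  refine Finset.sum_le_sum fun e he => ?_
  rw [one_pow, mul_one]
  refine (esymm_le' B f hf e).trans ?_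
  have h2 : (1 : ℝ) ≤ (n.choose e : ℝ) := by
    exact_mod_cast Nat.choose_pos (by rw [mem_range] at he; omega)
  have h3 : (1 : ℝ) ≤ (e.factorial : ℝ) := by exact_mod_cast e.factorial_pos
  have h4 : 0 ≤ (∑ p ∈ B, f p) ^ e := pow_nonneg hS e
  calc (∑ p ∈ B, f p) ^ e / (e.factorial : ℝ) ≤ (∑ p ∈ B, f p) ^ e := div_le_self h4 h3
    _ = (∑ p ∈ B, f p) ^ e * 1 := (mul_one _).symm
    _ ≤ (∑ p ∈ B, f p) ^ e * (n.choose e : ℝ) := mul_le_mul_of_nonneg_left h2 h4

theorem one_sub_ge_exp {x : ℝ} (h0 : 0 ≤ x) (h1 : x ≤ 2 / 3) : Real.exp (-(2 * x)) ≤ 1 - x := by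
  have h2 : 0 < 1 - x := by linarith
  have h3 : 1 + 2 * x + (2 * x) ^ 2 / 2 ≤ Real.exp (2 * x) :=
    Real.quadratic_le_exp_of_nonneg (by linarith)
  have h4 : 1 ≤ (1 - x) * Real.exp (2 * x) := by
    have h5 : (1 - x) * (1 + 2 * x + (2 * x) ^ 2 / 2) ≤ (1 - x) * Real.exp (2 * x) :=
      mul_le_mul_of_nonneg_left h3 h2.le
    nlinarith [mul_nonneg h0 h0, mul_nonneg (mul_nonneg h0 h0) h0]
  rw [Real.exp_neg, inv_le_iff_one_le_mul₀ (Real.exp_pos _)]
  exact h4

theorem eb_bound {S L : ℝ} (hS0 : 0 ≤ S) (hS : S ≤ 4 * L) {n : ℕ} (hn : 40 * L ≤ n) :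
    S ^ n / (n.factorial : ℝ) ≤ Real.exp (-(40 * L)) := by
  have hf : (0 : ℝ) < (n.factorial : ℝ) := by exact_mod_cast n.factorial_pos
  have h1 : S ≤ (n : ℝ) / 10 := by linarith
  have h2 : S ^ n ≤ ((n : ℝ) / 10) ^ n := pow_le_pow_left₀ hS0 h1 n
  have h3 : (n : ℝ) ^ n / (n.factorial : ℝ) ≤ Real.exp n :=
    Real.pow_div_factorial_le_exp (n : ℝ) (Nat.cast_nonneg n) n
  have h4 : Real.exp 2 ≤ 10 := by
    have h5 : Real.exp 2 = Real.exp 1 * Real.exp 1 := by rw [← Real.exp_add]; norm_num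
    have h6 := Real.exp_one_lt_d9
    have h7 := Real.exp_pos 1
    rw [h5]
    nlinarith
  have h5 : Real.exp (n : ℝ) * (10 ^ n)⁻¹ ≤ Real.exp (-(n : ℝ)) := by
    rw [Real.exp_neg, ← div_eq_mul_inv, ← one_div, div_le_div_iff₀ (by positivity) (Real.exp_pos _),
      one_mul, ← Real.exp_add]
    have h8 : Real.exp ((n : ℝ) + n) = Real.exp 2 ^ n := by
      rw [← Real.exp_nat_mul]; congr 1; ring
    rw [h8]
    exact pow_le_pow_left₀ (Real.exp_pos _).le h4 n
  calc S ^ n / (n.factorial : ℝ) ≤ ((n : ℝ) / 10) ^ n / (n.factorial : ℝ) :=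
        div_le_div_of_nonneg_right h2 hf.le
    _ = (n : ℝ) ^ n / (n.factorial : ℝ) * (10 ^ n)⁻¹ := by
        rw [div_pow]; field_simp
    _ ≤ Real.exp n * (10 ^ n)⁻¹ := mul_le_mul_of_nonneg_right h3 (by positivity)
    _ ≤ Real.exp (-(n : ℝ)) := h5
    _ ≤ Real.exp (-(40 * L)) := Real.exp_le_exp.2 (by linarith)

end S1

open S1

theorem S1_sieve : ∃ L₀ : ℝ, 1 ≤ L₀ ∧ ∀ (L : ℝ) (z : ℕ), L₀ ≤ L → 2 ≤ z → Real.log (Real.log z) ≤ L →
    ∀ (W c M : ℕ) (Q V : Finset ℕ) (Ω : ℕ → Finset ℕ) (β : ℕ → ℕ),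
    (∀ p ∈ Q, p.Prime ∧ ¬ p ∣ W ∧ p ≤ z ∧ Ω p ⊆ range p ∧ #(Ω p) ≤ 3 ∧ 3 * #(Ω p) ≤ 2 * p) →
    (∀ p ∈ V, p.Prime ∧ ¬ p ∣ W) → Disjoint Q V → (z : ℝ) ^ (100 * L) * pr V ≤ M →
    (1 / 2 : ℝ) * (M / pr V * ∏ p ∈ Q, (1 - (#(Ω p) : ℝ) / p)) ≤
      #{m ∈ range M | (∀ p ∈ V, (c + W * m) % p = β p % p) ∧ ∀ p ∈ Q, (c + W * m) % p ∉ Ω p} ∧
    (#{m ∈ range M | (∀ p ∈ V, (c + W * m) % p = β p % p) ∧ ∀ p ∈ Q, (c + W * m) % p ∉ Ω p} : ℝ) ≤
      (3 / 2 : ℝ) * (M / pr V * ∏ p ∈ Q, (1 - (#(Ω p) : ℝ) / p)) := by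
  obtain ⟨C0, hC0, hRN⟩ := RN_le
  refine ⟨max 2 (3 * C0), le_trans (by norm_num) (le_max_left _ _), ?_⟩
  intro L z hL hz hlog W c M Q V Ω β hQ hV hQV hM
  have hL2 : 2 ≤ L := (le_max_left _ _).trans hL
  have hLC : 3 * C0 ≤ L := (le_max_right _ _).trans hL
  have hz2 : (2 : ℝ) ≤ z := by exact_mod_cast hz
  -- the functions
  set x : ℕ → ℕ → ℝ := fun p n => if n % p ∈ Ω p then 1 else 0 with hx
  set g : ℕ → ℕ → ℝ := fun p n => if n % p = β p % p then 1 else 0 with hg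
  have hpQ : ∀ p ∈ Q, 0 < p := fun p hp => (hQ p hp).1.pos
  have hpV : ∀ p ∈ V, 0 < p := fun p hp => (hV p hp).1.pos
  have hxper : ∀ p, Function.Periodic (x p) p := by
    intro p n
    simp only [hx, Nat.add_mod_right]
  have hgper : ∀ p, Function.Periodic (g p) p := by
    intro p n
    simp only [hg, Nat.add_mod_right]
  have htotx : ∀ p ∈ Q, Pool.Agent.LibLG5.tot p (x p) = #(Ω p) := by
    intro p hp
    unfold Pool.Agent.LibLG5.tot
    have h1 : ∀ n ∈ range p, |x p n| = if n ∈ Ω p then (1 : ℝ) else 0 := by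
      intro n hn
      simp only [hx, Nat.mod_eq_of_lt (mem_range.1 hn)]
      split_ifs <;> simp
    rw [Finset.sum_congr rfl h1, Finset.sum_ite_mem, Finset.inter_eq_right.2 (hQ p hp).2.2.2.1]
    simp
  have hmeanx : ∀ p ∈ Q, Pool.Agent.LibLG5.mean p (x p) = (#(Ω p) : ℝ) / p := by
    intro p hp
    unfold Pool.Agent.LibLG5.mean
    congr 1
    have h1 : ∀ n ∈ range p, x p n = if n ∈ Ω p then (1 : ℝ) else 0 := by
      intro n hn
      simp only [hx, Nat.mod_eq_of_lt (mem_range.1 hn)]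
    rw [Finset.sum_congr rfl h1, Finset.sum_ite_mem, Finset.inter_eq_right.2 (hQ p hp).2.2.2.1]
    simp
  have hsumg : ∀ p ∈ V, ∑ n ∈ range p, g p n = 1 := by
    intro p hp
    have h1 : ∀ n ∈ range p, g p n = if n = β p % p then (1 : ℝ) else 0 := by
      intro n hn
      simp only [hg, Nat.mod_eq_of_lt (mem_range.1 hn)]
    rw [Finset.sum_congr rfl h1, Finset.sum_ite_eq', if_pos (mem_range.2 (Nat.mod_lt _ (hpV p hp)))]
  have habsg : ∀ p n, |g p n| = g p n := by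
    intro p n
    simp only [hg]
    split_ifs <;> simp
  have htotg : ∀ p ∈ V, Pool.Agent.LibLG5.tot p (g p) = 1 := by
    intro p hp
    unfold Pool.Agent.LibLG5.tot
    simp only [habsg]
    exact hsumg p hp
  have hmeang : ∀ p ∈ V, Pool.Agent.LibLG5.mean p (g p) = 1 / (p : ℝ) := by
    intro p hp
    unfold Pool.Agent.LibLG5.mean
    rw [hsumg p hp]
  have hameang : ∀ p ∈ V, Pool.Agent.LibLG5.amean p (g p) = 1 / (p : ℝ) := by
    intro p hp
    unfold Pool.Agent.LibLG5.amean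
    simp only [habsg]
    rw [hsumg p hp]
  -- the numbers
  set y : ℕ → ℝ := fun p => (#(Ω p) : ℝ) / p with hy
  have hy0 : ∀ p, 0 ≤ y p := fun p => by simp only [hy]; positivity
  have hy1 : ∀ p ∈ Q, y p ≤ 2 / 3 := by
    intro p hp
    have h1 : (0 : ℝ) < p := by exact_mod_cast hpQ p hp
    have h2 : (3 : ℝ) * #(Ω p) ≤ 2 * p := by exact_mod_cast (hQ p hp).2.2.2.2.2
    simp only [hy]
    rw [div_le_iff₀ h1]
    linarith
  set S : ℝ := ∑ p ∈ Q, y p with hS
  have hS0 : 0 ≤ S := Finset.sum_nonneg fun p _ => hy0 p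
  have hS4 : S ≤ 4 * L := by
    have h1 : S ≤ ∑ p ∈ Q, 3 * (1 / (p : ℝ)) := by
      refine Finset.sum_le_sum fun p hp => ?_
      have h1 : (0 : ℝ) < p := by exact_mod_cast hpQ p hp
      have h2 : (#(Ω p) : ℝ) ≤ 3 := by exact_mod_cast (hQ p hp).2.2.2.2.1
      simp only [hy]
      rw [mul_one_div]
      exact div_le_div_of_nonneg_right h2 h1.le
    have h2 : ∑ p ∈ Q, 1 / (p : ℝ) ≤ Pool.Agent.LibMaier.RN z := by
      unfold Pool.Agent.LibMaier.RN
      refine Finset.sum_le_sum_of_subset_of_nonneg (fun p hp => ?_) fun p _ _ => by positivity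
      simp only [Pool.Agent.LibMaier.PN, mem_filter, mem_Icc]
      exact ⟨by have := (hQ p hp).2.2.1; omega, (hQ p hp).1⟩
    rw [← Finset.mul_sum] at h1
    have h3 := hRN z
    linarith
  set PQ' : ℝ := ∏ p ∈ Q, (1 - y p) with hPQ'
  have hPlow : Real.exp (-(8 * L)) ≤ PQ' := by
    have h1 : Real.exp (-(2 * S)) ≤ PQ' := by
      rw [hS, Finset.mul_sum, ← Finset.sum_neg_distrib, Real.exp_sum]
      exact Finset.prod_le_prod (fun p _ => (Real.exp_pos _).le)
        fun p hp => one_sub_ge_exp (hy0 p) (hy1 p hp)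
    refine le_trans (Real.exp_le_exp.2 ?_) h1
    linarith
  have hPpos : 0 < PQ' := (Real.exp_pos _).trans_le hPlow
  have hprV : (0 : ℝ) < (pr V : ℝ) := by
    unfold pr
    exact_mod_cast Finset.prod_pos hpV
  have hprodV : ∏ p ∈ V, (1 / (p : ℝ)) = 1 / (pr V : ℝ) := by
    unfold pr
    rw [Finset.prod_div_distrib]
    push_cast
    simp
  set main : ℝ := (M : ℝ) / pr V * PQ' with hmain
  -- the parameter r
  set r : ℕ := ⌈20 * L⌉₊ with hr
  have hr1 : 20 * L ≤ r := Nat.le_ceil _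
  have hr2 : (r : ℝ) < 20 * L + 1 := Nat.ceil_lt_add_one (by linarith)
  have hn1 : 40 * L ≤ ((2 * r + 1 : ℕ) : ℝ) := by push_cast; linarith
  have hn2 : ((2 * r + 1 : ℕ) : ℝ) ≤ 40 * L + 3 := by push_cast; linarith
  have hEb : Pool.Agent.LibLG5.Eb Q r y ≤ Real.exp (-(40 * L)) := by
    unfold Pool.Agent.LibLG5.Eb Pool.Agent.LibLG5.blk
    simp only [one_mul]
    exact (esymm_le' Q y (fun p _ => hy0 p) _).trans (eb_bound hS0 hS4 hn1)
  have hEbeq : Pool.Agent.LibLG5.Eb Q r (fun p => Pool.Agent.LibLG5.mean p (x p)) =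
      Pool.Agent.LibLG5.Eb Q r y := by
    unfold Pool.Agent.LibLG5.Eb Pool.Agent.LibLG5.blk
    refine Finset.sum_congr rfl fun D hD => ?_
    congr 1
    exact Finset.prod_congr rfl fun p hp => hmeanx p ((Finset.mem_powersetCard.1 hD).1 hp)
  have hPeq : ∏ p ∈ Q, (1 - Pool.Agent.LibLG5.mean p (x p)) = PQ' :=
    Finset.prod_congr rfl fun p hp => by rw [hmeanx p hp]
  have h24 : (24 : ℝ) ≤ Real.exp (32 * L) := by
    have h1 := Real.add_one_le_exp (32 * L)
    linarith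
  have key := Pool.Agent.LibLG5.brun_hooley W c M x (fun _ => Q) (fun _ => r) 1
    (fun _ _ p hp => ⟨(hQ p hp).1, (hQ p hp).2.1⟩)
    (fun _ _ p _ => hxper p)
    (fun _ _ p _ n => by simp only [hx]; split_ifs <;> norm_num)
    (fun _ _ p hp => by
      rw [hmeanx p hp]
      exact ⟨hy0 p, (hy1 p hp).trans_lt (by norm_num)⟩)
    (fun i hi j hj hij => absurd (by omega : i = j) hij)
    V hV g (fun p _ => hgper p) (fun _ _ => hQV.symm)
    (1 / 24) (by
      rw [Finset.sum_range_one, hEbeq, hPeq, div_le_iff₀ hPpos]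
      refine hEb.trans ?_
      have h1 : Real.exp (-(40 * L)) = Real.exp (-(32 * L)) * Real.exp (-(8 * L)) := by
        rw [← Real.exp_add]; congr 1; ring
      rw [h1]
      refine mul_le_mul ?_ hPlow (Real.exp_pos _).le (by norm_num)
      rw [Real.exp_neg, one_div]
      exact inv_anti₀ (by norm_num) h24) (by norm_num)
  simp only [Finset.prod_range_one, hPeq] at key
  rw [Finset.prod_congr rfl hmeang, Finset.prod_congr rfl hameang, Finset.prod_congr rfl htotg,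
    hprodV, Finset.prod_const_one, mul_one] at key
  have hmain2 : (M : ℝ) * (PQ' * (1 / (pr V : ℝ))) = main := by
    rw [hmain]; field_simp
  rw [hmain2] at key
  -- the remainder
  have hcardQ : (#Q : ℝ) ≤ z - 1 := by
    have h1 : Q ⊆ Icc 2 z := fun p hp => mem_Icc.2 ⟨(hQ p hp).1.two_le, (hQ p hp).2.2.1⟩
    have h2 := Finset.card_le_card h1
    rw [Nat.card_Icc] at h2
    have h3 : #Q + 1 ≤ z := by omega
    have h4 : ((#Q + 1 : ℕ) : ℝ) ≤ z := by exact_mod_cast h3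
    push_cast at h4
    linarith
  set T : ℕ → ℝ := fun p => Pool.Agent.LibLG5.tot p (x p) with hT
  have hT0 : ∀ p ∈ Q, 0 ≤ T p := fun p hp => by simp only [hT]; rw [htotx p hp]; positivity
  have hTsum : 1 + ∑ p ∈ Q, T p ≤ (z : ℝ) ^ 2 := by
    have h1 : ∑ p ∈ Q, T p ≤ ∑ p ∈ Q, (3 : ℝ) := by
      refine Finset.sum_le_sum fun p hp => ?_
      simp only [hT]
      rw [htotx p hp]
      exact_mod_cast (hQ p hp).2.2.2.2.1
    rw [Finset.sum_const, nsmul_eq_mul] at h1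
    nlinarith
  have hTs0 : 0 ≤ ∑ p ∈ Q, T p := Finset.sum_nonneg hT0
  have hA1 : (∑ D ∈ Q.powerset with #D ≤ 2 * r, ∏ p ∈ D, T p) ≤ ((z : ℝ) ^ 2) ^ (2 * r + 1) := by
    refine (trunc_le Q T hT0 (2 * r)).trans ?_
    refine (pow_le_pow_left₀ (by linarith) hTsum _).trans ?_
    exact pow_le_pow_right₀ (by nlinarith) (by omega)
  have hA2 : (∑ D ∈ Q.powersetCard (2 * r + 1), ∏ p ∈ D, T p) ≤ ((z : ℝ) ^ 2) ^ (2 * r + 1) := by
    have h1 : (∑ D ∈ Q.powersetCard (2 * r + 1), ∏ p ∈ D, T p) ≤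
        ∑ D ∈ Q.powerset with #D ≤ 2 * r + 1, ∏ p ∈ D, T p := by
      refine Finset.sum_le_sum_of_subset_of_nonneg (fun D hD => ?_) fun D hD _ => ?_
      · have := Finset.mem_powersetCard.1 hD
        exact mem_filter.2 ⟨mem_powerset.2 this.1, this.2.le⟩
      · exact Finset.prod_nonneg fun p hp => hT0 p (mem_powerset.1 (mem_filter.1 hD).1 hp)
    refine h1.trans ((trunc_le Q T hT0 (2 * r + 1)).trans ?_)
    exact pow_le_pow_left₀ (by linarith) hTsum _
  have hRem : Pool.Agent.LibLG5.Rem (fun _ => Q) (fun _ => r) 1 T ≤ 1 / 4 * main := by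
    unfold Pool.Agent.LibLG5.Rem
    simp only [Finset.prod_range_one, Finset.sum_range_one, if_true]
    have hz0 : (0 : ℝ) < z := by linarith
    have h1 : ((z : ℝ) ^ 2) ^ (2 * r + 1) ≤ (z : ℝ) ^ (80 * L + 6) := by
      rw [← pow_mul, ← Real.rpow_natCast]
      apply Real.rpow_le_rpow_of_exponent_le (by linarith)
      push_cast at hn2 ⊢
      linarith
    have h2 : (8 : ℝ) * Real.exp (8 * L) ≤ (z : ℝ) ^ (20 * L - 6) := by
      have h3 : (2 : ℝ) ^ (20 * L - 6) ≤ (z : ℝ) ^ (20 * L - 6) :=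
        Real.rpow_le_rpow (by norm_num) hz2 (by linarith)
      refine le_trans ?_ h3
      have h4 : (8 : ℝ) = Real.exp (3 * Real.log 2) := by
        have : (3 : ℝ) * Real.log 2 = Real.log (2 ^ 3) := by rw [Real.log_pow]; norm_num
        rw [this, Real.exp_log (by norm_num)]
        norm_num
      rw [h4, ← Real.exp_add, Real.rpow_def_of_pos (by norm_num)]
      apply Real.exp_le_exp.2
      have h5 := Real.log_two_gt_d9
      nlinarith
    have h3 : (z : ℝ) ^ (100 * L) = (z : ℝ) ^ (80 * L + 6) * (z : ℝ) ^ (20 * L - 6) := by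
      rw [← Real.rpow_add hz0]; congr 1; ring
    have h4 : (z : ℝ) ^ (100 * L) ≤ (M : ℝ) / pr V := by
      rw [le_div_iff₀ hprV]
      exact hM
    have h5 : 0 < (z : ℝ) ^ (80 * L + 6) := Real.rpow_pos_of_pos hz0 _
    have h6 : 8 * (z : ℝ) ^ (80 * L + 6) ≤ main := by
      calc 8 * (z : ℝ) ^ (80 * L + 6)
          = (z : ℝ) ^ (80 * L + 6) * (8 * Real.exp (8 * L)) * Real.exp (-(8 * L)) := by
            rw [Real.exp_neg]
            field_simp
        _ ≤ (z : ℝ) ^ (80 * L + 6) * (z : ℝ) ^ (20 * L - 6) * Real.exp (-(8 * L)) := by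
            apply mul_le_mul_of_nonneg_right _ (Real.exp_pos _).le
            exact mul_le_mul_of_nonneg_left h2 h5.le
        _ ≤ (M : ℝ) / pr V * PQ' := by
            rw [← h3]
            exact mul_le_mul h4 hPlow (Real.exp_pos _).le (by positivity)
    linarith
  -- the sum is the cardinality
  have hsum : ∑ m ∈ range M, (∏ p ∈ Q, (1 - x p (c + W * m))) * ∏ p ∈ V, g p (c + W * m) =
      (#{m ∈ range M | (∀ p ∈ V, (c + W * m) % p = β p % p) ∧
        ∀ p ∈ Q, (c + W * m) % p ∉ Ω p} : ℝ) := by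
    rw [Finset.card_filter]
    push_cast
    refine Finset.sum_congr rfl fun m _ => ?_
    by_cases h1 : ∀ p ∈ V, (c + W * m) % p = β p % p
    · have e1 : ∏ p ∈ V, g p (c + W * m) = 1 :=
        Finset.prod_eq_one fun p hp => by simp only [hg]; rw [if_pos (h1 p hp)]
      by_cases h2 : ∀ p ∈ Q, (c + W * m) % p ∉ Ω p
      · have e2 : ∏ p ∈ Q, (1 - x p (c + W * m)) = 1 :=
          Finset.prod_eq_one fun p hp => by simp only [hx]; rw [if_neg (h2 p hp)]; norm_num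
        rw [e1, e2, if_pos ⟨h1, h2⟩, one_mul]
      · rw [if_neg fun h => h2 h.2]
        push Not at h2
        obtain ⟨p, hp, hpm⟩ := h2
        rw [Finset.prod_eq_zero hp (by simp only [hx]; rw [if_pos hpm]; norm_num), zero_mul]
    · rw [if_neg fun h => h1 h.1]
      push Not at h1
      obtain ⟨p, hp, hpm⟩ := h1
      rw [Finset.prod_eq_zero (s := V) hp (by simp only [hg]; rw [if_neg hpm]), mul_zero]
  rw [hsum] at key
  have hmain0 : 0 ≤ main := by
    rw [hmain]; positivity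
  rw [abs_le] at key
  constructor
  · linarith [key.1]
  · linarith [key.2]

end SP15
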