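import Pool.Agent.LibSP15.Defs
import Pool.Agent.LibSP15.S1

/-!
# SP15, row S2 (size M)

PLAN. Interval form of S1. The n ∈ (N, N+Y] with n ≡ c mod W are `c' + W m`, m < M with Y/W - 1 ≤ M ≤ Y/W + 1 (c' = least such n > N). Y/W ≥ 2 gives Y/(2W) ≤ M ≤ 3Y/(2W). Apply
S1 with c', M (hypothesis: z^(100L) pr V ≤ Y/(2W) ≤ M). Constants 1/2 * 1/2 = 1/4 and 3/2 * 3/2 ≤ 3. n % p = β p % p etc. transfer by the bijection.
-/

set_option autoImplicit false

namespace SP15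

open Finset Filter

private theorem S2_start {W : ℕ} (hW : 1 ≤ W) (c N : ℕ) :
    ∃ c', N < c' ∧ c' ≤ N + W ∧ c' % W = c % W := by
  have h1 : W * (N / W) + N % W = N := Nat.div_add_mod N W
  have h2 : N % W < W := Nat.mod_lt _ hW
  have h3 : c % W < W := Nat.mod_lt _ hW
  by_cases h : N % W < c % W
  · refine ⟨W * (N / W) + c % W, by omega, by omega, ?_⟩
    rw [Nat.mul_add_mod, Nat.mod_mod]
  · refine ⟨W * (N / W) + (W + c % W), by omega, by omega, ?_⟩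
    rw [Nat.mul_add_mod, Nat.add_mod_left, Nat.mod_mod]

theorem S2_interval : ∃ L₀ : ℝ, 1 ≤ L₀ ∧ ∀ (L : ℝ) (z : ℕ), L₀ ≤ L → 2 ≤ z → Real.log (Real.log z) ≤ L →
    ∀ (W c N Y : ℕ) (Q V : Finset ℕ) (Ω : ℕ → Finset ℕ) (β : ℕ → ℕ), 1 ≤ W →
    (∀ p ∈ Q, p.Prime ∧ ¬ p ∣ W ∧ p ≤ z ∧ Ω p ⊆ range p ∧ #(Ω p) ≤ 3 ∧ 3 * #(Ω p) ≤ 2 * p) →
    (∀ p ∈ V, p.Prime ∧ ¬ p ∣ W) → Disjoint Q V → 2 * W * ((z : ℝ) ^ (100 * L) * pr V) ≤ Y →
    (1 / 4 : ℝ) * (Y / (W * pr V) * ∏ p ∈ Q, (1 - (#(Ω p) : ℝ) / p)) ≤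
      #{n ∈ Ioc N (N + Y) | n % W = c % W ∧ (∀ p ∈ V, n % p = β p % p) ∧ ∀ p ∈ Q, n % p ∉ Ω p} ∧
    (#{n ∈ Ioc N (N + Y) | n % W = c % W ∧ (∀ p ∈ V, n % p = β p % p) ∧ ∀ p ∈ Q, n % p ∉ Ω p} : ℝ) ≤
      3 * (Y / (W * pr V) * ∏ p ∈ Q, (1 - (#(Ω p) : ℝ) / p)) := by
  obtain ⟨L₀, hL₀, hS⟩ := S1_sieve
  refine ⟨L₀, hL₀, fun L z hL hz hzL W c N Y Q V Ω β hW hQ hV hd hY => ?_⟩
  have hW0 : (0 : ℝ) < W := by exact_mod_cast hW
  have hprV : (1 : ℝ) ≤ pr V := by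
    have : 0 < pr V := Finset.prod_pos fun p hp => (hV p hp).1.pos
    exact_mod_cast this
  have hz1 : (1 : ℝ) ≤ (z : ℝ) ^ (100 * L) :=
    Real.one_le_rpow (by exact_mod_cast (by omega : 1 ≤ z)) (by linarith)
  have hprod : 0 ≤ ∏ p ∈ Q, (1 - (#(Ω p) : ℝ) / p) := by
    refine Finset.prod_nonneg fun p hp => ?_
    obtain ⟨h1, _, _, _, _, h2⟩ := hQ p hp
    have hp0 : (0 : ℝ) < p := by exact_mod_cast h1.pos
    rw [sub_nonneg, div_le_one hp0]
    have h3 : (3 : ℝ) * #(Ω p) ≤ 2 * p := by exact_mod_cast h2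
    have h4 : (0 : ℝ) ≤ p := hp0.le
    linarith
  have h2W : (2 : ℝ) * W ≤ Y := by
    have h1 : (1 : ℝ) ≤ (z : ℝ) ^ (100 * L) * pr V := one_le_mul_of_one_le_of_one_le hz1 hprV
    have h2 : 2 * (W : ℝ) * 1 ≤ 2 * W * ((z : ℝ) ^ (100 * L) * pr V) :=
      mul_le_mul_of_nonneg_left h1 (by positivity)
    linarith
  have h2W' : 2 * W ≤ Y := by exact_mod_cast h2W
  obtain ⟨c', hc1, hc2, hc3⟩ := S2_start hW c N
  obtain ⟨M, hM⟩ : ∃ M, M = (N + Y - c') / W + 1 := ⟨_, rfl⟩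
  have hcard : #{n ∈ Ioc N (N + Y) | n % W = c % W ∧ (∀ p ∈ V, n % p = β p % p) ∧
      ∀ p ∈ Q, n % p ∉ Ω p} =
      #{m ∈ range M | (∀ p ∈ V, (c' + W * m) % p = β p % p) ∧
        ∀ p ∈ Q, (c' + W * m) % p ∉ Ω p} := by
    symm
    refine Finset.card_bij (fun m _ => c' + W * m) ?_ ?_ ?_
    · intro m hm
      rw [mem_filter, mem_range] at hm
      rw [mem_filter, mem_Ioc]
      obtain ⟨h1, h2⟩ := hm
      refine ⟨⟨by omega, ?_⟩, ?_, h2⟩
      · have h3 : m ≤ (N + Y - c') / W := by omega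
        have h4 := (Nat.le_div_iff_mul_le hW).1 h3
        rw [mul_comm] at h4
        omega
      · rw [Nat.add_mul_mod_self_left, hc3]
    · intro m _ m' _ h
      have h1 : W * m = W * m' := by omega
      exact Nat.eq_of_mul_eq_mul_left hW h1
    · intro n hn
      rw [mem_filter, mem_Ioc] at hn
      obtain ⟨⟨h1, h2⟩, h3, h4⟩ := hn
      have h5 : c' ≤ n := by
        by_contra hlt
        push Not at hlt
        have h6 : (c' - n) % W = 0 := by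
          have h7 : n ≡ c' [MOD W] := by
            unfold Nat.ModEq
            rw [h3, hc3]
          exact Nat.eq_zero_of_dvd_of_lt ((Nat.modEq_iff_dvd' hlt.le).1 h7 |> fun h =>
            (by rw [Nat.dvd_iff_mod_eq_zero] at h; rw [h]; exact dvd_zero W)) (Nat.mod_lt _ hW)
        have h8 : W ∣ c' - n := Nat.dvd_of_mod_eq_zero h6
        have h9 := Nat.le_of_dvd (by omega) h8
        omega
      have h6 : W ∣ n - c' := by
        have h7 : c' ≡ n [MOD W] := by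
          unfold Nat.ModEq
          rw [h3, hc3]
        exact (Nat.modEq_iff_dvd' h5).1 h7
      obtain ⟨m, hm⟩ := h6
      have h7 : n = c' + W * m := by omega
      refine ⟨m, ?_, h7.symm⟩
      rw [mem_filter, mem_range]
      refine ⟨?_, ?_⟩
      · rw [hM, Nat.lt_succ_iff, Nat.le_div_iff_mul_le hW, mul_comm]
        omega
      · rw [← h7]
        exact h4
  -- size of `M`
  have hM1 : W * M ≤ Y + W := by
    have h1 : W * ((N + Y - c') / W) ≤ N + Y - c' := Nat.mul_div_le _ _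
    rw [hM, mul_add, mul_one]
    omega
  have hM2 : Y ≤ W * M + W := by
    have h1 : N + Y - c' < W * ((N + Y - c') / W + 1) := by
      have := Nat.div_add_mod (N + Y - c') W
      have h2 := Nat.mod_lt (N + Y - c') hW
      rw [mul_add, mul_one]
      omega
    rw [← hM] at h1
    omega
  have hM1' : (W : ℝ) * M ≤ 3 / 2 * Y := by
    have h1 : (W : ℝ) * M ≤ Y + W := by exact_mod_cast hM1
    linarith
  have hM2' : (Y : ℝ) ≤ 2 * (W * M) := by
    have h1 : (Y : ℝ) ≤ W * M + W := by exact_mod_cast hM2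
    linarith
  have hcond : (z : ℝ) ^ (100 * L) * pr V ≤ M := by
    have h1 : 2 * (W : ℝ) * ((z : ℝ) ^ (100 * L) * pr V) ≤ 2 * W * M := by
      refine hY.trans (hM2'.trans (le_of_eq ?_))
      ring
    exact le_of_mul_le_mul_left h1 (by positivity)
  obtain ⟨h1, h2⟩ := hS L z hL hz hzL W c' M Q V Ω β hQ hV hd hcond
  rw [hcard]
  have hV0 : (0 : ℝ) < pr V := by linarith
  constructor
  · refine le_trans ?_ h1
    have h3 : (Y : ℝ) / (W * pr V) ≤ 2 * (M / pr V) := by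
      rw [div_le_iff₀ (by positivity)]
      have h4 : 2 * ((M : ℝ) / pr V) * (W * pr V) = 2 * (W * M) := by
        field_simp
      rw [h4]
      exact hM2'
    have h4 := mul_le_mul_of_nonneg_right h3 hprod
    linarith
  · refine h2.trans ?_
    have h3 : (M : ℝ) / pr V ≤ 3 / 2 * (Y / (W * pr V)) := by
      rw [div_le_iff₀ hV0]
      have h4 : 3 / 2 * ((Y : ℝ) / (W * pr V)) * pr V = 3 / 2 * Y / W := by
        field_simp
      rw [h4, le_div_iff₀ hW0, mul_comm]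
      exact hM1'
    have h4 := mul_le_mul_of_nonneg_right h3 hprod
    have h5 : 0 ≤ (Y : ℝ) / (W * pr V) * ∏ p ∈ Q, (1 - (#(Ω p) : ℝ) / p) :=
      mul_nonneg (by positivity) hprod
    linarith

end SP15
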