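import Pool.Agent.LibSP15.Defs
import Pool.Agent.LibSP15.S2
import Pool.Agent.LibSP15.P1
import Pool.Agent.LibSP15.P2
import Pool.Agent.LibSP15.E1
import Pool.Agent.LibSP15.E2
import Pool.Agent.LibSP15.B3

/-!
# SP15, row C1a (size L)

PLAN. S2 with modulus W₀ = 4l (class 1 mod 4, t mod l by CRT), V = W ∪ U, β p = ρ on W, 0 on U, Q = PQ l z minus V with Ω p = {0}, z = zz X, L = LL X. sm n = U ⇔ p | n on U and p ∤ n on Q and (p ∤ n on W: from ρ coprime). Main term N/(4 l pr W pr U) ∏_Q (1-1/p);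
∏_Q ≥ c/log zz ≥ c/log X (P1), ≤ C/log zz (P2 with y = 4, D = V ∪ {l}, ∑_D 1/p ≤ 1) ≤ C LL/log X.
-/

set_option autoImplicit false

namespace SP15

open Finset Filter

private theorem C1a_PQ {l z p : ℕ} (h : p ∈ PQ l z) : p.Prime ∧ 3 ≤ p ∧ p ≤ z ∧ p ≠ l := by
  unfold PQ at h
  rw [Finset.mem_filter, Finset.mem_Icc] at h
  exact ⟨h.2.1, h.1.1, h.1.2, h.2.2⟩

private theorem C1a_ndvd {l z p : ℕ} (hl : l.Prime) (h : p ∈ PQ l z) : ¬ p ∣ 4 * l := by
  obtain ⟨h1, h2, -, h4⟩ := C1a_PQ h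
  intro hd
  rcases h1.dvd_mul.1 hd with hd | hd
  · have h5 : p ∣ 2 := h1.dvd_of_dvd_pow (show p ∣ 2 ^ 2 by simpa using hd)
    have := Nat.le_of_dvd (by norm_num) h5
    omega
  · exact h4 ((Nat.prime_dvd_prime_iff_eq h1 hl).1 hd)

private theorem C1a_mod_pr {W : Finset ℕ} (hW : ∀ p ∈ W, p.Prime) (n ρ : ℕ) :
    n % pr W = ρ % pr W ↔ ∀ p ∈ W, n % p = ρ % p := by
  constructor
  · intro h p hp
    have h1 : p ∣ pr W := Finset.dvd_prod_of_mem _ hp
    exact Nat.ModEq.of_dvd h1 h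
  · intro h
    change n ≡ ρ [MOD pr W]
    rw [Nat.modEq_iff_dvd, Int.natCast_dvd]
    unfold pr
    refine Finset.prod_primes_dvd _ (fun p hp => (hW p hp).prime) fun p hp => ?_
    rw [← Int.natCast_dvd, ← Nat.modEq_iff_dvd]
    exact h p hp

private theorem C1a_crt {l : ℕ} (hl : Nat.Coprime 4 l) (t : ℕ) :
    ∃ c : ℕ, ∀ n : ℕ, (n % 4 = 1 ∧ n % l = t % l) ↔ n % (4 * l) = c % (4 * l) := by
  obtain ⟨c, hc1, hc2⟩ := Nat.chineseRemainder hl 1 t
  refine ⟨c, fun n => ?_⟩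
  have h := Nat.modEq_and_modEq_iff_modEq_mul (a := n) (b := c) hl
  constructor
  · rintro ⟨h1, h2⟩
    refine h.1 ⟨?_, ?_⟩
    · have h3 : n ≡ 1 [MOD 4] := h1
      exact h3.trans hc1.symm
    · have h3 : n ≡ t [MOD l] := h2
      exact h3.trans hc2.symm
  · intro h1
    obtain ⟨h2, h3⟩ := h.2 h1
    exact ⟨h2.trans hc1, h3.trans hc2⟩

private theorem C1a_card_eq {l z N t ρ c : ℕ} {W U : Finset ℕ} (hW : ∀ p ∈ W, p ∈ PQ l z)
    (hU : ∀ p ∈ U, p ∈ PQ l z) (hWU : Disjoint W U) (hρ : (pr W).Coprime ρ)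
    (hc : ∀ n : ℕ, (n % 4 = 1 ∧ n % l = t % l) ↔ n % (4 * l) = c % (4 * l)) :
    #{n ∈ Ioc N (2 * N) | n % 4 = 1 ∧ n % l = t % l ∧ n % pr W = ρ % pr W ∧ sm l z n = U} =
    #{n ∈ Ioc N (N + N) | n % (4 * l) = c % (4 * l) ∧
      (∀ p ∈ W ∪ U, n % p = (if p ∈ W then ρ else 0) % p) ∧
      ∀ p ∈ PQ l z \ (W ∪ U), n % p ∉ ({0} : Finset ℕ)} := by
  congr 1
  rw [← two_mul]
  refine Finset.filter_congr fun n _ => ?_
  have hWp : ∀ p ∈ W, p.Prime := fun p hp => (C1a_PQ (hW p hp)).1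
  rw [← hc n, C1a_mod_pr hWp]
  constructor
  · rintro ⟨h1, h2, h3, h4⟩
    refine ⟨⟨h1, h2⟩, fun p hp => ?_, fun p hp => ?_⟩
    · by_cases hpW : p ∈ W
      · rw [if_pos hpW]
        exact h3 p hpW
      · rw [if_neg hpW, Nat.zero_mod]
        have hpU : p ∈ U := (Finset.mem_union.1 hp).resolve_left hpW
        rw [← h4] at hpU
        unfold sm at hpU
        exact Nat.mod_eq_zero_of_dvd (Finset.mem_filter.1 hpU).2
    · rw [Finset.mem_singleton]
      intro h0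
      obtain ⟨hp1, hp2⟩ := Finset.mem_sdiff.1 hp
      refine hp2 (Finset.mem_union_right _ ?_)
      rw [← h4]
      unfold sm
      exact Finset.mem_filter.2 ⟨hp1, Nat.dvd_of_mod_eq_zero h0⟩
  · rintro ⟨⟨h1, h2⟩, h3, h4⟩
    have h5 : ∀ p ∈ W, n % p = ρ % p := fun p hp => by
      have := h3 p (Finset.mem_union_left _ hp)
      rwa [if_pos hp] at this
    refine ⟨h1, h2, h5, ?_⟩
    ext p
    unfold sm
    rw [Finset.mem_filter]
    constructor
    · rintro ⟨hp1, hp2⟩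
      have hpW : p ∉ W := by
        intro hpW
        have h6 : p ∣ ρ := by
          have h7 := h5 p hpW
          rw [Nat.mod_eq_zero_of_dvd hp2] at h7
          exact Nat.dvd_of_mod_eq_zero h7.symm
        have h8 : p ∣ pr W := Finset.dvd_prod_of_mem _ hpW
        have h9 := Nat.dvd_gcd h8 h6
        rw [hρ] at h9
        exact (hWp p hpW).one_lt.ne' (Nat.dvd_one.1 h9)
      by_contra hpU
      refine h4 p (Finset.mem_sdiff.2 ⟨hp1, fun h => ?_⟩) ?_
      · exact (Finset.mem_union.1 h).elim hpW hpU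
      · rw [Finset.mem_singleton]
        exact Nat.mod_eq_zero_of_dvd hp2
    · intro hpU
      refine ⟨hU p hpU, ?_⟩
      have h6 := h3 p (Finset.mem_union_right _ hpU)
      rw [if_neg (fun h => Finset.disjoint_left.1 hWU h hpU), Nat.zero_mod] at h6
      exact Nat.dvd_of_mod_eq_zero h6

/-- one variable: the numbers `n0` -/
theorem C1a_n0 (P : Par) : ∃ c C : ℝ, 0 < c ∧ 1 ≤ C ∧ ∀ᶠ X : ℕ in atTop,
    ∀ (N t ρ : ℕ) (W U : Finset ℕ), W ∈ Reg P X P.a → U ∈ Reg P X P.b → Disjoint W U →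
    (X : ℝ) ^ (1 / 3 : ℝ) ≤ N → N ≤ X → P.l.Coprime t → (pr W).Coprime ρ →
    c * ((N : ℝ) / (pr W * Real.log X) * iw U) ≤
      #{n ∈ Ioc N (2 * N) | n % 4 = 1 ∧ n % P.l = t % P.l ∧ n % pr W = ρ % pr W ∧ sm P.l (zz X) n = U} ∧
    (#{n ∈ Ioc N (2 * N) | n % 4 = 1 ∧ n % P.l = t % P.l ∧ n % pr W = ρ % pr W ∧
        sm P.l (zz X) n = U} : ℝ) ≤ C * LL X * ((N : ℝ) / (pr W * Real.log X) * iw U) := by
  classical
  obtain ⟨L₀, hL₀, hS⟩ := S2_interval
  obtain ⟨c1, hc1, hP1⟩ := P1_lower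
  obtain ⟨C1, hC1, hP2⟩ := P2_upper
  obtain ⟨CE, hCE, eE⟩ := E1_scales P
  have hl0 : 0 < P.l := P.hl.pos
  have hlR : (0 : ℝ) < P.l := by exact_mod_cast hl0
  have hl3 := P.hl3
  have hcop : Nat.Coprime 4 P.l := by
    have h1 : Nat.Coprime 2 P.l := (Nat.coprime_primes Nat.prime_two P.hl).2 (by omega)
    have h2 : Nat.Coprime (2 ^ 2) P.l := h1.pow_left 2
    simpa using h2
  have hlog4 : 0 < Real.log 4 := Real.log_pos (by norm_num)
  have eX : ∀ᶠ X : ℕ in atTop, 8 * (P.l : ℝ) ≤ (X : ℝ) ^ (2 / 15 : ℝ) :=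
    ((tendsto_rpow_atTop (show (0 : ℝ) < 2 / 15 by norm_num)).comp
      tendsto_natCast_atTop_atTop).eventually_ge_atTop _
  have eL : ∀ᶠ X : ℕ in atTop, L₀ ≤ LL X := by
    have h1 : Tendsto (fun X : ℕ => LL X) atTop atTop :=
      Real.tendsto_log_atTop.comp (Real.tendsto_log_atTop.comp tendsto_natCast_atTop_atTop)
    exact h1.eventually_ge_atTop _
  refine ⟨c1 / (16 * P.l), 3 * (C1 * (Real.log 4 * 2000)) / 4 + 1, by positivity, by
    have : 0 ≤ 3 * (C1 * (Real.log 4 * 2000)) / 4 := by positivity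
    linarith, ?_⟩
  filter_upwards [eE, E2_powers, B3_size P, eX, eL, eventually_ge_atTop 3] with X eE eP eB eX eL hX3
  intro N t ρ W U hW hU hWU hN hNX ht hρ
  obtain ⟨hLL, hzs, -, -, hz1, hz2, -⟩ := eE
  obtain ⟨p1, -, p3, p4, p5, -⟩ := eP
  set z := zz X with hz
  set x := Real.log X with hx
  have hX1 : (1 : ℝ) ≤ X := by exact_mod_cast (by omega : 1 ≤ X)
  have hX0 : (0 : ℝ) < X := by linarith
  have hL0 : 0 < LL X := by linarith
  have hz100 : 100 ≤ z := hzs.trans p3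
  have hzR : (100 : ℝ) ≤ z := by exact_mod_cast hz100
  have hlz : 0 < Real.log z := Real.log_pos (by linarith)
  have hx0 : 0 < x := by
    refine Real.log_pos ?_
    exact_mod_cast (by omega : 1 < X)
  have hzx : Real.log z ≤ x := by
    refine hz2.trans ?_
    refine div_le_self hx0.le ?_
    nlinarith
  -- sizes of `W`, `U`
  have hWA : P.a ≤ P.A := by unfold Par.A; omega
  have hUA : P.b ≤ P.A := by unfold Par.A; omega
  obtain ⟨w1, w2, -, w4⟩ := eB P.a hWA W hW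
  obtain ⟨u1, u2, -, u4⟩ := eB P.b hUA U hU
  have hWQ : ∀ p ∈ W, p ∈ PQ P.l z := fun p hp => (w2 p hp).2
  have hUQ : ∀ p ∈ U, p ∈ PQ P.l z := fun p hp => (u2 p hp).2
  have hVQ : ∀ p ∈ W ∪ U, p ∈ PQ P.l z := fun p hp =>
    (Finset.mem_union.1 hp).elim (hWQ p) (hUQ p)
  have hprV : pr (W ∪ U) = pr W * pr U := Finset.prod_union hWU
  have hprW : (0 : ℝ) < pr W := by
    have : 0 < pr W := Finset.prod_pos fun p hp => (C1a_PQ (hWQ p hp)).1.pos
    exact_mod_cast this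
  have hprU : (0 : ℝ) < pr U := by
    have : 0 < pr U := Finset.prod_pos fun p hp => (C1a_PQ (hUQ p hp)).1.pos
    exact_mod_cast this
  have hiw : iw U = (pr U : ℝ)⁻¹ := by
    unfold iw pr
    rw [Nat.cast_prod, Finset.prod_inv_distrib]
  -- the sieve
  obtain ⟨c, hc⟩ := C1a_crt hcop t
  have hsize : 2 * ((4 * P.l : ℕ) : ℝ) * ((z : ℝ) ^ (100 * LL X) * pr (W ∪ U)) ≤ (N : ℝ) := by
    have h1 : (pr (W ∪ U) : ℝ) ≤ (X : ℝ) ^ (1 / 10 : ℝ) := by
      rw [hprV]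
      push_cast
      have hz0 : (0 : ℝ) ≤ z := by positivity
      calc (pr W : ℝ) * pr U ≤ (z : ℝ) ^ (1 / 20 : ℝ) * (z : ℝ) ^ (1 / 20 : ℝ) :=
            mul_le_mul w1 u1 hprU.le (by positivity)
        _ = (z : ℝ) ^ (1 / 10 : ℝ) := by
            rw [← Real.rpow_add (by linarith)]
            norm_num
        _ ≤ (X : ℝ) ^ (1 / 10 : ℝ) := by
            refine Real.rpow_le_rpow hz0 ?_ (by norm_num)
            refine p4.trans ?_
            calc (X : ℝ) ^ (1 / 1000 : ℝ) ≤ (X : ℝ) ^ (1 : ℝ) :=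
                  Real.rpow_le_rpow_of_exponent_le hX1 (by norm_num)
              _ = X := Real.rpow_one _
    calc 2 * ((4 * P.l : ℕ) : ℝ) * ((z : ℝ) ^ (100 * LL X) * pr (W ∪ U))
        = 8 * P.l * ((z : ℝ) ^ (100 * LL X) * pr (W ∪ U)) := by push_cast; ring
      _ ≤ (X : ℝ) ^ (2 / 15 : ℝ) * ((X : ℝ) ^ (1 / 10 : ℝ) * (X : ℝ) ^ (1 / 10 : ℝ)) := by
          refine mul_le_mul eX ?_ (by positivity) (by positivity)
          exact mul_le_mul p1 h1 (by positivity) (by positivity)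
      _ = (X : ℝ) ^ (1 / 3 : ℝ) := by
          rw [← Real.rpow_add hX0, ← Real.rpow_add hX0]
          norm_num
      _ ≤ N := hN
  obtain ⟨s1, s2⟩ := hS (LL X) z eL (by omega) p5 (4 * P.l) c N N (PQ P.l z \ (W ∪ U)) (W ∪ U)
    (fun _ => {0}) (fun p => if p ∈ W then ρ else 0) (by omega)
    (fun p hp => by
      have hp' := (Finset.mem_sdiff.1 hp).1
      obtain ⟨h1, h2, h3, -⟩ := C1a_PQ hp'
      refine ⟨h1, C1a_ndvd P.hl hp', h3, ?_, ?_, ?_⟩
      · intro y hy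
        rw [Finset.mem_singleton] at hy
        rw [hy, Finset.mem_range]
        omega
      · simp
      · simp
        omega)
    (fun p hp => ⟨(C1a_PQ (hVQ p hp)).1, C1a_ndvd P.hl (hVQ p hp)⟩)
    Finset.sdiff_disjoint hsize
  rw [C1a_card_eq hWQ hUQ hWU hρ hc]
  simp only [Finset.card_singleton, Nat.cast_one] at s1 s2
  -- the product
  have hprod1 : c1 / x ≤ ∏ p ∈ PQ P.l z \ (W ∪ U), (1 - 1 / (p : ℝ)) := by
    refine le_trans ?_ (hP1 z (by omega) (PQ P.l z \ (W ∪ U)) fun p hp => by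
      obtain ⟨h1, h2, h3, -⟩ := C1a_PQ (Finset.mem_sdiff.1 hp).1
      exact ⟨h1, h2, h3⟩).1
    exact div_le_div_of_nonneg_left hc1.le hlz hzx
  have hprod2 : ∏ p ∈ PQ P.l z \ (W ∪ U), (1 - 1 / (p : ℝ)) ≤
      C1 * (Real.log 4 * 2000) * LL X / x := by
    have hD : ∀ p ∈ insert P.l (W ∪ U), p.Prime := by
      intro p hp
      rcases Finset.mem_insert.1 hp with rfl | hp
      · exact P.hl
      · exact (C1a_PQ (hVQ p hp)).1
    have hDs : ∑ p ∈ insert P.l (W ∪ U), 1 / (p : ℝ) ≤ 1 := by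
      have hlV : P.l ∉ W ∪ U := fun h => (C1a_PQ (hVQ _ h)).2.2.2 rfl
      rw [Finset.sum_insert hlV, Finset.sum_union hWU]
      have h1 : 1 / (P.l : ℝ) ≤ 1 / 3 := by
        refine div_le_div_of_nonneg_left (by norm_num) (by norm_num) ?_
        exact_mod_cast hl3.le
      linarith
    have h1 := hP2 1 4 z (by norm_num) le_rfl (by linarith) (insert P.l (W ∪ U)) hD hDs
    set S' := (Icc 1 z).filter (fun p : ℕ => p.Prime ∧ (4 : ℝ) < p ∧ p ∉ insert P.l (W ∪ U))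
      with hS'
    have hsub : S' ⊆ PQ P.l z \ (W ∪ U) := by
      intro p hp
      rw [hS', Finset.mem_filter, Finset.mem_Icc] at hp
      obtain ⟨⟨h2, h3⟩, h4, h5, h6⟩ := hp
      rw [Finset.mem_insert, not_or] at h6
      refine Finset.mem_sdiff.2 ⟨?_, h6.2⟩
      unfold PQ
      rw [Finset.mem_filter, Finset.mem_Icc]
      refine ⟨⟨?_, h3⟩, h4, h6.1⟩
      have : 4 < p := by exact_mod_cast h5
      omega
    have hfac : ∀ p ∈ PQ P.l z \ (W ∪ U), 0 ≤ 1 - 1 / (p : ℝ) ∧ 1 - 1 / (p : ℝ) ≤ 1 := by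
      intro p hp
      obtain ⟨-, h2, -, -⟩ := C1a_PQ (Finset.mem_sdiff.1 hp).1
      have h3 : (3 : ℝ) ≤ p := by exact_mod_cast h2
      have h4 : 1 / (p : ℝ) ≤ 1 := by
        rw [div_le_one (by linarith)]
        linarith
      have h5 : 0 ≤ 1 / (p : ℝ) := by positivity
      exact ⟨by linarith, by linarith⟩
    have h7 : ∏ p ∈ PQ P.l z \ (W ∪ U), (1 - 1 / (p : ℝ)) ≤ ∏ p ∈ S', (1 - 1 / (p : ℝ)) := by
      rw [← Finset.prod_sdiff hsub]
      refine mul_le_of_le_one_left ?_ ?_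
      · exact Finset.prod_nonneg fun p hp => (hfac p (hsub hp)).1
      · exact Finset.prod_le_one (fun p hp => (hfac p (Finset.mem_sdiff.1 hp).1).1)
          fun p hp => (hfac p (Finset.mem_sdiff.1 hp).1).2
    refine h7.trans ?_
    simp only [Nat.cast_one, pow_one] at h1
    refine h1.trans ?_
    rw [mul_div_assoc, mul_assoc, mul_assoc]
    refine mul_le_mul_of_nonneg_left ?_ (by linarith)
    rw [div_eq_mul_inv]
    refine mul_le_mul_of_nonneg_left ?_ hlog4.le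
    rw [inv_eq_one_div, div_le_iff₀ hlz]
    have h8 : 1 = 2000 * (LL X / x) * (x / (2000 * LL X)) := by
      field_simp
    calc (1 : ℝ) = 2000 * (LL X / x) * (x / (2000 * LL X)) := h8
      _ ≤ 2000 * (LL X / x) * Real.log z := mul_le_mul_of_nonneg_left hz1 (by positivity)
  have hmain : (N : ℝ) / (((4 * P.l : ℕ) : ℝ) * (pr (W ∪ U) : ℝ)) =
      (N : ℝ) / (4 * P.l * pr W) * iw U := by
    rw [hprV, hiw]
    push_cast
    field_simp
  rw [hmain] at s1 s2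
  have hm0 : 0 ≤ (N : ℝ) / (4 * P.l * pr W) * iw U := by
    rw [hiw]
    positivity
  constructor
  · refine le_trans ?_ s1
    calc c1 / (16 * P.l) * ((N : ℝ) / (pr W * x) * iw U)
        = 1 / 4 * ((N : ℝ) / (4 * P.l * pr W) * iw U * (c1 / x)) := by
          field_simp
          ring
      _ ≤ _ := by
          refine mul_le_mul_of_nonneg_left ?_ (by norm_num)
          exact mul_le_mul_of_nonneg_left hprod1 hm0
  · refine s2.trans ?_
    have h1 : (1 : ℝ) ≤ P.l := by exact_mod_cast hl0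
    calc 3 * ((N : ℝ) / (4 * P.l * pr W) * iw U * ∏ p ∈ PQ P.l z \ (W ∪ U), (1 - 1 / (p : ℝ)))
        ≤ 3 * ((N : ℝ) / (4 * P.l * pr W) * iw U * (C1 * (Real.log 4 * 2000) * LL X / x)) := by
          refine mul_le_mul_of_nonneg_left ?_ (by norm_num)
          exact mul_le_mul_of_nonneg_left hprod2 hm0
      _ = (3 * (C1 * (Real.log 4 * 2000)) / 4) / P.l * LL X * ((N : ℝ) / (pr W * x) * iw U) := by
          field_simp
      _ ≤ (3 * (C1 * (Real.log 4 * 2000)) / 4 + 1) * LL X * ((N : ℝ) / (pr W * x) * iw U) := by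
          have h2 : 0 ≤ (N : ℝ) / (pr W * x) * iw U := by
            rw [hiw]
            positivity
          refine mul_le_mul_of_nonneg_right (mul_le_mul_of_nonneg_right ?_ hL0.le) h2
          have h3 : 0 ≤ 3 * (C1 * (Real.log 4 * 2000)) / 4 := by positivity
          have h4 := div_le_self h3 h1
          linarith

end SP15
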