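import Pool.Agent.LibSP15.Defs
import Pool.Agent.LibSP15.S2
import Pool.Agent.LibSP15.P1
import Pool.Agent.LibSP15.P2
import Pool.Agent.LibSP15.E1
import Pool.Agent.LibSP15.E2
import Pool.Agent.LibSP15.B3

/-!
# SP15, row C1b (size L)

PLAN. As C1a: modulus 4l, V = W ∪ U1 ∪ U2 with β = ρ on W, 0 on U2, -n on U1, Q = PQ l z minus V, Ω p = {0, (-n) mod p} (two classes, one class {0} if p | n i.e. p ∈ U0; for p = 3: 2 classes, 3*2 ≤ 2*3). For p ∈ U1: n+m ≡ 0, m ≡ -n ≠ 0; p ∈ U2: m ≡ 0, n+m ≡ n ≠ 0;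
p ∈ W: m ≡ ρ ≠ 0, n + m ≡ n + ρ ≠ 0; p ∈ Q: m, n+m ≠ 0. Main: N/(4 l pr W pr U1 pr U2) ∏_Q (1 - #Ω/p). Lower bound of ∏: P1 (k = 2, monotone in #Ω); upper: P2 with k = 2, y = 4, D = V ∪ U0 ∪ {l}.
-/

set_option autoImplicit false

namespace SP15

open Finset Filter

private theorem C1b_crt (l t : ℕ) (hl : Nat.Coprime 4 l) :
    ∃ c, ∀ m, m % (4 * l) = c % (4 * l) ↔ m % 4 = 1 ∧ m % l = t % l := by
  obtain ⟨c, h1, h2⟩ := Nat.chineseRemainder hl 1 t
  refine ⟨c, fun m => ?_⟩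
  have key := Nat.modEq_and_modEq_iff_modEq_mul hl (a := m) (b := c)
  constructor
  · intro h
    have h3 := key.mpr h
    exact ⟨h3.1.trans h1, h3.2.trans h2⟩
  · rintro ⟨h3, h4⟩
    exact key.mp ⟨Nat.ModEq.trans (show m ≡ 1 [MOD 4] from h3) h1.symm,
      Nat.ModEq.trans (show m ≡ t [MOD l] from h4) h2.symm⟩

private theorem C1b_modpr (W : Finset ℕ) (hW : ∀ p ∈ W, p.Prime) (m ρ : ℕ) :
    m % pr W = ρ % pr W ↔ ∀ p ∈ W, m % p = ρ % p := by
  constructor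
  · intro h p hp
    have h1 : p ∣ pr W := Finset.dvd_prod_of_mem _ hp
    exact Nat.ModEq.of_dvd h1 h
  · intro h
    have h1 : pr W ∣ ((ρ : ℤ) - m).natAbs := by
      unfold pr
      refine Finset.prod_primes_dvd _ (fun p hp => (hW p hp).prime) fun p hp => ?_
      exact Int.natCast_dvd.mp (Nat.modEq_iff_dvd.mp (show m ≡ ρ [MOD p] from h p hp))
    exact Nat.modEq_iff_dvd.mpr (Int.natCast_dvd.mpr h1)

private theorem C1b_neg {p n m : ℕ} (hp : 0 < p) : m % p = (n * (p - 1)) % p ↔ p ∣ n + m := by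
  obtain ⟨q, rfl⟩ : ∃ q, p = q + 1 := ⟨p - 1, by omega⟩
  rw [Nat.add_sub_cancel]
  have h0 : q + 1 ∣ n + n * q := ⟨n, by ring⟩
  constructor
  · intro h
    have h1 : n + m ≡ n + n * q [MOD (q + 1)] := Nat.ModEq.add_left n h
    exact (h1.dvd_iff (dvd_refl _)).mpr h0
  · intro h
    have h1 : n + m ≡ n + n * q [MOD (q + 1)] :=
      ((Nat.modEq_zero_iff_dvd.mpr h)).trans (Nat.modEq_zero_iff_dvd.mpr h0).symm
    exact Nat.ModEq.add_left_cancel' n h1

private theorem C1b_iff (l z n ρ t c : ℕ) (W U0 U1 U2 : Finset ℕ)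
    (hW : W ⊆ PQ l z) (hU1 : U1 ⊆ PQ l z) (hU2 : U2 ⊆ PQ l z)
    (h01 : Disjoint U0 U1) (h02 : Disjoint U0 U2) (h12 : Disjoint U1 U2)
    (hw1 : Disjoint W U1) (hw2 : Disjoint W U2) (hn : sm l z n = U0)
    (hρ : (pr W).Coprime ρ) (hnρ : (pr W).Coprime (n + ρ))
    (hc : ∀ m, m % (4 * l) = c % (4 * l) ↔ m % 4 = 1 ∧ m % l = t % l) (m : ℕ) :
    (m % 4 = 1 ∧ m % l = t % l ∧ m % pr W = ρ % pr W ∧ sm l z (n + m) = U1 ∧ sm l z m = U2) ↔
    (m % (4 * l) = c % (4 * l) ∧ (∀ p ∈ W ∪ U1 ∪ U2, m % p =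
      (if p ∈ W then ρ else if p ∈ U2 then 0 else n * (p - 1)) % p) ∧
      ∀ p ∈ PQ l z \ (W ∪ U1 ∪ U2), m % p ∉ ({0, (n * (p - 1)) % p} : Finset ℕ)) := by
  have hpr : ∀ p ∈ PQ l z, p.Prime := fun p hp => (mem_filter.mp hp).2.1
  have hWp : ∀ p ∈ W, p.Prime := fun p hp => hpr p (hW hp)
  have hdW : ∀ p ∈ W, p ∣ pr W := fun p hp => Finset.dvd_prod_of_mem _ hp
  have hmem0 : ∀ p ∈ PQ l z, p ∣ n → p ∈ U0 := fun p hp hd => by
    rw [← hn]
    exact mem_filter.mpr ⟨hp, hd⟩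
  rw [C1b_modpr W hWp, hc]
  constructor
  · rintro ⟨h1, h2, h3, h4, h5⟩
    refine ⟨⟨h1, h2⟩, fun p hp => ?_, fun p hp => ?_⟩
    · by_cases hpW : p ∈ W
      · rw [if_pos hpW]
        exact h3 p hpW
      · rw [if_neg hpW]
        by_cases hp2 : p ∈ U2
        · rw [if_pos hp2]
          rw [← h5] at hp2
          exact Nat.mod_eq_zero_of_dvd (mem_filter.mp hp2).2 |>.trans (Nat.zero_mod p).symm
        · rw [if_neg hp2]
          have hp1 : p ∈ U1 := by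
            rcases mem_union.mp hp with h | h
            · rcases mem_union.mp h with h | h
              · exact absurd h hpW
              · exact h
            · exact absurd h hp2
          have hpp := (hpr p (hU1 hp1)).pos
          rw [← h4] at hp1
          exact (C1b_neg hpp).mpr (mem_filter.mp hp1).2
    · rw [Finset.mem_sdiff, mem_union, mem_union] at hp
      obtain ⟨hpQ, hpV⟩ := hp
      have hpp := (hpr p hpQ).pos
      rw [mem_insert, mem_singleton]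
      rintro (h | h)
      · apply hpV
        right
        rw [← h5]
        exact mem_filter.mpr ⟨hpQ, Nat.dvd_of_mod_eq_zero h⟩
      · apply hpV
        left
        right
        rw [← h4]
        exact mem_filter.mpr ⟨hpQ, (C1b_neg hpp).mp h⟩
  · rintro ⟨⟨h1, h2⟩, h3, h4⟩
    have a1 : ∀ p ∈ W, m % p = ρ % p := fun p hp => by
      have := h3 p (mem_union_left _ (mem_union_left _ hp))
      rwa [if_pos hp] at this
    have a2 : ∀ p ∈ U2, p ∣ m := fun p hp => by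
      have := h3 p (mem_union_right _ hp)
      rw [if_neg (Finset.disjoint_right.mp hw2 hp), if_pos hp, Nat.zero_mod] at this
      exact Nat.dvd_of_mod_eq_zero this
    have a3 : ∀ p ∈ U1, p ∣ n + m := fun p hp => by
      have := h3 p (mem_union_left _ (mem_union_right _ hp))
      rw [if_neg (Finset.disjoint_right.mp hw1 hp), if_neg (Finset.disjoint_left.mp h12 hp)] at this
      exact (C1b_neg (hpr p (hU1 hp)).pos).mp this
    refine ⟨h1, h2, a1, ?_, ?_⟩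
    · ext p
      unfold sm
      rw [mem_filter]
      refine ⟨fun ⟨hpQ, hd⟩ => ?_, fun hp => ⟨hU1 hp, a3 p hp⟩⟩
      by_cases hpW : p ∈ W
      · exfalso
        have b1 : n + m ≡ n + ρ [MOD p] := Nat.ModEq.add_left n (a1 p hpW)
        have b2 : p ∣ n + ρ := (b1.dvd_iff (dvd_refl _)).mp hd
        exact (hpr p hpQ).one_lt.ne' (Nat.eq_one_of_dvd_coprimes hnρ (hdW p hpW) b2)
      by_cases hp1 : p ∈ U1
      · exact hp1
      by_cases hp2 : p ∈ U2
      · exfalso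
        have b1 : p ∣ n := (Nat.dvd_add_left (a2 p hp2)).mp hd
        exact Finset.disjoint_left.mp h02 (hmem0 p hpQ b1) hp2
      · exfalso
        refine h4 p (Finset.mem_sdiff.mpr ⟨hpQ, ?_⟩) ?_
        · rw [mem_union, mem_union]
          tauto
        · rw [mem_insert, mem_singleton]
          right
          exact (C1b_neg (hpr p hpQ).pos).mpr hd
    · ext p
      unfold sm
      rw [mem_filter]
      refine ⟨fun ⟨hpQ, hd⟩ => ?_, fun hp => ⟨hU2 hp, a2 p hp⟩⟩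
      by_cases hpW : p ∈ W
      · exfalso
        have b1 : m ≡ ρ [MOD p] := a1 p hpW
        have b2 : p ∣ ρ := (b1.dvd_iff (dvd_refl _)).mp hd
        exact (hpr p hpQ).one_lt.ne' (Nat.eq_one_of_dvd_coprimes hρ (hdW p hpW) b2)
      by_cases hp1 : p ∈ U1
      · exfalso
        have b1 : p ∣ n := (Nat.dvd_add_right hd).mp (by rw [add_comm]; exact a3 p hp1)
        exact Finset.disjoint_left.mp h01 (hmem0 p hpQ b1) hp1
      by_cases hp2 : p ∈ U2
      · exact hp2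
      · exfalso
        refine h4 p (Finset.mem_sdiff.mpr ⟨hpQ, ?_⟩) ?_
        · rw [mem_union, mem_union]
          tauto
        · rw [mem_insert]
          left
          exact Nat.mod_eq_zero_of_dvd hd

private theorem C1b_iw (U : Finset ℕ) : iw U = (pr U : ℝ)⁻¹ := by
  unfold iw pr
  rw [Finset.prod_inv_distrib, Nat.cast_prod]

private theorem C1b_pr_union {U V : Finset ℕ} (h : Disjoint U V) :
    (pr (U ∪ V) : ℝ) = pr U * pr V := by
  unfold pr
  rw [Finset.prod_union h]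
  push_cast
  rfl

private theorem C1b_pr_pos {U : Finset ℕ} (h : ∀ p ∈ U, p.Prime) : (0 : ℝ) < pr U := by
  unfold pr
  exact_mod_cast Finset.prod_pos fun p hp => (h p hp).pos

/-- one variable: the numbers `n2` for a fixed `n0` -/
theorem C1b_n2 (P : Par) : ∃ c C : ℝ, 0 < c ∧ 1 ≤ C ∧ ∀ᶠ X : ℕ in atTop,
    ∀ (N t ρ n : ℕ) (W U0 U1 U2 : Finset ℕ), W ∈ Reg P X P.a → U0 ∈ Reg P X P.b →
    U1 ∈ Reg P X P.b → U2 ∈ Reg P X P.b → Disjoint U0 U1 → Disjoint U0 U2 → Disjoint U1 U2 →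
    Disjoint W U0 → Disjoint W U1 → Disjoint W U2 → (X : ℝ) ^ (1 / 3 : ℝ) ≤ N → N ≤ X → P.l.Coprime t →
    sm P.l (zz X) n = U0 → n % 4 = 1 → n % P.l = t % P.l → (pr W).Coprime ρ → (pr W).Coprime (n + ρ) →
    c * ((N : ℝ) / (pr W * Real.log X ^ 2) * (iw U1 * iw U2)) ≤
      #{m ∈ Ioc N (2 * N) | m % 4 = 1 ∧ m % P.l = t % P.l ∧ m % pr W = ρ % pr W ∧
        sm P.l (zz X) (n + m) = U1 ∧ sm P.l (zz X) m = U2} ∧
    (#{m ∈ Ioc N (2 * N) | m % 4 = 1 ∧ m % P.l = t % P.l ∧ m % pr W = ρ % pr W ∧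
        sm P.l (zz X) (n + m) = U1 ∧ sm P.l (zz X) m = U2} : ℝ) ≤
      C * LL X ^ 2 * ((N : ℝ) / (pr W * Real.log X ^ 2) * (iw U1 * iw U2)) := by
  obtain ⟨L₀, hL₀, hS⟩ := S2_interval
  obtain ⟨c1, hc1, hP1⟩ := P1_lower
  obtain ⟨C2, hC2, hP2⟩ := P2_upper
  have hlpos : 0 < P.l := P.hl.pos
  have hlR : (0 : ℝ) < P.l := by exact_mod_cast hlpos
  have hcop : Nat.Coprime 4 P.l := by
    have h1 : Nat.Coprime 2 P.l := by
      rw [Nat.coprime_primes Nat.prime_two P.hl]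
      have := P.hl3
      omega
    exact Nat.Coprime.pow_left 2 h1
  have htop : Tendsto (fun X : ℕ => LL X) atTop atTop :=
    Real.tendsto_log_atTop.comp (Real.tendsto_log_atTop.comp tendsto_natCast_atTop_atTop)
  have hpow : ∀ᶠ X : ℕ in atTop, 8 * (P.l : ℝ) ≤ (X : ℝ) ^ (2 / 15 : ℝ) :=
    ((tendsto_rpow_atTop (by norm_num)).comp tendsto_natCast_atTop_atTop).eventually_ge_atTop _
  obtain ⟨C3, hC3, hE1⟩ := E1_scales P
  refine ⟨c1 / (16 * P.l), 1 + 3 * (C2 * (Real.log 4 * 2000) ^ 2), by positivity, ?_, ?_⟩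
  · have : 0 ≤ 3 * (C2 * (Real.log 4 * 2000) ^ 2) := by positivity
    linarith
  filter_upwards [hE1, E2_powers, B3_size P, htop.eventually_ge_atTop L₀, hpow,
    eventually_ge_atTop 3] with X e1 e2 b3 hLX hX1 hX3
  intro N t ρ n W U0 U1 U2 hW hU0 hU1 hU2 h01 h02 h12 hw0 hw1 hw2 hN hNX ht hn hn4 hnl hρ hnρ
  obtain ⟨c, hc⟩ := C1b_crt P.l (t : ℕ) hcop
  have hA : P.a ≤ P.A := by unfold Par.A; omega
  have hB : P.b ≤ P.A := by unfold Par.A; omega
  obtain ⟨sW, mW, -, iW⟩ := b3 P.a hA W hW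
  obtain ⟨s0, m0, -, i0⟩ := b3 P.b hB U0 hU0
  obtain ⟨s1, m1, -, i1⟩ := b3 P.b hB U1 hU1
  obtain ⟨s2, m2, -, i2⟩ := b3 P.b hB U2 hU2
  have hW' : W ⊆ PQ P.l (zz X) := fun p hp => (mW p hp).2
  have hU1' : U1 ⊆ PQ P.l (zz X) := fun p hp => (m1 p hp).2
  have hU2' : U2 ⊆ PQ P.l (zz X) := fun p hp => (m2 p hp).2
  have hPQ : ∀ p ∈ PQ P.l (zz X), p.Prime ∧ 3 ≤ p ∧ p ≤ zz X ∧ p ≠ P.l := fun p hp => by
    unfold PQ at hp
    rw [mem_filter, mem_Icc] at hp
    exact ⟨hp.2.1, hp.1.1, hp.1.2, hp.2.2⟩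
  -- the sizes
  have hXR : (3 : ℝ) ≤ X := by exact_mod_cast hX3
  have hX0 : (0 : ℝ) < X := by linarith
  have hx1 : 1 ≤ Real.log X := by
    rw [Real.le_log_iff_exp_le hX0]
    exact le_trans Real.exp_one_lt_d9.le (by linarith)
  have hLL : 100 ≤ LL X := e1.1
  have hz100 : 100 ≤ zz X := by
    have h1 : 100 ≤ zs X := e1.2.1
    have h2 := e2.2.2.1
    omega
  have hzR : (100 : ℝ) ≤ zz X := by exact_mod_cast hz100
  have hlz : 0 < Real.log (zz X) := Real.log_pos (by linarith)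
  have hlz1 : Real.log (zz X) ≤ Real.log X := by
    refine le_trans e1.2.2.2.2.2.1 (div_le_self (by linarith) (by linarith))
  have hlz2 : Real.log X / (2000 * LL X) ≤ Real.log (zz X) := e1.2.2.2.2.1
  have hprV : (pr (W ∪ U1 ∪ U2) : ℝ) = pr W * pr U1 * pr U2 := by
    rw [C1b_pr_union (Finset.disjoint_union_left.mpr ⟨hw2, h12⟩), C1b_pr_union hw1]
  have hpW : (0 : ℝ) < pr W := C1b_pr_pos fun p hp => (hPQ p (hW' hp)).1
  have hp1 : (0 : ℝ) < pr U1 := C1b_pr_pos fun p hp => (hPQ p (hU1' hp)).1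
  have hp2 : (0 : ℝ) < pr U2 := C1b_pr_pos fun p hp => (hPQ p (hU2' hp)).1
  have hprV0 : (0 : ℝ) < pr (W ∪ U1 ∪ U2) := by rw [hprV]; positivity
  have hsize : 2 * (4 * P.l) * ((zz X : ℝ) ^ (100 * LL X) * pr (W ∪ U1 ∪ U2)) ≤ N := by
    have hz0 : (0 : ℝ) < (zz X : ℝ) := by linarith
    have a1 : (zz X : ℝ) ^ (1 / 20 : ℝ) ≤ (X : ℝ) ^ (1 / 30 : ℝ) := by
      calc (zz X : ℝ) ^ (1 / 20 : ℝ) ≤ ((X : ℝ) ^ (1 / 1000 : ℝ)) ^ (1 / 20 : ℝ) :=
            Real.rpow_le_rpow hz0.le e2.2.2.2.1 (by norm_num)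
        _ = (X : ℝ) ^ (1 / 20000 : ℝ) := by rw [← Real.rpow_mul hX0.le]; norm_num
        _ ≤ (X : ℝ) ^ (1 / 30 : ℝ) := Real.rpow_le_rpow_of_exponent_le (by linarith) (by norm_num)
    have a2 : (pr (W ∪ U1 ∪ U2) : ℝ) ≤ (X : ℝ) ^ (1 / 10 : ℝ) := by
      rw [hprV]
      calc (pr W : ℝ) * pr U1 * pr U2 ≤ (X : ℝ) ^ (1 / 30 : ℝ) * (X : ℝ) ^ (1 / 30 : ℝ) *
            (X : ℝ) ^ (1 / 30 : ℝ) := by
            have b0 : 0 ≤ (X : ℝ) ^ (1 / 30 : ℝ) := by positivity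
            exact mul_le_mul (mul_le_mul (sW.trans a1) (s1.trans a1) hp1.le b0) (s2.trans a1) hp2.le
              (mul_nonneg b0 b0)
        _ = (X : ℝ) ^ (1 / 10 : ℝ) := by
            rw [← Real.rpow_add hX0, ← Real.rpow_add hX0]
            norm_num
    calc 2 * (4 * (P.l : ℝ)) * ((zz X : ℝ) ^ (100 * LL X) * pr (W ∪ U1 ∪ U2))
        ≤ 2 * (4 * (P.l : ℝ)) * ((X : ℝ) ^ (1 / 10 : ℝ) * (X : ℝ) ^ (1 / 10 : ℝ)) := by
          refine mul_le_mul_of_nonneg_left (mul_le_mul e2.1 a2 hprV0.le (by positivity))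
            (by positivity)
      _ = 8 * (P.l : ℝ) * (X : ℝ) ^ (1 / 5 : ℝ) := by
          rw [← Real.rpow_add hX0, show (1 / 10 : ℝ) + 1 / 10 = 1 / 5 by norm_num]
          ring
      _ ≤ (X : ℝ) ^ (2 / 15 : ℝ) * (X : ℝ) ^ (1 / 5 : ℝ) :=
          mul_le_mul_of_nonneg_right hX1 (by positivity)
      _ = (X : ℝ) ^ (1 / 3 : ℝ) := by
          rw [← Real.rpow_add hX0]
          norm_num
      _ ≤ N := hN
  -- the sieve
  set V : Finset ℕ := W ∪ U1 ∪ U2 with hV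
  set Q : Finset ℕ := PQ P.l (zz X) \ V with hQ
  have hQPQ : Q ⊆ PQ P.l (zz X) := Finset.sdiff_subset
  have hdiv : ∀ p : ℕ, p.Prime → 3 ≤ p → p ≠ P.l → ¬ p ∣ 4 * P.l := by
    intro p hp hp3 hpl hd
    rcases (Nat.Prime.dvd_mul hp).mp hd with h | h
    · have h5 : p ∣ 2 := hp.dvd_of_dvd_pow (show p ∣ 2 ^ 2 from h)
      have := Nat.le_of_dvd two_pos h5
      omega
    · exact hpl ((Nat.prime_dvd_prime_iff_eq hp P.hl).mp h)
  have hVPQ : V ⊆ PQ P.l (zz X) := by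
    rw [hV]
    exact Finset.union_subset (Finset.union_subset hW' hU1') hU2'
  obtain ⟨hlo, hup⟩ := hS (LL X) (zz X) hLX (by omega) e2.2.2.2.2.1 (4 * P.l) c N N Q V
    (fun p => {0, (n * (p - 1)) % p}) (fun p => if p ∈ W then ρ else if p ∈ U2 then 0 else
      n * (p - 1)) (by omega)
    (fun p hp => by
      obtain ⟨q1, q2, q3, q4⟩ := hPQ p (hQPQ hp)
      refine ⟨q1, hdiv p q1 q2 q4, q3, ?_, ?_, ?_⟩
      · intro x hx
        rw [mem_insert, mem_singleton] at hx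
        rw [mem_range]
        rcases hx with rfl | rfl
        · omega
        · exact Nat.mod_lt _ (by omega)
      · exact le_trans (Finset.card_le_two) (by norm_num)
      · have := Finset.card_le_two (a := 0) (b := (n * (p - 1)) % p)
        omega)
    (fun p hp => by
      obtain ⟨q1, q2, q3, q4⟩ := hPQ p (hVPQ hp)
      exact ⟨q1, hdiv p q1 q2 q4⟩)
    Finset.sdiff_disjoint (by exact_mod_cast hsize)
  have hset : {m ∈ Ioc N (2 * N) | m % 4 = 1 ∧ m % P.l = t % P.l ∧ m % pr W = ρ % pr W ∧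
        sm P.l (zz X) (n + m) = U1 ∧ sm P.l (zz X) m = U2} =
      {m ∈ Ioc N (N + N) | m % (4 * P.l) = c % (4 * P.l) ∧ (∀ p ∈ V, m % p =
        (if p ∈ W then ρ else if p ∈ U2 then 0 else n * (p - 1)) % p) ∧
        ∀ p ∈ Q, m % p ∉ ({0, (n * (p - 1)) % p} : Finset ℕ)} := by
    rw [two_mul]
    refine Finset.filter_congr fun m _ => ?_
    exact C1b_iff P.l (zz X) n ρ t c W U0 U1 U2 hW' hU1' hU2' h01 h02 h12 hw1 hw2 hn hρ hnρ hc m
  have hcard : #{m ∈ Ioc N (2 * N) | m % 4 = 1 ∧ m % P.l = t % P.l ∧ m % pr W = ρ % pr W ∧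
        sm P.l (zz X) (n + m) = U1 ∧ sm P.l (zz X) m = U2} =
      #{m ∈ Ioc N (N + N) | m % (4 * P.l) = c % (4 * P.l) ∧ (∀ p ∈ V, m % p =
        (if p ∈ W then ρ else if p ∈ U2 then 0 else n * (p - 1)) % p) ∧
        ∀ p ∈ Q, m % p ∉ ({0, (n * (p - 1)) % p} : Finset ℕ)} := by rw [hset]
  rw [hcard]
  set Om : ℕ → Finset ℕ := fun p => {0, (n * (p - 1)) % p} with hOm
  have hOm2 : ∀ p, #(Om p) ≤ 2 := fun p => Finset.card_le_two
  set R : ℝ := ∏ p ∈ Q, (1 - (#(Om p) : ℝ) / p) with hR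
  have hp3 : ∀ p ∈ Q, (3 : ℝ) ≤ p := fun p hp => by exact_mod_cast (hPQ p (hQPQ hp)).2.1
  have hfac : ∀ p ∈ Q, (0 : ℝ) ≤ 1 - 2 / (p : ℝ) ∧ (1 - 2 / (p : ℝ)) ≤ 1 - (#(Om p) : ℝ) / p ∧
      1 - (#(Om p) : ℝ) / p ≤ 1 := fun p hp => by
    have h3 := hp3 p hp
    have h0 : (0 : ℝ) < p := by linarith
    have h2 : (#(Om p) : ℝ) ≤ 2 := by exact_mod_cast hOm2 p
    refine ⟨?_, ?_, ?_⟩
    · rw [sub_nonneg, div_le_one h0]
      linarith
    · have : (#(Om p) : ℝ) / p ≤ 2 / p := div_le_div_of_nonneg_right h2 h0.le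
      linarith
    · have : 0 ≤ (#(Om p) : ℝ) / p := by positivity
      linarith
  -- lower bound of the product
  have hRlo : c1 / Real.log X ^ 2 ≤ R := by
    have h1 := (hP1 (zz X) (by omega) Q (fun p hp => by
      obtain ⟨q1, q2, q3, q4⟩ := hPQ p (hQPQ hp)
      exact ⟨q1, q2, q3⟩)).2
    refine le_trans ?_ (le_trans h1 (Finset.prod_le_prod (fun p hp => (hfac p hp).1)
      fun p hp => (hfac p hp).2.1))
    exact div_le_div_of_nonneg_left hc1.le (by positivity) (pow_le_pow_left₀ hlz.le hlz1 2)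
  -- upper bound of the product
  have hRup : R ≤ C2 * (Real.log 4 * 2000) ^ 2 * (LL X ^ 2 / Real.log X ^ 2) := by
    set D : Finset ℕ := insert P.l (V ∪ U0) with hD
    have hsub : (Icc 1 (zz X)).filter (fun p : ℕ => p.Prime ∧ (4 : ℝ) < p ∧ p ∉ D) ⊆ Q := by
      intro p hp
      rw [mem_filter, mem_Icc] at hp
      obtain ⟨⟨h1, h2⟩, h3, h4, h5⟩ := hp
      have h6 : 4 < p := by exact_mod_cast h4
      rw [hD, mem_insert, mem_union] at h5
      rw [hQ, Finset.mem_sdiff]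
      refine ⟨?_, fun h => h5 (Or.inr (Or.inl h))⟩
      unfold PQ
      rw [mem_filter, mem_Icc]
      exact ⟨⟨by omega, h2⟩, h3, fun h => h5 (Or.inl h)⟩
    have h1 : R ≤ ∏ p ∈ (Icc 1 (zz X)).filter (fun p : ℕ => p.Prime ∧ (4 : ℝ) < p ∧ p ∉ D),
        (1 - ((2 : ℕ) : ℝ) / p) := by
      have g1 : R ≤ ∏ p ∈ (Icc 1 (zz X)).filter (fun p : ℕ => p.Prime ∧ (4 : ℝ) < p ∧ p ∉ D),
          (1 - (#(Om p) : ℝ) / p) := by
        rw [hR, ← Finset.prod_sdiff hsub]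
        refine mul_le_of_le_one_left (Finset.prod_nonneg fun p hp => ?_)
          (Finset.prod_le_one (fun p hp => ?_) fun p hp => ?_)
        · exact le_trans (hfac p (hsub hp)).1 (hfac p (hsub hp)).2.1
        · have hp' := (Finset.mem_sdiff.mp hp).1
          exact le_trans (hfac p hp').1 (hfac p hp').2.1
        · exact (hfac p (Finset.mem_sdiff.mp hp).1).2.2
      refine le_trans g1 (le_of_eq (Finset.prod_congr rfl fun p hp => ?_))
      have g2 : #(Om p) = 2 := by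
        rw [hOm]
        refine Finset.card_pair ?_
        intro h0
        have hpQ := hsub hp
        obtain ⟨q1, q2, q3, q4⟩ := hPQ p (hQPQ hpQ)
        have h2 : p ∣ n := by
          have h3 : p ∣ n * (p - 1) := Nat.dvd_of_mod_eq_zero h0.symm
          rcases (Nat.Prime.dvd_mul q1).mp h3 with h4 | h4
          · exact h4
          · have := Nat.le_of_dvd (by omega) h4
            omega
        have h5 : p ∈ U0 := by
          rw [← hn]
          exact mem_filter.mpr ⟨hQPQ hpQ, h2⟩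
        have h6 := (mem_filter.mp hp).2.2.2
        apply h6
        rw [hD, mem_insert, mem_union]
        exact Or.inr (Or.inr h5)
      rw [g2]
    have h2 := hP2 2 4 (zz X) (by norm_num) le_rfl (by linarith) D
      (fun p hp => by
        rw [hD, mem_insert, mem_union] at hp
        rcases hp with rfl | hp | hp
        · exact P.hl
        · exact (hPQ p (hVPQ hp)).1
        · exact (hPQ p (m0 p hp).2).1)
      (by
        have g0 : ∑ p ∈ D, 1 / (p : ℝ) ≤ 1 / (P.l : ℝ) + ∑ p ∈ V ∪ U0, 1 / (p : ℝ) := by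
          rw [hD]
          by_cases hl : P.l ∈ V ∪ U0
          · rw [Finset.insert_eq_of_mem hl]
            have : 0 ≤ 1 / (P.l : ℝ) := by positivity
            linarith
          · rw [Finset.sum_insert hl]
        have gu : ∀ S S' : Finset ℕ, ∑ p ∈ S ∪ S', 1 / (p : ℝ) ≤
            ∑ p ∈ S, 1 / (p : ℝ) + ∑ p ∈ S', 1 / (p : ℝ) := fun S S' => by
          rw [← Finset.sum_union_inter]
          have : 0 ≤ ∑ p ∈ S ∩ S', 1 / (p : ℝ) := Finset.sum_nonneg fun p _ => by positivity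
          linarith
        have g1 := gu V U0
        have g2 := gu (W ∪ U1) U2
        have g3 := gu W U1
        rw [← hV] at g2
        have g4 : 1 / (P.l : ℝ) ≤ 1 / 3 := by
          refine one_div_le_one_div_of_le (by norm_num) ?_
          exact_mod_cast P.hl3.le
        linarith)
    refine le_trans h1 (le_trans h2 ?_)
    have hq : Real.log 4 / Real.log (zz X) ≤ Real.log 4 * 2000 * (LL X / Real.log X) := by
      have hl4 : 0 ≤ Real.log 4 := Real.log_nonneg (by norm_num)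
      have h5 : 0 < Real.log X / (2000 * LL X) := by positivity
      calc Real.log 4 / Real.log (zz X) ≤ Real.log 4 / (Real.log X / (2000 * LL X)) :=
            div_le_div_of_nonneg_left hl4 h5 hlz2
        _ = Real.log 4 * 2000 * (LL X / Real.log X) := by
            field_simp
    have hq0 : 0 ≤ Real.log 4 / Real.log (zz X) :=
      div_nonneg (Real.log_nonneg (by norm_num)) hlz.le
    calc C2 * (Real.log 4 / Real.log (zz X)) ^ 2
        ≤ C2 * (Real.log 4 * 2000 * (LL X / Real.log X)) ^ 2 :=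
          mul_le_mul_of_nonneg_left (pow_le_pow_left₀ hq0 hq 2) (by linarith)
      _ = C2 * (Real.log 4 * 2000) ^ 2 * (LL X ^ 2 / Real.log X ^ 2) := by
          rw [mul_pow, div_pow]
          ring
  rw [C1b_iw, C1b_iw]
  have hNn : (0 : ℝ) ≤ N := Nat.cast_nonneg N
  have hx2 : (0 : ℝ) < Real.log X ^ 2 := by positivity
  constructor
  · refine le_trans (le_of_eq ?_) (le_trans (mul_le_mul_of_nonneg_left
      (mul_le_mul_of_nonneg_left hRlo (by positivity :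
        (0 : ℝ) ≤ N / (((4 * P.l : ℕ) : ℝ) * pr V))) (by norm_num : (0 : ℝ) ≤ 1 / 4)) hlo)
    rw [hprV]
    push_cast
    field_simp
    ring
  · refine le_trans hup (le_trans (mul_le_mul_of_nonneg_left
      (mul_le_mul_of_nonneg_left hRup (by positivity :
        (0 : ℝ) ≤ N / (((4 * P.l : ℕ) : ℝ) * pr V))) (by norm_num : (0 : ℝ) ≤ 3)) ?_)
    rw [hprV]
    have hl1 : (1 : ℝ) ≤ 4 * P.l := by
      have : (3 : ℝ) < P.l := by exact_mod_cast P.hl3
      linarith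
    have hmain : (0 : ℝ) ≤ LL X ^ 2 * ((N : ℝ) / (pr W * Real.log X ^ 2) *
        ((pr U1 : ℝ)⁻¹ * (pr U2 : ℝ)⁻¹)) := by positivity
    have hK : (0 : ℝ) ≤ 3 * (C2 * (Real.log 4 * 2000) ^ 2) := by positivity
    calc 3 * ((N : ℝ) / (((4 * P.l : ℕ) : ℝ) * (pr W * pr U1 * pr U2)) *
          (C2 * (Real.log 4 * 2000) ^ 2 * (LL X ^ 2 / Real.log X ^ 2)))
        = (3 * (C2 * (Real.log 4 * 2000) ^ 2)) * (1 / (4 * P.l)) * (LL X ^ 2 *
          ((N : ℝ) / (pr W * Real.log X ^ 2) * ((pr U1 : ℝ)⁻¹ * (pr U2 : ℝ)⁻¹))) := by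
          push_cast
          field_simp
      _ ≤ (3 * (C2 * (Real.log 4 * 2000) ^ 2)) * 1 * (LL X ^ 2 *
          ((N : ℝ) / (pr W * Real.log X ^ 2) * ((pr U1 : ℝ)⁻¹ * (pr U2 : ℝ)⁻¹))) := by
          refine mul_le_mul_of_nonneg_right (mul_le_mul_of_nonneg_left ?_ hK) hmain
          rw [div_le_one (by linarith)]
          exact hl1
      _ ≤ (1 + 3 * (C2 * (Real.log 4 * 2000) ^ 2)) * (LL X ^ 2 *
          ((N : ℝ) / (pr W * Real.log X ^ 2) * ((pr U1 : ℝ)⁻¹ * (pr U2 : ℝ)⁻¹))) := by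
          refine mul_le_mul_of_nonneg_right ?_ hmain
          linarith
      _ = _ := by ring


end SP15
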