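import Pool.Agent.LibSP15.Defs
import Pool.Agent.LibSP15.C1a
import Pool.Agent.LibSP15.C1b
import Pool.Agent.LibSP15.B3

/-!
# SP15, row C1 (size M)

PLAN. Sum over x.1 (C1a with U = U0, ρ.1) of the number of x.2 (C1b; coprimality (pr W, x.1 + ρ.2) from x.1 ≡ ρ.1). Constants multiply.
-/

set_option autoImplicit false

namespace SP15

open Finset Filter

private theorem C1_card (l z N t w a b : ℕ) (U0 U1 U2 : Finset ℕ) :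
    (#{x ∈ Ioc N (2 * N) ×ˢ Ioc N (2 * N) |
        (x.1 % 4 = 1 ∧ x.2 % 4 = 1 ∧ x.1 % l = t % l ∧ x.2 % l = t % l) ∧
        (x.1 % w = a % w ∧ x.2 % w = b % w) ∧
        sm l z x.1 = U0 ∧ sm l z (x.1 + x.2) = U1 ∧ sm l z x.2 = U2} : ℝ) =
    ∑ n ∈ Ioc N (2 * N) with (n % 4 = 1 ∧ n % l = t % l ∧ n % w = a % w ∧ sm l z n = U0),
      (#{m ∈ Ioc N (2 * N) | m % 4 = 1 ∧ m % l = t % l ∧ m % w = b % w ∧
        sm l z (n + m) = U1 ∧ sm l z m = U2} : ℝ) := by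
  rw [Finset.card_filter, Finset.sum_product, Finset.sum_filter]
  push_cast
  refine Finset.sum_congr rfl fun n _ => ?_
  rw [Finset.card_filter]
  push_cast
  by_cases h : n % 4 = 1 ∧ n % l = t % l ∧ n % w = a % w ∧ sm l z n = U0
  · rw [if_pos h]
    obtain ⟨h1, h2, h3, h4⟩ := h
    refine Finset.sum_congr rfl fun m _ => ?_
    refine if_congr ?_ rfl rfl
    constructor
    · rintro ⟨⟨_, g2, _, g4⟩, ⟨_, g6⟩, _, g8, g9⟩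
      exact ⟨g2, g4, g6, g8, g9⟩
    · rintro ⟨g1, g2, g3, g4, g5⟩
      exact ⟨⟨h1, g1, h2, g2⟩, ⟨h3, g3⟩, h4, g4, g5⟩
  · rw [if_neg h]
    refine Finset.sum_eq_zero fun m _ => ?_
    rw [if_neg]
    rintro ⟨⟨g1, _, g3, _⟩, ⟨g5, _⟩, g7, _, _⟩
    exact h ⟨g1, g3, g5, g7⟩

theorem C1_count (P : Par) : ∃ c C : ℝ, 0 < c ∧ 1 ≤ C ∧ ∀ᶠ X : ℕ in atTop,
    ∀ (N t : ℕ) (ρ : ℕ × ℕ) (W U0 U1 U2 : Finset ℕ), W ∈ Reg P X P.a → U0 ∈ Reg P X P.b →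
    U1 ∈ Reg P X P.b → U2 ∈ Reg P X P.b → Disjoint U0 U1 → Disjoint U0 U2 → Disjoint U1 U2 →
    Disjoint W U0 → Disjoint W U1 → Disjoint W U2 → (X : ℝ) ^ (1 / 3 : ℝ) ≤ N → N ≤ X → P.l.Coprime t →
    (pr W).Coprime ρ.1 → (pr W).Coprime ρ.2 → (pr W).Coprime (ρ.1 + ρ.2) →
    c * ((N : ℝ) ^ 2 / ((pr W : ℝ) ^ 2 * Real.log X ^ 3) * (iw U0 * iw U1 * iw U2)) ≤
      #{x ∈ Ioc N (2 * N) ×ˢ Ioc N (2 * N) |
        (x.1 % 4 = 1 ∧ x.2 % 4 = 1 ∧ x.1 % P.l = t % P.l ∧ x.2 % P.l = t % P.l) ∧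
        (x.1 % pr W = ρ.1 % pr W ∧ x.2 % pr W = ρ.2 % pr W) ∧
        sm P.l (zz X) x.1 = U0 ∧ sm P.l (zz X) (x.1 + x.2) = U1 ∧ sm P.l (zz X) x.2 = U2} ∧
    (#{x ∈ Ioc N (2 * N) ×ˢ Ioc N (2 * N) |
        (x.1 % 4 = 1 ∧ x.2 % 4 = 1 ∧ x.1 % P.l = t % P.l ∧ x.2 % P.l = t % P.l) ∧
        (x.1 % pr W = ρ.1 % pr W ∧ x.2 % pr W = ρ.2 % pr W) ∧
        sm P.l (zz X) x.1 = U0 ∧ sm P.l (zz X) (x.1 + x.2) = U1 ∧ sm P.l (zz X) x.2 = U2} : ℝ) ≤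
      C * LL X ^ 3 * ((N : ℝ) ^ 2 / ((pr W : ℝ) ^ 2 * Real.log X ^ 3) * (iw U0 * iw U1 * iw U2)) := by
  obtain ⟨c1, C1, hc1, hC1, e1⟩ := C1a_n0 P
  obtain ⟨c2, C2, hc2, hC2, e2⟩ := C1b_n2 P
  obtain ⟨_, _, e3⟩ := E1_scales P
  refine ⟨c1 * c2, C1 * C2, by positivity, one_le_mul_of_one_le_of_one_le hC1 hC2, ?_⟩
  filter_upwards [e1, e2, e3] with X h1 h2 h3
  intro N t ρ W U0 U1 U2 hW hU0 hU1 hU2 d01 d02 d12 dW0 dW1 dW2 hN hNX hlt hρ1 hρ2 hρ12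
  have hLL : 0 ≤ LL X := by linarith [h3.1]
  have hlog : 0 ≤ Real.log (X : ℝ) := Real.log_natCast_nonneg X
  have hiw : ∀ U : Finset ℕ, 0 ≤ iw U := fun U => Finset.prod_nonneg fun p _ => by positivity
  have i0 := hiw U0
  have i1 := hiw U1
  have i2 := hiw U2
  rw [C1_card P.l (zz X) N t (pr W) ρ.1 ρ.2 U0 U1 U2]
  obtain ⟨a1, a2⟩ := h1 N t ρ.1 W U0 hW hU0 dW0 hN hNX hlt hρ1
  set A := (Ioc N (2 * N)).filter (fun n => n % 4 = 1 ∧ n % P.l = t % P.l ∧ n % pr W = ρ.1 % pr W ∧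
    sm P.l (zz X) n = U0) with hA
  have hb : ∀ n ∈ A, c2 * ((N : ℝ) / (pr W * Real.log X ^ 2) * (iw U1 * iw U2)) ≤
      (#{m ∈ Ioc N (2 * N) | m % 4 = 1 ∧ m % P.l = t % P.l ∧ m % pr W = ρ.2 % pr W ∧
        sm P.l (zz X) (n + m) = U1 ∧ sm P.l (zz X) m = U2} : ℝ) ∧
      (#{m ∈ Ioc N (2 * N) | m % 4 = 1 ∧ m % P.l = t % P.l ∧ m % pr W = ρ.2 % pr W ∧
        sm P.l (zz X) (n + m) = U1 ∧ sm P.l (zz X) m = U2} : ℝ) ≤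
      C2 * LL X ^ 2 * ((N : ℝ) / (pr W * Real.log X ^ 2) * (iw U1 * iw U2)) := by
    intro n hn
    rw [hA, Finset.mem_filter] at hn
    obtain ⟨_, g1, g2, g3, g4⟩ := hn
    have hco : (pr W).Coprime (n + ρ.2) := by
      have g5 : n + ρ.2 ≡ ρ.1 + ρ.2 [MOD pr W] := Nat.ModEq.add_right _ g3
      have g6 : Nat.gcd (n + ρ.2) (pr W) = Nat.gcd (ρ.1 + ρ.2) (pr W) := g5.gcd_eq
      rw [Nat.coprime_comm]
      unfold Nat.Coprime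
      rw [g6]
      exact hρ12.symm
    exact h2 N t ρ.2 n W U0 U1 U2 hW hU0 hU1 hU2 d01 d02 d12 dW0 dW1 dW2 hN hNX hlt g4 g1 g2 hρ2 hco
  have hZ1 : 0 ≤ (N : ℝ) / (pr W * Real.log X) * iw U0 := by positivity
  have hZ2 : 0 ≤ (N : ℝ) / (pr W * Real.log X ^ 2) * (iw U1 * iw U2) := by positivity
  have hZ : (N : ℝ) ^ 2 / ((pr W : ℝ) ^ 2 * Real.log X ^ 3) * (iw U0 * iw U1 * iw U2) =
      ((N : ℝ) / (pr W * Real.log X) * iw U0) * ((N : ℝ) / (pr W * Real.log X ^ 2) * (iw U1 * iw U2)) := by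
    ring
  rw [hZ]
  set Z1 := (N : ℝ) / (pr W * Real.log X) * iw U0 with hZ1d
  set Z2 := (N : ℝ) / (pr W * Real.log X ^ 2) * (iw U1 * iw U2) with hZ2d
  constructor
  · calc c1 * c2 * (Z1 * Z2) = (c1 * Z1) * (c2 * Z2) := by ring
      _ ≤ (#A : ℝ) * (c2 * Z2) := mul_le_mul_of_nonneg_right a1 (by positivity)
      _ = ∑ n ∈ A, c2 * Z2 := by rw [Finset.sum_const, nsmul_eq_mul]
      _ ≤ _ := Finset.sum_le_sum fun n hn => (hb n hn).1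
  · calc _ ≤ ∑ n ∈ A, C2 * LL X ^ 2 * Z2 := Finset.sum_le_sum fun n hn => (hb n hn).2
      _ = (#A : ℝ) * (C2 * LL X ^ 2 * Z2) := by rw [Finset.sum_const, nsmul_eq_mul]
      _ ≤ (C1 * LL X * Z1) * (C2 * LL X ^ 2 * Z2) := mul_le_mul_of_nonneg_right a2 (by positivity)
      _ = C1 * C2 * LL X ^ 3 * (Z1 * Z2) := by ring

end SP15
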