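import Pool.Agent.LibSP15.Defs
import Pool.Agent.LibSP15.C1
import Pool.Agent.LibSP15.B9
import Pool.Agent.LibSP15.B3

/-!
# SP15, row C2 (size M)

PLAN. Partition by (U0,U1,U2) = (sm x.1, sm (x.1+x.2), sm x.2) ∈ Reg³ pairwise disjoint and disjoint from W: sum of C1 over them, B9. If ρ is not coprime the class is empty (p ∈ W, p ≤ zz, p ∈ PQ, p | x.i would give p ∈ sm ∩ W).
-/

set_option autoImplicit false

namespace SP15

open Finset Filter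

theorem C2_cop (W : Finset ℕ) (l z n : ℕ) (hW : ∀ p ∈ W, p ∈ PQ l z) (hd : Disjoint W (sm l z n)) :
    (pr W).Coprime n := by
  unfold pr
  refine Nat.Coprime.prod_left fun p hp => ?_
  have h1 := hW p hp
  have hpp : p.Prime := by
    unfold PQ at h1
    exact (mem_filter.1 h1).2.1
  rw [Nat.Prime.coprime_iff_not_dvd hpp]
  intro hdvd
  exact disjoint_left.1 hd hp (by unfold sm; exact mem_filter.2 ⟨h1, hdvd⟩)

theorem C2_cop' (w n r : ℕ) (h : w.Coprime n) (hr : n % w = r % w) : w.Coprime r := by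
  have h1 : Nat.gcd n w = Nat.gcd r w := Nat.ModEq.gcd_eq hr
  have h2 : Nat.gcd w r = Nat.gcd r w := Nat.gcd_comm _ _
  have h3 : Nat.gcd w n = Nat.gcd n w := Nat.gcd_comm _ _
  unfold Nat.Coprime at h ⊢
  omega

theorem C2_class (P : Par) : ∃ c C : ℝ, 0 < c ∧ 1 ≤ C ∧ ∀ᶠ X : ℕ in atTop,
    ∀ (N t : ℕ) (W : Finset ℕ), W ∈ Reg P X P.a → (X : ℝ) ^ (1 / 3 : ℝ) ≤ N → N ≤ X → P.l.Coprime t →
    (∀ ρ : ℕ × ℕ, (pr W).Coprime ρ.1 → (pr W).Coprime ρ.2 → (pr W).Coprime (ρ.1 + ρ.2) →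
      c * (Sz P X N / (pr W : ℝ) ^ 2) ≤
        #{x ∈ Tri P X N t W | x.1 % pr W = ρ.1 % pr W ∧ x.2 % pr W = ρ.2 % pr W}) ∧
    (∀ ρ : ℕ × ℕ, (#{x ∈ Tri P X N t W | x.1 % pr W = ρ.1 % pr W ∧ x.2 % pr W = ρ.2 % pr W} : ℝ) ≤
      C * LL X ^ 3 * (Sz P X N / (pr W : ℝ) ^ 2)) := by
  classical
  obtain ⟨c1, C1, hc1, hC1, h1⟩ := C1_count P
  obtain ⟨c9, C9, hc9, hC9, h9⟩ := B9_three P
  refine ⟨c1 * c9, C1 * C9, by positivity, by nlinarith, ?_⟩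
  have hLL : ∀ᶠ X : ℕ in atTop, 1 ≤ LL X := by
    have : Tendsto (fun X : ℕ => LL X) atTop atTop := by
      unfold LL
      exact Real.tendsto_log_atTop.comp (Real.tendsto_log_atTop.comp tendsto_natCast_atTop_atTop)
    exact this.eventually_ge_atTop 1
  filter_upwards [h1, h9, B3_size P, hLL, eventually_ge_atTop 2] with X h1 h9 hB3 hL hX2
  intro N t W hW hN1 hN2 ht
  have hlog : 0 ≤ Real.log X := Real.log_natCast_nonneg X
  have hiw : ∀ U : Finset ℕ, 0 ≤ iw U := fun U => prod_nonneg fun p _ => by positivity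
  set R := Reg P X P.b with hR
  set 𝒰 := (R ×ˢ R ×ˢ R).filter (fun u =>
      (Disjoint u.1 u.2.1 ∧ Disjoint u.1 u.2.2 ∧ Disjoint u.2.1 u.2.2) ∧
      (Disjoint W u.1 ∧ Disjoint W u.2.1 ∧ Disjoint W u.2.2)) with h𝒰
  -- fibres
  have hfib : ∀ ρ : ℕ × ℕ, #{x ∈ Tri P X N t W | x.1 % pr W = ρ.1 % pr W ∧ x.2 % pr W = ρ.2 % pr W} =
      ∑ u ∈ 𝒰, #{x ∈ Ioc N (2 * N) ×ˢ Ioc N (2 * N) |
        (x.1 % 4 = 1 ∧ x.2 % 4 = 1 ∧ x.1 % P.l = t % P.l ∧ x.2 % P.l = t % P.l) ∧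
        (x.1 % pr W = ρ.1 % pr W ∧ x.2 % pr W = ρ.2 % pr W) ∧
        sm P.l (zz X) x.1 = u.1 ∧ sm P.l (zz X) (x.1 + x.2) = u.2.1 ∧ sm P.l (zz X) x.2 = u.2.2} := by
    intro ρ
    rw [card_eq_sum_card_fiberwise (s := {x ∈ Tri P X N t W | x.1 % pr W = ρ.1 % pr W ∧
      x.2 % pr W = ρ.2 % pr W}) (f := fun x => (sm P.l (zz X) x.1, sm P.l (zz X) (x.1 + x.2),
        sm P.l (zz X) x.2)) (t := 𝒰)]
    · refine sum_congr rfl fun u hu => ?_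
      congr 1
      ext x
      rw [h𝒰, mem_filter, mem_product, mem_product] at hu
      simp only [mem_filter, Tri]
      constructor
      · rintro ⟨⟨⟨a1, a2, a3, a4, a5⟩, a6⟩, a7⟩
        refine ⟨a1, a2, a6, ?_⟩
        rw [← a7]
        exact ⟨rfl, rfl, rfl⟩
      · rintro ⟨a1, a2, a3, a4, a5, a6⟩
        refine ⟨⟨⟨a1, a2, ?_, ?_, ?_⟩, a3⟩, ?_⟩
        · rw [a4, a5, a6]
          exact ⟨hu.1.1, hu.1.2.2, hu.1.2.1⟩
        · rw [a4, a5, a6]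
          exact ⟨hu.2.1.2.1, hu.2.1.1, hu.2.1.2.2.symm⟩
        · rw [a4, a5, a6]
          exact ⟨hu.2.2.1, hu.2.2.2.2, hu.2.2.2.1⟩
        · rw [a4, a5, a6]
    · intro x hx
      rw [mem_coe, mem_filter] at hx
      obtain ⟨hx, -⟩ := hx
      unfold Tri at hx
      rw [mem_filter] at hx
      obtain ⟨a1, a2, a3, a4, a5⟩ := hx
      rw [mem_coe, h𝒰, mem_filter, mem_product, mem_product]
      exact ⟨⟨a3.1, a3.2.2, a3.2.1⟩, ⟨a4.2.1, a4.1, a4.2.2.symm⟩, a5.1, a5.2.2, a5.2.1⟩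
  have hc : ∀ ρ : ℕ × ℕ, (pr W).Coprime ρ.1 → (pr W).Coprime ρ.2 → (pr W).Coprime (ρ.1 + ρ.2) →
      ∀ u ∈ 𝒰, _ := fun ρ g1 g2 g3 u hu => by
    rw [h𝒰, mem_filter, mem_product, mem_product] at hu
    exact h1 N t ρ W u.1 u.2.1 u.2.2 hW hu.1.1 hu.1.2.1 hu.1.2.2 hu.2.1.1 hu.2.1.2.1 hu.2.1.2.2
      hu.2.2.1 hu.2.2.2.1 hu.2.2.2.2 hN1 hN2 ht g1 g2 g3
  have h9' := h9 W hW
  constructor
  · intro ρ g1 g2 g3
    rw [hfib ρ]
    push_cast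
    refine le_trans ?_ (sum_le_sum fun u hu => (hc ρ g1 g2 g3 u hu).1)
    rw [← mul_sum, ← mul_sum]
    have h10 : c1 * c9 * (Sz P X N / (pr W : ℝ) ^ 2) =
        c1 * ((N : ℝ) ^ 2 / ((pr W : ℝ) ^ 2 * Real.log X ^ 3) * (c9 * Xi P X ^ 3)) := by
      unfold Sz
      ring
    rw [h10]
    refine mul_le_mul_of_nonneg_left (mul_le_mul_of_nonneg_left h9'.1 (by positivity)) hc1.le
  · intro ρ
    by_cases hne : ({x ∈ Tri P X N t W | x.1 % pr W = ρ.1 % pr W ∧ x.2 % pr W = ρ.2 % pr W}).Nonempty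
    · obtain ⟨x, hx⟩ := hne
      rw [mem_filter] at hx
      obtain ⟨hxT, hx1, hx2⟩ := hx
      unfold Tri at hxT
      rw [mem_filter] at hxT
      obtain ⟨-, -, -, -, d1, d2, d3⟩ := hxT
      have hWPQ : ∀ p ∈ W, p ∈ PQ P.l (zz X) := fun p hp =>
        ((hB3 P.a (by unfold Par.A; omega) W hW).2.1 p hp).2
      have g1 : (pr W).Coprime ρ.1 := C2_cop' _ _ _ (C2_cop W _ _ _ hWPQ d1) hx1
      have g2 : (pr W).Coprime ρ.2 := C2_cop' _ _ _ (C2_cop W _ _ _ hWPQ d2) hx2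
      have g3 : (pr W).Coprime (ρ.1 + ρ.2) := C2_cop' _ _ _ (C2_cop W _ _ _ hWPQ d3) (by
        rw [Nat.add_mod, hx1, hx2, ← Nat.add_mod])
      rw [hfib ρ]
      push_cast
      refine (sum_le_sum fun u hu => (hc ρ g1 g2 g3 u hu).2).trans ?_
      rw [← mul_sum, ← mul_sum]
      have h10 : C1 * C9 * LL X ^ 3 * (Sz P X N / (pr W : ℝ) ^ 2) =
          C1 * LL X ^ 3 * ((N : ℝ) ^ 2 / ((pr W : ℝ) ^ 2 * Real.log X ^ 3) * (C9 * Xi P X ^ 3)) := by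
        unfold Sz
        ring
      rw [h10]
      have h11 : ∑ u ∈ 𝒰, iw u.1 * iw u.2.1 * iw u.2.2 ≤ C9 * Xi P X ^ 3 := by
        refine le_trans ?_ h9'.2
        exact sum_le_sum_of_subset_of_nonneg (filter_subset _ _) fun u _ _ =>
          mul_nonneg (mul_nonneg (hiw _) (hiw _)) (hiw _)
      exact mul_le_mul_of_nonneg_left (mul_le_mul_of_nonneg_left h11 (by positivity)) (by positivity)
    · rw [not_nonempty_iff_eq_empty] at hne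
      rw [hne, card_empty, Nat.cast_zero]
      have hXi : 0 ≤ Xi P X := by unfold Xi; positivity
      unfold Sz
      positivity

end SP15
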