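import Pool.Agent.LibSP15.Defs
import Pool.Agent.LibSP15.C2
import Pool.Agent.LibSP15.B3

/-!
# SP15, row C2b (size M)

PLAN. Upper: sum over the ≤ (pr W)² classes. Lower: number of admissible classes mod w is ∏_{p ∈ W} (p-1)(p-2) ≥ w² (1 - ∑ 3/p) ≥ w²/2 (CRT; or: w² minus the classes with p | ρ1, ρ2 or ρ1+ρ2 for some p ∈ W: at most ∑_p 3 w²/p, and ∑_{p∈W} 1/p ≤ 1/100).
-/

set_option autoImplicit false

namespace SP15

open Finset Filter

theorem C2b_card (p m : ℕ) (hp : 0 < p) (s : Finset ℕ) (hs : s ⊆ range (p * m))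
    (h : ∀ n ∈ s, ∀ n' ∈ s, n % p = n' % p) : #s ≤ m := by
  have h1 : #s ≤ #(range m) := by
    refine Finset.card_le_card_of_injOn (fun n => n / p) ?_ ?_
    · intro n hn
      have h2 := Finset.mem_range.1 (hs hn)
      exact Finset.mem_coe.2 (Finset.mem_range.2 (Nat.div_lt_of_lt_mul h2))
    · intro n hn n' hn' hnn
      have h3 := h n hn n' hn'
      have h4 := Nat.div_add_mod n p
      have h5 := Nat.div_add_mod n' p
      change n / p = n' / p at hnn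
      rw [hnn, h3] at h4
      exact h4.symm.trans h5
  rwa [Finset.card_range] at h1

theorem C2b_bad (p w : ℕ) (hp : 0 < p) (hpw : p ∣ w) :
    (#{ρ ∈ range w ×ˢ range w | p ∣ ρ.1 ∨ p ∣ ρ.2 ∨ p ∣ ρ.1 + ρ.2} : ℝ) ≤
      3 * ((w : ℝ) ^ 2 * (1 / (p : ℝ))) := by
  obtain ⟨m, rfl⟩ := hpw
  have hp0 : (0 : ℝ) < p := by exact_mod_cast hp
  -- the three kinds of pairs
  have k1 : #{ρ ∈ range (p * m) ×ˢ range (p * m) | p ∣ ρ.1} ≤ p * m * m := by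
    rw [Finset.card_filter, Finset.sum_product_right]
    refine (Finset.sum_le_card_nsmul _ _ m fun b _ => ?_).trans ?_
    · rw [← Finset.card_filter]
      refine C2b_card p m hp _ (Finset.filter_subset _ _) fun n hn n' hn' => ?_
      rw [Finset.mem_filter] at hn hn'
      rw [Nat.mod_eq_zero_of_dvd hn.2, Nat.mod_eq_zero_of_dvd hn'.2]
    · rw [Finset.card_range, smul_eq_mul]
  have k2 : #{ρ ∈ range (p * m) ×ˢ range (p * m) | p ∣ ρ.2} ≤ p * m * m := by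
    rw [Finset.card_filter, Finset.sum_product]
    refine (Finset.sum_le_card_nsmul _ _ m fun b _ => ?_).trans ?_
    · rw [← Finset.card_filter]
      refine C2b_card p m hp _ (Finset.filter_subset _ _) fun n hn n' hn' => ?_
      rw [Finset.mem_filter] at hn hn'
      rw [Nat.mod_eq_zero_of_dvd hn.2, Nat.mod_eq_zero_of_dvd hn'.2]
    · rw [Finset.card_range, smul_eq_mul]
  have k3 : #{ρ ∈ range (p * m) ×ˢ range (p * m) | p ∣ ρ.1 + ρ.2} ≤ p * m * m := by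
    rw [Finset.card_filter, Finset.sum_product]
    refine (Finset.sum_le_card_nsmul _ _ m fun b _ => ?_).trans ?_
    · rw [← Finset.card_filter]
      refine C2b_card p m hp _ (Finset.filter_subset _ _) fun n hn n' hn' => ?_
      rw [Finset.mem_filter] at hn hn'
      have h1 : b + n ≡ b + n' [MOD p] :=
        (Nat.modEq_zero_iff_dvd.2 hn.2).trans (Nat.modEq_zero_iff_dvd.2 hn'.2).symm
      exact Nat.ModEq.add_left_cancel' b h1
    · rw [Finset.card_range, smul_eq_mul]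
  have k4 : #{ρ ∈ range (p * m) ×ˢ range (p * m) | p ∣ ρ.1 ∨ p ∣ ρ.2 ∨ p ∣ ρ.1 + ρ.2} ≤
      3 * (p * m * m) := by
    rw [Finset.filter_or, Finset.filter_or]
    have h1 := Finset.card_union_le {ρ ∈ range (p * m) ×ˢ range (p * m) | p ∣ ρ.1}
      ({ρ ∈ range (p * m) ×ˢ range (p * m) | p ∣ ρ.2} ∪
        {ρ ∈ range (p * m) ×ˢ range (p * m) | p ∣ ρ.1 + ρ.2})
    have h2 := Finset.card_union_le {ρ ∈ range (p * m) ×ˢ range (p * m) | p ∣ ρ.2}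
        {ρ ∈ range (p * m) ×ˢ range (p * m) | p ∣ ρ.1 + ρ.2}
    omega
  have k5 : (#{ρ ∈ range (p * m) ×ˢ range (p * m) | p ∣ ρ.1 ∨ p ∣ ρ.2 ∨ p ∣ ρ.1 + ρ.2} : ℝ) ≤
      3 * (p * m * m) := by exact_mod_cast k4
  refine k5.trans (le_of_eq ?_)
  push_cast
  field_simp

theorem C2b_adm (W : Finset ℕ) (hW : ∀ p ∈ W, p.Prime)
    (hs : ∑ p ∈ W, 1 / (p : ℝ) ≤ 1 / 100) :
    ((pr W : ℝ) ^ 2) / 2 ≤ #{ρ ∈ range (pr W) ×ˢ range (pr W) | (pr W).Coprime ρ.1 ∧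
      (pr W).Coprime ρ.2 ∧ (pr W).Coprime (ρ.1 + ρ.2)} := by
  classical
  set w := pr W with hw
  have hcop : ∀ n : ℕ, w.Coprime n ↔ ∀ p ∈ W, ¬ p ∣ n := by
    intro n
    rw [hw, pr, Nat.coprime_prod_left_iff]
    exact forall₂_congr fun p hp => (hW p hp).coprime_iff_not_dvd
  have h1 : (range w ×ˢ range w) ⊆
      {ρ ∈ range w ×ˢ range w | w.Coprime ρ.1 ∧ w.Coprime ρ.2 ∧ w.Coprime (ρ.1 + ρ.2)} ∪
      W.biUnion fun p => {ρ ∈ range w ×ˢ range w | p ∣ ρ.1 ∨ p ∣ ρ.2 ∨ p ∣ ρ.1 + ρ.2} := by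
    intro ρ hρ
    rw [Finset.mem_union, Finset.mem_filter, Finset.mem_biUnion]
    by_cases h : ∃ p ∈ W, p ∣ ρ.1 ∨ p ∣ ρ.2 ∨ p ∣ ρ.1 + ρ.2
    · obtain ⟨p, hp, h⟩ := h
      exact Or.inr ⟨p, hp, Finset.mem_filter.2 ⟨hρ, h⟩⟩
    · push Not at h
      left
      refine ⟨hρ, ?_, ?_, ?_⟩
      · rw [hcop]
        exact fun p hp => (h p hp).1
      · rw [hcop]
        exact fun p hp => (h p hp).2.1
      · rw [hcop]
        exact fun p hp => (h p hp).2.2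
  have h2 := (Finset.card_le_card h1).trans (Finset.card_union_le _ _)
  have h3 : (#(W.biUnion fun p => {ρ ∈ range w ×ˢ range w | p ∣ ρ.1 ∨ p ∣ ρ.2 ∨ p ∣ ρ.1 + ρ.2}) : ℝ) ≤
      3 / 100 * (w : ℝ) ^ 2 := by
    have h4 : (#(W.biUnion fun p => {ρ ∈ range w ×ˢ range w |
        p ∣ ρ.1 ∨ p ∣ ρ.2 ∨ p ∣ ρ.1 + ρ.2}) : ℝ) ≤
        ∑ p ∈ W, (#{ρ ∈ range w ×ˢ range w | p ∣ ρ.1 ∨ p ∣ ρ.2 ∨ p ∣ ρ.1 + ρ.2} : ℝ) := by
      exact_mod_cast Finset.card_biUnion_le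
    refine h4.trans ((Finset.sum_le_sum fun p hp => C2b_bad p w (hW p hp).pos ?_).trans ?_)
    · rw [hw]
      exact Finset.dvd_prod_of_mem (fun p => p) hp
    · rw [← Finset.mul_sum, ← Finset.mul_sum]
      have h5 : (w : ℝ) ^ 2 * ∑ p ∈ W, 1 / (p : ℝ) ≤ (w : ℝ) ^ 2 * (1 / 100) :=
        mul_le_mul_of_nonneg_left hs (sq_nonneg _)
      linarith
  rw [Finset.card_product, Finset.card_range] at h2
  have h6 : (w : ℝ) * w ≤ (#{ρ ∈ range w ×ˢ range w | w.Coprime ρ.1 ∧ w.Coprime ρ.2 ∧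
      w.Coprime (ρ.1 + ρ.2)} : ℝ) + (#(W.biUnion fun p => {ρ ∈ range w ×ˢ range w |
        p ∣ ρ.1 ∨ p ∣ ρ.2 ∨ p ∣ ρ.1 + ρ.2}) : ℝ) := by exact_mod_cast h2
  nlinarith [sq_nonneg (w : ℝ)]

theorem C2b_split (T : Finset (ℕ × ℕ)) (w : ℕ) (hw : 0 < w) :
    (#T : ℝ) = ∑ ρ ∈ range w ×ˢ range w,
      (#{x ∈ T | x.1 % w = ρ.1 % w ∧ x.2 % w = ρ.2 % w} : ℝ) := by
  have h1 := Finset.card_eq_sum_card_fiberwise (s := T) (t := range w ×ˢ range w)
    (f := fun x : ℕ × ℕ => (x.1 % w, x.2 % w)) (by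
      intro x _
      exact Finset.mem_coe.2 (Finset.mem_product.2
        ⟨Finset.mem_range.2 (Nat.mod_lt _ hw), Finset.mem_range.2 (Nat.mod_lt _ hw)⟩))
  rw [h1, Nat.cast_sum]
  refine Finset.sum_congr rfl fun ρ hρ => ?_
  rw [Finset.mem_product, Finset.mem_range, Finset.mem_range] at hρ
  congr 2
  refine Finset.filter_congr fun x _ => ?_
  rw [Nat.mod_eq_of_lt hρ.1, Nat.mod_eq_of_lt hρ.2, Prod.ext_iff]

theorem C2b_Sz (P : Par) (X N : ℕ) : 0 ≤ Sz P X N := by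
  have h1 : (0 : ℝ) ≤ Real.log X := Real.log_natCast_nonneg X
  unfold Sz Xi
  positivity

theorem C2b_total (P : Par) : ∃ c C : ℝ, 0 < c ∧ 1 ≤ C ∧ ∀ᶠ X : ℕ in atTop,
    ∀ (N t : ℕ) (W : Finset ℕ), W ∈ Reg P X P.a → (X : ℝ) ^ (1 / 3 : ℝ) ≤ N → N ≤ X → P.l.Coprime t →
    c * Sz P X N ≤ #(Tri P X N t W) ∧ (#(Tri P X N t W) : ℝ) ≤ C * LL X ^ 3 * Sz P X N := by
  obtain ⟨c, C, hc, hC, h⟩ := C2_class P
  refine ⟨c / 2, C, by positivity, hC, ?_⟩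
  filter_upwards [h, B3_size P] with X hX hB N t W hW hN1 hN2 ht
  obtain ⟨hlow, hup⟩ := hX N t W hW hN1 hN2 ht
  obtain ⟨-, hp, -, hs⟩ := hB P.a (by unfold Par.A; omega) W hW
  have hprime : ∀ p ∈ W, p.Prime := by
    intro p hpW
    have h1 := (hp p hpW).2
    unfold PQ at h1
    exact (Finset.mem_filter.1 h1).2.1
  have hw : 0 < pr W := Finset.prod_pos fun p hpW => (hprime p hpW).pos
  have hw0 : (0 : ℝ) < (pr W : ℝ) ^ 2 := by
    have : (0 : ℝ) < pr W := by exact_mod_cast hw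
    positivity
  have hSz := C2b_Sz P X N
  constructor
  · rw [C2b_split (Tri P X N t W) (pr W) hw]
    have hadm := C2b_adm W hprime hs
    calc c / 2 * Sz P X N = (pr W : ℝ) ^ 2 / 2 * (c * (Sz P X N / (pr W : ℝ) ^ 2)) := by
          field_simp
      _ ≤ (#{ρ ∈ range (pr W) ×ˢ range (pr W) | (pr W).Coprime ρ.1 ∧
            (pr W).Coprime ρ.2 ∧ (pr W).Coprime (ρ.1 + ρ.2)} : ℝ) *
            (c * (Sz P X N / (pr W : ℝ) ^ 2)) :=
          mul_le_mul_of_nonneg_right hadm (by positivity)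
      _ = ∑ ρ ∈ (range (pr W) ×ˢ range (pr W)).filter (fun ρ => (pr W).Coprime ρ.1 ∧
            (pr W).Coprime ρ.2 ∧ (pr W).Coprime (ρ.1 + ρ.2)),
              (c * (Sz P X N / (pr W : ℝ) ^ 2)) := by
          rw [Finset.sum_const, nsmul_eq_mul]
      _ ≤ ∑ ρ ∈ (range (pr W) ×ˢ range (pr W)).filter (fun ρ => (pr W).Coprime ρ.1 ∧
            (pr W).Coprime ρ.2 ∧ (pr W).Coprime (ρ.1 + ρ.2)),
              (#{x ∈ Tri P X N t W | x.1 % pr W = ρ.1 % pr W ∧ x.2 % pr W = ρ.2 % pr W} : ℝ) := by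
          refine Finset.sum_le_sum fun ρ hρ => ?_
          have h1 := (Finset.mem_filter.1 hρ).2
          exact hlow ρ h1.1 h1.2.1 h1.2.2
      _ ≤ _ := Finset.sum_le_sum_of_subset_of_nonneg (Finset.filter_subset _ _)
          fun _ _ _ => Nat.cast_nonneg _
  · rw [C2b_split (Tri P X N t W) (pr W) hw]
    refine (Finset.sum_le_card_nsmul _ _ (C * LL X ^ 3 * (Sz P X N / (pr W : ℝ) ^ 2))
      fun ρ _ => hup ρ).trans (le_of_eq ?_)
    rw [Finset.card_product, Finset.card_range, nsmul_eq_mul]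
    push_cast
    field_simp

end SP15
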