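import Pool.Agent.LibSP15.Defs
import Pool.Agent.LibSP15.E1
import Pool.Agent.LibSP15.E2
import Pool.Agent.LibSP15.B3

/-!
# SP15, row C3 (size M)

PLAN. x ∈ Tri, product not squarefree: some prime p has p² | x.1, x.2 or x.1+x.2, or p divides two (hence all) of them. p = 2: x.1, x.2 odd, sum ≡ 2 mod 4: impossible; p = l: x.i ≡ t, 2t: impossible. p ≤ zz odd ≠ l: p | n implies p ∈ sm n, so p > yy, and p does not divide two of them. So either
p² | one of them with p > yy: number ≤ 3 ∑_{yy < p ≤ 2√N} N (2N/p² + 1)... ≤ C N²/yy + C N^(3/2), or p > zz divides x.1, x.2: ≤ ∑_{zz<p≤2N} (N/p+1)² ≤ 9N² ∑ 1/p² ≤ C N²/zz. All ≤ C N²/yy (N ≥ X^(1/3)).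
-/

set_option autoImplicit false

namespace SP15

open Finset Filter

private theorem C3_sq (p u v : ℕ) (hp : p.Prime) (h : p * p ∣ u * v * (u + v)) :
    p * p ∣ u ∨ p * p ∣ v ∨ p * p ∣ u + v ∨ (p ∣ u ∧ p ∣ v) := by
  have hcop : ∀ w : ℕ, ¬ p ∣ w → (p * p).Coprime w := by
    intro w hw
    have h1 : p.Coprime w := (Nat.Prime.coprime_iff_not_dvd hp).mpr hw
    exact Nat.Coprime.mul_left h1 h1
  by_cases hu : p ∣ u
  · by_cases hv : p ∣ v
    · exact Or.inr (Or.inr (Or.inr ⟨hu, hv⟩))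
    · left
      have hw : ¬ p ∣ u + v := fun hh => hv ((Nat.dvd_add_right hu).mp hh)
      exact (hcop v hv).dvd_of_dvd_mul_right ((hcop _ hw).dvd_of_dvd_mul_right h)
  · by_cases hv : p ∣ v
    · right; left
      have hw : ¬ p ∣ u + v := fun hh => hu ((Nat.dvd_add_left hv).mp hh)
      exact (hcop u hu).dvd_of_dvd_mul_left ((hcop _ hw).dvd_of_dvd_mul_right h)
    · right; right; left
      rw [mul_assoc] at h
      exact (hcop v hv).dvd_of_dvd_mul_left ((hcop u hu).dvd_of_dvd_mul_left h)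

private theorem C3_cnt (N d s : ℕ) (hd : 1 ≤ d) (hs : s ≤ 2 * N) :
    (#{n ∈ Ioc N (2 * N) | d ∣ s + n} : ℝ) ≤ 5 * N / d := by
  have hdR : (0 : ℝ) < d := by exact_mod_cast hd
  by_cases hbig : 4 * N < d
  · have h0 : {n ∈ Ioc N (2 * N) | d ∣ s + n} = ∅ := by
      rw [Finset.filter_eq_empty_iff]
      intro n hn hdn
      rw [Finset.mem_Ioc] at hn
      have := Nat.le_of_dvd (by omega) hdn
      omega
    rw [h0, Finset.card_empty, Nat.cast_zero]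
    positivity
  · have hle : #{n ∈ Ioc N (2 * N) | d ∣ s + n} ≤ #(Ioc ((s + N) / d) ((s + 2 * N) / d)) := by
      refine Finset.card_le_card_of_injOn (fun n : ℕ => (s + n) / d) ?_ ?_
      · intro n hn
        rw [Finset.mem_coe, Finset.mem_filter, Finset.mem_Ioc] at hn
        obtain ⟨⟨h1, h2⟩, h3⟩ := hn
        rw [Finset.mem_coe, Finset.mem_Ioc]
        constructor
        · obtain ⟨k, hk⟩ := h3
          change (s + N) / d < (s + n) / d
          rw [hk, Nat.mul_div_cancel_left _ hd, Nat.div_lt_iff_lt_mul hd, mul_comm, ← hk]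
          omega
        · exact Nat.div_le_div_right (by omega)
      · intro x hx y hy hxy
        rw [Finset.mem_coe, Finset.mem_filter] at hx hy
        have h1 : (s + x) / d = (s + y) / d := hxy
        have h2 := Nat.div_mul_cancel hx.2
        have h3 := Nat.div_mul_cancel hy.2
        rw [h1] at h2
        omega
    rw [Nat.card_Ioc] at hle
    have h1 : (((s + 2 * N) / d : ℕ) : ℝ) ≤ ((s + 2 * N : ℕ) : ℝ) / d := Nat.cast_div_le
    have h2 : ((s + N : ℕ) : ℝ) / d < (((s + N) / d : ℕ) : ℝ) + 1 := by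
      rw [div_lt_iff₀ hdR]
      have h3 : s + N < ((s + N) / d + 1) * d := by
        have := Nat.div_add_mod (s + N) d
        have h4 := Nat.mod_lt (s + N) hd
        nlinarith
      exact_mod_cast h3
    have h3 : (s + N) / d ≤ (s + 2 * N) / d := Nat.div_le_div_right (by omega)
    have h4 : (#{n ∈ Ioc N (2 * N) | d ∣ s + n} : ℝ) ≤ (((s + 2 * N) / d : ℕ) : ℝ) - (((s + N) / d : ℕ) : ℝ) := by
      rw [← Nat.cast_sub h3]
      exact_mod_cast hle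
    have h5 : (d : ℝ) ≤ 4 * N := by exact_mod_cast not_lt.mp hbig
    have h6 : ((s + 2 * N : ℕ) : ℝ) / d - ((s + N : ℕ) : ℝ) / d = N / d := by
      push_cast
      field_simp
      ring
    have h7 : (N : ℝ) / d + 1 ≤ 5 * N / d := by
      rw [div_add_one hdR.ne', div_le_div_iff_of_pos_right hdR]
      linarith
    linarith

private theorem C3_one (N m : ℕ) (hm : 1 ≤ m) :
    (#{x ∈ Ioc N (2 * N) ×ˢ Ioc N (2 * N) | m * m ∣ x.1 ∨ m * m ∣ x.2 ∨ m * m ∣ x.1 + x.2 ∨ (m ∣ x.1 ∧ m ∣ x.2)} : ℝ) ≤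
      40 * (N : ℝ) ^ 2 * ((m : ℝ) ^ 2)⁻¹ := by
  have hmR : (0 : ℝ) < m := by exact_mod_cast hm
  have hmm : 1 ≤ m * m := Nat.mul_le_mul hm hm
  have hcI : (#(Ioc N (2 * N)) : ℝ) = N := by
    rw [Nat.card_Ioc]
    have : 2 * N - N = N := by omega
    rw [this]
  have k1 : (#{x ∈ Ioc N (2 * N) ×ˢ Ioc N (2 * N) | m * m ∣ x.1} : ℝ) ≤ 5 * (N : ℝ) ^ 2 * ((m : ℝ) ^ 2)⁻¹ := by
    have h1 : {x ∈ Ioc N (2 * N) ×ˢ Ioc N (2 * N) | m * m ∣ x.1} =
        {n ∈ Ioc N (2 * N) | m * m ∣ 0 + n} ×ˢ Ioc N (2 * N) := by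
      ext x
      simp only [Finset.mem_filter, Finset.mem_product, zero_add]
      tauto
    rw [h1, Finset.card_product]
    push_cast
    have h2 := C3_cnt N (m * m) 0 hmm (by omega)
    calc (#{n ∈ Ioc N (2 * N) | m * m ∣ 0 + n} : ℝ) * (#(Ioc N (2 * N)) : ℝ) ≤
          (5 * N / ((m * m : ℕ) : ℝ)) * N := by
          rw [hcI]
          exact mul_le_mul_of_nonneg_right h2 (Nat.cast_nonneg _)
      _ = _ := by
          push_cast
          field_simp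
  have k2 : (#{x ∈ Ioc N (2 * N) ×ˢ Ioc N (2 * N) | m * m ∣ x.2} : ℝ) ≤ 5 * (N : ℝ) ^ 2 * ((m : ℝ) ^ 2)⁻¹ := by
    have h1 : {x ∈ Ioc N (2 * N) ×ˢ Ioc N (2 * N) | m * m ∣ x.2} =
        Ioc N (2 * N) ×ˢ {n ∈ Ioc N (2 * N) | m * m ∣ 0 + n} := by
      ext x
      simp only [Finset.mem_filter, Finset.mem_product, zero_add]
      tauto
    rw [h1, Finset.card_product]
    push_cast
    have h2 := C3_cnt N (m * m) 0 hmm (by omega)
    calc (#(Ioc N (2 * N)) : ℝ) * (#{n ∈ Ioc N (2 * N) | m * m ∣ 0 + n} : ℝ) ≤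
          N * (5 * N / ((m * m : ℕ) : ℝ)) := by
          rw [hcI]
          exact mul_le_mul_of_nonneg_left h2 (Nat.cast_nonneg _)
      _ = _ := by
          push_cast
          field_simp
  have k3 : (#{x ∈ Ioc N (2 * N) ×ˢ Ioc N (2 * N) | m * m ∣ x.1 + x.2} : ℝ) ≤
      5 * (N : ℝ) ^ 2 * ((m : ℝ) ^ 2)⁻¹ := by
    have h1 : (#{x ∈ Ioc N (2 * N) ×ˢ Ioc N (2 * N) | m * m ∣ x.1 + x.2} : ℝ) =
        ∑ n ∈ Ioc N (2 * N), (#{k ∈ Ioc N (2 * N) | m * m ∣ n + k} : ℝ) := by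
      rw [Finset.card_filter, Finset.sum_product]
      push_cast
      refine Finset.sum_congr rfl fun n _ => ?_
      rw [Finset.card_filter]
      push_cast
      rfl
    rw [h1]
    calc ∑ n ∈ Ioc N (2 * N), (#{k ∈ Ioc N (2 * N) | m * m ∣ n + k} : ℝ) ≤
          ∑ n ∈ Ioc N (2 * N), 5 * (N : ℝ) / ((m * m : ℕ) : ℝ) := by
          refine Finset.sum_le_sum fun n hn => ?_
          exact C3_cnt N (m * m) n hmm (Finset.mem_Ioc.1 hn).2
      _ = _ := by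
          rw [Finset.sum_const, nsmul_eq_mul, hcI]
          push_cast
          field_simp
  have k4 : (#{x ∈ Ioc N (2 * N) ×ˢ Ioc N (2 * N) | m ∣ x.1 ∧ m ∣ x.2} : ℝ) ≤
      25 * (N : ℝ) ^ 2 * ((m : ℝ) ^ 2)⁻¹ := by
    have h1 : {x ∈ Ioc N (2 * N) ×ˢ Ioc N (2 * N) | m ∣ x.1 ∧ m ∣ x.2} =
        {n ∈ Ioc N (2 * N) | m ∣ 0 + n} ×ˢ {n ∈ Ioc N (2 * N) | m ∣ 0 + n} := by
      ext x
      simp only [Finset.mem_filter, Finset.mem_product, zero_add]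
      tauto
    rw [h1, Finset.card_product]
    push_cast
    have h2 := C3_cnt N m 0 hm (by omega)
    calc (#{n ∈ Ioc N (2 * N) | m ∣ 0 + n} : ℝ) * (#{n ∈ Ioc N (2 * N) | m ∣ 0 + n} : ℝ) ≤
          (5 * N / m) * (5 * N / m) := mul_le_mul h2 h2 (Nat.cast_nonneg _) (by positivity)
      _ = _ := by
          field_simp
          ring
  have hsub : {x ∈ Ioc N (2 * N) ×ˢ Ioc N (2 * N) | m * m ∣ x.1 ∨ m * m ∣ x.2 ∨ m * m ∣ x.1 + x.2 ∨ (m ∣ x.1 ∧ m ∣ x.2)} ⊆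
      {x ∈ Ioc N (2 * N) ×ˢ Ioc N (2 * N) | m * m ∣ x.1} ∪ ({x ∈ Ioc N (2 * N) ×ˢ Ioc N (2 * N) | m * m ∣ x.2} ∪
      ({x ∈ Ioc N (2 * N) ×ˢ Ioc N (2 * N) | m * m ∣ x.1 + x.2} ∪
        {x ∈ Ioc N (2 * N) ×ˢ Ioc N (2 * N) | m ∣ x.1 ∧ m ∣ x.2})) := by
    intro x
    simp only [Finset.mem_filter, Finset.mem_union]
    tauto
  have hc := (Finset.card_le_card hsub).trans ((Finset.card_union_le _ _).trans
    (Nat.add_le_add_left ((Finset.card_union_le _ _).trans (Nat.add_le_add_left (Finset.card_union_le _ _) _)) _))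
  have hc' : (#{x ∈ Ioc N (2 * N) ×ˢ Ioc N (2 * N) | m * m ∣ x.1 ∨ m * m ∣ x.2 ∨ m * m ∣ x.1 + x.2 ∨
      (m ∣ x.1 ∧ m ∣ x.2)} : ℝ) ≤ (#{x ∈ Ioc N (2 * N) ×ˢ Ioc N (2 * N) | m * m ∣ x.1} : ℝ) +
      ((#{x ∈ Ioc N (2 * N) ×ˢ Ioc N (2 * N) | m * m ∣ x.2} : ℝ) +
      ((#{x ∈ Ioc N (2 * N) ×ˢ Ioc N (2 * N) | m * m ∣ x.1 + x.2} : ℝ) +
        (#{x ∈ Ioc N (2 * N) ×ˢ Ioc N (2 * N) | m ∣ x.1 ∧ m ∣ x.2} : ℝ))) := by exact_mod_cast hc
  linarith

private theorem C3_a (P : Par) (X : ℕ) (hB : ∀ U ∈ Reg P X P.b, ∀ p ∈ U, yy X < p) (hz : yy X ≤ zz X) (n p : ℕ)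
    (hn : sm P.l (zz X) n ∈ Reg P X P.b) (hp : p.Prime) (h2 : p ≠ 2) (hl : p ≠ P.l) (hd : p ∣ n) : yy X < p := by
  by_cases hpz : p ≤ zz X
  · refine hB _ hn p ?_
    unfold sm PQ
    rw [Finset.mem_filter, Finset.mem_filter, Finset.mem_Icc]
    have := hp.two_le
    exact ⟨⟨⟨by omega, hpz⟩, hp, hl⟩, hd⟩
  · have h1 : (zz X : ℝ) < p := by exact_mod_cast not_le.mp hpz
    linarith

private theorem C3_l (P : Par) (t : ℕ) (x : ℕ × ℕ) (hlt : P.l.Coprime t) (h1 : x.1 % P.l = t % P.l)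
    (h2 : x.2 % P.l = t % P.l) : ¬ P.l ∣ x.1 ∧ ¬ P.l ∣ x.2 ∧ ¬ P.l ∣ x.1 + x.2 := by
  have ht : ¬ P.l ∣ t := (Nat.Prime.coprime_iff_not_dvd P.hl).mp hlt
  refine ⟨fun h => ht ?_, fun h => ht ?_, fun h => ht ?_⟩
  · exact (Nat.ModEq.dvd_iff (show x.1 ≡ t [MOD P.l] from h1) dvd_rfl).mp h
  · exact (Nat.ModEq.dvd_iff (show x.2 ≡ t [MOD P.l] from h2) dvd_rfl).mp h
  · have h3 : x.1 + x.2 ≡ t + t [MOD P.l] := Nat.ModEq.add h1 h2
    have h4 := (Nat.ModEq.dvd_iff h3 dvd_rfl).mp h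
    have h5 : P.l ∣ 2 * t := by rwa [two_mul]
    rcases (Nat.Prime.dvd_mul P.hl).mp h5 with h6 | h6
    · have := Nat.le_of_dvd (by norm_num) h6
      have := P.hl3
      omega
    · exact h6

private theorem C3_big (P : Par) (X N t : ℕ) (W : Finset ℕ) (hB : ∀ U ∈ Reg P X P.b, ∀ p ∈ U, yy X < p)
    (hz : yy X ≤ zz X) (hlt : P.l.Coprime t) (x : ℕ × ℕ) (hx : x ∈ Tri P X N t W) (p : ℕ) (hp : p.Prime)
    (hd : p * p ∣ x.1 * x.2 * (x.1 + x.2)) : yy X < p := by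
  unfold Tri at hx
  rw [Finset.mem_filter] at hx
  obtain ⟨_, ⟨m1, m2, l1, l2⟩, ⟨r1, r2, r3⟩, _, _⟩ := hx
  obtain ⟨n1, n2, n3⟩ := C3_l P t x hlt l1 l2
  have hpp : p ∣ p * p := Dvd.intro _ rfl
  have h2 : p ≠ 2 := by
    rintro rfl
    rcases C3_sq 2 _ _ hp hd with h | h | h | h <;> omega
  have hl : p ≠ P.l := by
    rintro rfl
    rcases C3_sq P.l _ _ hp hd with h | h | h | h
    · exact n1 (hpp.trans h)
    · exact n2 (hpp.trans h)
    · exact n3 (hpp.trans h)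
    · exact n1 h.1
  rcases C3_sq p _ _ hp hd with h | h | h | h
  · exact C3_a P X hB hz _ p r1 hp h2 hl (hpp.trans h)
  · exact C3_a P X hB hz _ p r2 hp h2 hl (hpp.trans h)
  · exact C3_a P X hB hz _ p r3 hp h2 hl (hpp.trans h)
  · exact C3_a P X hB hz _ p r1 hp h2 hl h.1

theorem C3_bad (P : Par) : ∃ C : ℝ, 1 ≤ C ∧ ∀ᶠ X : ℕ in atTop,
    ∀ (N t : ℕ) (W : Finset ℕ), W ∈ Reg P X P.a → (X : ℝ) ^ (1 / 3 : ℝ) ≤ N → N ≤ X → P.l.Coprime t →
    (#(Tri P X N t W \ Good P X N t W) : ℝ) ≤ C * (N : ℝ) ^ 2 / yy X := by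
  obtain ⟨_, _, e1⟩ := E1_scales P
  refine ⟨80, by norm_num, ?_⟩
  filter_upwards [e1, E2_powers, B3_size P] with X h1 h2 h3
  intro N t W hW hN hNX hlt
  have hB : ∀ U ∈ Reg P X P.b, ∀ p ∈ U, yy X < p := by
    intro U hU p hp
    exact ((h3 P.b (by unfold Par.A; omega) U hU).2.1 p hp).1
  have hyz : yy X ≤ zz X := h1.2.2.1.trans (by exact_mod_cast h2.2.2.1)
  have hyy : 2 ≤ yy X := by
    have h4 : 100 ≤ LL X := h1.1
    unfold LL at h4
    have h5 : (0 : ℝ) < Real.log X := by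
      by_contra hcon
      have h6 : Real.log X = 0 := le_antisymm (not_lt.mp hcon) (Real.log_natCast_nonneg X)
      rw [h6, Real.log_zero] at h4
      norm_num at h4
    have h6 : Real.log (Real.log X) ≤ Real.log X - 1 := Real.log_le_sub_one_of_pos h5
    have h7 : (2 : ℝ) ≤ Real.log X := by linarith
    unfold yy
    calc (2 : ℝ) ≤ 2 ^ 10 := by norm_num
      _ ≤ Real.log X ^ 10 := pow_le_pow_left₀ (by norm_num) h7 10
  set M : ℕ := ⌊yy X⌋₊ with hM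
  have hM1 : 1 ≤ M := Nat.le_floor (by push_cast; linarith)
  have hMR : yy X / 2 ≤ (M : ℝ) := by
    have := Nat.lt_floor_add_one (yy X)
    rw [← hM] at this
    linarith
  have hsub : Tri P X N t W \ Good P X N t W ⊆ (Ioc M (4 * N)).biUnion fun m =>
      {x ∈ Ioc N (2 * N) ×ˢ Ioc N (2 * N) | m * m ∣ x.1 ∨ m * m ∣ x.2 ∨ m * m ∣ x.1 + x.2 ∨ (m ∣ x.1 ∧ m ∣ x.2)} := by
    intro x hx
    rw [Finset.mem_sdiff] at hx
    obtain ⟨hx1, hx2⟩ := hx
    have hsq : ¬ Squarefree (x.1 * x.2 * (x.1 + x.2)) := by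
      intro hh
      apply hx2
      unfold Good
      rw [Finset.mem_filter]
      exact ⟨hx1, hh⟩
    rw [Nat.squarefree_iff_prime_squarefree] at hsq
    push Not at hsq
    obtain ⟨p, hp, hd⟩ := hsq
    have hbig := C3_big P X N t W hB hyz hlt x hx1 p hp hd
    have hbox : x ∈ Ioc N (2 * N) ×ˢ Ioc N (2 * N) := by
      unfold Tri at hx1
      exact (Finset.mem_filter.1 hx1).1
    have hbox' := hbox
    rw [Finset.mem_product, Finset.mem_Ioc, Finset.mem_Ioc] at hbox'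
    obtain ⟨⟨b1, b2⟩, ⟨b3, b4⟩⟩ := hbox'
    have hc := C3_sq p _ _ hp hd
    rw [Finset.mem_biUnion]
    refine ⟨p, ?_, ?_⟩
    · rw [Finset.mem_Ioc]
      constructor
      · rw [hM, Nat.floor_lt (by linarith)]
        exact hbig
      · have hpp : p ∣ p * p := Dvd.intro _ rfl
        rcases hc with h | h | h | h
        · have := Nat.le_of_dvd (by omega) (hpp.trans h)
          omega
        · have := Nat.le_of_dvd (by omega) (hpp.trans h)
          omega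
        · have := Nat.le_of_dvd (by omega) (hpp.trans h)
          omega
        · have := Nat.le_of_dvd (by omega) h.1
          omega
    · rw [Finset.mem_filter]
      exact ⟨hbox, hc⟩
  have hcard := (Finset.card_le_card hsub).trans Finset.card_biUnion_le
  have hcard' : (#(Tri P X N t W \ Good P X N t W) : ℝ) ≤ ∑ m ∈ Ioc M (4 * N),
      (#{x ∈ Ioc N (2 * N) ×ˢ Ioc N (2 * N) | m * m ∣ x.1 ∨ m * m ∣ x.2 ∨ m * m ∣ x.1 + x.2 ∨
        (m ∣ x.1 ∧ m ∣ x.2)} : ℝ) := by exact_mod_cast hcard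
  have hsum : ∑ m ∈ Ioc M (4 * N), ((m : ℝ) ^ 2)⁻¹ ≤ (M : ℝ)⁻¹ := by
    by_cases hMN : M ≤ 4 * N
    · refine (sum_Ioc_inv_sq_le_sub (by omega) hMN).trans ?_
      have : (0 : ℝ) ≤ ((4 * N : ℕ) : ℝ)⁻¹ := by positivity
      linarith
    · rw [Finset.Ioc_eq_empty (by omega), Finset.sum_empty]
      positivity
  calc (#(Tri P X N t W \ Good P X N t W) : ℝ) ≤ _ := hcard'
    _ ≤ ∑ m ∈ Ioc M (4 * N), 40 * (N : ℝ) ^ 2 * ((m : ℝ) ^ 2)⁻¹ := by
        refine Finset.sum_le_sum fun m hm => C3_one N m ?_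
        rw [Finset.mem_Ioc] at hm
        omega
    _ = 40 * (N : ℝ) ^ 2 * ∑ m ∈ Ioc M (4 * N), ((m : ℝ) ^ 2)⁻¹ := by rw [Finset.mul_sum]
    _ ≤ 40 * (N : ℝ) ^ 2 * (M : ℝ)⁻¹ := mul_le_mul_of_nonneg_left hsum (by positivity)
    _ ≤ 40 * (N : ℝ) ^ 2 * (yy X / 2)⁻¹ := by
        refine mul_le_mul_of_nonneg_left ?_ (by positivity)
        exact inv_anti₀ (by linarith) hMR
    _ = 80 * (N : ℝ) ^ 2 / yy X := by
        rw [inv_div]
        ring

end SP15
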