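import Pool.Agent.LibSP15.Defs
import Pool.Agent.LibSP15.C2
import Pool.Agent.LibSP15.C2b
import Pool.Agent.LibSP15.C3
import Pool.Agent.LibSP15.E1

/-!
# SP15, row C4 (size L)

PLAN. PAIRS (n, m) ∈ Tri t × Tri s, n ≡ m mod w: number ≥ Emin #Tri(t) (class of n is admissible), Emin = c Sz/w². Each member is in ≤ Emax = C L³ Sz/w² pairs. Pairs with a bad member: ≤ 2 C N²/yy * Emax. Good pairs contain a hit. So Emin #Tri(t) ≤ Emax (hit + 2 bad), #Tri(t) ≥ c Sz:
hit ≥ c L^(-3) Sz - C N²/yy ≥ (c/2) L^(-3) Sz as Sz ≥ N²/(log X)³ (Xi ≥ 1) and yy = (log X)^10.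
-/

set_option autoImplicit false

namespace SP15

open Finset Filter

private theorem C4_count {α : Type*} [DecidableEq α] (S T B1 B2 : Finset α) (R : α → α → Prop)
    [DecidableRel R] (e E : ℝ) (hE : 0 ≤ E)
    (hlow : ∀ x ∈ S, e ≤ #{m ∈ T | R x m}) (hup1 : ∀ x ∈ S, (#{m ∈ T | R x m} : ℝ) ≤ E)
    (hup2 : ∀ m ∈ T, (#{x ∈ S | R x m} : ℝ) ≤ E)
    (hB : ∀ x ∈ S, ∀ m ∈ T, R x m → x ∈ B1 ∨ m ∈ B2) :
    e * #S ≤ E * (#B1 + #B2) := by
  have h1 : e * #S ≤ ∑ x ∈ S, ∑ m ∈ T, (if R x m then (1 : ℝ) else 0) := by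
    rw [mul_comm, ← nsmul_eq_mul]
    refine Finset.card_nsmul_le_sum _ _ _ fun x hx => ?_
    refine (hlow x hx).trans (le_of_eq ?_)
    rw [Finset.card_filter]
    push_cast
    rfl
  have h2 : ∑ x ∈ S, ∑ m ∈ T, (if R x m then (1 : ℝ) else 0) ≤
      ∑ x ∈ S, ∑ m ∈ T, ((if x ∈ B1 then (if R x m then (1 : ℝ) else 0) else 0) +
        (if m ∈ B2 then (if R x m then (1 : ℝ) else 0) else 0)) := by
    refine Finset.sum_le_sum fun x hx => Finset.sum_le_sum fun m hm => ?_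
    by_cases hR : R x m
    · rcases hB x hx m hm hR with h | h
      · rw [if_pos hR, if_pos h]
        split_ifs <;> norm_num
      · rw [if_pos hR, if_pos h]
        split_ifs <;> norm_num
    · simp [hR]
  have h3 : ∑ x ∈ S, ∑ m ∈ T, (if x ∈ B1 then (if R x m then (1 : ℝ) else 0) else 0) ≤
      E * #B1 := by
    have h4 : ∀ x ∈ S, ∑ m ∈ T, (if x ∈ B1 then (if R x m then (1 : ℝ) else 0) else 0) ≤
        if x ∈ B1 then E else 0 := by
      intro x hx
      by_cases h : x ∈ B1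
      · simp only [h, if_true]
        refine le_trans (le_of_eq ?_) (hup1 x hx)
        rw [Finset.card_filter]
        push_cast
        rfl
      · simp [h]
    refine (Finset.sum_le_sum h4).trans ?_
    rw [← Finset.sum_filter, Finset.sum_const, nsmul_eq_mul, mul_comm]
    refine mul_le_mul_of_nonneg_left ?_ hE
    exact_mod_cast Finset.card_le_card fun x hx => (Finset.mem_filter.1 hx).2
  have h5 : ∑ x ∈ S, ∑ m ∈ T, (if m ∈ B2 then (if R x m then (1 : ℝ) else 0) else 0) ≤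
      E * #B2 := by
    rw [Finset.sum_comm]
    have h4 : ∀ m ∈ T, ∑ x ∈ S, (if m ∈ B2 then (if R x m then (1 : ℝ) else 0) else 0) ≤
        if m ∈ B2 then E else 0 := by
      intro m hm
      by_cases h : m ∈ B2
      · simp only [h, if_true]
        refine le_trans (le_of_eq ?_) (hup2 m hm)
        rw [Finset.card_filter]
        push_cast
        rfl
      · simp [h]
    refine (Finset.sum_le_sum h4).trans ?_
    rw [← Finset.sum_filter, Finset.sum_const, nsmul_eq_mul, mul_comm]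
    refine mul_le_mul_of_nonneg_left ?_ hE
    exact_mod_cast Finset.card_le_card fun x hx => (Finset.mem_filter.1 hx).2
  refine h1.trans (h2.trans ?_)
  simp only [Finset.sum_add_distrib]
  rw [mul_add]
  exact add_le_add h3 h5

private theorem C4_cop {l z n : ℕ} {W : Finset ℕ} (hW : ∀ p ∈ W, p ∈ PQ l z)
    (hd : Disjoint W (sm l z n)) : (pr W).Coprime n := by
  unfold pr
  refine Nat.Coprime.prod_left fun p hp => ?_
  have h1 := hW p hp
  have hpp : p.Prime := by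
    unfold PQ at h1
    exact (Finset.mem_filter.1 h1).2.1
  rw [hpp.coprime_iff_not_dvd]
  intro hdv
  refine Finset.disjoint_left.1 hd hp ?_
  unfold sm
  exact Finset.mem_filter.2 ⟨h1, hdv⟩

private theorem C4_Xi (P : Par) (X : ℕ) : 1 ≤ Xi P X := by
  unfold Xi
  refine one_le_pow₀ ?_
  have hf : (0 : ℝ) < (P.b).factorial := by exact_mod_cast Nat.factorial_pos _
  rw [one_le_div hf]
  have h1 : (P.b).factorial ≤ P.b ^ P.b := Nat.factorial_le_pow _
  have h2 : P.b ^ P.b ≤ P.T ^ P.b := Nat.pow_le_pow_left P.hbT.le _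
  exact_mod_cast h1.trans h2

theorem C4_hit (P : Par) : ∃ c : ℝ, 0 < c ∧ ∀ᶠ X : ℕ in atTop,
    ∀ (N t s : ℕ) (W A : Finset ℕ), W ∈ Reg P X P.a → (X : ℝ) ^ (1 / 3 : ℝ) ≤ N → N ≤ X →
    P.l.Coprime t → P.l.Coprime s → t % P.l ≠ s % P.l →
    (∀ x ∈ Good P X N t W, ∀ m ∈ Good P X N s W, x.1 % pr W = m.1 % pr W → x.2 % pr W = m.2 % pr W →
      ∃ c ∈ mods P.l (pr W) x ∪ mods P.l (pr W) m, c ∈ A) →
    c / LL X ^ 3 * Sz P X N ≤
      #{x ∈ Good P X N t W ∪ Good P X N s W | ∃ c ∈ mods P.l (pr W) x, c ∈ A} := by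
  classical
  obtain ⟨c2, C2, hc2, hC2, e2⟩ := C2_class P
  obtain ⟨cT, CT, hcT, hCT, eT⟩ := C2b_total P
  obtain ⟨C3, hC3, e3⟩ := C3_bad P
  obtain ⟨CE, hCE, eE⟩ := E1_scales P
  have eB := B3_size P
  have hK : 0 < 4 * C2 * C3 / (c2 * cT) := by positivity
  have hlog : ∀ᶠ X : ℕ in atTop, max 1 (4 * C2 * C3 / (c2 * cT)) ≤ Real.log X :=
    (Real.tendsto_log_atTop.comp tendsto_natCast_atTop_atTop).eventually_ge_atTop _
  refine ⟨c2 * cT / (4 * C2), by positivity, ?_⟩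
  filter_upwards [e2, eT, e3, eE, eB, hlog, eventually_ge_atTop 1] with X e2 eT e3 eE eB hlog hX1
  intro N t s W A hW hN hNX ht hs hts hA
  set x := Real.log X with hx
  have hx1 : 1 ≤ x := (le_max_left _ _).trans hlog
  have hxK : 4 * C2 * C3 / (c2 * cT) ≤ x := (le_max_right _ _).trans hlog
  have hx0 : 0 < x := by linarith
  have hL : 100 ≤ LL X := eE.1
  have hL0 : 0 < LL X := by linarith
  have hLx : LL X ≤ x := by
    unfold LL
    exact (Real.log_le_sub_one_of_pos hx0).trans (by linarith)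
  have hXi := C4_Xi P X
  have hN0 : (0 : ℝ) < N := by
    refine lt_of_lt_of_le ?_ hN
    refine Real.rpow_pos_of_pos ?_ _
    exact_mod_cast hX1
  -- the primes of `W`
  have hWA : P.a ≤ P.A := by
    unfold Par.A
    omega
  have hWQ : ∀ p ∈ W, p ∈ PQ P.l (zz X) := fun p hp => ((eB P.a hWA W hW).2.1 p hp).2
  have hw0 : 0 < pr W := by
    unfold pr
    refine Finset.prod_pos fun p hp => ?_
    have h1 := hWQ p hp
    unfold PQ at h1
    exact (Finset.mem_filter.1 h1).2.1.pos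
  have hwR : (0 : ℝ) < (pr W : ℝ) := by exact_mod_cast hw0
  have hSz : 0 < Sz P X N := by
    unfold Sz
    have : (0 : ℝ) < Xi P X ^ 3 := by positivity
    rw [← hx]
    positivity
  have hq : 0 < Sz P X N / (pr W : ℝ) ^ 2 := by positivity
  -- the hits
  set H : Finset (ℕ × ℕ) := (Good P X N t W ∪ Good P X N s W).filter
    (fun x => ∃ c ∈ mods P.l (pr W) x, c ∈ A) with hH
  have hadm : ∀ {t' : ℕ} {y : ℕ × ℕ}, y ∈ Tri P X N t' W → (pr W).Coprime y.1 ∧
      (pr W).Coprime y.2 ∧ (pr W).Coprime (y.1 + y.2) := by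
    intro t' y hy
    unfold Tri at hy
    obtain ⟨-, -, -, -, h1, h2, h3⟩ := Finset.mem_filter.1 hy
    exact ⟨C4_cop hWQ h1, C4_cop hWQ h2, C4_cop hWQ h3⟩
  have hcount := C4_count (Tri P X N t W) (Tri P X N s W)
    ((Tri P X N t W \ Good P X N t W) ∪ H) ((Tri P X N s W \ Good P X N s W) ∪ H)
    (fun y m => m.1 % pr W = y.1 % pr W ∧ m.2 % pr W = y.2 % pr W)
    (c2 * (Sz P X N / (pr W : ℝ) ^ 2)) (C2 * LL X ^ 3 * (Sz P X N / (pr W : ℝ) ^ 2))
    (by positivity)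
    (fun y hy => by
      obtain ⟨h1, h2, h3⟩ := hadm hy
      exact (e2 N s W hW hN hNX hs).1 y h1 h2 h3)
    (fun y _ => (e2 N s W hW hN hNX hs).2 y)
    (fun m _ => by
      refine le_trans ?_ ((e2 N t W hW hN hNX ht).2 m)
      refine Nat.cast_le.2 (Finset.card_le_card fun y hy => ?_)
      obtain ⟨h1, h2, h3⟩ := Finset.mem_filter.1 hy
      exact Finset.mem_filter.2 ⟨h1, h2.symm, h3.symm⟩)
    (fun y hy m hm hR => by
      by_cases hg : y ∈ Good P X N t W
      · by_cases hg' : m ∈ Good P X N s W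
        · obtain ⟨c, hc, hcA⟩ := hA y hg m hg' hR.1.symm hR.2.symm
          rcases Finset.mem_union.1 hc with hc | hc
          · exact Or.inl (Finset.mem_union_right _ (Finset.mem_filter.2
              ⟨Finset.mem_union_left _ hg, c, hc, hcA⟩))
          · exact Or.inr (Finset.mem_union_right _ (Finset.mem_filter.2
              ⟨Finset.mem_union_right _ hg', c, hc, hcA⟩))
        · exact Or.inr (Finset.mem_union_left _ (Finset.mem_sdiff.2 ⟨hm, hg'⟩))
      · exact Or.inl (Finset.mem_union_left _ (Finset.mem_sdiff.2 ⟨hy, hg⟩)))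
  have hT := (eT N t W hW hN hNX ht).1
  have hb1 := e3 N t W hW hN hNX ht
  have hb2 := e3 N s W hW hN hNX hs
  have hu1 : (#((Tri P X N t W \ Good P X N t W) ∪ H) : ℝ) ≤ C3 * (N : ℝ) ^ 2 / yy X + #H :=
    le_trans (by exact_mod_cast Finset.card_union_le _ _) (add_le_add_left hb1 _)
  have hu2 : (#((Tri P X N s W \ Good P X N s W) ∪ H) : ℝ) ≤ C3 * (N : ℝ) ^ 2 / yy X + #H :=
    le_trans (by exact_mod_cast Finset.card_union_le _ _) (add_le_add_left hb2 _)
  -- combine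
  have k1 : c2 * (Sz P X N / (pr W : ℝ) ^ 2) * (cT * Sz P X N) ≤
      C2 * LL X ^ 3 * (Sz P X N / (pr W : ℝ) ^ 2) *
        (2 * (C3 * (N : ℝ) ^ 2 / yy X) + 2 * #H) := by
    refine (mul_le_mul_of_nonneg_left hT (by positivity)).trans (hcount.trans ?_)
    refine mul_le_mul_of_nonneg_left ?_ (by positivity)
    linarith
  have k2 : c2 * cT * Sz P X N ≤ C2 * LL X ^ 3 * (2 * (C3 * (N : ℝ) ^ 2 / yy X) + 2 * #H) := by
    have k3 : (Sz P X N / (pr W : ℝ) ^ 2) * (c2 * cT * Sz P X N) ≤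
        (Sz P X N / (pr W : ℝ) ^ 2) *
          (C2 * LL X ^ 3 * (2 * (C3 * (N : ℝ) ^ 2 / yy X) + 2 * #H)) := by
      refine le_trans (le_of_eq ?_) (k1.trans (le_of_eq ?_)) <;> ring
    exact le_of_mul_le_mul_left k3 hq
  -- the bad triples are few
  have k4 : C2 * LL X ^ 3 * (C3 * (N : ℝ) ^ 2 / yy X) ≤ c2 * cT / 4 * Sz P X N := by
    have hy : yy X = x ^ 10 := rfl
    have h1 : (N : ℝ) ^ 2 / x ^ 3 ≤ Sz P X N := by
      unfold Sz
      rw [← hx]
      exact le_mul_of_one_le_right (by positivity) (one_le_pow₀ hXi)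
    have h2 : LL X ^ 3 ≤ x ^ 3 := pow_le_pow_left₀ hL0.le hLx 3
    have h3 : C2 * C3 ≤ c2 * cT / 4 * x ^ 4 := by
      have h4 : 4 * C2 * C3 ≤ x * (c2 * cT) := (div_le_iff₀ (by positivity)).1 hxK
      have h5 : x ≤ x ^ 4 := by
        have := pow_le_pow_right₀ hx1 (show 1 ≤ 4 by norm_num)
        simpa using this
      have h6 : x * (c2 * cT) ≤ x ^ 4 * (c2 * cT) :=
        mul_le_mul_of_nonneg_right h5 (by positivity)
      linarith
    calc C2 * LL X ^ 3 * (C3 * (N : ℝ) ^ 2 / yy X)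
        = (C2 * C3) * (LL X ^ 3 * ((N : ℝ) ^ 2 / x ^ 10)) := by rw [hy]; ring
      _ ≤ (c2 * cT / 4 * x ^ 4) * (x ^ 3 * ((N : ℝ) ^ 2 / x ^ 10)) := by
          refine mul_le_mul h3 (mul_le_mul_of_nonneg_right h2 (by positivity)) (by positivity)
            (by positivity)
      _ = c2 * cT / 4 * ((N : ℝ) ^ 2 / x ^ 3) := by
          field_simp
      _ ≤ c2 * cT / 4 * Sz P X N := mul_le_mul_of_nonneg_left h1 (by positivity)
  have k5 : c2 * cT / 4 * Sz P X N ≤ C2 * LL X ^ 3 * #H := by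
    have : C2 * LL X ^ 3 * (2 * (C3 * (N : ℝ) ^ 2 / yy X) + 2 * #H) =
      2 * (C2 * LL X ^ 3 * (C3 * (N : ℝ) ^ 2 / yy X)) + 2 * (C2 * LL X ^ 3 * #H) := by ring
    rw [this] at k2
    linarith
  have k6 : c2 * cT / (4 * C2) / LL X ^ 3 * Sz P X N =
      (c2 * cT / 4 * Sz P X N) / (C2 * LL X ^ 3) := by
    field_simp
  rw [k6, div_le_iff₀ (by positivity)]
  linarith

end SP15
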