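import Pool.Agent.LibSP15.Defs2
import Pool.Agent.LibSP15.C4
import Pool.Agent.LibSP15.C0
import Pool.Agent.LibSP15.B10

/-!
# SP15, row C5 (size M)

PLAN. Sum C4 over W with N = Nw; N² ≥ X/(32 l) iw W (C0); ∑ iw W ≥ c Th (B10). The cardinality splits over W (first component).
-/

set_option autoImplicit false

namespace SP15

open Finset Filter

theorem C5_sum (P : Par) (X : ℕ) (t s : Finset ℕ → ℕ) (A : Finset ℕ) :
    ∑ W ∈ Reg P X P.a, #{x ∈ Good P X (Nw P.l X (pr W)) (t W) W ∪ Good P X (Nw P.l X (pr W)) (s W) W |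
      ∃ c ∈ mods P.l (pr W) x, c ∈ A} ≤ #{g ∈ Cf P X t s | ∃ c ∈ mods P.l (pr g.1) g.2, c ∈ A} := by
  classical
  set G : Finset ℕ → Finset (ℕ × ℕ) := fun W =>
    {x ∈ Good P X (Nw P.l X (pr W)) (t W) W ∪ Good P X (Nw P.l X (pr W)) (s W) W |
      ∃ c ∈ mods P.l (pr W) x, c ∈ A} with hG
  have h1 : ∀ W ∈ Reg P X P.a, #(G W) = #((G W).image fun x => (W, x)) := by
    intro W _
    rw [card_image_of_injective]
    intro x y hxy
    exact (Prod.mk.inj hxy).2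
  rw [sum_congr rfl h1, ← card_biUnion]
  · refine card_le_card ?_
    intro g hg
    rw [mem_biUnion] at hg
    obtain ⟨W, hW, hg⟩ := hg
    rw [mem_image] at hg
    obtain ⟨x, hx, rfl⟩ := hg
    rw [hG, mem_filter] at hx
    rw [mem_filter]
    refine ⟨?_, hx.2⟩
    unfold Cf
    rw [mem_biUnion]
    exact ⟨W, hW, mem_image.2 ⟨x, hx.1, rfl⟩⟩
  · intro W _ W' _ hne
    rw [Function.onFun, disjoint_left]
    intro g hg hg'
    rw [mem_image] at hg hg'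
    obtain ⟨x, _, rfl⟩ := hg
    obtain ⟨y, _, hy⟩ := hg'
    exact hne (Prod.mk.inj hy).1.symm

theorem C5_hits (P : Par) : ∃ c : ℝ, 0 < c ∧ ∀ᶠ X : ℕ in atTop,
    ∀ (t s : Finset ℕ → ℕ) (A : Finset ℕ),
    (∀ W ∈ Reg P X P.a, P.l.Coprime (t W) ∧ P.l.Coprime (s W) ∧ t W % P.l ≠ s W % P.l) →
    (∀ W ∈ Reg P X P.a, ∀ x ∈ Good P X (Nw P.l X (pr W)) (t W) W,
      ∀ m ∈ Good P X (Nw P.l X (pr W)) (s W) W, x.1 % pr W = m.1 % pr W → x.2 % pr W = m.2 % pr W →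
      ∃ c ∈ mods P.l (pr W) x ∪ mods P.l (pr W) m, c ∈ A) →
    c / LL X ^ 3 * F0 P X ≤ #{g ∈ Cf P X t s | ∃ c ∈ mods P.l (pr g.1) g.2, c ∈ A} := by
  classical
  obtain ⟨c4, hc4, h4⟩ := C4_hit P
  obtain ⟨cB, CB, hcB, hCB, hB⟩ := B10_W P
  have hl0 : (0 : ℝ) < P.l := by exact_mod_cast P.hl.pos
  refine ⟨c4 * (1 / (32 * P.l)) * cB, by positivity, ?_⟩
  have hLL : ∀ᶠ X : ℕ in atTop, 1 ≤ LL X := by
    have : Tendsto (fun X : ℕ => LL X) atTop atTop := by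
      unfold LL
      exact Real.tendsto_log_atTop.comp (Real.tendsto_log_atTop.comp tendsto_natCast_atTop_atTop)
    exact this.eventually_ge_atTop 1
  filter_upwards [h4, hB, C0_Nw P, hLL, eventually_ge_atTop 2] with X h4 hB h0 hL hX2
  intro t s A hts hA
  have hL0 : 0 < LL X := by linarith
  have hx0 : 0 < Real.log X := by
    have h0 : 0 ≤ Real.log X := Real.log_natCast_nonneg X
    rcases h0.lt_or_eq with h | h
    · exact h
    · exfalso
      have : LL X = 0 := by unfold LL; rw [← h]; simp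
      linarith
  have hX0 : (0 : ℝ) < X := by exact_mod_cast (by omega : 0 < X)
  have hXi : 0 ≤ Xi P X := by unfold Xi; positivity
  have key : ∀ W ∈ Reg P X P.a, c4 / LL X ^ 3 * (1 / Real.log X ^ 3 * Xi P X ^ 3) *
      ((X : ℝ) / (32 * P.l) * iw W) ≤
      (#{x ∈ Good P X (Nw P.l X (pr W)) (t W) W ∪ Good P X (Nw P.l X (pr W)) (s W) W |
        ∃ c ∈ mods P.l (pr W) x, c ∈ A} : ℝ) := by
    intro W hW
    obtain ⟨g1, g2, g3⟩ := hts W hW
    obtain ⟨n1, n2, n3, n4⟩ := h0 W hW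
    have h5 := h4 (Nw P.l X (pr W)) (t W) (s W) W A hW n1 n2 g1 g2 g3 (hA W hW)
    refine le_trans ?_ h5
    unfold Sz
    have h6 : c4 / LL X ^ 3 * ((Nw P.l X (pr W) : ℝ) ^ 2 / Real.log X ^ 3 * Xi P X ^ 3) =
        c4 / LL X ^ 3 * (1 / Real.log X ^ 3 * Xi P X ^ 3) * (Nw P.l X (pr W) : ℝ) ^ 2 := by ring
    rw [h6]
    exact mul_le_mul_of_nonneg_left n4 (by positivity)
  have hsum := sum_le_sum key
  rw [← mul_sum, ← mul_sum] at hsum
  have h7 : (∑ W ∈ Reg P X P.a, (#{x ∈ Good P X (Nw P.l X (pr W)) (t W) W ∪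
      Good P X (Nw P.l X (pr W)) (s W) W | ∃ c ∈ mods P.l (pr W) x, c ∈ A} : ℝ)) ≤
      #{g ∈ Cf P X t s | ∃ c ∈ mods P.l (pr g.1) g.2, c ∈ A} := by
    exact_mod_cast C5_sum P X t s A
  refine le_trans ?_ (hsum.trans h7)
  have h8 : c4 * (1 / (32 * P.l)) * cB / LL X ^ 3 * F0 P X =
      c4 / LL X ^ 3 * (1 / Real.log X ^ 3 * Xi P X ^ 3) * ((X : ℝ) / (32 * P.l) * (cB * Th P X)) := by
    unfold F0
    field_simp
  rw [h8]
  refine mul_le_mul_of_nonneg_left ?_ (by positivity)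
  exact mul_le_mul_of_nonneg_left hB.1 (by positivity)

end SP15
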