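import Pool.Agent.LibSP15.Defs2
import Pool.Agent.LibSP15.C2b
import Pool.Agent.LibSP15.C0
import Pool.Agent.LibSP15.B10

/-!
# SP15, row C6 (size S)

PLAN. #Cf ≤ ∑_W (#Tri(t W) + #Tri(s W)) ≤ ∑ 2 C L³ Nw²/(log X)³ Xi³, Nw² ≤ X/(8 l pr W); B10.
-/

set_option autoImplicit false

namespace SP15

open Finset Filter

theorem C6_iw (W : Finset ℕ) : iw W = ((pr W : ℕ) : ℝ)⁻¹ := by
  unfold iw pr
  push_cast
  rw [prod_inv_distrib]

theorem C6_Cf_card (P : Par) : ∃ C : ℝ, 1 ≤ C ∧ ∀ᶠ X : ℕ in atTop, ∀ t s : Finset ℕ → ℕ,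
    (∀ W ∈ Reg P X P.a, P.l.Coprime (t W) ∧ P.l.Coprime (s W)) →
    (#(Cf P X t s) : ℝ) ≤ C * LL X ^ 3 * F0 P X := by
  classical
  obtain ⟨c2, C2, hc2, hC2, h2⟩ := C2b_total P
  obtain ⟨cB, CB, hcB, hCB, hB⟩ := B10_W P
  have hl1 : (1 : ℝ) ≤ P.l := by exact_mod_cast P.hl.one_lt.le
  have hl0 : (0 : ℝ) < P.l := by linarith
  refine ⟨2 * C2 * CB, by nlinarith, ?_⟩
  have hLL : ∀ᶠ X : ℕ in atTop, 1 ≤ LL X := by
    have : Tendsto (fun X : ℕ => LL X) atTop atTop := by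
      unfold LL
      exact Real.tendsto_log_atTop.comp (Real.tendsto_log_atTop.comp tendsto_natCast_atTop_atTop)
    exact this.eventually_ge_atTop 1
  filter_upwards [h2, hB, C0_Nw P, hLL, eventually_ge_atTop 2] with X h2 hB h0 hL hX2
  intro t s hts
  have hL0 : 0 < LL X := by linarith
  have hx0 : 0 < Real.log X := by
    have h0 : 0 ≤ Real.log X := Real.log_natCast_nonneg X
    rcases h0.lt_or_eq with h | h
    · exact h
    · exfalso
      have : LL X = 0 := by unfold LL; rw [← h]; simp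
      linarith
  have hX0 : (0 : ℝ) < X := by exact_mod_cast (by omega : 0 < X)
  have hXi : 0 ≤ Xi P X := by unfold Xi; positivity
  have hTh : 0 ≤ Th P X := by unfold Th; positivity
  have h1 : #(Cf P X t s) ≤ ∑ W ∈ Reg P X P.a, (#(Tri P X (Nw P.l X (pr W)) (t W) W) +
      #(Tri P X (Nw P.l X (pr W)) (s W) W)) := by
    unfold Cf
    refine card_biUnion_le.trans (sum_le_sum fun W _ => ?_)
    refine card_image_le.trans ((card_union_le _ _).trans ?_)
    exact Nat.add_le_add (card_le_card (filter_subset _ _)) (card_le_card (filter_subset _ _))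
  have h1' : (#(Cf P X t s) : ℝ) ≤ ∑ W ∈ Reg P X P.a, ((#(Tri P X (Nw P.l X (pr W)) (t W) W) : ℝ) +
      #(Tri P X (Nw P.l X (pr W)) (s W) W)) := by exact_mod_cast h1
  refine h1'.trans ?_
  have key : ∀ W ∈ Reg P X P.a, ((#(Tri P X (Nw P.l X (pr W)) (t W) W) : ℝ) +
      #(Tri P X (Nw P.l X (pr W)) (s W) W)) ≤
      2 * C2 * LL X ^ 3 * (1 / Real.log X ^ 3 * Xi P X ^ 3) * (X * iw W) := by
    intro W hW
    obtain ⟨g1, g2⟩ := hts W hW
    obtain ⟨n1, n2, n3, n4⟩ := h0 W hW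
    have ht := (h2 (Nw P.l X (pr W)) (t W) W hW n1 n2 g1).2
    have hs := (h2 (Nw P.l X (pr W)) (s W) W hW n1 n2 g2).2
    have hprpos : (0 : ℝ) ≤ (pr W : ℝ) := Nat.cast_nonneg _
    have hNN : (Nw P.l X (pr W) : ℝ) ^ 2 ≤ X * iw W := by
      rcases hprpos.lt_or_eq with hp | hp
      · rw [C6_iw, ← div_eq_mul_inv, le_div_iff₀ hp]
        have h3 : (8 * P.l * pr W * Nw P.l X (pr W) ^ 2 : ℝ) ≤ X := by exact_mod_cast n3
        have h4 : 0 ≤ (Nw P.l X (pr W) : ℝ) ^ 2 * pr W := by positivity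
        nlinarith
      · -- pr W = 0 : then Nw = sqrt (X / 0) = 0
        have h5 : pr W = 0 := by exact_mod_cast hp.symm
        have h6 : Nw P.l X (pr W) = 0 := by unfold Nw; rw [h5]; simp
        rw [h6]
        have : 0 ≤ iw W := by rw [C6_iw]; positivity
        simp only [Nat.cast_zero, ne_eq, OfNat.ofNat_ne_zero, not_false_eq_true, zero_pow]
        positivity
    have hSz : Sz P X (Nw P.l X (pr W)) ≤ (1 / Real.log X ^ 3 * Xi P X ^ 3) * (X * iw W) := by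
      unfold Sz
      have h6 : (Nw P.l X (pr W) : ℝ) ^ 2 / Real.log X ^ 3 * Xi P X ^ 3 =
        (1 / Real.log X ^ 3 * Xi P X ^ 3) * (Nw P.l X (pr W) : ℝ) ^ 2 := by ring
      rw [h6]
      exact mul_le_mul_of_nonneg_left hNN (by positivity)
    have h7 : C2 * LL X ^ 3 * Sz P X (Nw P.l X (pr W)) ≤
        C2 * LL X ^ 3 * ((1 / Real.log X ^ 3 * Xi P X ^ 3) * (X * iw W)) :=
      mul_le_mul_of_nonneg_left hSz (by positivity)
    linarith
  refine (sum_le_sum key).trans ?_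
  rw [← mul_sum, ← mul_sum]
  have h8 : 2 * C2 * CB * LL X ^ 3 * F0 P X =
      2 * C2 * LL X ^ 3 * (1 / Real.log X ^ 3 * Xi P X ^ 3) * (X * (CB * Th P X)) := by
    unfold F0
    field_simp
  rw [h8]
  refine mul_le_mul_of_nonneg_left ?_ (by positivity)
  exact mul_le_mul_of_nonneg_left hB.2 (by positivity)

end SP15
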