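import Pool.Agent.LibSP15.Defs
import Pool.Agent.LibSP15.C0
import Pool.Agent.LibSP15.E1
import Pool.Agent.LibSP15.E2
import Pool.Agent.LibSP15.B3

/-!
# SP15, row C7 (size M)

PLAN. x.1, x.2 ≤ 2N, x.1+x.2 ≤ 4N: c ≤ 8 l w N² ≤ X. l ∤ x.i, x.1+x.2 (≡ t, t, 2t); p ∈ W: p ∈ PQ, disjointness from sm gives p ∤; l ∉ W. So l, pr W and the product are coprime. gcd(a,c): an odd prime p | c is l (∤ a), in W (> yy > |a|), in some sm (> yy) or > zz > |a|.
-/

set_option autoImplicit false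

namespace SP15

open Finset Filter

private theorem C7_prsq (U : Finset ℕ) (hU : ∀ p ∈ U, p.Prime) : Squarefree (pr U) := by
  unfold pr
  induction U using Finset.induction_on with
  | empty => simp
  | insert p U hp ih =>
    rw [Finset.prod_insert hp]
    have h1 : ∀ q ∈ U, q.Prime := fun q hq => hU q (Finset.mem_insert_of_mem hq)
    have hpp : p.Prime := hU p (Finset.mem_insert_self _ _)
    have hco : p.Coprime (∏ q ∈ U, q) := by
      refine Nat.Coprime.prod_right fun q hq => ?_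
      rw [Nat.coprime_primes hpp (h1 q hq)]
      rintro rfl
      exact hp hq
    rw [Nat.squarefree_mul hco]
    exact ⟨hpp.squarefree, ih h1⟩

private theorem C7_dvdpr (U : Finset ℕ) (hU : ∀ p ∈ U, p.Prime) (q : ℕ) (hq : q.Prime) (h : q ∣ pr U) : q ∈ U := by
  unfold pr at h
  obtain ⟨p, hp, hd⟩ := (Prime.dvd_finsetProd_iff hq.prime _).mp h
  rwa [(Nat.prime_dvd_prime_iff_eq hq (hU p hp)).mp hd]

private theorem C7_a (P : Par) (X : ℕ) (hB : ∀ U ∈ Reg P X P.b, ∀ p ∈ U, yy X < p) (hz : yy X ≤ zz X) (n p : ℕ)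
    (hn : sm P.l (zz X) n ∈ Reg P X P.b) (hp : p.Prime) (h2 : p ≠ 2) (hl : p ≠ P.l) (hd : p ∣ n) : yy X < p := by
  by_cases hpz : p ≤ zz X
  · refine hB _ hn p ?_
    unfold sm PQ
    rw [Finset.mem_filter, Finset.mem_filter, Finset.mem_Icc]
    have := hp.two_le
    exact ⟨⟨⟨by omega, hpz⟩, hp, hl⟩, hd⟩
  · have h1 : (zz X : ℝ) < p := by exact_mod_cast not_le.mp hpz
    linarith

private theorem C7_l (P : Par) (t : ℕ) (x : ℕ × ℕ) (hlt : P.l.Coprime t) (h1 : x.1 % P.l = t % P.l)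
    (h2 : x.2 % P.l = t % P.l) : ¬ P.l ∣ x.1 ∧ ¬ P.l ∣ x.2 ∧ ¬ P.l ∣ x.1 + x.2 := by
  have ht : ¬ P.l ∣ t := (Nat.Prime.coprime_iff_not_dvd P.hl).mp hlt
  refine ⟨fun h => ht ?_, fun h => ht ?_, fun h => ht ?_⟩
  · exact (Nat.ModEq.dvd_iff (show x.1 ≡ t [MOD P.l] from h1) dvd_rfl).mp h
  · exact (Nat.ModEq.dvd_iff (show x.2 ≡ t [MOD P.l] from h2) dvd_rfl).mp h
  · have h3 : x.1 + x.2 ≡ t + t [MOD P.l] := Nat.ModEq.add h1 h2
    have h4 := (Nat.ModEq.dvd_iff h3 dvd_rfl).mp h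
    have h5 : P.l ∣ 2 * t := by rwa [two_mul]
    rcases (Nat.Prime.dvd_mul P.hl).mp h5 with h6 | h6
    · have := Nat.le_of_dvd (by norm_num) h6
      have := P.hl3
      omega
    · exact h6

private theorem C7_W (P : Par) (X n p : ℕ) (W : Finset ℕ) (hW : p ∈ PQ P.l (zz X)) (hpW : p ∈ W)
    (hd : Disjoint W (sm P.l (zz X) n)) : ¬ p ∣ n := by
  intro h
  refine (Finset.disjoint_left.mp hd) hpW ?_
  unfold sm
  rw [Finset.mem_filter]
  exact ⟨hW, h⟩

private theorem C7_gcd (g : ℕ) (hg : Squarefree g) (h : ∀ q : ℕ, q.Prime → q ∣ g → q = 2) : g ∣ 2 := by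
  have h1 := Nat.prod_primeFactors_of_squarefree hg
  rw [← h1]
  have h2 : g.primeFactors ⊆ {2} := by
    intro q hq
    rw [Finset.mem_singleton]
    exact h q (Nat.prime_of_mem_primeFactors hq) (Nat.dvd_of_mem_primeFactors hq)
  have h3 := Finset.prod_dvd_prod_of_subset _ _ (fun p : ℕ => p) h2
  simpa using h3

/-- the moduli are admissible -/
theorem C7_mods (P : Par) (a : ℤ) (ha : a ≠ 0) (hla : ¬ (P.l : ℤ) ∣ a) : ∀ᶠ X : ℕ in atTop,
    ∀ (t : ℕ) (W : Finset ℕ), W ∈ Reg P X P.a → P.l.Coprime t →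
    ∀ x ∈ Good P X (Nw P.l X (pr W)) t W, Squarefree (P.l * pr W * (x.1 * x.2 * (x.1 + x.2))) ∧
      ∀ c ∈ mods P.l (pr W) x, 1 ≤ c ∧ c ≤ X ∧ Squarefree c ∧ Int.gcd a c ∣ 2 := by
  obtain ⟨_, _, e1⟩ := E1_scales P
  have e4 : ∀ᶠ X : ℕ in atTop, (a.natAbs : ℝ) < yy X := by
    have h1 : Tendsto (fun X : ℕ => Real.log (X : ℝ)) atTop atTop :=
      Real.tendsto_log_atTop.comp tendsto_natCast_atTop_atTop
    have h2 : Tendsto (fun X : ℕ => Real.log (X : ℝ) ^ 10) atTop atTop :=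
      (tendsto_pow_atTop (by norm_num)).comp h1
    exact h2.eventually (eventually_gt_atTop _)
  filter_upwards [e1, E2_powers, B3_size P, C0_Nw P, e4] with X h1 h2 h3 h5 h6
  intro t W hW hlt x hx
  have hB : ∀ U ∈ Reg P X P.b, ∀ p ∈ U, yy X < p := by
    intro U hU p hp
    exact ((h3 P.b (by unfold Par.A; omega) U hU).2.1 p hp).1
  have hyz : yy X ≤ zz X := h1.2.2.1.trans (by exact_mod_cast h2.2.2.1)
  have hWb := (h3 P.a (by unfold Par.A; omega) W hW).2.1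
  have hWp : ∀ p ∈ W, p.Prime := by
    intro p hp
    have h7 := (hWb p hp).2
    unfold PQ at h7
    exact (Finset.mem_filter.1 h7).2.1
  have hWl : ∀ p ∈ W, p ≠ P.l := by
    intro p hp
    have h7 := (hWb p hp).2
    unfold PQ at h7
    exact (Finset.mem_filter.1 h7).2.2
  have hN := h5 W hW
  set N : ℕ := Nw P.l X (pr W) with hNdef
  unfold Good at hx
  rw [Finset.mem_filter] at hx
  obtain ⟨hxT, hsq⟩ := hx
  unfold Tri at hxT
  rw [Finset.mem_filter, Finset.mem_product, Finset.mem_Ioc, Finset.mem_Ioc] at hxT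
  obtain ⟨⟨⟨b1, b2⟩, ⟨b3, b4⟩⟩, ⟨m1, m2, l1, l2⟩, ⟨r1, r2, r3⟩, _, ⟨w1, w2, w3⟩⟩ := hxT
  obtain ⟨n1, n2, n3⟩ := C7_l P t x hlt l1 l2
  -- coprimality
  have clw : P.l.Coprime (pr W) := by
    unfold pr
    refine Nat.Coprime.prod_right fun q hq => ?_
    rw [Nat.coprime_primes P.hl (hWp q hq)]
    exact (hWl q hq).symm
  have clM : P.l.Coprime (x.1 * x.2 * (x.1 + x.2)) := by
    have g1 : P.l.Coprime x.1 := (Nat.Prime.coprime_iff_not_dvd P.hl).mpr n1
    have g2 : P.l.Coprime x.2 := (Nat.Prime.coprime_iff_not_dvd P.hl).mpr n2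
    have g3 : P.l.Coprime (x.1 + x.2) := (Nat.Prime.coprime_iff_not_dvd P.hl).mpr n3
    exact (g1.mul_right g2).mul_right g3
  have cwM : (pr W).Coprime (x.1 * x.2 * (x.1 + x.2)) := by
    unfold pr
    refine Nat.Coprime.prod_left fun q hq => ?_
    have hqP := (hWb q hq).2
    have g1 : q.Coprime x.1 := (Nat.Prime.coprime_iff_not_dvd (hWp q hq)).mpr (C7_W P X _ q W hqP hq w1)
    have g2 : q.Coprime x.2 := (Nat.Prime.coprime_iff_not_dvd (hWp q hq)).mpr (C7_W P X _ q W hqP hq w2)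
    have g3 : q.Coprime (x.1 + x.2) :=
      (Nat.Prime.coprime_iff_not_dvd (hWp q hq)).mpr (C7_W P X _ q W hqP hq w3)
    exact (g1.mul_right g2).mul_right g3
  have hsq2 : Squarefree (P.l * pr W * (x.1 * x.2 * (x.1 + x.2))) := by
    rw [Nat.squarefree_mul (Nat.Coprime.mul_left clM cwM), Nat.squarefree_mul clw]
    exact ⟨⟨P.hl.squarefree, C7_prsq W hWp⟩, hsq⟩
  refine ⟨hsq2, ?_⟩
  have hlpos : 0 < P.l := P.hl.pos
  have hwpos : 0 < pr W := by
    unfold pr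
    exact Finset.prod_pos fun q hq => (hWp q hq).pos
  -- prime divisors of the moduli
  have hprime : ∀ q : ℕ, q.Prime → (q : ℤ) ∣ a → q ∣ P.l * pr W * (x.1 * x.2 * (x.1 + x.2)) → q = 2 := by
    intro q hq hqa hqd
    by_contra hq2
    have hql : q ≠ P.l := by
      rintro rfl
      exact hla hqa
    have hqle : (q : ℝ) ≤ a.natAbs := by
      have : q ≤ a.natAbs := Nat.le_of_dvd (Int.natAbs_pos.mpr ha) (Int.natCast_dvd.mp hqa)
      exact_mod_cast this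
    have hlt2 : yy X < q := by
      rcases (Nat.Prime.dvd_mul hq).mp hqd with h7 | h7
      · rcases (Nat.Prime.dvd_mul hq).mp h7 with h8 | h8
        · exact absurd ((Nat.prime_dvd_prime_iff_eq hq P.hl).mp h8) hql
        · exact (hWb q (C7_dvdpr W hWp q hq h8)).1
      · rcases (Nat.Prime.dvd_mul hq).mp h7 with h8 | h8
        · rcases (Nat.Prime.dvd_mul hq).mp h8 with h9 | h9
          · exact C7_a P X hB hyz _ q r1 hq hq2 hql h9
          · exact C7_a P X hB hyz _ q r2 hq hq2 hql h9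
        · exact C7_a P X hB hyz _ q r3 hq hq2 hql h8
    linarith
  have hfin : ∀ c : ℕ, c ∣ P.l * pr W * (x.1 * x.2 * (x.1 + x.2)) → 1 ≤ c → c ≤ X →
      1 ≤ c ∧ c ≤ X ∧ Squarefree c ∧ Int.gcd a c ∣ 2 := by
    intro c hc hc1 hcX
    have hsc : Squarefree c := hsq2.squarefree_of_dvd hc
    refine ⟨hc1, hcX, hsc, ?_⟩
    have hgc : Int.gcd a c ∣ c := by
      have := Int.gcd_dvd_right (a := a) (b := (c : ℤ))
      exact_mod_cast this
    refine C7_gcd _ (hsc.squarefree_of_dvd hgc) fun q hq hqg => ?_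
    refine hprime q hq ?_ ((hqg.trans hgc).trans hc)
    have h7 : ((Int.gcd a c : ℕ) : ℤ) ∣ a := Int.gcd_dvd_left _ _
    have h8 : (q : ℤ) ∣ ((Int.gcd a c : ℕ) : ℤ) := by exact_mod_cast hqg
    exact h8.trans h7
  have hX : P.l * pr W * (8 * N ^ 2) ≤ X := by
    have := hN.2.2.1
    calc P.l * pr W * (8 * N ^ 2) = 8 * P.l * pr W * N ^ 2 := by ring
      _ ≤ X := this
  intro c hc
  unfold mods at hc
  rw [Finset.mem_insert, Finset.mem_insert, Finset.mem_singleton] at hc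
  have hbd : ∀ u : ℕ, 1 ≤ u → u ≤ 8 * N ^ 2 → 1 ≤ P.l * pr W * u ∧ P.l * pr W * u ≤ X := by
    intro u h7 h8
    exact ⟨Nat.mul_pos (Nat.mul_pos hlpos hwpos) h7, (Nat.mul_le_mul_left _ h8).trans hX⟩
  have q1 : 1 ≤ x.1 := by omega
  have q2 : 1 ≤ x.2 := by omega
  rcases hc with rfl | rfl | rfl
  · obtain ⟨g1, g2⟩ := hbd (x.1 * x.2) (Nat.mul_pos q1 q2) (by nlinarith)
    exact hfin _ (Nat.mul_dvd_mul_left _ (Dvd.intro _ rfl)) g1 g2
  · obtain ⟨g1, g2⟩ := hbd (x.1 * (x.1 + x.2)) (Nat.mul_pos q1 (by omega)) (by nlinarith)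
    refine hfin _ (Nat.mul_dvd_mul_left _ ?_) g1 g2
    exact Dvd.intro x.2 (by ring)
  · obtain ⟨g1, g2⟩ := hbd (x.2 * (x.1 + x.2)) (Nat.mul_pos q2 (by omega)) (by nlinarith)
    refine hfin _ (Nat.mul_dvd_mul_left _ ?_) g1 g2
    exact Dvd.intro x.1 (by ring)

end SP15
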