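import Pool.Agent.LibSP15.Defs2

/-!
# SP15, row D0 (size S)

PLAN. n squarefree: n = ∏ of its primes; the primes ≤ z are 2 (possibly), and sm l z n (l ∤ n). gcd n 2 * pr (sm) divides n with rough cofactor.
-/

set_option autoImplicit false

namespace SP15

open Finset Filter

private theorem D0_dvd (l z n : ℕ) (hn : n ≠ 0) : pr (sm l z n) ∣ n := by
  unfold pr
  refine Finset.prod_primes_dvd n ?_ ?_
  · intro p hp
    exact ((mem_filter.1 (mem_filter.1 hp).1).2.1).prime
  · intro p hp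
    exact (mem_filter.1 hp).2

private theorem D0_odd (l z n : ℕ) : (pr (sm l z n)).Coprime 2 := by
  unfold pr
  refine Nat.Coprime.prod_left fun p hp => ?_
  have h1 := mem_filter.1 (mem_filter.1 hp).1
  have h2 := mem_Icc.1 h1.1
  rw [Nat.coprime_primes h1.2.1 Nat.prime_two]
  omega

/-- structure of a good number -/
theorem D0_rp (l z n : ℕ) (hl : l.Prime) (hl3 : 3 < l) (hlz : 3 ≤ z) (hn : Squarefree n) (hln : ¬ l ∣ n) :
    n = Nat.gcd n 2 * pr (sm l z n) * rp l z n ∧ Rough z (rp l z n) ∧ 1 ≤ rp l z n := by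
  have hn0 : n ≠ 0 := hn.ne_zero
  have hdvd : Nat.gcd n 2 * pr (sm l z n) ∣ n := by
    refine Nat.Coprime.mul_dvd_of_dvd_of_dvd ?_ (Nat.gcd_dvd_left n 2) (D0_dvd l z n hn0)
    exact Nat.Coprime.coprime_dvd_left (Nat.gcd_dvd_right n 2) (D0_odd l z n).symm
  have heq : n = Nat.gcd n 2 * pr (sm l z n) * rp l z n := by
    unfold rp
    exact (Nat.mul_div_cancel' hdvd).symm
  have hrp : rp l z n ≠ 0 := by
    intro h
    rw [h, mul_zero] at heq
    exact hn0 heq
  refine ⟨heq, ?_, Nat.one_le_iff_ne_zero.2 hrp⟩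
  intro p hp hpr
  by_contra hpz
  have hpn : p ∣ n := hpr.trans ⟨Nat.gcd n 2 * pr (sm l z n), by rw [mul_comm]; exact heq⟩
  have hD : p ∣ Nat.gcd n 2 * pr (sm l z n) := by
    rcases hp.eq_two_or_odd' with h2 | h2
    · subst h2
      exact (Nat.dvd_gcd hpn dvd_rfl).mul_right _
    · refine Dvd.dvd.mul_left ?_ _
      have hpl : p ≠ l := fun h => hln (h ▸ hpn)
      have hp3 : 3 ≤ p := by
        have := hp.two_le
        rcases h2 with ⟨k, hk⟩
        omega
      exact Finset.dvd_prod_of_mem _ (mem_filter.2 ⟨mem_filter.2 ⟨mem_Icc.2 ⟨hp3, by omega⟩, hp, hpl⟩,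
        hpn⟩)
  have hpp : p * p ∣ n := by
    rw [heq]
    exact mul_dvd_mul hD hpr
  have := hn p hpp
  exact hp.one_lt.ne' (Nat.isUnit_iff.1 this)

end SP15
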