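import Pool.Agent.LibSP15.Defs2

/-!
# SP15, row D1 (size S)

PLAN. r₁ = gcd(v, w), r₂ = v/r₁, r₃ = w/r₁; r₂ v' = r₃ w', coprime ⇒ v' = r₃ r₄, w' = r₂ r₄. r₁ | v, r₄ | v' gives r₁.Coprime r₄.
-/

set_option autoImplicit false

namespace SP15

open Finset Filter

/-- four numbers -/
theorem D1_four (v v' w w' : ℕ) (hv : 1 ≤ v) (hw : 1 ≤ w) (hv' : 1 ≤ v') (hw' : 1 ≤ w')
    (hc : v.Coprime v') (hd : w.Coprime w') (h : v * v' = w * w') :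
    ∃ r₁ r₂ r₃ r₄ : ℕ, v = r₁ * r₂ ∧ w = r₁ * r₃ ∧ v' = r₃ * r₄ ∧ w' = r₂ * r₄ ∧ r₂.Coprime r₃ ∧
      r₁.Coprime r₄ := by
  obtain ⟨r₂, r₃, hcop, hv2, hw2⟩ := Nat.exists_coprime v w
  have hg : 0 < Nat.gcd v w := Nat.gcd_pos_of_pos_left _ hv
  generalize Nat.gcd v w = g at hv2 hw2 hg
  have h3 : 0 < r₃ := by
    rcases Nat.eq_zero_or_pos r₃ with h0 | h0
    · rw [h0, zero_mul] at hw2
      omega
    · exact h0
  have h1 : r₂ * v' = r₃ * w' := by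
    rw [hv2, hw2] at h
    apply Nat.eq_of_mul_eq_mul_left hg
    calc g * (r₂ * v') = r₂ * g * v' := by ring
      _ = r₃ * g * w' := h
      _ = g * (r₃ * w') := by ring
  have h2 : r₃ ∣ v' := by
    have h4 : r₃ ∣ r₂ * v' := Dvd.intro w' h1.symm
    exact hcop.symm.dvd_of_dvd_mul_left h4
  obtain ⟨r₄, hr4⟩ := h2
  have h5 : w' = r₂ * r₄ := by
    apply Nat.eq_of_mul_eq_mul_left h3
    rw [← h1, hr4]
    ring
  refine ⟨g, r₂, r₃, r₄, by rw [hv2]; ring, by rw [hw2]; ring, hr4, h5, hcop, ?_⟩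
  have h6 : g ∣ v := Dvd.intro_left r₂ hv2.symm
  have h7 : r₄ ∣ v' := Dvd.intro_left r₃ hr4.symm
  exact (hc.coprime_dvd_left h6).coprime_dvd_right h7

end SP15
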