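import Pool.Agent.LibSP15.Defs2
import Pool.Agent.LibSP15.D0
import Pool.Agent.LibSP15.C0
import Pool.Agent.LibSP15.B3

/-!
# SP15, row D2 (size M)

PLAN. Unfold Cf, Good, Tri. n0, n2 odd, n1 = n0+n2 ≡ 2 mod 4: gcd(n,2) = 1, 1, 2. `D0_rp` with l ∤ n_i. 1 < rp: n > N ≥ X^(1/3), pr (sm n) ≤ zz^(1/20), so n/(2 pr) > 1. Coprimality from the squarefree product. τ by `fin_cases`.
-/

set_option autoImplicit false

namespace SP15

open Finset Filter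

private theorem D2_cf {P : Par} {X : ℕ} {t s : Finset ℕ → ℕ} {g : Finset ℕ × ℕ × ℕ}
    (hg : g ∈ Cf P X t s) : g.1 ∈ Reg P X P.a ∧
      ∃ r, (r = t g.1 ∨ r = s g.1) ∧ g.2 ∈ Good P X (Nw P.l X (pr g.1)) r g.1 := by
  unfold Cf at hg
  obtain ⟨W, hW, h1⟩ := mem_biUnion.1 hg
  obtain ⟨x, hx, rfl⟩ := mem_image.1 h1
  refine ⟨hW, ?_⟩
  rcases mem_union.1 hx with h2 | h2
  · exact ⟨t W, Or.inl rfl, h2⟩
  · exact ⟨s W, Or.inr rfl, h2⟩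

private theorem D2_one {P : Par} {X N n : ℕ} (hz : 3 ≤ zz X) (hn : Squarefree n) (hln : ¬ P.l ∣ n)
    (hbig : 2 * pr (sm P.l (zz X) n) < n) :
    1 < rp P.l (zz X) n := by
  obtain ⟨h1, -, h3⟩ := D0_rp P.l (zz X) n P.hl P.hl3 hz hn hln
  by_contra hle
  have h4 : rp P.l (zz X) n = 1 := by omega
  rw [h4, mul_one] at h1
  have h5 : Nat.gcd n 2 ≤ 2 := Nat.gcd_le_right _ (by norm_num)
  have h6 : Nat.gcd n 2 * pr (sm P.l (zz X) n) ≤ 2 * pr (sm P.l (zz X) n) := Nat.mul_le_mul_right _ h5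
  omega

private theorem D2_l {l r n : ℕ} (hl : l.Prime) (hr : l.Coprime r) (h : n % l = r % l) : ¬ l ∣ n := by
  intro hd
  have h1 : n % l = 0 := Nat.mod_eq_zero_of_dvd hd
  rw [h1] at h
  have h2 : l ∣ r := Nat.dvd_of_mod_eq_zero h.symm
  exact hl.one_lt.ne' (Nat.eq_one_of_dvd_coprimes hr dvd_rfl h2)

private theorem D2_l2 {l r n m : ℕ} (hl : l.Prime) (hl3 : 3 < l) (hr : l.Coprime r) (h : n % l = r % l)
    (h' : m % l = r % l) : ¬ l ∣ n + m := by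
  intro hd
  have h1 : (n + m) % l = (2 * r) % l := by
    rw [Nat.add_mod, h, h', two_mul, Nat.add_mod]
    simp
  have h2 : l ∣ 2 * r := by
    refine Nat.dvd_of_mod_eq_zero ?_
    rw [← h1]
    exact Nat.mod_eq_zero_of_dvd hd
  have h3 : l ∣ 2 := hr.dvd_of_dvd_mul_right h2
  have := Nat.le_of_dvd (by norm_num) h3
  omega

/-- facts about one configuration -/
theorem D2_facts (P : Par) : ∀ᶠ X : ℕ in atTop, ∀ (t s : Finset ℕ → ℕ) (τ : Fin 3),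
    (∀ W ∈ Reg P X P.a, P.l.Coprime (t W) ∧ P.l.Coprime (s W)) → ∀ g ∈ Cf P X t s,
    g.1 ∈ Reg P X P.a ∧
    (g.1, sm P.l (zz X) (nA τ g.2), sm P.l (zz X) (nB τ g.2)) ∈ Spl P X ∧
    sm P.l (zz X) (nC τ g.2) ∈ Reg P X P.b ∧
    (nC τ g.2 : ℤ) = eA τ * nA τ g.2 + eB τ * nB τ g.2 ∧
    (nA τ g.2 : ℤ) = gA τ * pr (sm P.l (zz X) (nA τ g.2)) * rp P.l (zz X) (nA τ g.2) ∧
    (nB τ g.2 : ℤ) = gB τ * pr (sm P.l (zz X) (nB τ g.2)) * rp P.l (zz X) (nB τ g.2) ∧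
    Rough (zz X) (rp P.l (zz X) (nA τ g.2)) ∧ Rough (zz X) (rp P.l (zz X) (nB τ g.2)) ∧
    1 < rp P.l (zz X) (nA τ g.2) ∧ 1 < rp P.l (zz X) (nB τ g.2) ∧
    (rp P.l (zz X) (nA τ g.2)).Coprime (rp P.l (zz X) (nB τ g.2)) ∧
    Nw P.l X (pr g.1) < nA τ g.2 ∧ nA τ g.2 ≤ 4 * Nw P.l X (pr g.1) ∧
    Nw P.l X (pr g.1) < nB τ g.2 ∧ nB τ g.2 ≤ 4 * Nw P.l X (pr g.1) ∧ nA τ g.2 ≤ X ∧ nB τ g.2 ≤ X ∧
    1 ≤ Nw P.l X (pr g.1) := by
  classical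
  obtain ⟨C, -, hE1⟩ := E1_scales P
  have hlim : ∀ᶠ X : ℕ in atTop, 2 * (X : ℝ) ^ (1 / 1000 : ℝ) < (X : ℝ) ^ (1 / 3 : ℝ) := by
    have h1 : Tendsto (fun X : ℕ => (X : ℝ) ^ (1 / 3 - 1 / 1000 : ℝ)) atTop atTop :=
      (tendsto_rpow_atTop (by norm_num)).comp tendsto_natCast_atTop_atTop
    filter_upwards [h1.eventually_gt_atTop 2, eventually_gt_atTop 0] with X hX hX0
    have hX0' : (0 : ℝ) < X := by exact_mod_cast hX0
    have h2 : (X : ℝ) ^ (1 / 3 : ℝ) = (X : ℝ) ^ (1 / 3 - 1 / 1000 : ℝ) * (X : ℝ) ^ (1 / 1000 : ℝ) := by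
      rw [← Real.rpow_add hX0']
      norm_num
    rw [h2]
    exact mul_lt_mul_of_pos_right hX (Real.rpow_pos_of_pos hX0' _)
  filter_upwards [C0_Nw P, hE1, E2_powers, B3_size P, hlim, eventually_ge_atTop 1] with
    X hC0 h3 h4 hB3 hlim hX1 t s τ hts g hg
  have hX1' : (1 : ℝ) ≤ X := by exact_mod_cast hX1
  have hz : 3 ≤ zz X := by
    have h6 : 100 ≤ zs X := h3.2.1
    have h7 : zs X ≤ zz X := h4.2.2.1
    omega
  obtain ⟨hW, r, hr, hG⟩ := D2_cf hg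
  obtain ⟨W, x⟩ := g
  simp only at hW hr hG ⊢
  have hlr : P.l.Coprime r := by
    rcases hr with rfl | rfl
    · exact (hts W hW).1
    · exact (hts W hW).2
  obtain ⟨hTri, hsq⟩ := mem_filter.1 hG
  unfold Tri at hTri
  obtain ⟨hx, ⟨m1, m2, l1, l2⟩, ⟨r1, r2, r3⟩, ⟨d1, d2, d3⟩, ⟨w1, w2, w3⟩⟩ := mem_filter.1 hTri
  obtain ⟨hx1, hx2⟩ := mem_product.1 hx
  rw [mem_Ioc] at hx1 hx2
  obtain ⟨c1, c2, c3, -⟩ := hC0 W hW
  set N := Nw P.l X (pr W) with hN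
  have hsmpos : ∀ n, 0 < pr (sm P.l (zz X) n) := fun n => Finset.prod_pos fun p hp =>
    (mem_filter.1 (mem_filter.1 hp).1).2.1.pos
  have hN1 : 1 ≤ N := by
    have h5 : (0 : ℝ) < N := lt_of_lt_of_le (Real.rpow_pos_of_pos (by linarith) _) c1
    exact_mod_cast h5
  have hprW : 0 < pr W := by
    refine Finset.prod_pos fun p hp => ?_
    have hA : P.a ≤ P.A := by unfold Par.A; omega
    have := ((hB3 P.a hA W hW).2.1 p hp).2
    exact ((mem_filter.1 this).2.1).pos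
  have h4N : 4 * N ≤ X := by
    have h5 : 8 * P.l * pr W * N ^ 2 ≤ X := by exact_mod_cast c3
    have hlpos : 0 < P.l := P.hl.pos
    have h6 : 1 ≤ P.l * pr W := Nat.mul_pos hlpos hprW
    calc 4 * N ≤ 8 * N ^ 2 := by nlinarith
      _ = 8 * 1 * N ^ 2 := by ring
      _ ≤ 8 * (P.l * pr W) * N ^ 2 := Nat.mul_le_mul_right _ (Nat.mul_le_mul_left _ h6)
      _ = 8 * P.l * pr W * N ^ 2 := by ring
      _ ≤ X := h5
  have hsmall : ∀ n, sm P.l (zz X) n ∈ Reg P X P.b → N < n → 2 * pr (sm P.l (zz X) n) < n := by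
    intro n hn hNn
    have hb : P.b ≤ P.A := by unfold Par.A; omega
    have h5 := (hB3 P.b hb _ hn).1
    have h6 : (zz X : ℝ) ≤ (X : ℝ) ^ (1 / 1000 : ℝ) := h4.2.2.2.1
    have h7 : (pr (sm P.l (zz X) n) : ℝ) ≤ (X : ℝ) ^ (1 / 1000 : ℝ) := by
      refine h5.trans ?_
      have hz1 : (1 : ℝ) ≤ zz X := by exact_mod_cast (by omega : 1 ≤ zz X)
      calc (zz X : ℝ) ^ (1 / 20 : ℝ) ≤ (zz X : ℝ) ^ (1 : ℝ) :=
            Real.rpow_le_rpow_of_exponent_le hz1 (by norm_num)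
        _ = zz X := Real.rpow_one _
        _ ≤ _ := h6
    have h8 : (2 * pr (sm P.l (zz X) n) : ℝ) < N := by
      calc (2 * pr (sm P.l (zz X) n) : ℝ) ≤ 2 * (X : ℝ) ^ (1 / 1000 : ℝ) := by linarith
        _ < (X : ℝ) ^ (1 / 3 : ℝ) := hlim
        _ ≤ N := c1
    have h9 : 2 * pr (sm P.l (zz X) n) < N := by exact_mod_cast h8
    omega
  -- the three numbers
  have s1 : Squarefree x.1 := hsq.squarefree_of_dvd ⟨x.2 * (x.1 + x.2), by ring⟩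
  have s2 : Squarefree x.2 := hsq.squarefree_of_dvd ⟨x.1 * (x.1 + x.2), by ring⟩
  have s3 : Squarefree (x.1 + x.2) := hsq.squarefree_of_dvd ⟨x.1 * x.2, by ring⟩
  have n1 : ¬ P.l ∣ x.1 := D2_l P.hl hlr l1
  have n2 : ¬ P.l ∣ x.2 := D2_l P.hl hlr l2
  have n3 : ¬ P.l ∣ x.1 + x.2 := D2_l2 P.hl P.hl3 hlr l1 l2
  have g1 : Nat.gcd x.1 2 = 1 := by
    have : x.1 % 2 = 1 := by omega
    rw [Nat.gcd_comm, Nat.gcd_rec, this]
    simp
  have g2 : Nat.gcd x.2 2 = 1 := by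
    have : x.2 % 2 = 1 := by omega
    rw [Nat.gcd_comm, Nat.gcd_rec, this]
    simp
  have g3 : Nat.gcd (x.1 + x.2) 2 = 2 := by
    refine Nat.gcd_eq_right ?_
    omega
  obtain ⟨q1, q1', -⟩ := D0_rp P.l (zz X) x.1 P.hl P.hl3 hz s1 n1
  obtain ⟨q2, q2', -⟩ := D0_rp P.l (zz X) x.2 P.hl P.hl3 hz s2 n2
  obtain ⟨q3, q3', -⟩ := D0_rp P.l (zz X) (x.1 + x.2) P.hl P.hl3 hz s3 n3
  rw [g1, one_mul] at q1
  rw [g2, one_mul] at q2
  rw [g3] at q3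
  have b1 := D2_one (P := P) (N := N) hz s1 n1 (hsmall _ r1 hx1.1)
  have b2 := D2_one (P := P) (N := N) hz s2 n2 (hsmall _ r2 hx2.1)
  have b3 := D2_one (P := P) (N := N) hz s3 n3 (hsmall _ r3 (by omega))
  have k1 : rp P.l (zz X) x.1 ∣ x.1 := ⟨pr (sm P.l (zz X) x.1), by rw [mul_comm]; exact q1⟩
  have k2 : rp P.l (zz X) x.2 ∣ x.2 := ⟨pr (sm P.l (zz X) x.2), by rw [mul_comm]; exact q2⟩
  have k3 : rp P.l (zz X) (x.1 + x.2) ∣ x.1 + x.2 :=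
    ⟨2 * pr (sm P.l (zz X) (x.1 + x.2)), by rw [mul_comm]; exact q3⟩
  have c12 : x.1.Coprime x.2 := Nat.coprime_of_squarefree_mul
    (hsq.squarefree_of_dvd ⟨x.1 + x.2, rfl⟩)
  have c13 : x.1.Coprime (x.1 + x.2) := Nat.coprime_of_squarefree_mul
    (hsq.squarefree_of_dvd ⟨x.2, by ring⟩)
  have c23 : x.2.Coprime (x.1 + x.2) := Nat.coprime_of_squarefree_mul
    (hsq.squarefree_of_dvd ⟨x.1, by ring⟩)
  have cc : ∀ {a b c d : ℕ}, a ∣ b → c ∣ d → b.Coprime d → a.Coprime c := fun h1 h2 h3 =>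
    (h3.coprime_dvd_left h1).coprime_dvd_right h2
  have hSpl : ∀ U V : Finset ℕ, U ∈ Reg P X P.b → V ∈ Reg P X P.b → Disjoint W U → Disjoint W V →
      Disjoint U V → (W, U, V) ∈ Spl P X := fun U V h1 h2 h3 h4 h5 =>
    mem_filter.2 ⟨mem_product.2 ⟨hW, mem_product.2 ⟨h1, h2⟩⟩, h3, h4, h5⟩
  have z1 : (x.1 : ℤ) = pr (sm P.l (zz X) x.1) * rp P.l (zz X) x.1 := by exact_mod_cast q1
  have z2 : (x.2 : ℤ) = pr (sm P.l (zz X) x.2) * rp P.l (zz X) x.2 := by exact_mod_cast q2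
  have z3 : ((x.1 + x.2 : ℕ) : ℤ) =
      2 * pr (sm P.l (zz X) (x.1 + x.2)) * rp P.l (zz X) (x.1 + x.2) := by exact_mod_cast q3
  have hτ : τ = 0 ∨ τ = 1 ∨ τ = 2 := by
    fin_cases τ <;> simp
  rcases hτ with rfl | rfl | rfl
  · have hA : nA 0 x = x.1 := rfl
    have hB : nB 0 x = x.2 := rfl
    have hC : nC 0 x = x.1 + x.2 := rfl
    have eA0 : eA 0 = 1 := rfl
    have eB0 : eB 0 = 1 := rfl
    have gA0 : gA 0 = 1 := rfl
    have gB0 : gB 0 = 1 := rfl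
    rw [hA, hB, hC, eA0, eB0, gA0, gB0]
    refine ⟨hW, hSpl _ _ r1 r2 w1 w2 d1, r3, by push_cast; ring, by rw [one_mul]; exact z1,
      by rw [one_mul]; exact z2, q1', q2', b1, b2, cc k1 k2 c12, hx1.1, by omega, hx2.1, by omega,
      by omega, by omega, hN1⟩
  · have hA : nA 1 x = x.1 := rfl
    have hB : nB 1 x = x.1 + x.2 := rfl
    have hC : nC 1 x = x.2 := rfl
    have eA0 : eA 1 = -1 := rfl
    have eB0 : eB 1 = 1 := rfl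
    have gA0 : gA 1 = 1 := rfl
    have gB0 : gB 1 = 2 := rfl
    rw [hA, hB, hC, eA0, eB0, gA0, gB0]
    refine ⟨hW, hSpl _ _ r1 r3 w1 w3 d2, r2, by push_cast; ring, by rw [one_mul]; exact z1,
      z3, q1', q3', b1, b3, cc k1 k3 c13, hx1.1, by omega, by omega, by omega,
      by omega, by omega, hN1⟩
  · have hA : nA 2 x = x.2 := rfl
    have hB : nB 2 x = x.1 + x.2 := rfl
    have hC : nC 2 x = x.1 := rfl
    have eA0 : eA 2 = -1 := rfl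
    have eB0 : eB 2 = 1 := rfl
    have gA0 : gA 2 = 1 := rfl
    have gB0 : gB 2 = 2 := rfl
    rw [hA, hB, hC, eA0, eB0, gA0, gB0]
    refine ⟨hW, hSpl _ _ r2 r3 w2 w3 d3, r1, by push_cast; ring, by rw [one_mul]; exact z2,
      z3, q2', q3', b2, b3, cc k2 k3 c23, hx2.1, by omega, by omega, by omega,
      by omega, by omega, hN1⟩

end SP15
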