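import Pool.Agent.LibSP15.Defs2
import Pool.Agent.LibSP15.D2
import Pool.Agent.LibSP15.B3

/-!
# SP15, row D2b (size M)

PLAN. l w n n' = l w' m m'. The set of the p ∈ PQ l zz dividing w n n' is Mu; rp rp' = w n n'/(gA gB pr Mu) (gA gB the same for both, pr (Mu s) = pr W * pr U * pr U').
-/

set_option autoImplicit false

namespace SP15

open Finset Filter

private theorem D2b_dvd {U : Finset ℕ} (hU : ∀ p ∈ U, p.Prime) {p : ℕ} (hp : p.Prime) :
    p ∣ pr U ↔ p ∈ U := by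
  unfold pr
  constructor
  · intro h
    obtain ⟨q, hq, hpq⟩ := (Prime.dvd_finsetProd_iff hp.prime _).1 h
    rw [(Nat.prime_dvd_prime_iff_eq hp (hU q hq)).1 hpq]
    exact hq
  · intro h
    exact Finset.dvd_prod_of_mem _ h

private theorem D2b_Mu {l z : ℕ} {W : Finset ℕ} (hW : ∀ p ∈ W, p ∈ PQ l z) (a b p : ℕ) :
    p ∈ Mu (W, sm l z a, sm l z b) ↔ p ∈ PQ l z ∧ p ∣ pr W * (a * b) := by
  have hprime : ∀ q ∈ PQ l z, q.Prime := fun q hq => (mem_filter.1 hq).2.1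
  constructor
  · intro hp
    unfold Mu at hp
    rcases Finset.mem_union.1 hp with h1 | h1
    · rcases Finset.mem_union.1 h1 with h2 | h2
      · exact ⟨hW p h2, ((D2b_dvd (fun q hq => hprime q (hW q hq)) (hprime p (hW p h2))).2 h2).mul_right _⟩
      · obtain ⟨h3, h4⟩ := mem_filter.1 h2
        exact ⟨h3, (h4.mul_right b).mul_left _⟩
    · obtain ⟨h3, h4⟩ := mem_filter.1 h1
      exact ⟨h3, (h4.mul_left a).mul_left _⟩
  · rintro ⟨h1, h2⟩
    have hp := hprime p h1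
    unfold Mu
    rcases hp.dvd_mul.1 h2 with h3 | h3
    · exact Finset.mem_union_left _ (Finset.mem_union_left _
        ((D2b_dvd (fun q hq => hprime q (hW q hq)) hp).1 h3))
    · rcases hp.dvd_mul.1 h3 with h4 | h4
      · exact Finset.mem_union_left _ (Finset.mem_union_right _ (mem_filter.2 ⟨h1, h4⟩))
      · exact Finset.mem_union_right _ (mem_filter.2 ⟨h1, h4⟩)

private theorem D2b_pr {s : Sp} (hd : Disjoint s.1 s.2.1 ∧ Disjoint s.1 s.2.2 ∧ Disjoint s.2.1 s.2.2) :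
    pr (Mu s) = pr s.1 * pr s.2.1 * pr s.2.2 := by
  unfold Mu pr
  rw [Finset.prod_union, Finset.prod_union hd.1]
  exact Finset.disjoint_union_left.2 ⟨hd.2.1, hd.2.2⟩

/-- two configurations with the same modulus -/
theorem D2b_pair (P : Par) : ∀ᶠ X : ℕ in atTop, ∀ (t s : Finset ℕ → ℕ) (τ : Fin 3),
    (∀ W ∈ Reg P X P.a, P.l.Coprime (t W) ∧ P.l.Coprime (s W)) → ∀ g ∈ Cf P X t s, ∀ g' ∈ Cf P X t s,
    cmod P.l τ g = cmod P.l τ g' →
    Mu (g.1, sm P.l (zz X) (nA τ g.2), sm P.l (zz X) (nB τ g.2)) =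
      Mu (g'.1, sm P.l (zz X) (nA τ g'.2), sm P.l (zz X) (nB τ g'.2)) ∧
    rp P.l (zz X) (nA τ g.2) * rp P.l (zz X) (nB τ g.2) =
      rp P.l (zz X) (nA τ g'.2) * rp P.l (zz X) (nB τ g'.2) := by
  filter_upwards [D2_facts P, B3_size P] with X hF hB3 t s τ hts g hg g' hg' hc
  have hPQ : ∀ W ∈ Reg P X P.a, ∀ p ∈ W, p ∈ PQ P.l (zz X) := by
    intro W hW p hp
    have hA : P.a ≤ P.A := by unfold Par.A; omega
    exact ((hB3 P.a hA W hW).2.1 p hp).2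
  obtain ⟨f1, f2, -, -, f5, f6, -⟩ := hF t s τ hts g hg
  obtain ⟨e1, e2, -, -, e5, e6, -⟩ := hF t s τ hts g' hg'
  have hc' : pr g.1 * (nA τ g.2 * nB τ g.2) = pr g'.1 * (nA τ g'.2 * nB τ g'.2) := by
    unfold cmod at hc
    rw [mul_assoc, mul_assoc] at hc
    exact Nat.eq_of_mul_eq_mul_left P.hl.pos hc
  have hMu : Mu (g.1, sm P.l (zz X) (nA τ g.2), sm P.l (zz X) (nB τ g.2)) =
      Mu (g'.1, sm P.l (zz X) (nA τ g'.2), sm P.l (zz X) (nB τ g'.2)) := by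
    ext p
    rw [D2b_Mu (hPQ _ f1), D2b_Mu (hPQ _ e1), hc']
  refine ⟨hMu, ?_⟩
  have k1 := D2b_pr (mem_filter.1 f2).2
  have k2 := D2b_pr (mem_filter.1 e2).2
  rw [← hMu] at k2
  simp only at k1 k2
  set M := pr (Mu (g.1, sm P.l (zz X) (nA τ g.2), sm P.l (zz X) (nB τ g.2))) with hM
  have hM0 : (M : ℤ) ≠ 0 := by
    have hprime : ∀ q ∈ PQ P.l (zz X), q.Prime := fun q hq => (mem_filter.1 hq).2.1
    have : 0 < M := Finset.prod_pos fun p hp => (hprime p ((D2b_Mu (hPQ _ f1) _ _ p).1 hp).1).pos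
    exact_mod_cast this.ne'
  have hg0 : gA τ * gB τ ≠ 0 := by
    unfold gA gB
    split_ifs <;> norm_num
  have k1' : (M : ℤ) = pr g.1 * pr (sm P.l (zz X) (nA τ g.2)) * pr (sm P.l (zz X) (nB τ g.2)) := by
    exact_mod_cast k1
  have k2' : (M : ℤ) = pr g'.1 * pr (sm P.l (zz X) (nA τ g'.2)) * pr (sm P.l (zz X) (nB τ g'.2)) := by
    exact_mod_cast k2
  have hc'' : (pr g.1 : ℤ) * (nA τ g.2 * nB τ g.2) = pr g'.1 * (nA τ g'.2 * nB τ g'.2) := by
    exact_mod_cast hc'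
  have h1 : (gA τ * gB τ * M) * ((rp P.l (zz X) (nA τ g.2) : ℤ) * rp P.l (zz X) (nB τ g.2)) =
      (gA τ * gB τ * M) * ((rp P.l (zz X) (nA τ g'.2) : ℤ) * rp P.l (zz X) (nB τ g'.2)) := by
    calc (gA τ * gB τ * M) * ((rp P.l (zz X) (nA τ g.2) : ℤ) * rp P.l (zz X) (nB τ g.2))
        = (pr g.1 : ℤ) * ((gA τ * pr (sm P.l (zz X) (nA τ g.2)) * rp P.l (zz X) (nA τ g.2)) *
          (gB τ * pr (sm P.l (zz X) (nB τ g.2)) * rp P.l (zz X) (nB τ g.2))) := by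
          rw [k1']; ring
      _ = (pr g.1 : ℤ) * (nA τ g.2 * nB τ g.2) := by rw [← f5, ← f6]
      _ = pr g'.1 * (nA τ g'.2 * nB τ g'.2) := hc''
      _ = (pr g'.1 : ℤ) * ((gA τ * pr (sm P.l (zz X) (nA τ g'.2)) * rp P.l (zz X) (nA τ g'.2)) *
          (gB τ * pr (sm P.l (zz X) (nB τ g'.2)) * rp P.l (zz X) (nB τ g'.2))) := by
          rw [← e5, ← e6]
      _ = _ := by rw [k2']; ring
  have h2 := mul_left_cancel₀ (mul_ne_zero hg0 hM0) h1
  exact_mod_cast h2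

end SP15
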