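import Pool.Agent.LibSP15.Defs2

/-!
# SP15, row D2c (size M)

PLAN. κ = false: De = eA gA eB gB (u û' r₂² - û u' r₃²). κ = true: De = u û' r₂² - gB² û u' r₃²; for τ ≠ 0, gB = 2 and the left number is odd: contradiction. So u û' r₂² = û u' r₃². A prime q | r₂ is > z, divides the right side, not û u' (product of primes ≤ z), so q | r₃: contradiction to coprimality;
so r₂ = 1, r₃ = 1. u û' = û u' with u, u' coprime and û, û' coprime: u = û, u' = û'; sets of primes are determined by the product (primeFactors of pr U = U). W = Mu \ (U ∪ U'). Rough z r with z ≥ 2 excludes r = 0.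
-/

set_option autoImplicit false

namespace SP15

open Finset Filter

private theorem D2c_rough_two {z r : ℕ} (hz : 2 ≤ z) (h : Rough z r) : ¬ 2 ∣ r := fun h2 => by
  have := h 2 Nat.prime_two h2
  omega

private theorem D2c_coprime {z r m : ℕ} (h : Rough z r) (hm : ∀ p : ℕ, p.Prime → p ∣ m → p ≤ z) :
    r.Coprime m := by
  refine Nat.coprime_of_dvd fun p hp h1 h2 => ?_
  have := h p hp h1
  have := hm p hp h2
  omega

private theorem D2c_dvd {U : Finset ℕ} (hU : ∀ p ∈ U, p.Prime) {p : ℕ} (hp : p.Prime) :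
    p ∣ pr U ↔ p ∈ U := by
  unfold pr
  constructor
  · intro h
    obtain ⟨q, hq, hpq⟩ := (Prime.dvd_finsetProd_iff hp.prime _).1 h
    rw [(Nat.prime_dvd_prime_iff_eq hp (hU q hq)).1 hpq]
    exact hq
  · intro h
    exact Finset.dvd_prod_of_mem _ h

private theorem D2c_inj {U V : Finset ℕ} (hU : ∀ p ∈ U, p.Prime) (hV : ∀ p ∈ V, p.Prime)
    (h : pr U = pr V) : U = V := by
  ext p
  constructor
  · intro hp
    rw [← D2c_dvd hV (hU p hp), ← h, D2c_dvd hU (hU p hp)]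
    exact hp
  · intro hp
    rw [← D2c_dvd hU (hV p hp), h, D2c_dvd hV (hV p hp)]
    exact hp

private theorem D2c_disj {U V : Finset ℕ} (hU : ∀ p ∈ U, p.Prime) (hV : ∀ p ∈ V, p.Prime)
    (h : Disjoint U V) : (pr U).Coprime (pr V) := by
  unfold pr
  refine Nat.Coprime.prod_left fun p hp => Nat.Coprime.prod_right fun q hq => ?_
  rw [Nat.coprime_primes (hU p hp) (hV q hq)]
  rintro rfl
  exact (Finset.disjoint_left.1 h) hp hq

private theorem D2c_pos {U : Finset ℕ} (hU : ∀ p ∈ U, p.Prime) : 0 < pr U :=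
  Finset.prod_pos fun p hp => (hU p hp).pos

/-- the main case -/
private theorem D2c_main (z : ℕ) (hz : 2 ≤ z) (s s' : Sp) (r₂ r₃ : ℕ) (hr : r₂.Coprime r₃)
    (h2 : Rough z r₂) (h3 : Rough z r₃)
    (hs : ∀ p ∈ Mu s, p.Prime ∧ p ≤ z ∧ 2 < p) (hs' : ∀ p ∈ Mu s', p.Prime ∧ p ≤ z ∧ 2 < p)
    (hd : Disjoint s.1 s.2.1 ∧ Disjoint s.1 s.2.2 ∧ Disjoint s.2.1 s.2.2)
    (hd' : Disjoint s'.1 s'.2.1 ∧ Disjoint s'.1 s'.2.2 ∧ Disjoint s'.2.1 s'.2.2) (hM : Mu s = Mu s')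
    (h : pr s.2.1 * pr s'.2.2 * r₂ ^ 2 = pr s'.2.1 * pr s.2.2 * r₃ ^ 2) :
    r₂ = 1 ∧ r₃ = 1 ∧ s = s' := by
  have hU : ∀ p ∈ s.2.1, p.Prime := fun p hp => (hs p (by unfold Mu; simp [hp])).1
  have hV : ∀ p ∈ s.2.2, p.Prime := fun p hp => (hs p (by unfold Mu; simp [hp])).1
  have hU' : ∀ p ∈ s'.2.1, p.Prime := fun p hp => (hs' p (by unfold Mu; simp [hp])).1
  have hV' : ∀ p ∈ s'.2.2, p.Prime := fun p hp => (hs' p (by unfold Mu; simp [hp])).1
  have zU : ∀ p : ℕ, p.Prime → p ∣ pr s.2.1 → p ≤ z := fun p hp hd =>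
    (hs p (by unfold Mu; simp [(D2c_dvd hU hp).1 hd])).2.1
  have zV : ∀ p : ℕ, p.Prime → p ∣ pr s.2.2 → p ≤ z := fun p hp hd =>
    (hs p (by unfold Mu; simp [(D2c_dvd hV hp).1 hd])).2.1
  have zU' : ∀ p : ℕ, p.Prime → p ∣ pr s'.2.1 → p ≤ z := fun p hp hd =>
    (hs' p (by unfold Mu; simp [(D2c_dvd hU' hp).1 hd])).2.1
  have zV' : ∀ p : ℕ, p.Prime → p ∣ pr s'.2.2 → p ≤ z := fun p hp hd =>
    (hs' p (by unfold Mu; simp [(D2c_dvd hV' hp).1 hd])).2.1
  have hr2 : r₂ = 1 := by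
    by_contra hne
    obtain ⟨q, hq, hq2⟩ := Nat.exists_prime_and_dvd hne
    have h4 : q ∣ pr s'.2.1 * pr s.2.2 * r₃ ^ 2 := by
      rw [← h]
      exact Dvd.dvd.mul_left (hq2.trans (dvd_pow_self _ two_ne_zero)) _
    have hqz := h2 q hq hq2
    rcases hq.dvd_mul.1 h4 with h5 | h5
    · rcases hq.dvd_mul.1 h5 with h6 | h6
      · have := zU' q hq h6; omega
      · have := zV q hq h6; omega
    · have h6 := hq.dvd_of_dvd_pow h5
      exact hq.one_lt.ne' (Nat.eq_one_of_dvd_coprimes hr hq2 h6)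
  have hr3 : r₃ = 1 := by
    by_contra hne
    obtain ⟨q, hq, hq3⟩ := Nat.exists_prime_and_dvd hne
    have h4 : q ∣ pr s.2.1 * pr s'.2.2 * r₂ ^ 2 := by
      rw [h]
      exact Dvd.dvd.mul_left (hq3.trans (dvd_pow_self _ two_ne_zero)) _
    have hqz := h3 q hq hq3
    rcases hq.dvd_mul.1 h4 with h5 | h5
    · rcases hq.dvd_mul.1 h5 with h6 | h6
      · have := zU q hq h6; omega
      · have := zV' q hq h6; omega
    · have h6 := hq.dvd_of_dvd_pow h5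
      exact hq.one_lt.ne' (Nat.eq_one_of_dvd_coprimes hr h6 hq3)
  subst hr2
  subst hr3
  rw [one_pow, mul_one, mul_one] at h
  have c1 : (pr s.2.1).Coprime (pr s.2.2) := D2c_disj hU hV hd.2.2
  have c2 : (pr s'.2.1).Coprime (pr s'.2.2) := D2c_disj hU' hV' hd'.2.2
  have k1 : pr s.2.1 ∣ pr s'.2.1 := c1.dvd_of_dvd_mul_right ⟨pr s'.2.2, h.symm⟩
  have k2 : pr s'.2.1 ∣ pr s.2.1 := c2.dvd_of_dvd_mul_right ⟨pr s.2.2, h⟩
  have k3 : pr s.2.1 = pr s'.2.1 := Nat.dvd_antisymm k1 k2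
  have k4 : pr s.2.2 = pr s'.2.2 := by
    rw [k3] at h
    exact (Nat.eq_of_mul_eq_mul_left (D2c_pos hU') h).symm
  have k5 : s.2.1 = s'.2.1 := D2c_inj hU hU' k3
  have k6 : s.2.2 = s'.2.2 := D2c_inj hV hV' k4
  have k7 : s.1 = s'.1 := by
    have hW : ∀ t : Sp, (Disjoint t.1 t.2.1 ∧ Disjoint t.1 t.2.2 ∧ Disjoint t.2.1 t.2.2) →
        t.1 = Mu t \ (t.2.1 ∪ t.2.2) := by
      intro t ht
      ext p
      unfold Mu
      simp only [Finset.mem_sdiff, Finset.mem_union]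
      constructor
      · intro hp
        refine ⟨Or.inl (Or.inl hp), ?_⟩
        rintro (h1 | h1)
        · exact Finset.disjoint_left.1 ht.1 hp h1
        · exact Finset.disjoint_left.1 ht.2.1 hp h1
      · rintro ⟨(h1 | h1) | h1, h2⟩
        · exact h1
        · exact absurd (Or.inl h1) h2
        · exact absurd (Or.inr h1) h2
    rw [hW s hd, hW s' hd', hM, k5, k6]
  exact ⟨rfl, rfl, Prod.ext k7 (Prod.ext k5 k6)⟩

/-- vanishing determinant -/
theorem D2c_det (z : ℕ) (hz : 2 ≤ z) (τ : Fin 3) (κ : Bool) (s s' : Sp) (r₂ r₃ : ℕ) (hr : r₂.Coprime r₃)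
    (h2 : Rough z r₂) (h3 : Rough z r₃)
    (hs : ∀ p ∈ Mu s, p.Prime ∧ p ≤ z ∧ 2 < p) (hs' : ∀ p ∈ Mu s', p.Prime ∧ p ≤ z ∧ 2 < p)
    (hd : Disjoint s.1 s.2.1 ∧ Disjoint s.1 s.2.2 ∧ Disjoint s.2.1 s.2.2)
    (hd' : Disjoint s'.1 s'.2.1 ∧ Disjoint s'.1 s'.2.2 ∧ Disjoint s'.2.1 s'.2.2) (hM : Mu s = Mu s')
    (h : De τ κ s s' r₂ r₃ = 0) : r₂ = 1 ∧ r₃ = 1 ∧ s = s' ∧ (κ = true → τ = 0) := by
  cases κ
  · have h' : eA τ * gA τ * eB τ * gB τ *
        ((pr s.2.1 * pr s'.2.2 * r₂ ^ 2 : ℤ) - pr s'.2.1 * pr s.2.2 * r₃ ^ 2) = 0 := by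
      rw [← h]
      unfold De al be al' be'
      simp only [Bool.false_eq_true, if_false]
      ring
    have hne : eA τ * gA τ * eB τ * gB τ ≠ 0 := by
      unfold eA gA eB gB
      split_ifs <;> norm_num
    have h4 := sub_eq_zero.1 ((mul_eq_zero.1 h').resolve_left hne)
    obtain ⟨a1, a2, a3⟩ := D2c_main z hz s s' r₂ r₃ hr h2 h3 hs hs' hd hd' hM (by exact_mod_cast h4)
    exact ⟨a1, a2, a3, fun h => by simp at h⟩
  · have hAA : eA τ * gA τ * (eA τ * gA τ) = 1 := by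
      unfold eA gA
      split_ifs <;> norm_num
    have h' : (pr s.2.1 * pr s'.2.2 * r₂ ^ 2 : ℤ) = (gB τ) ^ 2 * (pr s'.2.1 * pr s.2.2 * r₃ ^ 2) := by
      have h4 : (eA τ * gA τ * (eA τ * gA τ)) * (pr s.2.1 * pr s'.2.2 * r₂ ^ 2 : ℤ) -
          (gB τ) ^ 2 * (pr s'.2.1 * pr s.2.2 * r₃ ^ 2) = 0 := by
        rw [← h]
        unfold De al be al' be' eB
        simp only [if_true]
        ring
      rw [hAA, one_mul] at h4
      exact sub_eq_zero.1 h4
    have hτ : τ = 0 := by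
      by_contra hne
      have hgB : gB τ = 2 := by unfold gB; rw [if_neg hne]
      rw [hgB] at h'
      have h5 : pr s.2.1 * pr s'.2.2 * r₂ ^ 2 = 2 ^ 2 * (pr s'.2.1 * pr s.2.2 * r₃ ^ 2) := by
        exact_mod_cast h'
      have h6 : 2 ∣ pr s.2.1 * pr s'.2.2 * r₂ ^ 2 := by
        rw [h5]
        exact Dvd.dvd.mul_right (by norm_num) _
      have hU : ∀ p ∈ s.2.1, p.Prime := fun p hp => (hs p (by unfold Mu; simp [hp])).1
      have hV' : ∀ p ∈ s'.2.2, p.Prime := fun p hp => (hs' p (by unfold Mu; simp [hp])).1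
      rcases Nat.prime_two.dvd_mul.1 h6 with h7 | h7
      · rcases Nat.prime_two.dvd_mul.1 h7 with h8 | h8
        · have h9 := (D2c_dvd hU Nat.prime_two).1 h8
          have := (hs 2 (by unfold Mu; simp [h9])).2.2
          omega
        · have h9 := (D2c_dvd hV' Nat.prime_two).1 h8
          have := (hs' 2 (by unfold Mu; simp [h9])).2.2
          omega
      · exact D2c_rough_two hz h2 (Nat.prime_two.dvd_of_dvd_pow h7)
    have hgB : gB τ = 1 := by unfold gB; rw [if_pos hτ]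
    rw [hgB, one_pow, one_mul] at h'
    obtain ⟨a1, a2, a3⟩ := D2c_main z hz s s' r₂ r₃ hr h2 h3 hs hs' hd hd' hM (by exact_mod_cast h')
    exact ⟨a1, a2, a3, fun _ => hτ⟩

end SP15
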