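import Pool.Agent.LibSP15.Defs2

/-!
# SP15, row D2d (size S)

PLAN. Pure inequality: multiply h1 (lower) * h4 (lower)... : R = (g₁' g₂/(g₁ g₂')) * (n m')/(m n') where n, n', m, m' are the four numbers in (N,4N], (N,4N], (N',4N'], (N',4N']: (n/n')... R = (g₁'g₂/(g₁g₂')) (n/m)/(n'/m')… factor in {1, 4}, the quotient in (1/16, 16).
-/

set_option autoImplicit false

namespace SP15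

open Finset Filter

/-- the size condition -/
theorem D2d_size (g₁ g₂ g₁' g₂' u₁ u₂ u₁' u₂' r₁ r₂ r₃ r₄ N N' : ℝ)
    (hg : ((g₁ = 1 ∧ g₂ = 1) ∧ (g₁' = 1 ∧ g₂' = 1)) ∨ ((g₁ = 1 ∧ g₂ = 2) ∧ ((g₁' = 1 ∧ g₂' = 2) ∨
      (g₁' = 2 ∧ g₂' = 1))))
    (hu : 0 < u₁ ∧ 0 < u₂ ∧ 0 < u₁' ∧ 0 < u₂') (hr : 0 < r₁ ∧ 0 < r₂ ∧ 0 < r₃ ∧ 0 < r₄)
    (hN : 0 < N ∧ 0 < N') (h1 : N < g₁ * u₁ * (r₁ * r₂) ∧ g₁ * u₁ * (r₁ * r₂) ≤ 4 * N)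
    (h2 : N < g₂ * u₂ * (r₃ * r₄) ∧ g₂ * u₂ * (r₃ * r₄) ≤ 4 * N)
    (h3 : N' < g₁' * u₁' * (r₁ * r₃) ∧ g₁' * u₁' * (r₁ * r₃) ≤ 4 * N')
    (h4 : N' < g₂' * u₂' * (r₂ * r₄) ∧ g₂' * u₂' * (r₂ * r₄) ≤ 4 * N') :
    1 / 64 ≤ (u₁ * u₂') / (u₂ * u₁') * (r₂ / r₃) ^ 2 ∧ (u₁ * u₂') / (u₂ * u₁') * (r₂ / r₃) ^ 2 ≤ 64 := by
  obtain ⟨hu1, hu2, hu3, hu4⟩ := hu
  obtain ⟨hr1, hr2, hr3, hr4⟩ := hr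
  obtain ⟨hN, hN'⟩ := hN
  have hP : 0 < u₁ * u₂' * r₂ ^ 2 := by positivity
  have hQ : 0 < u₂ * u₁' * r₃ ^ 2 := by positivity
  have hrr : 0 < r₁ * r₄ := by positivity
  have hNN : 0 < N * N' := by positivity
  have e1 : (g₁ * u₁ * (r₁ * r₂)) * (g₂' * u₂' * (r₂ * r₄)) =
      (g₁ * g₂' * (u₁ * u₂' * r₂ ^ 2)) * (r₁ * r₄) := by ring
  have e2 : (g₂ * u₂ * (r₃ * r₄)) * (g₁' * u₁' * (r₁ * r₃)) =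
      (g₂ * g₁' * (u₂ * u₁' * r₃ ^ 2)) * (r₁ * r₄) := by ring
  have a1 : (g₁ * u₁ * (r₁ * r₂)) * (g₂' * u₂' * (r₂ * r₄)) ≤ (4 * N) * (4 * N') :=
    mul_le_mul h1.2 h4.2 (hN'.le.trans h4.1.le) (by positivity)
  have a2 : N * N' ≤ (g₁ * u₁ * (r₁ * r₂)) * (g₂' * u₂' * (r₂ * r₄)) :=
    mul_le_mul h1.1.le h4.1.le hN'.le (hN.le.trans h1.1.le)
  have a3 : (g₂ * u₂ * (r₃ * r₄)) * (g₁' * u₁' * (r₁ * r₃)) ≤ (4 * N) * (4 * N') :=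
    mul_le_mul h2.2 h3.2 (hN'.le.trans h3.1.le) (by positivity)
  have a4 : N * N' ≤ (g₂ * u₂ * (r₃ * r₄)) * (g₁' * u₁' * (r₁ * r₃)) :=
    mul_le_mul h2.1.le h3.1.le hN'.le (hN.le.trans h2.1.le)
  rw [e1] at a1 a2
  rw [e2] at a3 a4
  have A : g₁ * g₂' * (u₁ * u₂' * r₂ ^ 2) ≤ 16 * (g₂ * g₁' * (u₂ * u₁' * r₃ ^ 2)) := by
    refine le_of_mul_le_mul_right ?_ hrr
    nlinarith
  have B : g₂ * g₁' * (u₂ * u₁' * r₃ ^ 2) ≤ 16 * (g₁ * g₂' * (u₁ * u₂' * r₂ ^ 2)) := by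
    refine le_of_mul_le_mul_right ?_ hrr
    nlinarith
  have e3 : (u₁ * u₂') / (u₂ * u₁') * (r₂ / r₃) ^ 2 = (u₁ * u₂' * r₂ ^ 2) / (u₂ * u₁' * r₃ ^ 2) := by
    field_simp
  rw [e3, le_div_iff₀ hQ, div_le_iff₀ hQ]
  rcases hg with ⟨⟨rfl, rfl⟩, rfl, rfl⟩ | ⟨⟨rfl, rfl⟩, ⟨rfl, rfl⟩ | ⟨rfl, rfl⟩⟩
  · constructor <;> linarith
  · constructor <;> linarith
  · constructor <;> linarith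

end SP15
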