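import Pool.Agent.LibSP15.Defs2
import Pool.Agent.LibSP15.D1
import Pool.Agent.LibSP15.D2
import Pool.Agent.LibSP15.D2b
import Pool.Agent.LibSP15.D2c
import Pool.Agent.LibSP15.D2d
import Pool.Agent.LibSP15.C0

/-!
# SP15, row D3 (size XL)

PLAN. For a pair (g, g') with equal cmod: s = (g.1, sm nA, sm nB), v = rp nA, v' = rp nB; s' and (w, w') for g' (κ = false) or with nA, nB of g' exchanged (κ = true). D1 gives r₁..r₄. Choose κ with 1 < r₁ and 1 < r₄: if for κ = false r₁ = 1 or r₄ = 1 then the exchanged pair has (r₁,r₂,r₃,r₄) ↦ (r₂,r₁,r₄,r₃) and r₂, r₃ > 1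
(r₁ = 1: r₂ = v > 1, r₃ = w > 1; r₄ = 1: r₃ = v' > 1, r₂ = w' > 1). If De = 0: D2c: r₂ = r₃ = 1, s = s', κ → τ = 0, so (nA,nB)(g') = (nA,nB)(g) or exchanged with τ = 0: g' = g or g' = (g.1, swap g.2): at most 2 #Cf pairs. Otherwise the pair is mapped to (κ, (s,s'), (r₂,r₃), (sm nC g, sm nC g'), (r₁,r₄)) in the
big sum: injective since nA = gA u r₁ r₂, nB = gB u' r₃ r₄ determine x (nA, nB determine g.2 for each τ) and the same for g'. Membership: RR by D2d; Zs by nC = al r₁ + be r₄ (D2) and p ∈ PQ, p | nC ⇔ p ∈ sm nC; r₁ ≤ 4N/(u r₂).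
-/

set_option autoImplicit false

namespace SP15

open Finset Filter

/-- the conclusion of `D2_facts` -/
private def D3_FF (P : Par) (X : ℕ) (τ : Fin 3) (g : Finset ℕ × ℕ × ℕ) : Prop :=
    g.1 ∈ Reg P X P.a ∧
    (g.1, sm P.l (zz X) (nA τ g.2), sm P.l (zz X) (nB τ g.2)) ∈ Spl P X ∧
    sm P.l (zz X) (nC τ g.2) ∈ Reg P X P.b ∧
    (nC τ g.2 : ℤ) = eA τ * nA τ g.2 + eB τ * nB τ g.2 ∧
    (nA τ g.2 : ℤ) = gA τ * pr (sm P.l (zz X) (nA τ g.2)) * rp P.l (zz X) (nA τ g.2) ∧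
    (nB τ g.2 : ℤ) = gB τ * pr (sm P.l (zz X) (nB τ g.2)) * rp P.l (zz X) (nB τ g.2) ∧
    Rough (zz X) (rp P.l (zz X) (nA τ g.2)) ∧ Rough (zz X) (rp P.l (zz X) (nB τ g.2)) ∧
    1 < rp P.l (zz X) (nA τ g.2) ∧ 1 < rp P.l (zz X) (nB τ g.2) ∧
    (rp P.l (zz X) (nA τ g.2)).Coprime (rp P.l (zz X) (nB τ g.2)) ∧
    Nw P.l X (pr g.1) < nA τ g.2 ∧ nA τ g.2 ≤ 4 * Nw P.l X (pr g.1) ∧
    Nw P.l X (pr g.1) < nB τ g.2 ∧ nB τ g.2 ≤ 4 * Nw P.l X (pr g.1) ∧ nA τ g.2 ≤ X ∧ nB τ g.2 ≤ X ∧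
    1 ≤ Nw P.l X (pr g.1)

private theorem D3_pr_sm (l z n : ℕ) : 0 < pr (sm l z n) := by
  refine Finset.prod_pos fun p hp => ?_
  have h1 : p ∈ PQ l z := (mem_filter.1 hp).1
  have h2 := (mem_filter.1 h1).2.1
  exact h2.pos

private theorem D3_rough {z r q : ℕ} (h : Rough z r) (hq : q ∣ r) : Rough z q :=
  fun p hp hpq => h p hp (hpq.trans hq)

/-- the triple with given first and second number -/
private def D3_x (τ : Fin 3) (a b : ℕ) : ℕ × ℕ :=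
  if τ = 0 then (a, b) else if τ = 1 then (a, b - a) else (b - a, a)

private theorem D3_x_eq (τ : Fin 3) (x : ℕ × ℕ) : D3_x τ (nA τ x) (nB τ x) = x := by
  fin_cases τ
  · simp [D3_x, nA, nB]
  · simp [D3_x, nA, nB]
  · simp [D3_x, nA, nB]

private abbrev D3_K : Type :=
  Σ _ : Bool, Σ _ : Sp × Sp, Σ _ : ℕ × ℕ, Σ _ : Finset ℕ × Finset ℕ, ℕ × ℕ

/-- the pair of configurations of a key -/
private def D3_dec (τ : Fin 3) (k : D3_K) : (Finset ℕ × ℕ × ℕ) × (Finset ℕ × ℕ × ℕ) :=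
  ((k.2.1.1.1, D3_x τ (gA τ * pr k.2.1.1.2.1 * (k.2.2.2.2.1 * k.2.2.1.1 : ℕ)).toNat
      (gB τ * pr k.2.1.1.2.2 * (k.2.2.1.2 * k.2.2.2.2.2 : ℕ)).toNat),
    (k.2.1.2.1, if k.1 then
      D3_x τ (gA τ * pr k.2.1.2.2.2 * (k.2.2.1.1 * k.2.2.2.2.2 : ℕ)).toNat
        (gB τ * pr k.2.1.2.2.1 * (k.2.2.2.2.1 * k.2.2.1.2 : ℕ)).toNat
      else D3_x τ (gA τ * pr k.2.1.2.2.1 * (k.2.2.2.2.1 * k.2.2.1.2 : ℕ)).toNat
        (gB τ * pr k.2.1.2.2.2 * (k.2.2.1.1 * k.2.2.2.2.2 : ℕ)).toNat))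

private theorem D3_mem (P : Par) (X : ℕ) (τ : Fin 3) (κ : Bool) (s s' : Sp)
    (r₁ r₂ r₃ r₄ a b c a' b' c' N' : ℕ)
    (hu : 0 < pr s.2.1 ∧ 0 < pr s.2.2 ∧ 0 < pr s'.2.1 ∧ 0 < pr s'.2.2)
    (ha : (a : ℤ) = gA τ * pr s.2.1 * (r₁ * r₂ : ℕ)) (hb : (b : ℤ) = gB τ * pr s.2.2 * (r₃ * r₄ : ℕ))
    (hc : (c : ℤ) = eA τ * a + eB τ * b)
    (ha' : (a' : ℤ) = (if κ then gB τ else gA τ) * pr s'.2.1 * (r₁ * r₃ : ℕ))
    (hb' : (b' : ℤ) = (if κ then gA τ else gB τ) * pr s'.2.2 * (r₂ * r₄ : ℕ))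
    (hc' : (c' : ℤ) = (if κ then eB τ else eA τ) * a' + (if κ then eA τ else eB τ) * b')
    (h1 : 1 < r₁) (h4 : 1 < r₄) (hr1 : Rough (zz X) (r₁ * r₂)) (hr3 : Rough (zz X) (r₃ * r₄))
    (hN : 1 ≤ Nw P.l X (pr s.1)) (hN' : 1 ≤ N')
    (hNa : Nw P.l X (pr s.1) < a) (hNa4 : a ≤ 4 * Nw P.l X (pr s.1))
    (hNb : Nw P.l X (pr s.1) < b) (hNb4 : b ≤ 4 * Nw P.l X (pr s.1)) (haX : a ≤ X) (hbX : b ≤ X)
    (hNa' : N' < a') (hNa4' : a' ≤ 4 * N') (hNb' : N' < b') (hNb4' : b' ≤ 4 * N') :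
    (r₂, r₃) ∈ RR X s s' ∧
      (r₁, r₄) ∈ Zs P X τ κ s s' r₂ r₃ (sm P.l (zz X) c) (sm P.l (zz X) c') := by
  classical
  have hgA : gA τ = 1 := rfl
  have hgB : gB τ = 1 ∨ gB τ = 2 := by
    unfold gB; split_ifs <;> simp
  have hgB' : 1 ≤ gB τ := by rcases hgB with h | h <;> rw [h] <;> norm_num
  have ha2 : a = pr s.2.1 * (r₁ * r₂) := by
    rw [hgA, one_mul] at ha; exact_mod_cast ha
  have hb2 : pr s.2.2 * (r₃ * r₄) ≤ b := by
    have : ((pr s.2.2 * (r₃ * r₄) : ℕ) : ℤ) ≤ (b : ℤ) := by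
      rw [hb]
      push_cast
      have h0 : (0 : ℤ) ≤ (pr s.2.2 : ℤ) * (r₃ * r₄) := by positivity
      nlinarith
    exact_mod_cast this
  have hr1p : 0 < r₁ := by omega
  have hr4p : 0 < r₄ := by omega
  have hr2p : 0 < r₂ := by
    rcases Nat.eq_zero_or_pos r₂ with h | h
    · rw [h, mul_zero, mul_zero] at ha2; omega
    · exact h
  have hr3p : 0 < r₃ := by
    rcases Nat.eq_zero_or_pos r₃ with h | h
    · have : (b : ℤ) = 0 := by rw [hb, h]; simp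
      have : b = 0 := by exact_mod_cast this
      omega
    · exact h
  have hr2X : r₂ ≤ X := by
    refine le_trans ?_ haX
    rw [ha2]
    calc r₂ ≤ r₁ * r₂ := Nat.le_mul_of_pos_left _ hr1p
      _ ≤ pr s.2.1 * (r₁ * r₂) := Nat.le_mul_of_pos_left _ hu.1
  have hr3X : r₃ ≤ X := by
    refine le_trans ?_ (hb2.trans hbX)
    calc r₃ ≤ r₃ * r₄ := Nat.le_mul_of_pos_right _ hr4p
      _ ≤ pr s.2.2 * (r₃ * r₄) := Nat.le_mul_of_pos_left _ hu.2.1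
  have hR1 : Rough (zz X) r₁ := D3_rough hr1 ⟨r₂, rfl⟩
  have hR2 : Rough (zz X) r₂ := D3_rough hr1 ⟨r₁, mul_comm _ _⟩
  have hR3 : Rough (zz X) r₃ := D3_rough hr3 ⟨r₄, rfl⟩
  have hR4 : Rough (zz X) r₄ := D3_rough hr3 ⟨r₃, mul_comm _ _⟩
  refine ⟨?_, ?_⟩
  · unfold RR
    rw [mem_filter]
    refine ⟨mem_product.2 ⟨mem_Icc.2 ⟨hr2p, hr2X⟩, mem_Icc.2 ⟨hr3p, hr3X⟩⟩, hR2, hR3, ?_⟩
    have haR : (a : ℝ) = (gA τ : ℝ) * pr s.2.1 * (r₁ * r₂) := by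
      exact_mod_cast congrArg (Int.cast : ℤ → ℝ) ha
    have hbR : (b : ℝ) = (gB τ : ℝ) * pr s.2.2 * (r₃ * r₄) := by
      exact_mod_cast congrArg (Int.cast : ℤ → ℝ) hb
    have haR' : (a' : ℝ) = ((if κ then gB τ else gA τ : ℤ) : ℝ) * pr s'.2.1 * (r₁ * r₃) := by
      exact_mod_cast congrArg (Int.cast : ℤ → ℝ) ha'
    have hbR' : (b' : ℝ) = ((if κ then gA τ else gB τ : ℤ) : ℝ) * pr s'.2.2 * (r₂ * r₄) := by
      exact_mod_cast congrArg (Int.cast : ℤ → ℝ) hb'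
    have key := D2d_size (gA τ : ℝ) (gB τ : ℝ) ((if κ then gB τ else gA τ : ℤ) : ℝ)
      ((if κ then gA τ else gB τ : ℤ) : ℝ) (pr s.2.1) (pr s.2.2) (pr s'.2.1) (pr s'.2.2)
      r₁ r₂ r₃ r₄ (Nw P.l X (pr s.1)) N' ?_ ?_ ?_ ?_ ?_ ?_ ?_ ?_
    · exact key
    · rcases hgB with h | h <;> rw [h, hgA] <;> cases κ <;> simp
    · obtain ⟨u1, u2, u3, u4⟩ := hu
      exact ⟨by exact_mod_cast u1, by exact_mod_cast u2, by exact_mod_cast u3, by exact_mod_cast u4⟩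
    · exact ⟨by exact_mod_cast hr1p, by exact_mod_cast hr2p, by exact_mod_cast hr3p,
        by exact_mod_cast hr4p⟩
    · exact ⟨by exact_mod_cast (by omega : 0 < Nw P.l X (pr s.1)), by exact_mod_cast (by omega : 0 < N')⟩
    · rw [← haR]; exact ⟨by exact_mod_cast hNa, by exact_mod_cast hNa4⟩
    · rw [← hbR]; exact ⟨by exact_mod_cast hNb, by exact_mod_cast hNb4⟩
    · rw [← haR']; exact ⟨by exact_mod_cast hNa', by exact_mod_cast hNa4'⟩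
    · rw [← hbR']; exact ⟨by exact_mod_cast hNb', by exact_mod_cast hNb4'⟩
  · have e1 : al τ s r₂ * r₁ + be τ s r₃ * r₄ = (c : ℤ) := by
      rw [hc, ha, hb]
      unfold al be
      push_cast
      ring
    have e2 : al' τ κ s' r₃ * r₁ + be' τ κ s' r₂ * r₄ = (c' : ℤ) := by
      rw [hc', ha', hb']
      unfold al' be'
      cases κ
      · simp only [Bool.false_eq_true, if_false]
        push_cast
        ring
      · simp only [if_true]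
        push_cast
        ring
    unfold Zs
    rw [mem_filter]
    refine ⟨mem_product.2 ⟨mem_Icc.2 ⟨hr1p, ?_⟩, mem_Icc.2 ⟨hr4p, ?_⟩⟩, ⟨h1, h4, hR1, hR4⟩,
      ⟨?_, ?_⟩, ⟨?_, ?_⟩⟩
    · rw [Nat.le_div_iff_mul_le (Nat.mul_pos hu.1 hr2p)]
      calc r₁ * (pr s.2.1 * r₂) = pr s.2.1 * (r₁ * r₂) := by ring
        _ = a := ha2.symm
        _ ≤ _ := hNa4
    · rw [Nat.le_div_iff_mul_le (Nat.mul_pos hu.2.1 hr3p)]
      calc r₄ * (pr s.2.2 * r₃) = pr s.2.2 * (r₃ * r₄) := by ring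
        _ ≤ b := hb2
        _ ≤ _ := hNb4
    · intro p hp
      rw [e1]
      exact Int.natCast_dvd_natCast.2 (mem_filter.1 hp).2
    · intro p hp hp' hdvd
      rw [e1] at hdvd
      exact hp' (mem_filter.2 ⟨hp, Int.natCast_dvd_natCast.1 hdvd⟩)
    · intro p hp
      rw [e2]
      exact Int.natCast_dvd_natCast.2 (mem_filter.1 hp).2
    · intro p hp hp' hdvd
      rw [e2] at hdvd
      exact hp' (mem_filter.2 ⟨hp, Int.natCast_dvd_natCast.1 hdvd⟩)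

private theorem D3_toNat {n : ℕ} {k : ℤ} (h : (n : ℤ) = k) : k.toNat = n := by
  rw [← h]; exact Int.toNat_natCast _

/-- the choice of the order -/
private theorem D3_choice (v v' w w' : ℕ) (hv : 1 < v) (hw : 1 < w) (hv' : 1 < v') (hw' : 1 < w')
    (hc : v.Coprime v') (hd : w.Coprime w') (h : v * v' = w * w') :
    ∃ κ : Bool, ∃ r₁ r₂ r₃ r₄ : ℕ, v = r₁ * r₂ ∧ v' = r₃ * r₄ ∧
      (if κ then w' else w) = r₁ * r₃ ∧ (if κ then w else w') = r₂ * r₄ ∧ r₂.Coprime r₃ ∧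
      1 < r₁ ∧ 1 < r₄ := by
  obtain ⟨r₁, r₂, r₃, r₄, h1, h2, h3, h4, h5, h6⟩ :=
    D1_four v v' w w' (by omega) (by omega) (by omega) (by omega) hc hd h
  have p1 : 0 < r₁ := by
    rcases Nat.eq_zero_or_pos r₁ with h | h
    · rw [h, zero_mul] at h1; omega
    · exact h
  have p4 : 0 < r₄ := by
    rcases Nat.eq_zero_or_pos r₄ with h | h
    · rw [h, mul_zero] at h3; omega
    · exact h
  by_cases hh : 1 < r₁ ∧ 1 < r₄
  · exact ⟨false, r₁, r₂, r₃, r₄, h1, h3, by simpa using h2, by simpa using h4, h5, hh.1, hh.2⟩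
  · refine ⟨true, r₂, r₁, r₄, r₃, by rw [h1, mul_comm], by rw [h3, mul_comm], by simpa using h4,
      by simpa using h2, h6, ?_, ?_⟩
    · rcases not_and_or.1 hh with h | h
      · have : r₁ = 1 := by omega
        rw [this, one_mul] at h1
        omega
      · have : r₄ = 1 := by omega
        rw [this, mul_one] at h4
        omega
    · rcases not_and_or.1 hh with h | h
      · have : r₁ = 1 := by omega
        rw [this, one_mul] at h2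
        omega
      · have : r₄ = 1 := by omega
        rw [this, mul_one] at h3
        omega

private theorem D3_swap_spl {P : Par} {X : ℕ} {W U U' : Finset ℕ} (h : (W, U, U') ∈ Spl P X) :
    (W, U', U) ∈ Spl P X := by
  unfold Spl SplR at h ⊢
  rw [mem_filter, mem_product, mem_product] at h ⊢
  obtain ⟨⟨h1, h2, h3⟩, h4, h5, h6⟩ := h
  exact ⟨⟨h1, h3, h2⟩, h5, h4, h6.symm⟩

/-- the big set -/
private noncomputable def D3_big (P : Par) (X : ℕ) (τ : Fin 3) : Finset D3_K :=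
  (univ : Finset Bool).sigma fun κ =>
    ((Spl P X ×ˢ Spl P X).filter (fun σ => Mu σ.1 = Mu σ.2)).sigma fun σ =>
      ((RR X σ.1 σ.2).filter (fun r => De τ κ σ.1 σ.2 r.1 r.2 ≠ 0)).sigma fun r =>
        (Reg P X P.b ×ˢ Reg P X P.b).sigma fun u => Zs P X τ κ σ.1 σ.2 r.1 r.2 u.1 u.2

private theorem D3_card (P : Par) (X : ℕ) (τ : Fin 3) : #(D3_big P X τ) =
    ∑ κ : Bool, ∑ σ ∈ (Spl P X ×ˢ Spl P X).filter (fun σ => Mu σ.1 = Mu σ.2),
        ∑ r ∈ (RR X σ.1 σ.2).filter (fun r => De τ κ σ.1 σ.2 r.1 r.2 ≠ 0),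
          ∑ u ∈ Reg P X P.b ×ˢ Reg P X P.b, #(Zs P X τ κ σ.1 σ.2 r.1 r.2 u.1 u.2) := by
  unfold D3_big
  rw [Finset.card_sigma]
  refine sum_congr rfl fun κ _ => ?_
  rw [Finset.card_sigma]
  refine sum_congr rfl fun σ _ => ?_
  rw [Finset.card_sigma]
  refine sum_congr rfl fun r _ => ?_
  rw [Finset.card_sigma]

private theorem D3_PQ {l z : ℕ} {s : Sp} (h1 : ∀ p ∈ s.1, p ∈ PQ l z) (h2 : ∀ p ∈ s.2.1, p ∈ PQ l z)
    (h3 : ∀ p ∈ s.2.2, p ∈ PQ l z) : ∀ p ∈ Mu s, p.Prime ∧ p ≤ z ∧ 2 < p := by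
  intro p hp
  have hq : p ∈ PQ l z := by
    unfold Mu at hp
    rcases mem_union.1 hp with hp | hp
    · rcases mem_union.1 hp with hp | hp
      · exact h1 p hp
      · exact h2 p hp
    · exact h3 p hp
  unfold PQ at hq
  rw [mem_filter, mem_Icc] at hq
  exact ⟨hq.2.1, hq.1.2, by omega⟩

private theorem D3_pair (P : Par) (X : ℕ) (τ : Fin 3) (g g' : Finset ℕ × ℕ × ℕ) (hz : 2 ≤ zz X)
    (hPQ : ∀ W ∈ Reg P X P.a, ∀ p ∈ W, p ∈ PQ P.l (zz X))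
    (hg : D3_FF P X τ g) (hg' : D3_FF P X τ g')
    (hMu : Mu (g.1, sm P.l (zz X) (nA τ g.2), sm P.l (zz X) (nB τ g.2)) =
      Mu (g'.1, sm P.l (zz X) (nA τ g'.2), sm P.l (zz X) (nB τ g'.2)))
    (hrp : rp P.l (zz X) (nA τ g.2) * rp P.l (zz X) (nB τ g.2) =
      rp P.l (zz X) (nA τ g'.2) * rp P.l (zz X) (nB τ g'.2)) :
    g' = g ∨ g' = (g.1, g.2.swap) ∨ ∃ k ∈ D3_big P X τ, D3_dec τ k = (g, g') := by
  classical
  obtain ⟨f1, f2, f3, f4, f5, f6, f7, f8, f9, f10, f11, f12, f13, f14, f15, f16, f17, f18⟩ := hg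
  obtain ⟨e1, e2, e3, e4, e5, e6, e7, e8, e9, e10, e11, e12, e13, e14, e15, e16, e17, e18⟩ := hg'
  obtain ⟨κ, r₁, r₂, r₃, r₄, c1, c2, c3, c4, c5, c6, c7⟩ :=
    D3_choice _ _ _ _ f9 e9 f10 e10 f11 e11 hrp
  have ha : (nA τ g.2 : ℤ) = gA τ * pr (sm P.l (zz X) (nA τ g.2)) * (r₁ * r₂ : ℕ) := by
    rw [← c1]; exact f5
  have hb : (nB τ g.2 : ℤ) = gB τ * pr (sm P.l (zz X) (nB τ g.2)) * (r₃ * r₄ : ℕ) := by
    rw [← c2]; exact f6
  have hr1 : Rough (zz X) (r₁ * r₂) := by rw [← c1]; exact f7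
  have hr3 : Rough (zz X) (r₃ * r₄) := by rw [← c2]; exact f8
  have hR2 : Rough (zz X) r₂ := D3_rough hr1 ⟨r₁, mul_comm _ _⟩
  have hR3 : Rough (zz X) r₃ := D3_rough hr3 ⟨r₄, rfl⟩
  have hsm : ∀ n, ∀ p ∈ sm P.l (zz X) n, p ∈ PQ P.l (zz X) := fun n p hp => (mem_filter.1 hp).1
  have hd := (mem_filter.1 f2).2
  have hs := D3_PQ (l := P.l) (z := zz X)
    (s := (g.1, sm P.l (zz X) (nA τ g.2), sm P.l (zz X) (nB τ g.2))) (hPQ _ f1) (hsm _) (hsm _)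
  cases κ
  · simp only [Bool.false_eq_true, if_false] at c3 c4
    have ha' : (nA τ g'.2 : ℤ) = gA τ * pr (sm P.l (zz X) (nA τ g'.2)) * (r₁ * r₃ : ℕ) := by
      rw [← c3]; exact e5
    have hb' : (nB τ g'.2 : ℤ) = gB τ * pr (sm P.l (zz X) (nB τ g'.2)) * (r₂ * r₄ : ℕ) := by
      rw [← c4]; exact e6
    by_cases hDe : De τ false (g.1, sm P.l (zz X) (nA τ g.2), sm P.l (zz X) (nB τ g.2))
        (g'.1, sm P.l (zz X) (nA τ g'.2), sm P.l (zz X) (nB τ g'.2)) r₂ r₃ = 0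
    · left
      have hd' := (mem_filter.1 e2).2
      have hs' := D3_PQ (l := P.l) (z := zz X)
        (s := (g'.1, sm P.l (zz X) (nA τ g'.2), sm P.l (zz X) (nB τ g'.2))) (hPQ _ e1) (hsm _) (hsm _)
      obtain ⟨k1, k2, k3, -⟩ := D2c_det (zz X) hz τ false _ _ r₂ r₃ c5 hR2 hR3 hs hs' hd hd' hMu hDe
      have k4 : g.1 = g'.1 := congrArg (fun s : Sp => s.1) k3
      have k5 : sm P.l (zz X) (nA τ g.2) = sm P.l (zz X) (nA τ g'.2) :=
        congrArg (fun s : Sp => s.2.1) k3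
      have k6 : sm P.l (zz X) (nB τ g.2) = sm P.l (zz X) (nB τ g'.2) :=
        congrArg (fun s : Sp => s.2.2) k3
      have k7 : nA τ g'.2 = nA τ g.2 := by
        have : (nA τ g'.2 : ℤ) = nA τ g.2 := by rw [ha', ha, k5, k1, k2]
        exact_mod_cast this
      have k8 : nB τ g'.2 = nB τ g.2 := by
        have : (nB τ g'.2 : ℤ) = nB τ g.2 := by rw [hb', hb, k6, k1, k2]
        exact_mod_cast this
      have k9 : g'.2 = g.2 := by
        rw [← D3_x_eq τ g'.2, k7, k8, D3_x_eq]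
      exact Prod.ext k4.symm k9
    · right; right
      obtain ⟨m1, m2⟩ := D3_mem P X τ false
        (g.1, sm P.l (zz X) (nA τ g.2), sm P.l (zz X) (nB τ g.2))
        (g'.1, sm P.l (zz X) (nA τ g'.2), sm P.l (zz X) (nB τ g'.2)) r₁ r₂ r₃ r₄
        (nA τ g.2) (nB τ g.2) (nC τ g.2) (nA τ g'.2) (nB τ g'.2) (nC τ g'.2) (Nw P.l X (pr g'.1))
        ⟨D3_pr_sm _ _ _, D3_pr_sm _ _ _, D3_pr_sm _ _ _, D3_pr_sm _ _ _⟩ ha hb f4 ha' hb' e4 c6 c7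
        hr1 hr3 f18 e18 f12 f13 f14 f15 f16 f17 e12 e13 e14 e15
      refine ⟨⟨false, ((g.1, sm P.l (zz X) (nA τ g.2), sm P.l (zz X) (nB τ g.2)),
        (g'.1, sm P.l (zz X) (nA τ g'.2), sm P.l (zz X) (nB τ g'.2))), (r₂, r₃),
        (sm P.l (zz X) (nC τ g.2), sm P.l (zz X) (nC τ g'.2)), (r₁, r₄)⟩, ?_, ?_⟩
      · unfold D3_big
        rw [mem_sigma, mem_sigma, mem_sigma, mem_sigma]
        exact ⟨mem_univ _, mem_filter.2 ⟨mem_product.2 ⟨f2, e2⟩, hMu⟩, mem_filter.2 ⟨m1, hDe⟩,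
          mem_product.2 ⟨f3, e3⟩, m2⟩
      · unfold D3_dec
        simp only [Bool.false_eq_true, if_false]
        rw [D3_toNat ha, D3_toNat hb, D3_toNat ha', D3_toNat hb', D3_x_eq, D3_x_eq]
  · simp only [if_true] at c3 c4
    have ha' : (nB τ g'.2 : ℤ) = gB τ * pr (sm P.l (zz X) (nB τ g'.2)) * (r₁ * r₃ : ℕ) := by
      rw [← c3]; exact e6
    have hb' : (nA τ g'.2 : ℤ) = gA τ * pr (sm P.l (zz X) (nA τ g'.2)) * (r₂ * r₄ : ℕ) := by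
      rw [← c4]; exact e5
    have e2' := D3_swap_spl e2
    have hMu' : Mu (g.1, sm P.l (zz X) (nA τ g.2), sm P.l (zz X) (nB τ g.2)) =
        Mu (g'.1, sm P.l (zz X) (nB τ g'.2), sm P.l (zz X) (nA τ g'.2)) := by
      rw [hMu]
      unfold Mu
      simp only
      rw [union_assoc, union_comm (sm P.l (zz X) (nA τ g'.2)), union_assoc]
    by_cases hDe : De τ true (g.1, sm P.l (zz X) (nA τ g.2), sm P.l (zz X) (nB τ g.2))
        (g'.1, sm P.l (zz X) (nB τ g'.2), sm P.l (zz X) (nA τ g'.2)) r₂ r₃ = 0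
    · right; left
      have hd' := (mem_filter.1 e2').2
      have hs' := D3_PQ (l := P.l) (z := zz X)
        (s := (g'.1, sm P.l (zz X) (nB τ g'.2), sm P.l (zz X) (nA τ g'.2))) (hPQ _ e1) (hsm _) (hsm _)
      obtain ⟨k1, k2, k3, kt⟩ := D2c_det (zz X) hz τ true _ _ r₂ r₃ c5 hR2 hR3 hs hs' hd hd' hMu' hDe
      have kt' : τ = 0 := kt rfl
      have k4 : g.1 = g'.1 := congrArg (fun s : Sp => s.1) k3
      have k5 : sm P.l (zz X) (nA τ g.2) = sm P.l (zz X) (nB τ g'.2) :=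
        congrArg (fun s : Sp => s.2.1) k3
      have k6 : sm P.l (zz X) (nB τ g.2) = sm P.l (zz X) (nA τ g'.2) :=
        congrArg (fun s : Sp => s.2.2) k3
      have hgB : gB τ = gA τ := by rw [kt']; rfl
      have k7 : nB τ g'.2 = nA τ g.2 := by
        have : (nB τ g'.2 : ℤ) = nA τ g.2 := by rw [ha', ha, k5, k1, k2, hgB]
        exact_mod_cast this
      have k8 : nA τ g'.2 = nB τ g.2 := by
        have : (nA τ g'.2 : ℤ) = nB τ g.2 := by rw [hb', hb, k6, k1, k2, hgB]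
        exact_mod_cast this
      have k9 : g'.2 = g.2.swap := by
        subst kt'
        exact Prod.ext k8 k7
      exact Prod.ext k4.symm k9
    · right; right
      obtain ⟨m1, m2⟩ := D3_mem P X τ true
        (g.1, sm P.l (zz X) (nA τ g.2), sm P.l (zz X) (nB τ g.2))
        (g'.1, sm P.l (zz X) (nB τ g'.2), sm P.l (zz X) (nA τ g'.2)) r₁ r₂ r₃ r₄
        (nA τ g.2) (nB τ g.2) (nC τ g.2) (nB τ g'.2) (nA τ g'.2) (nC τ g'.2) (Nw P.l X (pr g'.1))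
        ⟨D3_pr_sm _ _ _, D3_pr_sm _ _ _, D3_pr_sm _ _ _, D3_pr_sm _ _ _⟩ ha hb f4
        (by simpa using ha') (by simpa using hb') (by simp only [if_true]; rw [e4]; ring) c6 c7
        hr1 hr3 f18 e18 f12 f13 f14 f15 f16 f17 e14 e15 e12 e13
      refine ⟨⟨true, ((g.1, sm P.l (zz X) (nA τ g.2), sm P.l (zz X) (nB τ g.2)),
        (g'.1, sm P.l (zz X) (nB τ g'.2), sm P.l (zz X) (nA τ g'.2))), (r₂, r₃),
        (sm P.l (zz X) (nC τ g.2), sm P.l (zz X) (nC τ g'.2)), (r₁, r₄)⟩, ?_, ?_⟩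
      · unfold D3_big
        rw [mem_sigma, mem_sigma, mem_sigma, mem_sigma]
        exact ⟨mem_univ _, mem_filter.2 ⟨mem_product.2 ⟨f2, e2'⟩, hMu'⟩, mem_filter.2 ⟨m1, hDe⟩,
          mem_product.2 ⟨f3, e3⟩, m2⟩
      · unfold D3_dec
        simp only [if_true]
        rw [D3_toNat ha, D3_toNat hb, D3_toNat ha', D3_toNat hb', D3_x_eq, D3_x_eq]

theorem D3_keys (P : Par) : ∀ᶠ X : ℕ in atTop, ∀ (t s : Finset ℕ → ℕ) (τ : Fin 3),
    (∀ W ∈ Reg P X P.a, P.l.Coprime (t W) ∧ P.l.Coprime (s W)) →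
    #{g ∈ Cf P X t s ×ˢ Cf P X t s | cmod P.l τ g.1 = cmod P.l τ g.2} ≤ 2 * #(Cf P X t s) +
      ∑ κ : Bool, ∑ σ ∈ (Spl P X ×ˢ Spl P X).filter (fun σ => Mu σ.1 = Mu σ.2),
        ∑ r ∈ (RR X σ.1 σ.2).filter (fun r => De τ κ σ.1 σ.2 r.1 r.2 ≠ 0),
          ∑ u ∈ Reg P X P.b ×ˢ Reg P X P.b, #(Zs P X τ κ σ.1 σ.2 r.1 r.2 u.1 u.2) := by
  classical
  obtain ⟨C, -, hE1⟩ := E1_scales P
  filter_upwards [D2_facts P, D2b_pair P, hE1, E2_powers, B3_size P] with X h1 h2 h3 h4 h5 t s τ hts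
  have hz : 2 ≤ zz X := by
    have h6 : 100 ≤ zs X := h3.2.1
    have h7 : zs X ≤ zz X := h4.2.2.1
    omega
  have hPQ : ∀ W ∈ Reg P X P.a, ∀ p ∈ W, p ∈ PQ P.l (zz X) := by
    intro W hW p hp
    have hA : P.a ≤ P.A := by unfold Par.A; omega
    exact ((h5 P.a hA W hW).2.1 p hp).2
  rw [← D3_card]
  have hsub : {g ∈ Cf P X t s ×ˢ Cf P X t s | cmod P.l τ g.1 = cmod P.l τ g.2} ⊆
      (Cf P X t s).image (fun g => (g, g)) ∪ (Cf P X t s).image (fun g => (g, (g.1, g.2.swap))) ∪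
        (D3_big P X τ).image (D3_dec τ) := by
    intro g hg
    obtain ⟨hg1, hg2⟩ := mem_filter.1 hg
    obtain ⟨ha, hb⟩ := mem_product.1 hg1
    obtain ⟨hMu, hrp⟩ := h2 t s τ hts g.1 ha g.2 hb hg2
    rcases D3_pair P X τ g.1 g.2 hz hPQ (h1 t s τ hts g.1 ha) (h1 t s τ hts g.2 hb) hMu hrp with
      h | h | ⟨k, hk, h⟩
    · exact mem_union_left _ (mem_union_left _ (mem_image.2 ⟨g.1, ha, Prod.ext rfl h.symm⟩))
    · exact mem_union_left _ (mem_union_right _ (mem_image.2 ⟨g.1, ha, Prod.ext rfl h.symm⟩))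
    · exact mem_union_right _ (mem_image.2 ⟨k, hk, h⟩)
  refine (card_le_card hsub).trans ((card_union_le _ _).trans (Nat.add_le_add ?_ card_image_le))
  refine (card_union_le _ _).trans ?_
  rw [two_mul]
  exact Nat.add_le_add card_image_le card_image_le

end SP15
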