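import Pool.Agent.LibSP15.Defs2
import Pool.Agent.LibSP15.S2
import Pool.Agent.LibSP15.P2
import Pool.Agent.LibSP15.E1
import Pool.Agent.LibSP15.E2

/-!
# SP15, row D4a (size M)

PLAN. Rough zz ⇒ no prime factor ≤ zs. S2 with z = zs, W = 1, N = 0, Y = R, V = ∅, Q = primes ≤ zs, Ω = {0} (2*zs^(100L) ≤ zz ≤ R by E2): #S ≤ 3 R ∏_{p ≤ zs}(1-1/p) ≤ C R/log zs (P2, k = 1, y = 4, the primes 2, 3 dropped) ≤ C R LL²/log X.
-/

set_option autoImplicit false

namespace SP15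

open Finset Filter

theorem D4a_LL_tendsto : Tendsto (fun X : ℕ => LL X) atTop atTop := by
  unfold LL
  exact Real.tendsto_log_atTop.comp (Real.tendsto_log_atTop.comp tendsto_natCast_atTop_atTop)

/-- the count of `r₁` and of `r₄` -/
theorem D4a_rough (P : Par) : ∃ C : ℝ, 1 ≤ C ∧ ∀ᶠ X : ℕ in atTop, ∀ R : ℕ, zz X ≤ R →
    ∀ S : Finset ℕ, (∀ r ∈ S, 1 ≤ r ∧ r ≤ R ∧ Rough (zz X) r) →
    (#S : ℝ) ≤ C * R * (LL X ^ 2 / Real.log X) := by
  obtain ⟨C₁, hC₁, hP2⟩ := P2_upper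
  obtain ⟨L₀, hL₀, hS2⟩ := S2_interval
  obtain ⟨C₂, hC₂, hE1⟩ := E1_scales P
  refine ⟨3 * C₁ * (4 * 10 ^ 6), by nlinarith, ?_⟩
  filter_upwards [hE1, E2_powers, D4a_LL_tendsto.eventually_ge_atTop L₀] with X hE hE2 hLL
  intro R hR S hS
  obtain ⟨e1, e2, e3, -, -, -, e7, -, -, -, -, -, -, -⟩ := hE
  obtain ⟨-, f2, f3, -, -, f6⟩ := hE2
  have hLL0 : 0 < LL X := by linarith
  have hlx : 0 < Real.log X := by
    by_contra h0
    have : LL X ≤ 0 := by
      unfold LL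
      rcases le_or_gt (Real.log X) 0 with h1 | h1
      · have : Real.log X = 0 := le_antisymm h1 (Real.log_natCast_nonneg X)
        rw [this, Real.log_zero]
      · exact absurd h1 h0
    linarith
  have hzz : 1 ≤ zz X := by omega
  have hzzR : (1 : ℝ) ≤ zz X := by exact_mod_cast hzz
  set Q : Finset ℕ := (Icc 1 (zs X)).filter (fun p : ℕ => p.Prime ∧ (4 : ℝ) < p ∧ p ∉ (∅ : Finset ℕ)) with hQ
  have hzs4 : (4 : ℝ) ≤ zs X := by
    have : (100 : ℝ) ≤ zs X := by exact_mod_cast e2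
    linarith
  have hprod := hP2 1 4 (zs X) (by norm_num) le_rfl hzs4 ∅ (by simp) (by simp)
  have hQp : ∀ p ∈ Q, p.Prime ∧ p ≤ zs X := by
    intro p hp
    rw [hQ, Finset.mem_filter, Finset.mem_Icc] at hp
    exact ⟨hp.2.1, hp.1.2⟩
  have hcond : 2 * ((1 : ℕ) : ℝ) * ((zs X : ℝ) ^ (100 * LL X) * pr ∅) ≤ R := by
    have h4 : (zz X : ℝ) ^ (1 / 5 : ℝ) ≤ (zz X : ℝ) := by
      nth_rewrite 2 [← Real.rpow_one (zz X : ℝ)]
      exact Real.rpow_le_rpow_of_exponent_le hzzR (by norm_num)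
    have h5 : (zz X : ℝ) ≤ R := by exact_mod_cast hR
    unfold pr
    rw [Finset.prod_empty]
    push_cast
    linarith
  have hsieve := (hS2 (LL X) (zs X) hLL (by omega) f6 1 0 0 R Q ∅ (fun _ => {0}) (fun _ => 0) le_rfl (by
      intro p hp
      obtain ⟨q1, q2⟩ := hQp p hp
      refine ⟨q1, ?_, q2, ?_, ?_, ?_⟩
      · rw [Nat.dvd_one]
        exact q1.one_lt.ne'
      · intro n hn
        rw [Finset.mem_singleton] at hn
        rw [Finset.mem_range, hn]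
        exact q1.pos
      · simp
      · have := q1.two_le
        simp
        omega) (by simp) (by simp) hcond).2
  rw [Nat.zero_add] at hsieve
  have hsub : #S ≤ #{n ∈ Ioc 0 R | n % 1 = 0 % 1 ∧ (∀ p ∈ (∅ : Finset ℕ), n % p = 0 % p) ∧
      ∀ p ∈ Q, n % p ∉ ({0} : Finset ℕ)} := by
    apply Finset.card_le_card
    intro m hm
    obtain ⟨m1, m2, m3⟩ := hS m hm
    rw [Finset.mem_filter, Finset.mem_Ioc]
    refine ⟨⟨m1, m2⟩, by simp [Nat.mod_one], by simp, ?_⟩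
    intro p hp hmem
    rw [Finset.mem_singleton] at hmem
    have h1 := m3 p (hQp p hp).1 (Nat.dvd_of_mod_eq_zero hmem)
    have h2 := (hQp p hp).2
    omega
  have hlzs : 0 < Real.log (zs X) := lt_of_lt_of_le (by positivity) e7
  have hl4 : Real.log 4 ≤ 2 := by
    have : (4 : ℝ) = 2 ^ 2 := by norm_num
    rw [this, Real.log_pow]
    have := Real.log_two_lt_d9
    push_cast
    linarith
  have hratio : Real.log 4 / Real.log (zs X) ≤ 4 * 10 ^ 6 * (LL X ^ 2 / Real.log X) := by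
    rw [div_le_iff₀ hlzs]
    have h1 : (2 : ℝ) = 4 * 10 ^ 6 * (LL X ^ 2 / Real.log X) * (Real.log X / (2 * 10 ^ 6 * LL X ^ 2)) := by
      field_simp
      norm_num
    refine hl4.trans ?_
    nth_rewrite 1 [h1]
    exact mul_le_mul_of_nonneg_left e7 (by positivity)
  have hprod2 : ∏ p ∈ Q, (1 - ((1 : ℕ) : ℝ) / p) ≤ C₁ * (4 * 10 ^ 6 * (LL X ^ 2 / Real.log X)) := by
    refine hprod.trans ?_
    rw [pow_one]
    exact mul_le_mul_of_nonneg_left hratio (by linarith)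
  have hprodeq : ∏ p ∈ Q, (1 - (#({0} : Finset ℕ) : ℝ) / p) = ∏ p ∈ Q, (1 - ((1 : ℕ) : ℝ) / p) := by
    simp
  rw [hprodeq] at hsieve
  have hpr0 : (pr (∅ : Finset ℕ) : ℝ) = 1 := by
    unfold pr
    simp
  calc (#S : ℝ) ≤ 3 * (R / (((1 : ℕ) : ℝ) * pr ∅) * ∏ p ∈ Q, (1 - ((1 : ℕ) : ℝ) / p)) := by
        refine le_trans ?_ hsieve
        exact_mod_cast hsub
    _ ≤ 3 * (R / (((1 : ℕ) : ℝ) * pr ∅) * (C₁ * (4 * 10 ^ 6 * (LL X ^ 2 / Real.log X)))) := by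
        refine mul_le_mul_of_nonneg_left (mul_le_mul_of_nonneg_left hprod2 ?_) (by norm_num)
        rw [hpr0]
        positivity
    _ = 3 * C₁ * (4 * 10 ^ 6) * R * (LL X ^ 2 / Real.log X) := by
        rw [hpr0]
        push_cast
        ring

end SP15
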