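import Pool.Agent.LibSP15.Defs2
import Pool.Agent.LibSP15.S2
import Pool.Agent.LibSP15.P2
import Pool.Agent.LibSP15.E1
import Pool.Agent.LibSP15.E2
import Pool.Agent.LibSP15.B3

/-!
# SP15, row D4b (size L)

PLAN. If U ∩ U' has p not dividing Δ = αβ'-α'β the set is empty?? NOT needed: V = U ∪ U' with class of m: -α r/β mod p on U, -α' r/β' mod p on U' \ U (upper bound: drop the second condition on U ∩ U'). Q = primes p in (yy, zs], p ≠ l, p ∉ U ∪ U', p ∤ α β α' β' Δ; Ω p = {0, -αr/β, -α'r/β'}: three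
distinct classes (p ∤ r as r is zz-rough, zs ≤ zz). S2 with z = zs, W = 1, N = 0, Y = R: 2 zs^(100L) pr(U ∪ U') ≤ 2 zs^(100L) zz^(1/10) ≤ zz ≤ R. Count ≤ 3 R/pr(U∪U') ∏_Q (1-3/p) ≤ P2 with k = 3, y = yy, D = the other primes in (yy, zs]: at most C log X ≤ yy of them, ∑ 1/p ≤ 1. log yy/log zs ≤ C L³/log X.
m rough excludes class 0; the condition ¬ p | .. on PQ \ U excludes the roots for p ∈ Q ⊆ PQ.
-/

set_option autoImplicit false

namespace SP15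

open Finset Filter

/-- the root of `a r + b m = 0` mod `p` -/
noncomputable def D4b_root (a b : ℤ) (r p : ℕ) : ℕ := ((-((a : ZMod p) * (r : ZMod p))) * (b : ZMod p)⁻¹).val

theorem D4b_root_iff {a b : ℤ} {r p : ℕ} (hp : p.Prime) (hb : ¬ (p : ℤ) ∣ b) (m : ℕ) :
    (p : ℤ) ∣ a * r + b * m ↔ m % p = D4b_root a b r p := by
  haveI : Fact p.Prime := ⟨hp⟩
  have hb' : (b : ZMod p) ≠ 0 := by
    intro h
    exact hb ((ZMod.intCast_zmod_eq_zero_iff_dvd b p).1 h)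
  rw [← ZMod.intCast_zmod_eq_zero_iff_dvd]
  push_cast
  unfold D4b_root
  rw [← ZMod.val_natCast p m]
  constructor
  · intro h
    congr 1
    rw [eq_mul_inv_iff_mul_eq₀ hb']
    linear_combination h
  · intro h
    have h1 := ZMod.val_injective p h
    rw [h1]
    field_simp
    ring

theorem D4b_root_lt {a b : ℤ} {r p : ℕ} (hp : p.Prime) : D4b_root a b r p < p := by
  haveI : Fact p.Prime := ⟨hp⟩
  exact ZMod.val_lt _

theorem D4b_root_ne_zero {a b : ℤ} {r p : ℕ} (hp : p.Prime) (ha : ¬ (p : ℤ) ∣ a) (hb : ¬ (p : ℤ) ∣ b)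
    (hr : ¬ p ∣ r) : D4b_root a b r p ≠ 0 := by
  intro h
  have h1 := (D4b_root_iff (a := a) (r := r) hp hb 0).2 (by rw [h, Nat.zero_mod])
  rw [Nat.cast_zero, mul_zero, add_zero] at h1
  rcases (Nat.prime_iff_prime_int.1 hp).dvd_or_dvd h1 with h2 | h2
  · exact ha h2
  · exact hr (Int.natCast_dvd_natCast.1 h2)

theorem D4b_root_ne {a b a' b' : ℤ} {r p : ℕ} (hp : p.Prime) (hb : ¬ (p : ℤ) ∣ b) (hb' : ¬ (p : ℤ) ∣ b')
    (hd : ¬ (p : ℤ) ∣ a * b' - a' * b) (hr : ¬ p ∣ r) : D4b_root a b r p ≠ D4b_root a' b' r p := by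
  intro h
  have h0 : D4b_root a b r p % p = D4b_root a b r p := Nat.mod_eq_of_lt (D4b_root_lt hp)
  have h1 := (D4b_root_iff (a := a) (r := r) hp hb (D4b_root a b r p)).2 h0
  have h2 := (D4b_root_iff (a := a') (r := r) hp hb' (D4b_root a b r p)).2 (by rw [h0, h])
  have h3 : (p : ℤ) ∣ (a * b' - a' * b) * r := by
    have := dvd_sub (h1.mul_left b') (h2.mul_left b)
    have e : b' * (a * r + b * (D4b_root a b r p : ℕ)) - b * (a' * r + b' * (D4b_root a b r p : ℕ)) =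
      (a * b' - a' * b) * r := by ring
    rwa [e] at this
  rcases (Nat.prime_iff_prime_int.1 hp).dvd_or_dvd h3 with h4 | h4
  · exact hd h4
  · exact hr (Int.natCast_dvd_natCast.1 h4)

theorem D4b_pr_pos {U : Finset ℕ} (h : ∀ p ∈ U, 1 ≤ p) : 1 ≤ pr U :=
  Finset.one_le_prod' h

theorem D4b_iw (U : Finset ℕ) : iw U = 1 / (pr U : ℝ) := by
  unfold iw pr
  rw [Finset.prod_inv_distrib, one_div]
  push_cast
  rfl

/-- few large primes divide a nonzero integer -/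
theorem D4b_card_primes {M : ℤ} (hM : M ≠ 0) {B : ℝ} (hB : 1 ≤ B) (h : |(M : ℝ)| ≤ B) (D : Finset ℕ)
    (hD : ∀ p ∈ D, p.Prime ∧ (p : ℤ) ∣ M) : (#D : ℝ) * Real.log 2 ≤ Real.log B := by
  have h1 : ∏ p ∈ D, p ∣ M.natAbs := by
    apply Finset.prod_primes_dvd
    · intro p hp
      exact (hD p hp).1.prime
    · intro p hp
      exact Int.natCast_dvd.1 (hD p hp).2
  have h2 : 2 ^ #D ≤ ∏ p ∈ D, p := by
    rw [← Finset.prod_const]
    exact Finset.prod_le_prod' fun p hp => (hD p hp).1.two_le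
  have h3 : (2 : ℝ) ^ #D ≤ B := by
    have h4 : 2 ^ #D ≤ M.natAbs := h2.trans (Nat.le_of_dvd (Int.natAbs_pos.2 hM) h1)
    have h5 : ((2 ^ #D : ℕ) : ℝ) ≤ (M.natAbs : ℝ) := by exact_mod_cast h4
    rw [Nat.cast_natAbs, Int.cast_abs] at h5
    push_cast at h5
    exact h5.trans h
  have h6 := Real.log_le_log (by positivity) h3
  rwa [Real.log_pow] at h6

theorem D4b_LL_tendsto : Tendsto (fun X : ℕ => LL X) atTop atTop := by
  unfold LL
  exact Real.tendsto_log_atTop.comp (Real.tendsto_log_atTop.comp tendsto_natCast_atTop_atTop)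

open Classical in
/-- fixed `r₁`: the count of the `r₄` -/
theorem D4b_r4 (P : Par) : ∃ C : ℝ, 1 ≤ C ∧ ∀ᶠ X : ℕ in atTop, ∀ (R r : ℕ) (α β α' β' : ℤ)
    (U U' : Finset ℕ), zz X ≤ R → 1 ≤ r → r ≤ X → Rough (zz X) r → U ∈ Reg P X P.b → U' ∈ Reg P X P.b →
    α ≠ 0 → β ≠ 0 → α' ≠ 0 → β' ≠ 0 → α * β' - α' * β ≠ 0 → |(α : ℝ)| ≤ (X : ℝ) ^ 3 → |(β : ℝ)| ≤ (X : ℝ) ^ 3 →
    |(α' : ℝ)| ≤ (X : ℝ) ^ 3 → |(β' : ℝ)| ≤ (X : ℝ) ^ 3 →
    (∀ p ∈ U, ¬ (p : ℤ) ∣ β) → (∀ p ∈ U', ¬ (p : ℤ) ∣ β') →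
    (#((Icc 1 R).filter fun m : ℕ => Rough (zz X) m ∧
      ((∀ p ∈ U, (p : ℤ) ∣ α * r + β * m) ∧ ∀ p ∈ PQ P.l (zz X), p ∉ U → ¬ (p : ℤ) ∣ α * r + β * m) ∧
      ((∀ p ∈ U', (p : ℤ) ∣ α' * r + β' * m) ∧
        ∀ p ∈ PQ P.l (zz X), p ∉ U' → ¬ (p : ℤ) ∣ α' * r + β' * m)) : ℝ) ≤
      C * R * iw (U ∪ U') * (LL X ^ 3 / Real.log X) ^ 3 := by
  obtain ⟨C₁, hC₁, hP2⟩ := P2_upper
  obtain ⟨L₀, hL₀, hS2⟩ := S2_interval
  obtain ⟨C₂, hC₂, hE1⟩ := E1_scales P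
  refine ⟨3 * C₁ * (2 * 10 ^ 7) ^ 3, by nlinarith, ?_⟩
  filter_upwards [hE1, E2_powers, B3_size P, D4b_LL_tendsto.eventually_ge_atTop L₀] with X hE hE2 hB3 hLL
  intro R r α β α' β' U U' hR hr1 hrX hrr hU hU' hα hβ hα' hβ' hΔ bα bβ bα' bβ' hUβ hUβ'
  obtain ⟨e1, e2, e3, -, -, -, e7, -, -, -, -, -, -, -⟩ := hE
  obtain ⟨-, f2, f3, -, -, f6⟩ := hE2
  obtain ⟨u1, u2, u3, u4⟩ := hB3 P.b (by unfold Par.A; omega) U hU
  obtain ⟨v1, v2, v3, v4⟩ := hB3 P.b (by unfold Par.A; omega) U' hU'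
  -- sizes
  have hlx : 0 < Real.log X := by
    by_contra h0
    have : LL X ≤ 0 := by
      unfold LL
      rcases le_or_gt (Real.log X) 0 with h1 | h1
      · have : Real.log X = 0 := le_antisymm h1 (Real.log_natCast_nonneg X)
        rw [this, Real.log_zero]
      · exact absurd h1 h0
    linarith
  have hlx2 : (100 : ℝ) ≤ Real.log X := by
    have h1 := Real.log_le_sub_one_of_pos hlx
    unfold LL at e1
    linarith
  have hX2 : (2 : ℝ) ≤ X := by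
    have hX0 : (0 : ℝ) < X := by
      rcases Nat.eq_zero_or_pos X with h | h
      · rw [h, Nat.cast_zero, Real.log_zero] at hlx; exact absurd hlx (lt_irrefl _)
      · exact_mod_cast h
    have := Real.log_le_sub_one_of_pos hX0
    linarith
  have hyy : (100 : ℝ) ^ 10 ≤ yy X := by
    unfold yy
    exact pow_le_pow_left₀ (by norm_num) hlx2 10
  have hyy4 : (4 : ℝ) ≤ yy X := le_trans (by norm_num) hyy
  have hzz : 1 ≤ zz X := by omega
  have hzzR : (1 : ℝ) ≤ zz X := by exact_mod_cast hzz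
  set V := U ∪ U' with hV
  set Δ : ℤ := α * β' - α' * β with hΔd
  set M : ℤ := α * β * (α' * β') * Δ with hM
  have hM0 : M ≠ 0 := mul_ne_zero (mul_ne_zero (mul_ne_zero hα hβ) (mul_ne_zero hα' hβ')) hΔ
  set D₁ : Finset ℕ := (Icc 1 (zs X)).filter fun p => (p.Prime ∧ (p : ℤ) ∣ M) ∧ yy X < p with hD₁
  set D : Finset ℕ := (V ∪ {P.l}) ∪ D₁ with hD
  have hVp : ∀ p ∈ V, yy X < p ∧ p ∈ PQ P.l (zz X) := by
    intro p hp
    rcases Finset.mem_union.1 hp with h | h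
    · exact u2 p h
    · exact v2 p h
  have hPQ : ∀ p, p ∈ PQ P.l (zz X) ↔ (3 ≤ p ∧ p ≤ zz X) ∧ p.Prime ∧ p ≠ P.l := by
    intro p
    unfold PQ
    rw [Finset.mem_filter, Finset.mem_Icc]
  have hVprime : ∀ p ∈ V, p.Prime := fun p hp => ((hPQ p).1 (hVp p hp).2).2.1
  have hDprime : ∀ p ∈ D, p.Prime := by
    intro p hp
    rcases Finset.mem_union.1 hp with h | h
    · rcases Finset.mem_union.1 h with h | h
      · exact hVprime p h
      · rw [Finset.mem_singleton.1 h]; exact P.hl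
    · exact (Finset.mem_filter.1 h).2.1.1
  -- the sum of the reciprocals
  have hpos : ∀ S : Finset ℕ, 0 ≤ ∑ p ∈ S, 1 / (p : ℝ) := fun S => Finset.sum_nonneg fun p _ => by positivity
  have hunion : ∀ S S' : Finset ℕ, ∑ p ∈ S ∪ S', 1 / (p : ℝ) ≤ ∑ p ∈ S, 1 / (p : ℝ) + ∑ p ∈ S', 1 / (p : ℝ) := by
    intro S S'
    have := Finset.sum_union_inter (s₁ := S) (s₂ := S') (f := fun p : ℕ => 1 / (p : ℝ))
    have h2 := hpos (S ∩ S')
    linarith
  have hcardD₁ : (#D₁ : ℝ) ≤ 40 * Real.log X := by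
    have hb : |(M : ℝ)| ≤ (X : ℝ) ^ 19 := by
      rw [hM, hΔd]
      push_cast
      rw [abs_mul, abs_mul, abs_mul, abs_mul]
      have hX0 : (0 : ℝ) ≤ (X : ℝ) ^ 3 := by positivity
      have g1 : |(α : ℝ)| * |(β : ℝ)| ≤ (X : ℝ) ^ 3 * (X : ℝ) ^ 3 := mul_le_mul bα bβ (abs_nonneg _) hX0
      have g2 : |(α' : ℝ)| * |(β' : ℝ)| ≤ (X : ℝ) ^ 3 * (X : ℝ) ^ 3 := mul_le_mul bα' bβ' (abs_nonneg _) hX0
      have g3 : |(α : ℝ) * β' - α' * β| ≤ (X : ℝ) ^ 3 * (X : ℝ) ^ 3 + (X : ℝ) ^ 3 * (X : ℝ) ^ 3 := by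
        refine le_trans (abs_sub _ _) ?_
        rw [abs_mul, abs_mul]
        exact add_le_add (mul_le_mul bα bβ' (abs_nonneg _) hX0) (mul_le_mul bα' bβ (abs_nonneg _) hX0)
      refine le_trans (mul_le_mul (mul_le_mul g1 g2 (by positivity) (by positivity)) g3 (abs_nonneg _) (by positivity)) ?_
      have h18 : (0 : ℝ) ≤ (X : ℝ) ^ 18 := by positivity
      nlinarith
    have h1 := D4b_card_primes hM0 (one_le_pow₀ (by linarith)) hb D₁ (fun p hp => (Finset.mem_filter.1 hp).2.1)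
    rw [Real.log_pow] at h1
    have h2 : (0.5 : ℝ) ≤ Real.log 2 := by linarith [Real.log_two_gt_d9]
    have h3 : (0 : ℝ) ≤ #D₁ := Nat.cast_nonneg _
    push_cast at h1
    nlinarith
  have hsumD₁ : ∑ p ∈ D₁, 1 / (p : ℝ) ≤ 1 / 100 := by
    have h1 : ∀ p ∈ D₁, 1 / (p : ℝ) ≤ 1 / yy X := by
      intro p hp
      have := (Finset.mem_filter.1 hp).2.2
      exact one_div_le_one_div_of_le (by linarith) this.le
    refine le_trans (Finset.sum_le_sum h1) ?_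
    rw [Finset.sum_const, nsmul_eq_mul, mul_one_div, div_le_iff₀ (by linarith)]
    refine hcardD₁.trans ?_
    unfold yy
    have h9 : (1 : ℝ) ≤ Real.log X ^ 8 := one_le_pow₀ (by linarith)
    have e : Real.log X ^ 10 = Real.log X * Real.log X * Real.log X ^ 8 := by ring
    rw [e]
    have h5 : 4000 * Real.log X ≤ Real.log X * Real.log X * Real.log X ^ 8 := by
      have h6 : (1 : ℝ) * (4000 * Real.log X) ≤ Real.log X ^ 7 * (Real.log X * Real.log X * Real.log X) := by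
        have h7 : (1 : ℝ) ≤ Real.log X ^ 7 := one_le_pow₀ (by linarith)
        have h8 : 4000 * Real.log X ≤ Real.log X * Real.log X * Real.log X := by nlinarith
        exact mul_le_mul h7 h8 (by positivity) (by positivity)
      calc 4000 * Real.log X = 1 * (4000 * Real.log X) := by ring
        _ ≤ Real.log X ^ 7 * (Real.log X * Real.log X * Real.log X) := h6
        _ = Real.log X * Real.log X * Real.log X ^ 8 := by ring
    linarith
  have hl5 : (4 : ℝ) ≤ P.l := by exact_mod_cast P.hl3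
  have hsumD : ∑ p ∈ D, 1 / (p : ℝ) ≤ 1 := by
    have h1 := hunion (V ∪ {P.l}) D₁
    have h2 := hunion V {P.l}
    have h3 := hunion U U'
    have h4 : ∑ p ∈ ({P.l} : Finset ℕ), 1 / (p : ℝ) ≤ 1 / 4 := by
      rw [Finset.sum_singleton]
      exact one_div_le_one_div_of_le (by norm_num) hl5
    linarith
  -- the product
  set Q : Finset ℕ := (Icc 1 (zs X)).filter (fun p : ℕ => p.Prime ∧ yy X < p ∧ p ∉ D) with hQ
  have hprod := hP2 3 (yy X) (zs X) le_rfl hyy4 e3 D hDprime hsumD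
  -- facts on the primes of Q
  have hQp : ∀ p ∈ Q, p.Prime ∧ yy X < p ∧ p ≤ zs X ∧ p ∉ V ∧ p ≠ P.l ∧ ¬ (p : ℤ) ∣ M := by
    intro p hp
    rw [hQ, Finset.mem_filter, Finset.mem_Icc] at hp
    obtain ⟨⟨q1, q2⟩, q3, q4, q5⟩ := hp
    rw [hD, Finset.mem_union, Finset.mem_union, Finset.mem_singleton] at q5
    push Not at q5
    refine ⟨q3, q4, q2, q5.1.1, q5.1.2, fun h => q5.2 ?_⟩
    rw [hD₁, Finset.mem_filter, Finset.mem_Icc]
    exact ⟨⟨q1, q2⟩, ⟨q3, h⟩, q4⟩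
  have hQd : ∀ p ∈ Q, ¬ (p : ℤ) ∣ α ∧ ¬ (p : ℤ) ∣ β ∧ ¬ (p : ℤ) ∣ α' ∧ ¬ (p : ℤ) ∣ β' ∧ ¬ (p : ℤ) ∣ Δ := by
    intro p hp
    have h := (hQp p hp).2.2.2.2.2
    refine ⟨fun h' => h ?_, fun h' => h ?_, fun h' => h ?_, fun h' => h ?_, fun h' => h (h'.mul_left _)⟩
    · exact ((h'.mul_right β).mul_right (α' * β')).mul_right Δ
    · exact ((h'.mul_left α).mul_right (α' * β')).mul_right Δ
    · exact ((h'.mul_right β').mul_left (α * β)).mul_right Δ
    · exact ((h'.mul_left α').mul_left (α * β)).mul_right Δ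
  have hQr : ∀ p ∈ Q, ¬ p ∣ r := by
    intro p hp hpr
    have h1 := hrr p (hQp p hp).1 hpr
    have h2 := (hQp p hp).2.2.1
    omega
  have hQ5 : ∀ p ∈ Q, 5 ≤ p := by
    intro p hp
    have h1 := (hQp p hp).2.1
    have h2 : (5 : ℝ) < p := by linarith
    exact_mod_cast h2.le
  -- the sieve
  set Ω : ℕ → Finset ℕ := fun p => {0, D4b_root α β r p, D4b_root α' β' r p} with hΩ
  set b : ℕ → ℕ := fun p => if p ∈ U then D4b_root α β r p else D4b_root α' β' r p with hb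
  have hΩcard : ∀ p ∈ Q, #(Ω p) = 3 := by
    intro p hp
    obtain ⟨d1, d2, d3, d4, d5⟩ := hQd p hp
    have hpp := (hQp p hp).1
    rw [hΩ]
    rw [Finset.card_eq_three]
    refine ⟨_, _, _, ?_, ?_, ?_, rfl⟩
    · exact (D4b_root_ne_zero hpp d1 d2 (hQr p hp)).symm
    · exact (D4b_root_ne_zero hpp d3 d4 (hQr p hp)).symm
    · exact D4b_root_ne hpp d2 d4 d5 (hQr p hp)
  have hprV : 1 ≤ pr V := D4b_pr_pos fun p hp => (hVprime p hp).one_lt.le
  have hprV0 : (0 : ℝ) < pr V := by exact_mod_cast hprV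
  have hprle : (pr V : ℝ) ≤ pr U * pr U' := by
    have h1 : pr V ≤ pr U * pr U' := by
      have h2 := Finset.prod_union_inter (s₁ := U) (s₂ := U') (f := fun p : ℕ => p)
      have h3 : 1 ≤ ∏ p ∈ U ∩ U', p := Finset.one_le_prod' fun p hp =>
        (hVprime p (Finset.mem_union_left _ (Finset.mem_inter.1 hp).1)).one_lt.le
      unfold pr
      rw [← h2]
      exact Nat.le_mul_of_pos_right _ h3
    exact_mod_cast h1
  have hcond : 2 * ((1 : ℕ) : ℝ) * ((zs X : ℝ) ^ (100 * LL X) * pr V) ≤ R := by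
    have h1 : (pr V : ℝ) ≤ (zz X : ℝ) ^ (1 / 10 : ℝ) := by
      refine hprle.trans ((mul_le_mul u1 v1 (Nat.cast_nonneg _) (Real.rpow_nonneg (by positivity) _)).trans ?_)
      rw [← Real.rpow_add (by linarith)]
      norm_num
    have h2 : (zs X : ℝ) ^ (100 * LL X) ≤ (zz X : ℝ) ^ (1 / 5 : ℝ) / 4 := by linarith
    have h3 : (zs X : ℝ) ^ (100 * LL X) * pr V ≤ (zz X : ℝ) ^ (1 / 5 : ℝ) / 4 * (zz X : ℝ) ^ (1 / 10 : ℝ) :=
      mul_le_mul h2 h1 hprV0.le (by positivity)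
    have h4 : (zz X : ℝ) ^ (1 / 5 : ℝ) * (zz X : ℝ) ^ (1 / 10 : ℝ) ≤ (zz X : ℝ) := by
      rw [← Real.rpow_add (by linarith)]
      nth_rewrite 2 [← Real.rpow_one (zz X : ℝ)]
      exact Real.rpow_le_rpow_of_exponent_le hzzR (by norm_num)
    have h5 : (zz X : ℝ) ≤ R := by exact_mod_cast hR
    push_cast
    linarith
  have hsieve := (hS2 (LL X) (zs X) hLL (by omega) f6 1 0 0 R Q V Ω b le_rfl (by
      intro p hp
      obtain ⟨q1, q2, q3, -⟩ := hQp p hp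
      have hc := hΩcard p hp
      refine ⟨q1, ?_, q3, ?_, hc.le, ?_⟩
      · rw [Nat.dvd_one]
        exact q1.one_lt.ne'
      · intro n hn
        rw [hΩ] at hn
        simp only [Finset.mem_insert, Finset.mem_singleton] at hn
        rw [Finset.mem_range]
        rcases hn with rfl | rfl | rfl
        · exact q1.pos
        · exact D4b_root_lt q1
        · exact D4b_root_lt q1
      · rw [hc]
        have := hQ5 p hp
        omega) (by
      intro p hp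
      refine ⟨hVprime p hp, ?_⟩
      rw [Nat.dvd_one]
      exact (hVprime p hp).one_lt.ne') (by
      rw [Finset.disjoint_left]
      intro p hp hp'
      exact (hQp p hp).2.2.2.1 hp') hcond).2
  rw [Nat.zero_add] at hsieve
  have hsub : #((Icc 1 R).filter fun m : ℕ => Rough (zz X) m ∧
      ((∀ p ∈ U, (p : ℤ) ∣ α * r + β * m) ∧ ∀ p ∈ PQ P.l (zz X), p ∉ U → ¬ (p : ℤ) ∣ α * r + β * m) ∧
      ((∀ p ∈ U', (p : ℤ) ∣ α' * r + β' * m) ∧
        ∀ p ∈ PQ P.l (zz X), p ∉ U' → ¬ (p : ℤ) ∣ α' * r + β' * m)) ≤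
      #{n ∈ Ioc 0 R | n % 1 = 0 % 1 ∧ (∀ p ∈ V, n % p = b p % p) ∧ ∀ p ∈ Q, n % p ∉ Ω p} := by
    apply Finset.card_le_card
    intro m hm
    rw [Finset.mem_filter, Finset.mem_Icc] at hm
    obtain ⟨⟨m1, m2⟩, m3, ⟨m4, m5⟩, m6, m7⟩ := hm
    rw [Finset.mem_filter, Finset.mem_Ioc]
    refine ⟨⟨m1, m2⟩, by simp [Nat.mod_one], ?_, ?_⟩
    · intro p hp
      have hpp := hVprime p hp
      rw [hb]
      simp only
      split_ifs with hpU
      · rw [Nat.mod_eq_of_lt (D4b_root_lt hpp)]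
        exact (D4b_root_iff hpp (hUβ p hpU) m).1 (m4 p hpU)
      · have hpU' : p ∈ U' := (Finset.mem_union.1 hp).resolve_left hpU
        rw [Nat.mod_eq_of_lt (D4b_root_lt hpp)]
        exact (D4b_root_iff hpp (hUβ' p hpU') m).1 (m6 p hpU')
    · intro p hp hmem
      obtain ⟨q1, q2, q3, q4, q5, -⟩ := hQp p hp
      obtain ⟨d1, d2, d3, d4, d5⟩ := hQd p hp
      have hpPQ : p ∈ PQ P.l (zz X) := (hPQ p).2 ⟨⟨by have := hQ5 p hp; omega, by omega⟩, q1, q5⟩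
      rw [hΩ] at hmem
      simp only [Finset.mem_insert, Finset.mem_singleton] at hmem
      rcases hmem with h | h | h
      · have h1 := m3 p q1 (Nat.dvd_of_mod_eq_zero h)
        omega
      · exact m5 p hpPQ (fun h' => q4 (Finset.mem_union_left _ h')) ((D4b_root_iff q1 d2 m).2 h)
      · exact m7 p hpPQ (fun h' => q4 (Finset.mem_union_right _ h')) ((D4b_root_iff q1 d4 m).2 h)
  have hprodeq : ∏ p ∈ Q, (1 - (#(Ω p) : ℝ) / p) = ∏ p ∈ Q, (1 - ((3 : ℕ) : ℝ) / p) :=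
    Finset.prod_congr rfl fun p hp => by rw [hΩcard p hp]
  rw [hprodeq] at hsieve
  -- the logarithms
  have hlyy : Real.log (yy X) = 10 * LL X := by
    unfold yy LL
    rw [Real.log_pow]
    norm_num
  have hLL0 : 0 < LL X := by linarith
  have hlzs : 0 < Real.log (zs X) := lt_of_lt_of_le (by positivity) e7
  have hratio : Real.log (yy X) / Real.log (zs X) ≤ 2 * 10 ^ 7 * (LL X ^ 3 / Real.log X) := by
    rw [hlyy, div_le_iff₀ hlzs]
    have h1 : 10 * LL X = 2 * 10 ^ 7 * (LL X ^ 3 / Real.log X) * (Real.log X / (2 * 10 ^ 6 * LL X ^ 2)) := by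
      field_simp
    rw [h1]
    exact mul_le_mul_of_nonneg_left e7 (by positivity)
  have hratio0 : 0 ≤ Real.log (yy X) / Real.log (zs X) := by
    rw [hlyy]
    positivity
  have hprod2 : ∏ p ∈ Q, (1 - ((3 : ℕ) : ℝ) / p) ≤ C₁ * ((2 * 10 ^ 7) ^ 3 * (LL X ^ 3 / Real.log X) ^ 3) := by
    refine hprod.trans ?_
    rw [← mul_pow]
    exact mul_le_mul_of_nonneg_left (pow_le_pow_left₀ hratio0 hratio 3) (by linarith)
  have hRpos : (0 : ℝ) ≤ (R : ℝ) / (((1 : ℕ) : ℝ) * pr V) := by positivity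
  calc (#((Icc 1 R).filter fun m : ℕ => Rough (zz X) m ∧
      ((∀ p ∈ U, (p : ℤ) ∣ α * r + β * m) ∧ ∀ p ∈ PQ P.l (zz X), p ∉ U → ¬ (p : ℤ) ∣ α * r + β * m) ∧
      ((∀ p ∈ U', (p : ℤ) ∣ α' * r + β' * m) ∧
        ∀ p ∈ PQ P.l (zz X), p ∉ U' → ¬ (p : ℤ) ∣ α' * r + β' * m)) : ℝ)
      ≤ 3 * (R / (((1 : ℕ) : ℝ) * pr V) * ∏ p ∈ Q, (1 - ((3 : ℕ) : ℝ) / p)) := by
        refine le_trans ?_ hsieve
        exact_mod_cast hsub
    _ ≤ 3 * (R / (((1 : ℕ) : ℝ) * pr V) * (C₁ * ((2 * 10 ^ 7) ^ 3 * (LL X ^ 3 / Real.log X) ^ 3))) := by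
        exact mul_le_mul_of_nonneg_left (mul_le_mul_of_nonneg_left hprod2 hRpos) (by norm_num)
    _ = 3 * C₁ * (2 * 10 ^ 7) ^ 3 * R * iw (U ∪ U') * (LL X ^ 3 / Real.log X) ^ 3 := by
        rw [D4b_iw]
        push_cast
        rw [one_mul]
        ring

end SP15
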