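import Pool.Agent.LibSP15.Defs2
import Pool.Agent.LibSP15.D4a
import Pool.Agent.LibSP15.D4b
import Pool.Agent.LibSP15.C0
import Pool.Agent.LibSP15.B3
import Pool.Agent.LibSP15.E1
import Pool.Agent.LibSP15.E2

/-!
# SP15, row D4 (size L)

PLAN. If Zs is empty: clear. Otherwise take (r₁,r₄) in it: r₁, r₄ > 1 rough gives > zz, so both ranges R1, R4 ≥ zz. For p ∈ U: p ∤ be: if p | be = ± g u' r₃ then p | al r₁, but p ∤ r₁ and p | al impossible together with p | be (p ∈ U and U' of s are disjoint, r rough, p odd). Same for U'. If p ∈ U ∩ U': p | al r₁ + be r₄ and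
p | al' r₁ + be' r₄ ⇒ p | r₁ De ⇒ p | De: this is the if-condition. Then #Zs ≤ #{r₁} * max #{r₄} ≤ (D4a)(D4b) = C R1 R4 iw(U∪U') L^11/(log X)^4, R1 R4 ≤ 16 N²/(u u' r₂ r₃) ≤ 2 X/(pr W u u' r₂ r₃), iw (Mu s) = 1/(pr W u u'). al, be ≠ 0, |al|, |be| ≤ X³.
-/

set_option autoImplicit false

namespace SP15

open Finset Filter

theorem D4_iw_union {U V : Finset ℕ} (h : Disjoint U V) : iw (U ∪ V) = iw U * iw V := by
  unfold iw
  exact Finset.prod_union h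

theorem D4_iw_nonneg (U : Finset ℕ) : 0 ≤ iw U := by
  unfold iw
  exact Finset.prod_nonneg fun p _ => by positivity

theorem D4_dvd_pr {U : Finset ℕ} (hU : ∀ p ∈ U, p.Prime) {p : ℕ} (hp : p.Prime) (h : p ∣ pr U) : p ∈ U := by
  unfold pr at h
  obtain ⟨q, hq, hpq⟩ := (hp.prime.dvd_finsetProd_iff _).1 h
  rwa [(Nat.prime_dvd_prime_iff_eq hp (hU q hq)).1 hpq]

theorem D4_lt_of_rough {z r : ℕ} (h : Rough z r) (hr : 1 < r) : z < r := by
  obtain ⟨p, hp, hpr⟩ := Nat.exists_prime_and_dvd hr.ne'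
  exact lt_of_lt_of_le (h p hp hpr) (Nat.le_of_dvd (by omega) hpr)

/-- the argument that `p ∈ U` does not divide the second coefficient -/
theorem D4_not_dvd {z : ℕ} {A B : Finset ℕ} (hA : ∀ p ∈ A, p.Prime) (hB : ∀ p ∈ B, p.Prime)
    (hAB : Disjoint A B) {c c' : ℤ} (hc : c = 1 ∨ c = -1 ∨ c = 2 ∨ c = -2)
    (hc' : c' = 1 ∨ c' = -1 ∨ c' = 2 ∨ c' = -2) {x y r₁ r₄ p : ℕ} (hp : p.Prime) (hp2 : 2 < p) (hpz : p ≤ z)
    (hx : Rough z x) (hy : Rough z y) (hr₁ : Rough z r₁)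
    (h : (p : ℤ) ∣ c * pr A * x * r₁ + c' * pr B * y * r₄) : ¬ (p : ℤ) ∣ c' * pr B * y := by
  have hpp := Nat.prime_iff_prime_int.1 hp
  have hsmall : ∀ e : ℤ, (e = 1 ∨ e = -1 ∨ e = 2 ∨ e = -2) → ¬ (p : ℤ) ∣ e := by
    intro e he h'
    have h1 : e ≠ 0 := by rcases he with rfl | rfl | rfl | rfl <;> norm_num
    have h2 := Int.natAbs_le_of_dvd_ne_zero h' h1
    rw [Int.natAbs_natCast] at h2
    rcases he with rfl | rfl | rfl | rfl <;> simp at h2 <;> omega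
  have hrough : ∀ n : ℕ, Rough z n → ¬ (p : ℤ) ∣ (n : ℤ) := by
    intro n hn h'
    have := hn p hp (Int.natCast_dvd_natCast.1 h')
    omega
  intro h1
  have hpB : p ∈ B := by
    rcases hpp.dvd_or_dvd h1 with h2 | h2
    · rcases hpp.dvd_or_dvd h2 with h3 | h3
      · exact absurd h3 (hsmall _ hc')
      · exact D4_dvd_pr hB hp (Int.natCast_dvd_natCast.1 h3)
    · exact absurd h2 (hrough _ hy)
  have h4 : (p : ℤ) ∣ c * pr A * x * r₁ := by
    have := dvd_sub h (h1.mul_right (r₄ : ℤ))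
    rwa [add_sub_cancel_right] at this
  have hpA : p ∈ A := by
    rcases hpp.dvd_or_dvd h4 with h2 | h2
    · rcases hpp.dvd_or_dvd h2 with h3 | h3
      · rcases hpp.dvd_or_dvd h3 with h5 | h5
        · exact absurd h5 (hsmall _ hc)
        · exact D4_dvd_pr hA hp (Int.natCast_dvd_natCast.1 h5)
      · exact absurd h3 (hrough _ hx)
    · exact absurd h2 (hrough _ hr₁)
  exact Finset.disjoint_left.1 hAB hpA hpB

theorem D4_cA (τ : Fin 3) : eA τ * gA τ = 1 ∨ eA τ * gA τ = -1 ∨ eA τ * gA τ = 2 ∨ eA τ * gA τ = -2 := by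
  unfold eA gA
  split_ifs <;> simp

theorem D4_cB (τ : Fin 3) : eB τ * gB τ = 1 ∨ eB τ * gB τ = -1 ∨ eB τ * gB τ = 2 ∨ eB τ * gB τ = -2 := by
  unfold eB gB
  split_ifs <;> simp

theorem D4_coef_bound {c : ℤ} (hc : c = 1 ∨ c = -1 ∨ c = 2 ∨ c = -2) {A : Finset ℕ} {X x : ℕ}
    (hX : (2 : ℝ) ≤ X) (hA : (pr A : ℝ) ≤ X) (hx : x ≤ X) : |((c * pr A * x : ℤ) : ℝ)| ≤ (X : ℝ) ^ 3 := by
  have h1 : |(c : ℝ)| ≤ 2 := by
    rcases hc with rfl | rfl | rfl | rfl <;> norm_num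
  have h2 : (x : ℝ) ≤ X := by exact_mod_cast hx
  push_cast
  rw [abs_mul, abs_mul, Nat.abs_cast, Nat.abs_cast]
  calc |(c : ℝ)| * (pr A : ℝ) * x ≤ 2 * X * X := by
        refine mul_le_mul (mul_le_mul h1 hA (Nat.cast_nonneg _) (by norm_num)) h2 (Nat.cast_nonneg _) (by positivity)
    _ ≤ (X : ℝ) ^ 3 := by nlinarith [sq_nonneg (X : ℝ)]

theorem D4_coef_ne {c : ℤ} (hc : c = 1 ∨ c = -1 ∨ c = 2 ∨ c = -2) {A : Finset ℕ} {x : ℕ}
    (hA : 1 ≤ pr A) (hx : 1 ≤ x) : (c * pr A * x : ℤ) ≠ 0 := by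
  have h1 : c ≠ 0 := by rcases hc with rfl | rfl | rfl | rfl <;> norm_num
  refine mul_ne_zero (mul_ne_zero h1 ?_) ?_ <;> exact_mod_cast (by omega)

open Classical in
theorem D4_Z (P : Par) : ∃ C : ℝ, 1 ≤ C ∧ ∀ᶠ X : ℕ in atTop, ∀ (τ : Fin 3) (κ : Bool) (s s' : Sp)
    (r₂ r₃ : ℕ) (U U' : Finset ℕ), s ∈ Spl P X → s' ∈ Spl P X → (r₂, r₃) ∈ RR X s s' →
    U ∈ Reg P X P.b → U' ∈ Reg P X P.b → De τ κ s s' r₂ r₃ ≠ 0 →
    (#(Zs P X τ κ s s' r₂ r₃ U U') : ℝ) ≤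
      (if (∀ p : ℕ, p ∈ U ∩ U' → (p : ℤ) ∣ De τ κ s s' r₂ r₃) then
        C * LL X ^ 12 * (X / Real.log X ^ 4 * (iw (Mu s) / (r₂ * r₃)) * iw (U ∪ U')) else 0) := by
  obtain ⟨Ca, hCa, hDa⟩ := D4a_rough P
  obtain ⟨Cb, hCb, hDb⟩ := D4b_r4 P
  obtain ⟨C₂, hC₂, hE1⟩ := E1_scales P
  refine ⟨Ca * Cb, by nlinarith, ?_⟩
  filter_upwards [hDa, hDb, hE1, E2_powers, B3_size P, C0_Nw P, eventually_ge_atTop 16] with X hDa hDb hE hE2 hB3 hC0 hX16
  intro τ κ s s' r₂ r₃ U U' hs hs' hr hU hU' hDe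
  have e1 := hE.1
  have hLL1 : (1 : ℝ) ≤ LL X := by linarith
  have f4 : (zz X : ℝ) ≤ (X : ℝ) ^ (1 / 1000 : ℝ) := hE2.2.2.2.1
  have hXR : (16 : ℝ) ≤ X := by exact_mod_cast hX16
  have hX1 : (1 : ℝ) ≤ X := by linarith
  have hyy : 2 < yy X := by
    unfold yy
    have hlx : (1 : ℝ) < Real.log X := by
      have h0 : 0 < Real.log X := by
        by_contra h0
        have : LL X ≤ 0 := by
          unfold LL
          rcases le_or_gt (Real.log X) 0 with h1 | h1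
          · have : Real.log X = 0 := le_antisymm h1 (Real.log_natCast_nonneg X)
            rw [this, Real.log_zero]
          · exact absurd h1 h0
        linarith
      have h1 := Real.log_le_sub_one_of_pos h0
      unfold LL at e1
      linarith
    have hlx2 : (100 : ℝ) ≤ Real.log X := by
      have h1 := Real.log_le_sub_one_of_pos (by linarith : 0 < Real.log X)
      unfold LL at e1
      linarith
    calc (2 : ℝ) < 100 ^ 10 := by norm_num
      _ ≤ _ := pow_le_pow_left₀ (by norm_num) hlx2 10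
  have hlx0 : 0 < Real.log X := by
    have := Real.log_pos (by linarith : (1 : ℝ) < X)
    exact this
  -- the splittings
  unfold Spl SplR at hs hs'
  rw [Finset.mem_filter, Finset.mem_product, Finset.mem_product] at hs hs'
  obtain ⟨⟨a1, a2, a3⟩, a4, a5, a6⟩ := hs
  obtain ⟨⟨b1, b2, b3⟩, b4, b5, b6⟩ := hs'
  have hbA : P.b ≤ P.A := by unfold Par.A; omega
  have haA : P.a ≤ P.A := by unfold Par.A; omega
  have hPQ : ∀ p, p ∈ PQ P.l (zz X) → (3 ≤ p ∧ p ≤ zz X) ∧ p.Prime := by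
    intro p hp
    unfold PQ at hp
    rw [Finset.mem_filter, Finset.mem_Icc] at hp
    exact ⟨hp.1, hp.2.1⟩
  have hprime : ∀ e ≤ P.A, ∀ U ∈ Reg P X e, ∀ p ∈ U, p.Prime := fun e he U hU p hp =>
    (hPQ p ((hB3 e he U hU).2.1 p hp).2).2
  have hprX : ∀ e ≤ P.A, ∀ U ∈ Reg P X e, (pr U : ℝ) ≤ X := by
    intro e he U hU
    have h1 := (hB3 e he U hU).1
    have h2 : (zz X : ℝ) ^ (1 / 20 : ℝ) ≤ X := by
      have h3 : (zz X : ℝ) ≤ X := by
        refine f4.trans ?_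
        nth_rewrite 2 [← Real.rpow_one (X : ℝ)]
        exact Real.rpow_le_rpow_of_exponent_le hX1 (by norm_num)
      refine (Real.rpow_le_rpow (Nat.cast_nonneg _) h3 (by norm_num)).trans ?_
      nth_rewrite 2 [← Real.rpow_one (X : ℝ)]
      exact Real.rpow_le_rpow_of_exponent_le hX1 (by norm_num)
    exact h1.trans h2
  have hpr1 : ∀ e ≤ P.A, ∀ U ∈ Reg P X e, 1 ≤ pr U := fun e he U hU =>
    D4b_pr_pos fun p hp => (hprime e he U hU p hp).one_lt.le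
  unfold RR at hr
  rw [Finset.mem_filter, Finset.mem_product, Finset.mem_Icc, Finset.mem_Icc] at hr
  obtain ⟨⟨⟨c1, c2⟩, c3, c4⟩, c5, c6, -⟩ := hr
  simp only at c1 c2 c3 c4 c5 c6
  -- the coefficients
  set Z := Zs P X τ κ s s' r₂ r₃ U U' with hZ
  set N := Nw P.l X (pr s.1) with hN
  set R1 := 4 * N / (pr s.2.1 * r₂) with hR1
  set R4 := 4 * N / (pr s.2.2 * r₃) with hR4
  have hZmem : ∀ r ∈ Z, (1 ≤ r.1 ∧ r.1 ≤ R1) ∧ (1 ≤ r.2 ∧ r.2 ≤ R4) ∧
      (1 < r.1 ∧ 1 < r.2 ∧ Rough (zz X) r.1 ∧ Rough (zz X) r.2) ∧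
      ((∀ p ∈ U, (p : ℤ) ∣ al τ s r₂ * r.1 + be τ s r₃ * r.2) ∧
        ∀ p ∈ PQ P.l (zz X), p ∉ U → ¬ (p : ℤ) ∣ al τ s r₂ * r.1 + be τ s r₃ * r.2) ∧
      ((∀ p ∈ U', (p : ℤ) ∣ al' τ κ s' r₃ * r.1 + be' τ κ s' r₂ * r.2) ∧
        ∀ p ∈ PQ P.l (zz X), p ∉ U' → ¬ (p : ℤ) ∣ al' τ κ s' r₃ * r.1 + be' τ κ s' r₂ * r.2) := by
    intro r hr
    rw [hZ, Zs, Finset.mem_filter, Finset.mem_product, Finset.mem_Icc, Finset.mem_Icc] at hr
    obtain ⟨⟨h1, h2⟩, h3, h4, h5⟩ := hr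
    exact ⟨h1, h2, h3, h4, h5⟩
  have hmain0 : (0 : ℝ) ≤ Ca * Cb * LL X ^ 12 * (X / Real.log X ^ 4 * (iw (Mu s) / (r₂ * r₃)) * iw (U ∪ U')) := by
    have := D4_iw_nonneg (Mu s)
    have := D4_iw_nonneg (U ∪ U')
    positivity
  rcases Z.eq_empty_or_nonempty with he | ⟨r₀, hr₀⟩
  · rw [he, Finset.card_empty, Nat.cast_zero]
    split_ifs
    · exact hmain0
    · exact le_rfl
  · obtain ⟨g1, g2, ⟨g3, g4, g5, g6⟩, ⟨g7, g8⟩, g9, g10⟩ := hZmem r₀ hr₀
    have hzR1 : zz X ≤ R1 := by have := D4_lt_of_rough g5 g3; omega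
    have hzR4 : zz X ≤ R4 := by have := D4_lt_of_rough g6 g4; omega
    have hUp : ∀ p ∈ U, p.Prime ∧ 2 < p ∧ p ≤ zz X := by
      intro p hp
      have h1 := hPQ p ((hB3 P.b hbA U hU).2.1 p hp).2
      exact ⟨h1.2, by omega, h1.1.2⟩
    have hUp' : ∀ p ∈ U', p.Prime ∧ 2 < p ∧ p ≤ zz X := by
      intro p hp
      have h1 := hPQ p ((hB3 P.b hbA U' hU').2.1 p hp).2
      exact ⟨h1.2, by omega, h1.1.2⟩
    have hκA : (if κ then eB τ * gB τ else eA τ * gA τ) = 1 ∨ (if κ then eB τ * gB τ else eA τ * gA τ) = -1 ∨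
        (if κ then eB τ * gB τ else eA τ * gA τ) = 2 ∨ (if κ then eB τ * gB τ else eA τ * gA τ) = -2 := by
      split_ifs
      · exact D4_cB τ
      · exact D4_cA τ
    have hκB : (if κ then eA τ * gA τ else eB τ * gB τ) = 1 ∨ (if κ then eA τ * gA τ else eB τ * gB τ) = -1 ∨
        (if κ then eA τ * gA τ else eB τ * gB τ) = 2 ∨ (if κ then eA τ * gA τ else eB τ * gB τ) = -2 := by
      split_ifs
      · exact D4_cA τ
      · exact D4_cB τ
    have hUbe : ∀ p ∈ U, ¬ (p : ℤ) ∣ be τ s r₃ := by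
      intro p hp
      obtain ⟨q1, q2, q3⟩ := hUp p hp
      exact D4_not_dvd (hprime P.b hbA _ a2) (hprime P.b hbA _ a3) a6 (D4_cA τ) (D4_cB τ) q1 q2 q3 c5 c6 g5
        (g7 p hp)
    have hUbe' : ∀ p ∈ U', ¬ (p : ℤ) ∣ be' τ κ s' r₂ := by
      intro p hp
      obtain ⟨q1, q2, q3⟩ := hUp' p hp
      exact D4_not_dvd (hprime P.b hbA _ b2) (hprime P.b hbA _ b3) b6 hκA hκB q1 q2 q3 c6 c5 g5
        (g9 p hp)
    -- the condition
    have hcond : ∀ p : ℕ, p ∈ U ∩ U' → (p : ℤ) ∣ De τ κ s s' r₂ r₃ := by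
      intro p hp
      rw [Finset.mem_inter] at hp
      obtain ⟨q1, q2, q3⟩ := hUp p hp.1
      have h1 := g7 p hp.1
      have h2 := g9 p hp.2
      have h3 : (p : ℤ) ∣ De τ κ s s' r₂ r₃ * r₀.1 := by
        have h4 := dvd_sub (h1.mul_left (be' τ κ s' r₂)) (h2.mul_left (be τ s r₃))
        have e : be' τ κ s' r₂ * (al τ s r₂ * r₀.1 + be τ s r₃ * r₀.2) -
            be τ s r₃ * (al' τ κ s' r₃ * r₀.1 + be' τ κ s' r₂ * r₀.2) = De τ κ s s' r₂ r₃ * r₀.1 := by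
          unfold De
          ring
        rwa [e] at h4
      rcases (Nat.prime_iff_prime_int.1 q1).dvd_or_dvd h3 with h4 | h4
      · exact h4
      · have h5 := g5 p q1 (Int.natCast_dvd_natCast.1 h4)
        omega
    rw [if_pos hcond]
    -- counting
    set S1 : Finset ℕ := Z.image Prod.fst with hS1
    have hS1card := hDa R1 hzR1 S1 (by
      intro r hr
      rw [hS1, Finset.mem_image] at hr
      obtain ⟨x, hx, rfl⟩ := hr
      obtain ⟨h1, -, h3, -⟩ := hZmem x hx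
      exact ⟨h1.1, h1.2, h3.2.2.1⟩)
    have hNX : 4 * N ≤ X := by
      have h1 := (hC0 s.1 a1).2.2.1
      rw [← hN] at h1
      have h2 : 1 ≤ P.l * pr s.1 := Nat.mul_pos P.hl.pos (hpr1 P.a haA _ a1)
      have h3 : 8 * N ^ 2 ≤ X := by
        calc 8 * N ^ 2 ≤ 8 * N ^ 2 * (P.l * pr s.1) := Nat.le_mul_of_pos_right _ h2
          _ = 8 * P.l * pr s.1 * N ^ 2 := by ring
          _ ≤ X := h1
      rcases Nat.eq_zero_or_pos N with h4 | h4
      · omega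
      · nlinarith
    have hR1X : R1 ≤ X := (Nat.div_le_self _ _).trans hNX
    have hfib : ∀ r₁ ∈ S1, (#(Z.filter fun x => x.1 = r₁) : ℝ) ≤
        Cb * R4 * iw (U ∪ U') * (LL X ^ 3 / Real.log X) ^ 3 := by
      intro r₁ hr₁
      rw [hS1, Finset.mem_image] at hr₁
      obtain ⟨x, hx, rfl⟩ := hr₁
      obtain ⟨h1, -, h3, -⟩ := hZmem x hx
      have hb := hDb R4 x.1 (al τ s r₂) (be τ s r₃) (al' τ κ s' r₃) (be' τ κ s' r₂) U U' hzR4 h1.1
        (h1.2.trans hR1X) h3.2.2.1 hU hU'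
        (D4_coef_ne (D4_cA τ) (hpr1 P.b hbA _ a2) c1) (D4_coef_ne (D4_cB τ) (hpr1 P.b hbA _ a3) c3)
        (D4_coef_ne hκA (hpr1 P.b hbA _ b2) c3) (D4_coef_ne hκB (hpr1 P.b hbA _ b3) c1) hDe
        (D4_coef_bound (D4_cA τ) (by linarith) (hprX P.b hbA _ a2) c2)
        (D4_coef_bound (D4_cB τ) (by linarith) (hprX P.b hbA _ a3) c4)
        (D4_coef_bound hκA (by linarith) (hprX P.b hbA _ b2) c4)
        (D4_coef_bound hκB (by linarith) (hprX P.b hbA _ b3) c2) hUbe hUbe'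
      refine le_trans ?_ hb
      rw [Nat.cast_le]
      refine Finset.card_le_card_of_injOn Prod.snd ?_ ?_
      · intro y hy
        rw [Finset.mem_coe, Finset.mem_filter] at hy
        obtain ⟨k1, k2, k3, k4, k5⟩ := hZmem y hy.1
        rw [hy.2] at k4 k5
        rw [Finset.mem_coe, Finset.mem_filter, Finset.mem_Icc]
        exact ⟨k2, k3.2.2.2, k4, k5⟩
      · intro y hy y' hy' hyy'
        rw [Finset.mem_coe, Finset.mem_filter] at hy hy'
        exact Prod.ext (hy.2.trans hy'.2.symm) hyy'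
    have hcount : (#Z : ℝ) ≤ #S1 * (Cb * R4 * iw (U ∪ U') * (LL X ^ 3 / Real.log X) ^ 3) := by
      have h1 : #Z = ∑ r₁ ∈ S1, #(Z.filter fun x => x.1 = r₁) :=
        Finset.card_eq_sum_card_image Prod.fst Z
      rw [h1]
      push_cast
      refine (Finset.sum_le_sum hfib).trans ?_
      rw [Finset.sum_const, nsmul_eq_mul]
    have hiwU := D4_iw_nonneg (U ∪ U')
    have hfac : 0 ≤ Cb * R4 * iw (U ∪ U') * (LL X ^ 3 / Real.log X) ^ 3 := by positivity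
    refine hcount.trans ((mul_le_mul_of_nonneg_right hS1card hfac).trans ?_)
    -- the product of the ranges
    have hu := hpr1 P.b hbA _ a2
    have hu' := hpr1 P.b hbA _ a3
    have hw := hpr1 P.a haA _ a1
    have huR : (0 : ℝ) < pr s.2.1 := by exact_mod_cast hu
    have huR' : (0 : ℝ) < pr s.2.2 := by exact_mod_cast hu'
    have hwR : (0 : ℝ) < pr s.1 := by exact_mod_cast hw
    have hr2R : (0 : ℝ) < r₂ := by exact_mod_cast c1
    have hr3R : (0 : ℝ) < r₃ := by exact_mod_cast c3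
    have hiwMu : iw (Mu s) = 1 / (pr s.1 * pr s.2.1 * pr s.2.2) := by
      unfold Mu
      rw [D4_iw_union (Finset.disjoint_union_left.2 ⟨a5, a6⟩), D4_iw_union a4, D4b_iw, D4b_iw, D4b_iw]
      field_simp
    have hRR : (R1 : ℝ) * R4 ≤ X * (iw (Mu s) / (r₂ * r₃)) := by
      have h1 : (R1 : ℝ) ≤ 4 * N / (pr s.2.1 * r₂) := by
        rw [hR1]
        refine Nat.cast_div_le.trans ?_
        push_cast
        exact le_rfl
      have h4 : (R4 : ℝ) ≤ 4 * N / (pr s.2.2 * r₃) := by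
        rw [hR4]
        refine Nat.cast_div_le.trans ?_
        push_cast
        exact le_rfl
      have h5 : (16 : ℝ) * N ^ 2 * pr s.1 ≤ X := by
        have h6 := (hC0 s.1 a1).2.2.1
        rw [← hN] at h6
        have h7 : 16 * N ^ 2 * pr s.1 ≤ X := by
          calc 16 * N ^ 2 * pr s.1 = 8 * 2 * pr s.1 * N ^ 2 := by ring
            _ ≤ 8 * P.l * pr s.1 * N ^ 2 := by
              have := P.hl3
              exact Nat.mul_le_mul_right _ (Nat.mul_le_mul_right _ (Nat.mul_le_mul_left _ (by omega)))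
            _ ≤ X := h6
        exact_mod_cast h7
      calc (R1 : ℝ) * R4 ≤ (4 * N / (pr s.2.1 * r₂)) * (4 * N / (pr s.2.2 * r₃)) :=
            mul_le_mul h1 h4 (Nat.cast_nonneg _) (by positivity)
        _ = (16 * N ^ 2 * pr s.1) * (iw (Mu s) / (r₂ * r₃)) := by
            rw [hiwMu]
            field_simp
            ring
        _ ≤ X * (iw (Mu s) / (r₂ * r₃)) := by
            refine mul_le_mul_of_nonneg_right h5 ?_
            have := D4_iw_nonneg (Mu s)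
            positivity
    have hLL11 : LL X ^ 11 ≤ LL X ^ 12 := pow_le_pow_right₀ hLL1 (by norm_num)
    calc Ca * R1 * (LL X ^ 2 / Real.log X) * (Cb * R4 * iw (U ∪ U') * (LL X ^ 3 / Real.log X) ^ 3)
        = (Ca * Cb * (iw (U ∪ U') / Real.log X ^ 4)) * LL X ^ 11 * (R1 * R4) := by
          field_simp
      _ ≤ (Ca * Cb * (iw (U ∪ U') / Real.log X ^ 4)) * LL X ^ 12 * (X * (iw (Mu s) / (r₂ * r₃))) := by
          refine mul_le_mul (mul_le_mul_of_nonneg_left hLL11 (by positivity)) hRR (by positivity) (by positivity)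
      _ = Ca * Cb * LL X ^ 12 * (X / Real.log X ^ 4 * (iw (Mu s) / (r₂ * r₃)) * iw (U ∪ U')) := by
          ring

end SP15
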