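import Pool.Agent.LibSP15.Defs2
import Pool.Agent.LibSP15.B7
import Pool.Agent.LibSP15.B3
import Pool.Agent.LibSP15.E1

/-!
# SP15, row D5 (size M)

PLAN. Group by G = u.1 ∩ u.2 (⊆ primes > yy dividing D: at most log(X^20)/log 2 ≤ yy of them): iw(u.1 ∪ u.2) = iw u.1 iw u.2 pr G; sum ≤ ∑_G pr G (∑_{u ⊇ G} iw u)² ≤ C² Xi² ∑_G iw G (B7 second part with e = b) ≤ C² Xi² ∏_{p | D, p > yy} (1+1/p) ≤ C² e Xi².
-/

set_option autoImplicit false

namespace SP15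

open Finset Filter

theorem D5_card_primes {M : ℤ} (hM : M ≠ 0) {B : ℝ} (h : |(M : ℝ)| ≤ B) (D : Finset ℕ)
    (hD : ∀ p ∈ D, p.Prime ∧ (p : ℤ) ∣ M) : (#D : ℝ) * Real.log 2 ≤ Real.log B := by
  have h1 : ∏ p ∈ D, p ∣ M.natAbs := by
    apply Finset.prod_primes_dvd
    · intro p hp
      exact (hD p hp).1.prime
    · intro p hp
      exact Int.natCast_dvd.1 (hD p hp).2
  have h2 : 2 ^ #D ≤ ∏ p ∈ D, p := by
    rw [← Finset.prod_const]
    exact Finset.prod_le_prod' fun p hp => (hD p hp).1.two_le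
  have h3 : (2 : ℝ) ^ #D ≤ B := by
    have h4 : 2 ^ #D ≤ M.natAbs := h2.trans (Nat.le_of_dvd (Int.natAbs_pos.2 hM) h1)
    have h5 : ((2 ^ #D : ℕ) : ℝ) ≤ (M.natAbs : ℝ) := by exact_mod_cast h4
    rw [Nat.cast_natAbs, Int.cast_abs] at h5
    push_cast at h5
    exact h5.trans h
  have h6 := Real.log_le_log (by positivity) h3
  rwa [Real.log_pow] at h6

theorem D5_iw_nonneg (U : Finset ℕ) : 0 ≤ iw U := by
  unfold iw
  exact Finset.prod_nonneg fun p _ => by positivity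

theorem D5_iw_pr {G : Finset ℕ} (h : ∀ p ∈ G, 1 ≤ p) : (pr G : ℝ) * iw G = 1 := by
  unfold pr iw
  push_cast
  rw [← Finset.prod_mul_distrib]
  refine Finset.prod_eq_one fun p hp => ?_
  have : (p : ℝ) ≠ 0 := by
    have := h p hp
    positivity
  exact mul_inv_cancel₀ this

open Classical in
theorem D5_Y (P : Par) : ∃ C : ℝ, 1 ≤ C ∧ ∀ᶠ X : ℕ in atTop, ∀ D : ℤ, D ≠ 0 → |(D : ℝ)| ≤ (X : ℝ) ^ 20 →
    ∑ u ∈ (Reg P X P.b ×ˢ Reg P X P.b).filter (fun u => ∀ p : ℕ, p ∈ u.1 ∩ u.2 → (p : ℤ) ∣ D), iw (u.1 ∪ u.2) ≤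
      C * Xi P X ^ 2 := by
  obtain ⟨C₀, hC₀, hB7⟩ := B7_reg_le P P.b P.hbT
  obtain ⟨C₂, hC₂, hE1⟩ := E1_scales P
  refine ⟨C₀ ^ 2 * 3, by nlinarith, ?_⟩
  filter_upwards [hB7, hE1, B3_size P] with X hB hE hB3
  intro D hD hDX
  have hbA : P.b ≤ P.A := by unfold Par.A; omega
  have e1 := hE.1
  have hlx : 0 < Real.log X := by
    by_contra h0
    have : LL X ≤ 0 := by
      unfold LL
      rcases le_or_gt (Real.log X) 0 with h1 | h1
      · have : Real.log X = 0 := le_antisymm h1 (Real.log_natCast_nonneg X)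
        rw [this, Real.log_zero]
      · exact absurd h1 h0
    linarith
  have hlx2 : (100 : ℝ) ≤ Real.log X := by
    have h1 := Real.log_le_sub_one_of_pos hlx
    unfold LL at e1
    linarith
  set E : Finset ℕ := (Icc 1 (zz X)).filter (fun p => (p.Prime ∧ (p : ℤ) ∣ D) ∧ yy X < p) with hE'
  have hPQ : ∀ p, p ∈ PQ P.l (zz X) → (3 ≤ p ∧ p ≤ zz X) ∧ p.Prime := by
    intro p hp
    unfold PQ at hp
    rw [Finset.mem_filter, Finset.mem_Icc] at hp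
    exact ⟨hp.1, hp.2.1⟩
  have hUp : ∀ U ∈ Reg P X P.b, ∀ p ∈ U, yy X < p ∧ p.Prime ∧ p ≤ zz X := by
    intro U hU p hp
    obtain ⟨h1, h2⟩ := (hB3 P.b hbA U hU).2.1 p hp
    exact ⟨h1, (hPQ p h2).2, (hPQ p h2).1.2⟩
  have hmap : ∀ u ∈ (Reg P X P.b ×ˢ Reg P X P.b).filter (fun u => ∀ p : ℕ, p ∈ u.1 ∩ u.2 → (p : ℤ) ∣ D),
      u.1 ∩ u.2 ∈ E.powerset := by
    intro u hu
    rw [Finset.mem_filter, Finset.mem_product] at hu
    rw [Finset.mem_powerset]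
    intro p hp
    obtain ⟨h1, h2, h3⟩ := hUp _ hu.1.1 p (Finset.mem_inter.1 hp).1
    rw [hE', Finset.mem_filter, Finset.mem_Icc]
    exact ⟨⟨h2.one_lt.le, h3⟩, ⟨h2, hu.2 p hp⟩, h1⟩
  rw [← Finset.sum_fiberwise_of_maps_to hmap]
  -- one set `G`
  have hG : ∀ G ∈ E.powerset, ∑ u ∈ ((Reg P X P.b ×ˢ Reg P X P.b).filter
      (fun u => ∀ p : ℕ, p ∈ u.1 ∩ u.2 → (p : ℤ) ∣ D)) with u.1 ∩ u.2 = G, iw (u.1 ∪ u.2) ≤
      C₀ ^ 2 * Xi P X ^ 2 * iw G := by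
    intro G hG
    rw [Finset.mem_powerset] at hG
    have hGp : ∀ p ∈ G, 1 ≤ p := by
      intro p hp
      have := hG hp
      rw [hE', Finset.mem_filter, Finset.mem_Icc] at this
      exact this.1.1
    have hprG := D5_iw_pr hGp
    have hprG0 : (0 : ℝ) ≤ pr G := Nat.cast_nonneg _
    have hterm : ∀ u ∈ ((Reg P X P.b ×ˢ Reg P X P.b).filter
        (fun u => ∀ p : ℕ, p ∈ u.1 ∩ u.2 → (p : ℤ) ∣ D)).filter (fun u => u.1 ∩ u.2 = G),
        iw (u.1 ∪ u.2) = pr G * (iw u.1 * iw u.2) := by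
      intro u hu
      rw [Finset.mem_filter] at hu
      have h1 : iw (u.1 ∪ u.2) * iw (u.1 ∩ u.2) = iw u.1 * iw u.2 := by
        unfold iw
        exact Finset.prod_union_inter
      rw [hu.2] at h1
      rw [← h1]
      calc iw (u.1 ∪ u.2) = iw (u.1 ∪ u.2) * (pr G * iw G) := by rw [hprG, mul_one]
        _ = pr G * (iw (u.1 ∪ u.2) * iw G) := by ring
    rw [Finset.sum_congr rfl hterm]
    have hsub : ((Reg P X P.b ×ˢ Reg P X P.b).filter
        (fun u => ∀ p : ℕ, p ∈ u.1 ∩ u.2 → (p : ℤ) ∣ D)).filter (fun u => u.1 ∩ u.2 = G) ⊆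
        ((Reg P X P.b).filter fun U => G ⊆ U) ×ˢ ((Reg P X P.b).filter fun U => G ⊆ U) := by
      intro u hu
      rw [Finset.mem_filter, Finset.mem_filter, Finset.mem_product] at hu
      obtain ⟨⟨⟨h1, h2⟩, -⟩, h3⟩ := hu
      rw [Finset.mem_product, Finset.mem_filter, Finset.mem_filter, ← h3]
      exact ⟨⟨h1, Finset.inter_subset_left⟩, ⟨h2, Finset.inter_subset_right⟩⟩
    refine (Finset.sum_le_sum_of_subset_of_nonneg hsub fun u _ _ =>
      mul_nonneg hprG0 (mul_nonneg (D5_iw_nonneg _) (D5_iw_nonneg _))).trans ?_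
    rw [← Finset.mul_sum, Finset.sum_product, ← Finset.sum_mul_sum]
    have h1 := hB.2 G
    have h0 : 0 ≤ ∑ U ∈ (Reg P X P.b).filter (fun U => G ⊆ U), iw U :=
      Finset.sum_nonneg fun U _ => D5_iw_nonneg U
    have h2 := mul_le_mul h1 h1 h0 (h0.trans h1)
    refine (mul_le_mul_of_nonneg_left h2 hprG0).trans (le_of_eq ?_)
    unfold Xi
    calc (pr G : ℝ) * (C₀ * iw G * ((P.T : ℝ) ^ P.b / (P.b).factorial) ^ HH P X *
          (C₀ * iw G * ((P.T : ℝ) ^ P.b / (P.b).factorial) ^ HH P X))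
        = C₀ ^ 2 * (((P.T : ℝ) ^ P.b / (P.b).factorial) ^ HH P X) ^ 2 * (iw G * (pr G * iw G)) := by ring
      _ = _ := by rw [hprG, mul_one]
  refine (Finset.sum_le_sum hG).trans ?_
  rw [← Finset.mul_sum]
  -- the sum over `G`
  have hyy : 40 * Real.log X ≤ yy X := by
    unfold yy
    have h7 : (1 : ℝ) ≤ Real.log X ^ 8 := one_le_pow₀ (by linarith)
    calc 40 * Real.log X = 1 * (40 * Real.log X) := by ring
      _ ≤ Real.log X ^ 8 * (Real.log X * Real.log X) := by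
        refine mul_le_mul h7 (by nlinarith) (by positivity) (by positivity)
      _ = Real.log X ^ 10 := by ring
  have hyy0 : 0 < yy X := by
    unfold yy
    positivity
  have hX1 : (1 : ℝ) ≤ X := by
    have hX0 : X ≠ 0 := by
      rintro rfl
      rw [Nat.cast_zero, Real.log_zero] at hlx
      exact lt_irrefl _ hlx
    exact_mod_cast Nat.one_le_iff_ne_zero.2 hX0
  have hsum : ∑ p ∈ E, (p : ℝ)⁻¹ ≤ 1 := by
    have h1 : ∀ p ∈ E, (p : ℝ)⁻¹ ≤ (yy X)⁻¹ := by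
      intro p hp
      rw [hE', Finset.mem_filter] at hp
      exact inv_anti₀ hyy0 hp.2.2.le
    refine (Finset.sum_le_sum h1).trans ?_
    rw [Finset.sum_const, nsmul_eq_mul, ← div_eq_mul_inv, div_le_one hyy0]
    refine le_trans ?_ hyy
    have h2 := D5_card_primes hD hDX E (fun p hp => by
      rw [hE', Finset.mem_filter] at hp
      exact hp.2.1)
    rw [Real.log_pow] at h2
    have h3 : (0.5 : ℝ) ≤ Real.log 2 := by linarith [Real.log_two_gt_d9]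
    have h4 : (0 : ℝ) ≤ #E := Nat.cast_nonneg _
    push_cast at h2
    nlinarith
  have hexp : ∑ G ∈ E.powerset, iw G ≤ 3 := by
    have h1 : ∑ G ∈ E.powerset, iw G = ∏ p ∈ E, (1 + (p : ℝ)⁻¹) := by
      rw [Finset.prod_one_add]
      rfl
    rw [h1]
    calc ∏ p ∈ E, (1 + (p : ℝ)⁻¹) ≤ ∏ p ∈ E, Real.exp ((p : ℝ)⁻¹) := by
          refine Finset.prod_le_prod (fun p _ => by positivity) fun p _ => ?_
          have := Real.add_one_le_exp ((p : ℝ)⁻¹)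
          linarith
      _ = Real.exp (∑ p ∈ E, (p : ℝ)⁻¹) := (Real.exp_sum _ _).symm
      _ ≤ Real.exp 1 := Real.exp_le_exp.2 hsum
      _ ≤ 3 := by linarith [Real.exp_one_lt_d9]
  calc C₀ ^ 2 * Xi P X ^ 2 * ∑ G ∈ E.powerset, iw G ≤ C₀ ^ 2 * Xi P X ^ 2 * 3 :=
        mul_le_mul_of_nonneg_left hexp (by positivity)
    _ = C₀ ^ 2 * 3 * Xi P X ^ 2 := by ring

end SP15
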