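import Pool.Agent.LibSP15.Defs
import Pool.Agent.LibMaier.Mertens

/-!
# SP15, row P3 (size S)

PLAN. ∑_{r ∈ R} 1/r ≤ ∏_{z < p ≤ X} (1-1/p)⁻¹ (every r is a product of primes in (z, X]; `EulerProduct` / LibRD69.B0_smooth_le: sum of 1/m over m with all primes dividing l is
≤ ∏_{p | l} (1-1/p)⁻¹, take l = product of the primes in (z, X]), then mertens_third for z and X.
-/

set_option autoImplicit false

namespace SP15

open Finset Filter

/-- The homomorphism `n ↦ 1/n`. -/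
private noncomputable def P3_f : ℕ →* ℝ where
  toFun n := (n : ℝ)⁻¹
  map_one' := by simp
  map_mul' m n := by push_cast; rw [mul_inv]

private theorem P3_smooth_le (l : ℕ) (t : Finset ℕ)
    (ht : ∀ m ∈ t, m ≠ 0 ∧ ∀ p ∈ m.primeFactors, p ∈ l.primeFactors) :
    ∑ m ∈ t, (m : ℝ)⁻¹ ≤ ∏ p ∈ l.primeFactors, (1 - (p : ℝ)⁻¹)⁻¹ := by
  have h := EulerProduct.summable_and_hasSum_factoredNumbers_prod_filter_prime_geometric
    (f := P3_f) (fun {p} hp => by
      have h2 : (2 : ℝ) ≤ p := by exact_mod_cast hp.two_le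
      change ‖((p : ℝ))⁻¹‖ < 1
      rw [Real.norm_of_nonneg (by positivity)]
      exact inv_lt_one_of_one_lt₀ (by linarith)) l.primeFactors
  have h1 : l.primeFactors.filter Nat.Prime = l.primeFactors := by
    apply filter_true_of_mem
    intro p hp
    exact Nat.prime_of_mem_primeFactors hp
  rw [h1] at h
  have h2 : ∀ m : Nat.factoredNumbers l.primeFactors, 0 ≤ P3_f m := fun m => by
    change 0 ≤ ((m : ℕ) : ℝ)⁻¹
    positivity
  have hmem : ∀ m ∈ t, m ∈ Nat.factoredNumbers l.primeFactors := by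
    intro m hm
    obtain ⟨h3, h4⟩ := ht m hm
    refine ⟨h3, fun p hp => h4 p ?_⟩
    rw [Nat.mem_primeFactors]
    exact ⟨Nat.prime_of_mem_primeFactorsList hp, Nat.dvd_of_mem_primeFactorsList hp, h3⟩
  have h5 := sum_le_hasSum (t.attach.map ⟨fun m => (⟨m.1, hmem m.1 m.2⟩ :
      Nat.factoredNumbers l.primeFactors), fun a b hab => by
        have := congrArg Subtype.val hab
        exact Subtype.ext this⟩) (fun m _ => h2 m) h.2
  rw [sum_map] at h5
  have h6 : ∑ m ∈ t, (m : ℝ)⁻¹ = ∑ m ∈ t.attach, ((m.1 : ℕ) : ℝ)⁻¹ :=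
    (sum_attach t (fun m => (m : ℝ)⁻¹)).symm
  rw [h6]
  exact h5

/-- the Mertens product -/
private noncomputable def P3_V (z : ℕ) : ℝ :=
  ∏ p ∈ (Finset.range (z + 1)).filter Nat.Prime, (1 - 1 / (p : ℝ))

private theorem P3_factor_pos {p : ℕ} (hp : p.Prime) : 0 < 1 - 1 / (p : ℝ) := by
  have h2 : (2 : ℝ) ≤ p := by exact_mod_cast hp.two_le
  have h3 : 1 / (p : ℝ) < 1 := by
    rw [div_lt_one (by linarith)]
    linarith
  linarith

private theorem P3_V_pos (z : ℕ) : 0 < P3_V z := by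
  unfold P3_V
  exact Finset.prod_pos fun p hp => P3_factor_pos (Finset.mem_filter.1 hp).2

theorem P3_rough_sum : ∃ C : ℝ, 1 ≤ C ∧ ∀ z X : ℕ, 2 ≤ z → z ≤ X → ∀ R : Finset ℕ,
    (∀ r ∈ R, 1 ≤ r ∧ r ≤ X ∧ Rough z r) → ∑ r ∈ R, 1 / (r : ℝ) ≤ C * (Real.log X / Real.log z) := by
  have hT : Tendsto (fun z : ℕ => P3_V z * Real.log z) atTop
      (nhds (Real.exp (-Real.eulerMascheroniConstant))) := Pool.Agent.LibMaier.mertens_third
  have hT' := hT.inv₀ (Real.exp_pos _).ne'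
  obtain ⟨K1, hK1⟩ := hT.bddAbove_range
  obtain ⟨K2, hK2⟩ := hT'.bddAbove_range
  have hK1' : ∀ z : ℕ, P3_V z * Real.log z ≤ K1 := fun z => hK1 ⟨z, rfl⟩
  have hK2' : ∀ z : ℕ, (P3_V z * Real.log z)⁻¹ ≤ K2 := fun z => hK2 ⟨z, rfl⟩
  refine ⟨max 1 (K1 * K2), le_max_left _ _, ?_⟩
  intro z X hz hzX R hR
  have hlz : 0 < Real.log z := Real.log_pos (by exact_mod_cast (by omega : 1 < z))
  have hlX : 0 < Real.log X := Real.log_pos (by exact_mod_cast (by omega : 1 < X))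
  obtain ⟨P, hP⟩ : ∃ P, P = ((Finset.range (X + 1)).filter Nat.Prime) \
      ((Finset.range (z + 1)).filter Nat.Prime) := ⟨_, rfl⟩
  have hPp : ∀ p ∈ P, p.Prime := by
    intro p hp
    rw [hP, Finset.mem_sdiff, Finset.mem_filter] at hp
    exact hp.1.2
  have hl : (∏ p ∈ P, p).primeFactors = P := Nat.primeFactors_prod hPp
  have h1 := P3_smooth_le (∏ p ∈ P, p) R (by
    intro r hr
    obtain ⟨hr1, hrX, hrough⟩ := hR r hr
    refine ⟨by omega, fun p hp => ?_⟩
    rw [hl, hP, Finset.mem_sdiff, Finset.mem_filter, Finset.mem_filter, Finset.mem_range,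
      Finset.mem_range]
    have hpp := Nat.prime_of_mem_primeFactors hp
    have hpr := Nat.dvd_of_mem_primeFactors hp
    have h2 := hrough p hpp hpr
    have h3 := Nat.le_of_dvd (by omega) hpr
    exact ⟨⟨by omega, hpp⟩, fun h => by omega⟩)
  rw [hl] at h1
  have hsub : (Finset.range (z + 1)).filter Nat.Prime ⊆ (Finset.range (X + 1)).filter Nat.Prime := by
    intro p hp
    rw [Finset.mem_filter, Finset.mem_range] at hp ⊢
    exact ⟨by omega, hp.2⟩
  have hprod : (∏ p ∈ P, (1 - 1 / (p : ℝ))) * P3_V z = P3_V X := by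
    rw [hP]
    exact Finset.prod_sdiff hsub
  have hVz := P3_V_pos z
  have hVX := P3_V_pos X
  have h2 : ∏ p ∈ P, (1 - (p : ℝ)⁻¹)⁻¹ = P3_V z / P3_V X := by
    have h3 : ∏ p ∈ P, (1 - (p : ℝ)⁻¹)⁻¹ = (∏ p ∈ P, (1 - 1 / (p : ℝ)))⁻¹ := by
      rw [← Finset.prod_inv_distrib]
      refine Finset.prod_congr rfl fun p _ => ?_
      rw [one_div]
    have h4 : 0 < ∏ p ∈ P, (1 - 1 / (p : ℝ)) :=
      Finset.prod_pos fun p hp => P3_factor_pos (hPp p hp)
    rw [h3, ← hprod]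
    field_simp
  rw [h2] at h1
  have h5 : P3_V z / P3_V X = (P3_V z * Real.log z) * (P3_V X * Real.log X)⁻¹ *
      (Real.log X / Real.log z) := by
    field_simp
  have hK10 : 0 ≤ K1 := le_trans (by positivity) (hK1' z)
  have h6 : (P3_V z * Real.log z) * (P3_V X * Real.log X)⁻¹ ≤ K1 * K2 :=
    mul_le_mul (hK1' z) (hK2' X) (by positivity) hK10
  have h7 : 0 ≤ Real.log X / Real.log z := by positivity
  calc ∑ r ∈ R, 1 / (r : ℝ) = ∑ r ∈ R, (r : ℝ)⁻¹ := by simp only [one_div]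
    _ ≤ P3_V z / P3_V X := h1
    _ = (P3_V z * Real.log z) * (P3_V X * Real.log X)⁻¹ * (Real.log X / Real.log z) := h5
    _ ≤ (K1 * K2) * (Real.log X / Real.log z) := mul_le_mul_of_nonneg_right h6 h7
    _ ≤ _ := mul_le_mul_of_nonneg_right (le_max_right _ _) h7

end SP15
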