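import Pool.Agent.LibSP15.Defs2
import Pool.Agent.LibSP15.D4a
import Pool.Agent.LibSP15.P3
import Pool.Agent.LibSP15.E1
import Pool.Agent.LibSP15.E2
import Pool.Agent.LibSP15.B3

/-!
# SP15, row D6 (size M)

PLAN. The pair (1,1) is in RR iff 1/64 ≤ Rat ≤ 64. Others: r.1 > 1 (then r.1 > zz) or r.2 > 1. For fixed r.2, r.1 ∈ [Q, 64 Q] with Q = r.2/(8 √Rat): if 64 Q ≥ zz, D4a with R = ⌊64Q⌋: ∑ 1/r.1 ≤ (1/Q) C 64 Q LL²/log X; if 64 Q < zz no r.1 > 1. Then ∑_{r.2} 1/r.2 ≤ C log X/log zz ≤ C LL (P3). Same with the roles exchanged.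
-/

set_option autoImplicit false

namespace SP15

open Finset Filter

theorem D6_fiber {A : Type*} [DecidableEq A] (T : Finset A) (f g : A → ℕ)
    (hinj : ∀ x ∈ T, ∀ y ∈ T, f x = f y → g x = g y → x = y) (K : ℝ)
    (h : ∀ a ∈ T.image f, ∑ b ∈ (T.filter (fun x => f x = a)).image g, 1 / (b : ℝ) ≤ K) :
    ∑ x ∈ T, 1 / ((f x : ℝ) * g x) ≤ (∑ a ∈ T.image f, 1 / (a : ℝ)) * K := by
  rw [← Finset.sum_fiberwise_of_maps_to (s := T) (t := T.image f) (g := f)
    (fun x hx => Finset.mem_image_of_mem f hx), Finset.sum_mul]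
  refine Finset.sum_le_sum fun a ha => ?_
  have h1 := h a ha
  rw [Finset.sum_image (by
    intro x hx y hy hxy
    rw [Finset.mem_coe, Finset.mem_filter] at hx hy
    exact hinj x hx.1 y hy.1 (hx.2.trans hy.2.symm) hxy)] at h1
  calc ∑ x ∈ T with f x = a, 1 / ((f x : ℝ) * g x) = 1 / (a : ℝ) * ∑ x ∈ T with f x = a, 1 / (g x : ℝ) := by
        rw [Finset.mul_sum]
        refine Finset.sum_congr rfl fun x hx => ?_
        rw [(Finset.mem_filter.1 hx).2, one_div_mul_one_div]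
    _ ≤ 1 / (a : ℝ) * K := mul_le_mul_of_nonneg_left h1 (by positivity)

theorem D6_lt_of_rough {z r : ℕ} (h : Rough z r) (hr : 1 < r) : z < r := by
  obtain ⟨p, hp, hpr⟩ := Nat.exists_prime_and_dvd hr.ne'
  exact lt_of_lt_of_le (h p hp hpr) (Nat.le_of_dvd (by omega) hpr)

open Classical in
theorem D6_R (P : Par) : ∃ C : ℝ, 1 ≤ C ∧ ∀ᶠ X : ℕ in atTop, ∀ s s' : Sp, s ∈ Spl P X → s' ∈ Spl P X →
    ∑ r ∈ RR X s s', 1 / ((r.1 : ℝ) * r.2) ≤
      (if 1 / 64 ≤ Rat s s' ∧ Rat s s' ≤ 64 then 1 else 0) + C * LL X ^ 3 / Real.log X := by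
  obtain ⟨Ca, hCa, hDa⟩ := D4a_rough P
  obtain ⟨Cp, hCp, hP3⟩ := P3_rough_sum
  obtain ⟨C₂, hC₂, hE1⟩ := E1_scales P
  refine ⟨2 * (64 * Ca * (2000 * Cp)), by nlinarith, ?_⟩
  filter_upwards [hDa, hE1, E2_powers, B3_size P] with X hDa hE hE2 hB3
  intro s s' hs hs'
  obtain ⟨e1, e2, -, -, e5, -⟩ := hE
  obtain ⟨-, -, f3, f4, -, -⟩ := hE2
  have hLL0 : 0 < LL X := by linarith
  have hlx : 0 < Real.log X := by
    by_contra h0
    have : LL X ≤ 0 := by
      unfold LL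
      rcases le_or_gt (Real.log X) 0 with h1 | h1
      · have : Real.log X = 0 := le_antisymm h1 (Real.log_natCast_nonneg X)
        rw [this, Real.log_zero]
      · exact absurd h1 h0
    linarith
  have hX1 : (1 : ℝ) ≤ X := by
    have hX0 : X ≠ 0 := by
      rintro rfl
      rw [Nat.cast_zero, Real.log_zero] at hlx
      exact lt_irrefl _ hlx
    exact_mod_cast Nat.one_le_iff_ne_zero.2 hX0
  have hzX : zz X ≤ X := by
    have h3 : (zz X : ℝ) ≤ X := by
      refine f4.trans ?_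
      nth_rewrite 2 [← Real.rpow_one (X : ℝ)]
      exact Real.rpow_le_rpow_of_exponent_le hX1 (by norm_num)
    exact_mod_cast h3
  have hz2 : 2 ≤ zz X := by omega
  have hlz : 0 < Real.log (zz X) := lt_of_lt_of_le (by positivity) e5
  -- positivity of `Rat`
  have hbA : P.b ≤ P.A := by unfold Par.A; omega
  have hpr : ∀ U ∈ Reg P X P.b, (0 : ℝ) < pr U := by
    intro U hU
    have h1 : 0 < pr U := by
      unfold pr
      refine Finset.prod_pos fun p hp => ?_
      have := ((hB3 P.b hbA U hU).2.1 p hp).2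
      unfold PQ at this
      rw [Finset.mem_filter] at this
      exact this.2.1.pos
    exact_mod_cast h1
  have hRat : 0 < Rat s s' := by
    unfold Spl SplR at hs hs'
    rw [Finset.mem_filter, Finset.mem_product, Finset.mem_product] at hs hs'
    unfold Rat
    have h1 := hpr _ hs.1.2.1
    have h2 := hpr _ hs.1.2.2
    have h3 := hpr _ hs'.1.2.1
    have h4 := hpr _ hs'.1.2.2
    positivity
  set q := Real.sqrt (Rat s s') with hq
  have hq0 : 0 < q := Real.sqrt_pos.2 hRat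
  have hq2 : Rat s s' = q ^ 2 := (Real.sq_sqrt hRat.le).symm
  set K : ℝ := 64 * Ca * (LL X ^ 2 / Real.log X) with hK
  have hK0 : 0 ≤ K := by positivity
  -- one variable in a short range
  have hshort : ∀ (Q : ℝ) (S : Finset ℕ), 0 < Q → (∀ r ∈ S, 1 < r ∧ Rough (zz X) r ∧ Q ≤ r ∧ (r : ℝ) ≤ 64 * Q) →
      ∑ r ∈ S, 1 / (r : ℝ) ≤ K := by
    intro Q S hQ hS
    rcases S.eq_empty_or_nonempty with he | ⟨r₀, hr₀⟩
    · rw [he, Finset.sum_empty]
      exact hK0
    · obtain ⟨g1, g2, g3, g4⟩ := hS r₀ hr₀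
      have hfl : r₀ ≤ ⌊64 * Q⌋₊ := Nat.le_floor g4
      have hz := D6_lt_of_rough g2 g1
      have h1 := hDa ⌊64 * Q⌋₊ (by omega) S (by
        intro r hr
        obtain ⟨k1, k2, k3, k4⟩ := hS r hr
        exact ⟨k1.le, Nat.le_floor k4, k2⟩)
      have h2 : ∀ r ∈ S, 1 / (r : ℝ) ≤ 1 / Q := fun r hr => one_div_le_one_div_of_le hQ (hS r hr).2.2.1
      refine (Finset.sum_le_sum h2).trans ?_
      rw [Finset.sum_const, nsmul_eq_mul]
      have h3 : ((⌊64 * Q⌋₊ : ℕ) : ℝ) ≤ 64 * Q := Nat.floor_le (by positivity)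
      calc (#S : ℝ) * (1 / Q) ≤ (Ca * (⌊64 * Q⌋₊ : ℕ) * (LL X ^ 2 / Real.log X)) * (1 / Q) :=
            mul_le_mul_of_nonneg_right h1 (by positivity)
        _ ≤ (Ca * (64 * Q) * (LL X ^ 2 / Real.log X)) * (1 / Q) := by
            refine mul_le_mul_of_nonneg_right (mul_le_mul_of_nonneg_right (mul_le_mul_of_nonneg_left h3 (by linarith))
              (by positivity)) (by positivity)
        _ = K := by
            rw [hK]
            field_simp
  have hlog : Real.log X / Real.log (zz X) ≤ 2000 * LL X := by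
    rw [div_le_iff₀ hlz]
    have h1 : Real.log X = 2000 * LL X * (Real.log X / (2000 * LL X)) := by
      field_simp
    calc Real.log X = 2000 * LL X * (Real.log X / (2000 * LL X)) := h1
      _ ≤ _ := mul_le_mul_of_nonneg_left e5 (by positivity)
  have hsumr : ∀ S : Finset ℕ, (∀ r ∈ S, 1 ≤ r ∧ r ≤ X ∧ Rough (zz X) r) →
      ∑ r ∈ S, 1 / (r : ℝ) ≤ Cp * (2000 * LL X) := by
    intro S hS
    exact (hP3 (zz X) X hz2 hzX S hS).trans (mul_le_mul_of_nonneg_left hlog (by linarith))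
  have hmem : ∀ r ∈ RR X s s', (1 ≤ r.1 ∧ r.1 ≤ X) ∧ (1 ≤ r.2 ∧ r.2 ≤ X) ∧ Rough (zz X) r.1 ∧ Rough (zz X) r.2 ∧
      (r.2 : ℝ) ≤ 8 * (q * r.1) ∧ q * r.1 ≤ 8 * r.2 := by
    intro r hr
    unfold RR at hr
    rw [Finset.mem_filter, Finset.mem_product, Finset.mem_Icc, Finset.mem_Icc] at hr
    obtain ⟨⟨a1, a2⟩, a3, a4, a5, a6⟩ := hr
    refine ⟨a1, a2, a3, a4, ?_, ?_⟩
    · have h2 : (0 : ℝ) < r.2 := by exact_mod_cast a2.1
      have h1 : (0 : ℝ) < r.1 := by exact_mod_cast a1.1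
      rw [hq2, div_pow, mul_div_assoc'] at a5
      rw [le_div_iff₀ (by positivity)] at a5
      have h3 : (r.2 : ℝ) ^ 2 ≤ (8 * (q * r.1)) ^ 2 := by nlinarith
      exact le_of_sq_le_sq h3 (by positivity)
    · have h2 : (0 : ℝ) < r.2 := by exact_mod_cast a2.1
      have h1 : (0 : ℝ) < r.1 := by exact_mod_cast a1.1
      rw [hq2, div_pow, mul_div_assoc'] at a6
      rw [div_le_iff₀ (by positivity)] at a6
      have h3 : (q * r.1) ^ 2 ≤ (8 * (r.2 : ℝ)) ^ 2 := by nlinarith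
      exact le_of_sq_le_sq h3 (by positivity)
  -- the two parts
  have hB : ∑ r ∈ (RR X s s').filter (fun r => 1 < r.1), 1 / ((r.1 : ℝ) * r.2) ≤ Cp * (2000 * LL X) * K := by
    have h1 := D6_fiber ((RR X s s').filter (fun r => 1 < r.1)) Prod.snd Prod.fst
      (fun x _ y _ h h' => Prod.ext h' h) K (by
      intro m hm
      rw [Finset.mem_image] at hm
      obtain ⟨x, hx, rfl⟩ := hm
      have hx2 : (0 : ℝ) < x.2 := by
        have := (hmem x (Finset.mem_filter.1 hx).1).2.1.1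
        exact_mod_cast this
      refine hshort (x.2 / (8 * q)) _ (by positivity) ?_
      intro r hr
      rw [Finset.mem_image] at hr
      obtain ⟨y, hy, rfl⟩ := hr
      rw [Finset.mem_filter, Finset.mem_filter] at hy
      obtain ⟨⟨y1, y2⟩, y3⟩ := hy
      obtain ⟨-, -, k3, -, k5, k6⟩ := hmem y y1
      rw [y3] at k5 k6
      refine ⟨y2, k3, ?_, ?_⟩
      · rw [div_le_iff₀ (by positivity)]
        linarith
      · have : 64 * ((x.2 : ℝ) / (8 * q)) = 8 * x.2 / q := by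
          field_simp
          norm_num
        rw [this, le_div_iff₀ hq0]
        linarith)
    have h2 : ∑ r ∈ (RR X s s').filter (fun r => 1 < r.1), 1 / ((r.1 : ℝ) * r.2) =
        ∑ r ∈ (RR X s s').filter (fun r => 1 < r.1), 1 / ((r.2 : ℝ) * r.1) :=
      Finset.sum_congr rfl fun r _ => by rw [mul_comm]
    rw [h2]
    refine h1.trans (mul_le_mul_of_nonneg_right ?_ hK0)
    refine hsumr _ ?_
    intro r hr
    rw [Finset.mem_image] at hr
    obtain ⟨y, hy, rfl⟩ := hr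
    obtain ⟨-, k2, -, k4, -⟩ := hmem y (Finset.mem_filter.1 hy).1
    exact ⟨k2.1, k2.2, k4⟩
  have hD : ∑ r ∈ (RR X s s').filter (fun r => ¬ 1 < r.1 ∧ 1 < r.2), 1 / ((r.1 : ℝ) * r.2) ≤
      Cp * (2000 * LL X) * K := by
    have h1 := D6_fiber ((RR X s s').filter (fun r => ¬ 1 < r.1 ∧ 1 < r.2)) Prod.fst Prod.snd
      (fun x _ y _ h h' => Prod.ext h h') K (by
      intro m hm
      rw [Finset.mem_image] at hm
      obtain ⟨x, hx, rfl⟩ := hm
      have hx2 : (0 : ℝ) < x.1 := by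
        have := (hmem x (Finset.mem_filter.1 hx).1).1.1
        exact_mod_cast this
      refine hshort (q * x.1 / 8) _ (by positivity) ?_
      intro r hr
      rw [Finset.mem_image] at hr
      obtain ⟨y, hy, rfl⟩ := hr
      rw [Finset.mem_filter, Finset.mem_filter] at hy
      obtain ⟨⟨y1, y2⟩, y3⟩ := hy
      obtain ⟨-, -, -, k4, k5, k6⟩ := hmem y y1
      rw [y3] at k5 k6
      refine ⟨y2.2, k4, ?_, ?_⟩
      · rw [div_le_iff₀ (by norm_num)]
        linarith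
      · linarith)
    refine h1.trans (mul_le_mul_of_nonneg_right ?_ hK0)
    refine hsumr _ ?_
    intro r hr
    rw [Finset.mem_image] at hr
    obtain ⟨y, hy, rfl⟩ := hr
    obtain ⟨k1, -, k3, -⟩ := hmem y (Finset.mem_filter.1 hy).1
    exact ⟨k1.1, k1.2, k3⟩
  have hA : ∑ r ∈ (RR X s s').filter (fun r => ¬ 1 < r.1 ∧ ¬ 1 < r.2), 1 / ((r.1 : ℝ) * r.2) ≤
      (if 1 / 64 ≤ Rat s s' ∧ Rat s s' ≤ 64 then 1 else 0) := by
    have hsub : ∀ r ∈ (RR X s s').filter (fun r => ¬ 1 < r.1 ∧ ¬ 1 < r.2), r = (1, 1) := by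
      intro r hr
      rw [Finset.mem_filter] at hr
      obtain ⟨k1, k2, -⟩ := hmem r hr.1
      exact Prod.ext (by have := hr.2.1; have := k1.1; simp only; omega)
        (by have := hr.2.2; have := k2.1; simp only; omega)
    split_ifs with hc
    · refine (Finset.sum_le_sum_of_subset_of_nonneg (t := {((1, 1) : ℕ × ℕ)})
        (fun r hr => Finset.mem_singleton.2 (hsub r hr)) fun r _ _ => by positivity).trans ?_
      simp
    · rw [Finset.sum_eq_zero]
      intro r hr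
      exfalso
      apply hc
      have h1 := hsub r hr
      have h2 := (Finset.mem_filter.1 hr).1
      rw [h1] at h2
      unfold RR at h2
      rw [Finset.mem_filter] at h2
      obtain ⟨-, -, -, h3, h4⟩ := h2
      simp only [Nat.cast_one, div_one, one_pow, mul_one] at h3 h4
      exact ⟨h3, h4⟩
  have hsplit : ∑ r ∈ RR X s s', 1 / ((r.1 : ℝ) * r.2) =
      ∑ r ∈ (RR X s s').filter (fun r => 1 < r.1), 1 / ((r.1 : ℝ) * r.2) +
      (∑ r ∈ (RR X s s').filter (fun r => ¬ 1 < r.1 ∧ 1 < r.2), 1 / ((r.1 : ℝ) * r.2) +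
      ∑ r ∈ (RR X s s').filter (fun r => ¬ 1 < r.1 ∧ ¬ 1 < r.2), 1 / ((r.1 : ℝ) * r.2)) := by
    rw [← Finset.sum_filter_add_sum_filter_not (RR X s s') (fun r => 1 < r.1)]
    congr 1
    rw [← Finset.sum_filter_add_sum_filter_not ((RR X s s').filter (fun r => ¬ 1 < r.1)) (fun r => 1 < r.2),
      Finset.filter_filter, Finset.filter_filter]
  rw [hsplit]
  have hfin : Cp * (2000 * LL X) * K + Cp * (2000 * LL X) * K = 2 * (64 * Ca * (2000 * Cp)) * LL X ^ 3 / Real.log X := by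
    rw [hK]
    ring
  rw [← hfin]
  linarith

end SP15
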