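import Pool.Agent.LibSP15.Defs2
import Pool.Agent.LibSP15.B7

/-!
# SP15, row Q4 (size S)

PLAN. iw (Mu s) = iw W iw U iw U'; drop disjointness; B7 for e = a and e = b: C Th Xi².
-/

set_option autoImplicit false

namespace SP15

open Finset Filter

theorem Q4_iw (s : Sp) (h1 : Disjoint s.1 s.2.1) (h2 : Disjoint s.1 s.2.2) (h3 : Disjoint s.2.1 s.2.2) :
    iw (Mu s) = iw s.1 * iw s.2.1 * iw s.2.2 := by
  unfold iw Mu
  rw [prod_union (disjoint_union_left.2 ⟨h2, h3⟩), prod_union h1]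

theorem Q4_single (P : Par) : ∃ C : ℝ, 1 ≤ C ∧ ∀ᶠ X : ℕ in atTop,
    ∑ s ∈ Spl P X, iw (Mu s) ≤ C * (Th P X * Xi P X ^ 2) := by
  classical
  obtain ⟨Ca, hCa, ha⟩ := B7_reg_le P P.a P.haT
  obtain ⟨Cb, hCb, hb⟩ := B7_reg_le P P.b P.hbT
  refine ⟨Ca * (Cb * Cb), by nlinarith [mul_le_mul hCb hCb zero_le_one (by linarith : (0:ℝ) ≤ Cb)], ?_⟩
  filter_upwards [ha, hb] with X ha hb
  have hiw : ∀ U : Finset ℕ, 0 ≤ iw U := fun U => prod_nonneg fun p _ => by positivity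
  have h1 : ∑ s ∈ Spl P X, iw (Mu s) ≤ ∑ s ∈ Reg P X P.a ×ˢ Reg P X P.b ×ˢ Reg P X P.b,
      iw s.1 * (iw s.2.1 * iw s.2.2) := by
    have h2 : ∀ s ∈ Spl P X, iw (Mu s) = iw s.1 * (iw s.2.1 * iw s.2.2) := by
      intro s hs
      have := (mem_filter.1 hs).2
      rw [Q4_iw s this.1 this.2.1 this.2.2]
      ring
    rw [sum_congr rfl h2]
    exact sum_le_sum_of_subset_of_nonneg (filter_subset _ _) fun u _ _ =>
      mul_nonneg (hiw _) (mul_nonneg (hiw _) (hiw _))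
  refine h1.trans ?_
  rw [sum_product]
  simp_rw [sum_product, ← mul_sum, ← sum_mul]
  have hTh : ((P.T : ℝ) ^ P.a / P.a.factorial) ^ HH P X = Th P X := rfl
  have hXi : ((P.T : ℝ) ^ P.b / P.b.factorial) ^ HH P X = Xi P X := rfl
  rw [hTh] at ha
  rw [hXi] at hb
  have hSb : 0 ≤ ∑ U ∈ Reg P X P.b, iw U := sum_nonneg fun U _ => hiw U
  have hSa : 0 ≤ ∑ U ∈ Reg P X P.a, iw U := sum_nonneg fun U _ => hiw U
  have hXi0 : 0 ≤ Xi P X := by unfold Xi; positivity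
  have hTh0 : 0 ≤ Th P X := by unfold Th; positivity
  have h3 : (∑ U ∈ Reg P X P.b, iw U) * (∑ U ∈ Reg P X P.b, iw U) ≤ (Cb * Xi P X) * (Cb * Xi P X) :=
    mul_le_mul hb.1 hb.1 hSb (by positivity)
  calc _ ≤ (Ca * Th P X) * ((Cb * Xi P X) * (Cb * Xi P X)) :=
        mul_le_mul ha.1 h3 (mul_nonneg hSb hSb) (by positivity)
    _ = _ := by ring

end SP15
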