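import Pool.Agent.LibSP15.Defs2

/-!
# SP15, row Q0m (size M)
-/

set_option autoImplicit false

namespace SP15

open Finset Filter

private theorem Q0m_disj (T h h' : ℕ) (hlt : h < h') : Disjoint (Bin T h) (Bin T h') := by
  rw [Finset.disjoint_left]
  intro p hp hp'
  unfold Bin at hp hp'
  rw [Finset.mem_filter, Finset.mem_Icc] at hp hp'
  obtain ⟨⟨h1, h2⟩, h3, -⟩ := hp
  obtain ⟨-, -, h4⟩ := hp'
  have h5 : (p : ℝ) ≤ Real.exp (Real.exp ((h + 1) * T)) :=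
    (Nat.le_floor_iff (Real.exp_pos _).le).1 h2
  have hp0 : (0 : ℝ) < p := by exact_mod_cast h3.pos
  have h6 : Real.log p ≤ Real.exp ((h + 1) * T) := by
    rw [Real.log_le_iff_le_exp hp0]
    exact h5
  have h7 : ((h : ℝ) + 1) * T ≤ h' * T := by
    have : (h : ℝ) + 1 ≤ h' := by exact_mod_cast hlt
    gcongr
  have h8 := Real.exp_le_exp.2 h7
  linarith

private theorem Q0m_low (T i j : ℕ) : Disjoint ((Ico i j).biUnion (Bin T)) (Bin T j) := by
  rw [Finset.disjoint_biUnion_left]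
  intro h hh
  rw [Finset.mem_Ico] at hh
  exact Q0m_disj T h j hh.2

private theorem Q0m_prime (T h p : ℕ) (hp : p ∈ Bin T h) : p.Prime := by
  unfold Bin at hp
  rw [Finset.mem_filter] at hp
  exact hp.2.1

private theorem Q0m_sep {L B V W V' W' : Finset ℕ} (hLB : Disjoint L B) (hV : V ⊆ L) (hV' : V' ⊆ L)
    (hW : W ⊆ B) (hW' : W' ⊆ B) : V ∪ W = V' ∪ W' ↔ V = V' ∧ W = W' := by
  constructor
  · intro h
    have h1 : ∀ V W : Finset ℕ, V ⊆ L → W ⊆ B → (V ∪ W) \ B = V := by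
      intro V W hV hW
      rw [Finset.union_sdiff_distrib, Finset.sdiff_eq_empty_iff_subset.2 hW, Finset.union_empty]
      exact Finset.sdiff_eq_self_of_disjoint (Finset.disjoint_of_subset_left hV hLB)
    have h2 : ∀ V W : Finset ℕ, V ⊆ L → W ⊆ B → (V ∪ W) ∩ B = W := by
      intro V W hV hW
      rw [Finset.union_inter_distrib_right,
        Finset.disjoint_iff_inter_eq_empty.1 (Finset.disjoint_of_subset_left hV hLB), Finset.empty_union]
      exact Finset.inter_eq_left.2 hW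
    constructor
    · rw [← h1 V W hV hW, h, h1 V' W' hV' hW']
    · rw [← h2 V W hV hW, h, h2 V' W' hV' hW']
  · rintro ⟨rfl, rfl⟩
    rfl

private theorem Q0m_Mu (s t : Sp) : Mu (cu s t) = Mu s ∪ Mu t := by
  unfold Mu cu
  ext x
  simp only [Finset.mem_union]
  tauto

private theorem Q0m_pr {V W : Finset ℕ} (h : Disjoint V W) : (pr (V ∪ W) : ℝ) = pr V * pr W := by
  unfold pr
  rw [Finset.prod_union h]
  push_cast
  rfl

private theorem Q0m_pr_pos {V : Finset ℕ} (h : ∀ p ∈ V, p.Prime) : (0 : ℝ) < pr V := by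
  unfold pr
  push_cast
  exact Finset.prod_pos fun p hp => by exact_mod_cast (h p hp).pos

theorem Q0_mul (T i j a b : ℕ) (hT : 1 ≤ T) (s s' t t' : Sp) (hs : s ∈ SplR T i j a b)
    (hs' : s' ∈ SplR T i j a b) (ht : t ∈ SplB (Bin T j) a b) (ht' : t' ∈ SplB (Bin T j) a b) :
    iw (Mu (cu s t)) = iw (Mu s) * iw (Mu t) ∧ Rat (cu s t) (cu s' t') = Rat s s' * Rat t t' ∧
    (Mu (cu s t) = Mu (cu s' t') ↔ Mu s = Mu s' ∧ Mu t = Mu t') ∧
    (cu s t = cu s' t' ↔ s = s' ∧ t = t') ∧ 0 < Rat s s' ∧ 0 < Rat t t' := by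
  set L := (Ico i j).biUnion (Bin T) with hL
  set B := Bin T j with hB
  have hLB : Disjoint L B := Q0m_low T i j
  have hLp : ∀ p ∈ L, p.Prime := by
    intro p hp
    rw [hL, Finset.mem_biUnion] at hp
    obtain ⟨h, -, hp⟩ := hp
    exact Q0m_prime T h p hp
  have hBp : ∀ p ∈ B, p.Prime := Q0m_prime T j
  have hsub : ∀ s ∈ SplR T i j a b, s.1 ⊆ L ∧ s.2.1 ⊆ L ∧ s.2.2 ⊆ L := by
    intro s hs
    unfold SplR Rg at hs
    simp only [Finset.mem_filter, Finset.mem_product, Finset.mem_powerset] at hs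
    exact ⟨hs.1.1.1, hs.1.2.1.1, hs.1.2.2.1⟩
  have hsubB : ∀ t ∈ SplB B a b, t.1 ⊆ B ∧ t.2.1 ⊆ B ∧ t.2.2 ⊆ B := by
    intro t ht
    unfold SplB at ht
    simp only [Finset.mem_filter, Finset.mem_product, Finset.mem_powersetCard] at ht
    exact ⟨ht.1.1.1, ht.1.2.1.1, ht.1.2.2.1⟩
  obtain ⟨a1, a2, a3⟩ := hsub s hs
  obtain ⟨a1', a2', a3'⟩ := hsub s' hs'
  obtain ⟨b1, b2, b3⟩ := hsubB t ht
  obtain ⟨b1', b2', b3'⟩ := hsubB t' ht'
  have hd : ∀ {V W : Finset ℕ}, V ⊆ L → W ⊆ B → Disjoint V W := fun hV hW =>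
    Finset.disjoint_of_subset_left hV (Finset.disjoint_of_subset_right hW hLB)
  have hMs : Mu s ⊆ L := Finset.union_subset (Finset.union_subset a1 a2) a3
  have hMs' : Mu s' ⊆ L := Finset.union_subset (Finset.union_subset a1' a2') a3'
  have hMt : Mu t ⊆ B := Finset.union_subset (Finset.union_subset b1 b2) b3
  have hMt' : Mu t' ⊆ B := Finset.union_subset (Finset.union_subset b1' b2') b3'
  have hpL : ∀ {V : Finset ℕ}, V ⊆ L → (0 : ℝ) < pr V := fun hV => Q0m_pr_pos fun p hp => hLp p (hV hp)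
  have hpB : ∀ {V : Finset ℕ}, V ⊆ B → (0 : ℝ) < pr V := fun hV => Q0m_pr_pos fun p hp => hBp p (hV hp)
  refine ⟨?_, ?_, ?_, ?_, ?_, ?_⟩
  · rw [Q0m_Mu]
    unfold iw
    exact Finset.prod_union (hd hMs hMt)
  · unfold Rat cu
    simp only
    rw [Q0m_pr (hd a2 b2), Q0m_pr (hd a3' b3'), Q0m_pr (hd a3 b3), Q0m_pr (hd a2' b2')]
    rw [div_mul_div_comm]
    congr 1 <;> ring
  · rw [Q0m_Mu, Q0m_Mu]
    exact Q0m_sep hLB hMs hMs' hMt hMt'
  · unfold cu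
    rw [Prod.mk.injEq, Prod.mk.injEq, Q0m_sep hLB a1 a1' b1 b1', Q0m_sep hLB a2 a2' b2 b2',
      Q0m_sep hLB a3 a3' b3 b3']
    constructor
    · rintro ⟨⟨h1, h2⟩, ⟨h3, h4⟩, h5, h6⟩
      exact ⟨Prod.ext h1 (Prod.ext h3 h5), Prod.ext h2 (Prod.ext h4 h6)⟩
    · rintro ⟨rfl, rfl⟩
      exact ⟨⟨rfl, rfl⟩, ⟨rfl, rfl⟩, rfl, rfl⟩
  · unfold Rat
    exact div_pos (mul_pos (hpL a2) (hpL a3')) (mul_pos (hpL a3) (hpL a2'))
  · unfold Rat
    exact div_pos (mul_pos (hpB b2) (hpB b3')) (mul_pos (hpB b3) (hpB b2'))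

end SP15
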