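import Pool.Agent.LibSP15.Defs2

/-!
# SP15, row Q0s (size M)
-/

set_option autoImplicit false

namespace SP15

open Finset Filter

/-- the bins are pairwise disjoint -/
private theorem Q0s_disj (T h h' : ℕ) (hT : 1 ≤ T) (hlt : h < h') : Disjoint (Bin T h) (Bin T h') := by
  rw [Finset.disjoint_left]
  intro p hp hp'
  unfold Bin at hp hp'
  rw [Finset.mem_filter, Finset.mem_Icc] at hp hp'
  obtain ⟨⟨h1, h2⟩, h3, -⟩ := hp
  obtain ⟨-, -, h4⟩ := hp'
  have h5 : (p : ℝ) ≤ Real.exp (Real.exp ((h + 1) * T)) :=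
    (Nat.le_floor_iff (Real.exp_pos _).le).1 h2
  have hp0 : (0 : ℝ) < p := by exact_mod_cast h3.pos
  have h6 : Real.log p ≤ Real.exp ((h + 1) * T) := by
    rw [Real.log_le_iff_le_exp hp0]
    exact h5
  have h7 : ((h : ℝ) + 1) * T ≤ h' * T := by
    have : (h : ℝ) + 1 ≤ h' := by exact_mod_cast hlt
    gcongr
  have h8 := Real.exp_le_exp.2 h7
  linarith

private theorem Q0s_low (T i j : ℕ) (hT : 1 ≤ T) : Disjoint ((Ico i j).biUnion (Bin T)) (Bin T j) := by
  rw [Finset.disjoint_biUnion_left]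
  intro h hh
  rw [Finset.mem_Ico] at hh
  exact Q0s_disj T h j hT hh.2

private theorem Q0s_memRg (T i j e : ℕ) (hT : 1 ≤ T) (hij : i ≤ j) (V : Finset ℕ) :
    V ∈ Rg T i (j + 1) e ↔ (V \ Bin T j) ∈ Rg T i j e ∧ (V ∩ Bin T j) ∈ (Bin T j).powersetCard e := by
  unfold Rg
  rw [Finset.mem_filter, Finset.mem_filter, Finset.mem_powerset, Finset.mem_powerset,
    Finset.mem_powersetCard]
  have hIco : Ico i (j + 1) = insert j (Ico i j) := by
    ext x
    rw [Finset.mem_Ico, Finset.mem_insert, Finset.mem_Ico]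
    omega
  have hlow := Q0s_low T i j hT
  constructor
  · rintro ⟨h1, h2⟩
    refine ⟨⟨?_, ?_⟩, Finset.inter_subset_right, h2 j (Finset.mem_Ico.2 ⟨hij, Nat.lt_succ_self j⟩)⟩
    · intro x hx
      rw [Finset.mem_sdiff] at hx
      have := h1 hx.1
      rw [hIco, Finset.biUnion_insert, Finset.mem_union] at this
      exact this.resolve_left hx.2
    · intro h hh
      rw [Finset.mem_Ico] at hh
      have hd := Q0s_disj T h j hT hh.2
      have h3 : (V \ Bin T j) ∩ Bin T h = V ∩ Bin T h := by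
        ext x
        rw [Finset.mem_inter, Finset.mem_inter, Finset.mem_sdiff]
        constructor
        · rintro ⟨⟨g1, -⟩, g3⟩
          exact ⟨g1, g3⟩
        · rintro ⟨g1, g3⟩
          exact ⟨⟨g1, Finset.disjoint_left.1 hd g3⟩, g3⟩
      rw [h3]
      exact h2 h (Finset.mem_Ico.2 ⟨hh.1, by omega⟩)
  · rintro ⟨⟨h1, h2⟩, -, h3⟩
    constructor
    · intro x hx
      rw [hIco, Finset.biUnion_insert, Finset.mem_union]
      by_cases hxj : x ∈ Bin T j
      · exact Or.inl hxj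
      · exact Or.inr (h1 (Finset.mem_sdiff.2 ⟨hx, hxj⟩))
    · intro h hh
      rw [hIco, Finset.mem_insert] at hh
      rcases hh with rfl | hh
      · exact h3
      · have hd := Q0s_disj T h j hT (Finset.mem_Ico.1 hh).2
        rw [← h2 h hh]
        congr 1
        ext x
        rw [Finset.mem_inter, Finset.mem_inter, Finset.mem_sdiff]
        constructor
        · rintro ⟨g1, g3⟩
          exact ⟨⟨g1, Finset.disjoint_left.1 hd g3⟩, g3⟩
        · rintro ⟨⟨g1, -⟩, g3⟩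
          exact ⟨g1, g3⟩

private theorem Q0s_split (V B L : Finset ℕ) : (V ∪ B) \ L = (V \ L) ∪ (B \ L) := Finset.union_sdiff_distrib V B L

/-- single sum -/
private theorem Q0s_single (T i j a b : ℕ) (hT : 1 ≤ T) (hij : i ≤ j) (Φ : Sp → ℝ) :
    ∑ s ∈ SplR T i (j + 1) a b, Φ s =
      ∑ s ∈ SplR T i j a b, ∑ t ∈ SplB (Bin T j) a b, Φ (cu s t) := by
  rw [← Finset.sum_product']
  have hlow := Q0s_low T i j hT
  have hRg : ∀ e V, V ∈ Rg T i j e → V ⊆ (Ico i j).biUnion (Bin T) := by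
    intro e V hV
    unfold Rg at hV
    exact Finset.mem_powerset.1 (Finset.mem_filter.1 hV).1
  have hsd : ∀ e V W, V ∈ Rg T i j e → W ⊆ Bin T j → (V ∪ W) \ Bin T j = V := by
    intro e V W hV hW
    have h1 := Finset.disjoint_of_subset_left (hRg e V hV) hlow
    rw [Finset.union_sdiff_distrib, Finset.sdiff_eq_empty_iff_subset.2 hW, Finset.union_empty]
    exact Finset.sdiff_eq_self_of_disjoint h1
  have hin : ∀ e V W, V ∈ Rg T i j e → W ⊆ Bin T j → (V ∪ W) ∩ Bin T j = W := by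
    intro e V W hV hW
    have h1 := Finset.disjoint_of_subset_left (hRg e V hV) hlow
    rw [Finset.union_inter_distrib_right, Finset.disjoint_iff_inter_eq_empty.1 h1, Finset.empty_union]
    exact Finset.inter_eq_left.2 hW
  have hun : ∀ V : Finset ℕ, (V \ Bin T j) ∪ (V ∩ Bin T j) = V := fun V => Finset.sdiff_union_inter V _
  have hdj : ∀ V W : Finset ℕ, Disjoint V W → Disjoint (V \ Bin T j) (W \ Bin T j) := fun V W h =>
    Finset.disjoint_of_subset_left Finset.sdiff_subset (Finset.disjoint_of_subset_right Finset.sdiff_subset h)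
  have hdi : ∀ V W : Finset ℕ, Disjoint V W → Disjoint (V ∩ Bin T j) (W ∩ Bin T j) := fun V W h =>
    Finset.disjoint_of_subset_left Finset.inter_subset_left
      (Finset.disjoint_of_subset_right Finset.inter_subset_left h)
  refine Finset.sum_nbij' (fun s => ((s.1 \ Bin T j, s.2.1 \ Bin T j, s.2.2 \ Bin T j),
    (s.1 ∩ Bin T j, s.2.1 ∩ Bin T j, s.2.2 ∩ Bin T j))) (fun st => cu st.1 st.2) ?_ ?_ ?_ ?_ ?_
  · intro s hs
    unfold SplR at hs
    rw [Finset.mem_filter, Finset.mem_product, Finset.mem_product] at hs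
    obtain ⟨⟨h1, h2, h3⟩, d1, d2, d3⟩ := hs
    rw [Q0s_memRg T i j _ hT hij] at h1 h2 h3
    rw [Finset.mem_product]
    constructor
    · unfold SplR
      rw [Finset.mem_filter, Finset.mem_product, Finset.mem_product]
      exact ⟨⟨h1.1, h2.1, h3.1⟩, hdj _ _ d1, hdj _ _ d2, hdj _ _ d3⟩
    · unfold SplB
      rw [Finset.mem_filter, Finset.mem_product, Finset.mem_product]
      exact ⟨⟨h1.2, h2.2, h3.2⟩, hdi _ _ d1, hdi _ _ d2, hdi _ _ d3⟩
  · rintro ⟨s, t⟩ hst
    rw [Finset.mem_product] at hst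
    obtain ⟨hs, ht⟩ := hst
    unfold SplR at hs
    rw [Finset.mem_filter, Finset.mem_product, Finset.mem_product] at hs
    obtain ⟨⟨h1, h2, h3⟩, d1, d2, d3⟩ := hs
    unfold SplB at ht
    rw [Finset.mem_filter, Finset.mem_product, Finset.mem_product] at ht
    obtain ⟨⟨k1, k2, k3⟩, e1, e2, e3⟩ := ht
    have l1 := (Finset.mem_powersetCard.1 k1).1
    have l2 := (Finset.mem_powersetCard.1 k2).1
    have l3 := (Finset.mem_powersetCard.1 k3).1
    have hcross : ∀ e (V W : Finset ℕ), V ∈ Rg T i j e → W ⊆ Bin T j → Disjoint V W := fun e V W hV hW =>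
      Finset.disjoint_of_subset_left (hRg e V hV) (Finset.disjoint_of_subset_right hW hlow)
    unfold SplR cu
    rw [Finset.mem_filter, Finset.mem_product, Finset.mem_product]
    refine ⟨⟨?_, ?_, ?_⟩, ?_, ?_, ?_⟩
    · rw [Q0s_memRg T i j _ hT hij]
      simp only
      rw [hsd _ _ _ h1 l1, hin _ _ _ h1 l1]
      exact ⟨h1, k1⟩
    · rw [Q0s_memRg T i j _ hT hij]
      simp only
      rw [hsd _ _ _ h2 l2, hin _ _ _ h2 l2]
      exact ⟨h2, k2⟩
    · rw [Q0s_memRg T i j _ hT hij]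
      simp only
      rw [hsd _ _ _ h3 l3, hin _ _ _ h3 l3]
      exact ⟨h3, k3⟩
    · simp only
      rw [Finset.disjoint_union_left, Finset.disjoint_union_right, Finset.disjoint_union_right]
      exact ⟨⟨d1, hcross _ _ _ h1 l2⟩, (hcross _ _ _ h2 l1).symm, e1⟩
    · simp only
      rw [Finset.disjoint_union_left, Finset.disjoint_union_right, Finset.disjoint_union_right]
      exact ⟨⟨d2, hcross _ _ _ h1 l3⟩, (hcross _ _ _ h3 l1).symm, e2⟩
    · simp only
      rw [Finset.disjoint_union_left, Finset.disjoint_union_right, Finset.disjoint_union_right]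
      exact ⟨⟨d3, hcross _ _ _ h2 l3⟩, (hcross _ _ _ h3 l2).symm, e3⟩
  · intro s _
    simp only [cu, hun]
  · rintro ⟨s, t⟩ hst
    rw [Finset.mem_product] at hst
    obtain ⟨hs, ht⟩ := hst
    unfold SplR at hs
    rw [Finset.mem_filter, Finset.mem_product, Finset.mem_product] at hs
    obtain ⟨⟨h1, h2, h3⟩, -⟩ := hs
    unfold SplB at ht
    rw [Finset.mem_filter, Finset.mem_product, Finset.mem_product] at ht
    obtain ⟨⟨k1, k2, k3⟩, -⟩ := ht
    have l1 := (Finset.mem_powersetCard.1 k1).1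
    have l2 := (Finset.mem_powersetCard.1 k2).1
    have l3 := (Finset.mem_powersetCard.1 k3).1
    simp only [cu]
    rw [hsd _ _ _ h1 l1, hsd _ _ _ h2 l2, hsd _ _ _ h3 l3, hin _ _ _ h1 l1, hin _ _ _ h2 l2,
      hin _ _ _ h3 l3]
  · intro s _
    simp only [cu, hun]

theorem Q0_split (T i j a b : ℕ) (hT : 1 ≤ T) (hij : i ≤ j) (Φ : Sp → Sp → ℝ) :
    ∑ s ∈ SplR T i (j + 1) a b, ∑ s' ∈ SplR T i (j + 1) a b, Φ s s' =
      ∑ s ∈ SplR T i j a b, ∑ s' ∈ SplR T i j a b,
        ∑ t ∈ SplB (Bin T j) a b, ∑ t' ∈ SplB (Bin T j) a b, Φ (cu s t) (cu s' t') := by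
  calc ∑ s ∈ SplR T i (j + 1) a b, ∑ s' ∈ SplR T i (j + 1) a b, Φ s s'
      = ∑ s ∈ SplR T i (j + 1) a b, ∑ s' ∈ SplR T i j a b, ∑ t' ∈ SplB (Bin T j) a b, Φ s (cu s' t') :=
        Finset.sum_congr rfl fun s _ => Q0s_single T i j a b hT hij (fun s' => Φ s s')
    _ = ∑ s ∈ SplR T i j a b, ∑ t ∈ SplB (Bin T j) a b, ∑ s' ∈ SplR T i j a b,
          ∑ t' ∈ SplB (Bin T j) a b, Φ (cu s t) (cu s' t') :=
        Q0s_single T i j a b hT hij
          (fun s => ∑ s' ∈ SplR T i j a b, ∑ t' ∈ SplB (Bin T j) a b, Φ s (cu s' t'))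
    _ = _ := Finset.sum_congr rfl fun s _ => Finset.sum_comm

end SP15
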