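import Pool.Agent.LibSP15.Defs2
import Pool.Agent.LibSP15.B5

/-!
# SP15, row Q2 (size M)

PLAN. Group by M = Mu t (card A = a+2b): ∑_{M ∈ powersetCard A B} iw M * (number of splittings of M)², number of splittings = C(A,a) C(2b,b) = A!/(a! b!²) =: μ (choose W ⊆ M, U ⊆ M \ W; U' is the rest). B5: ≤ σ^A/A! * μ² = σ^A/(a! b!²) * μ.
-/

set_option autoImplicit false

namespace SP15

open Finset Filter

private theorem Q2_count (B M : Finset ℕ) (a b : ℕ) (hM : #M = a + 2 * b) :
    (#((SplB B a b).filter fun t => Mu t = M) : ℝ) ≤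
      (a + 2 * b).factorial / (a.factorial * b.factorial ^ 2) := by
  classical
  have h1 : #((SplB B a b).filter fun t => Mu t = M) ≤
      #((M.powersetCard a).sigma fun W => (M \ W).powersetCard b) := by
    refine card_le_card_of_injOn (fun t => (⟨t.1, t.2.1⟩ : Σ _ : Finset ℕ, Finset ℕ)) ?_ ?_
    · intro t ht
      rw [mem_coe, mem_filter] at ht
      obtain ⟨ht1, ht2⟩ := ht
      unfold SplB at ht1
      rw [mem_filter, mem_product, mem_product, mem_powersetCard, mem_powersetCard] at ht1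
      rw [mem_coe, mem_sigma, mem_powersetCard, mem_powersetCard]
      have h3 : Mu t = t.1 ∪ t.2.1 ∪ t.2.2 := rfl
      rw [← ht2, h3]
      refine ⟨⟨fun p hp => mem_union_left _ (mem_union_left _ hp), ht1.1.1.2⟩, fun p hp => ?_,
        ht1.1.2.1.2⟩
      exact mem_sdiff.2 ⟨mem_union_left _ (mem_union_right _ hp),
        fun hp' => (disjoint_left.1 ht1.2.1) hp' hp⟩
    · intro t ht t' ht' h
      rw [mem_coe, mem_filter] at ht ht'
      obtain ⟨ht1, ht2⟩ := ht
      obtain ⟨ht1', ht2'⟩ := ht'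
      unfold SplB at ht1 ht1'
      rw [mem_filter] at ht1 ht1'
      have h3 : t.1 = t'.1 ∧ t.2.1 = t'.2.1 := by
        have h4 := Sigma.mk.inj h
        exact ⟨h4.1, eq_of_heq h4.2⟩
      have h5 : ∀ s : Sp, Disjoint s.1 s.2.1 ∧ Disjoint s.1 s.2.2 ∧ Disjoint s.2.1 s.2.2 →
          Mu s = M → s.2.2 = M \ (s.1 ∪ s.2.1) := by
        intro s hs hsM
        rw [← hsM]
        show s.2.2 = (s.1 ∪ s.2.1 ∪ s.2.2) \ (s.1 ∪ s.2.1)
        rw [union_sdiff_left, eq_comm, Finset.sdiff_eq_self_iff_disjoint, disjoint_union_right]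
        exact ⟨hs.2.1.symm, hs.2.2.symm⟩
      refine Prod.ext h3.1 (Prod.ext h3.2 ?_)
      rw [h5 t ht1.2 ht2, h5 t' ht1'.2 ht2', h3.1, h3.2]
  have h2 : #((M.powersetCard a).sigma fun W => (M \ W).powersetCard b) =
      (a + 2 * b).choose a * (2 * b).choose b := by
    rw [card_sigma]
    have h3 : ∀ W ∈ M.powersetCard a, #((M \ W).powersetCard b) = (2 * b).choose b := by
      intro W hW
      rw [mem_powersetCard] at hW
      rw [card_powersetCard, card_sdiff_of_subset hW.1, hM, hW.2, Nat.add_sub_cancel_left]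
    rw [sum_congr rfl h3, sum_const, card_powersetCard, hM, smul_eq_mul]
  rw [h2] at h1
  have h3 : (((a + 2 * b).choose a * (2 * b).choose b : ℕ) : ℝ) =
      (a + 2 * b).factorial / (a.factorial * b.factorial ^ 2) := by
    rw [eq_div_iff (by positivity)]
    have h4 : (a + 2 * b).choose a * a.factorial * (2 * b).factorial = (a + 2 * b).factorial := by
      have := Nat.choose_mul_factorial_mul_factorial (Nat.le_add_right a (2 * b))
      rwa [Nat.add_sub_cancel_left] at this
    have h5 : (2 * b).choose b * b.factorial * b.factorial = (2 * b).factorial := by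
      have := Nat.choose_mul_factorial_mul_factorial (show b ≤ 2 * b by omega)
      rwa [show 2 * b - b = b by omega] at this
    rw [← h4, ← h5]
    push_cast
    ring
  rw [← h3]
  exact_mod_cast h1

/-- one bin: pairs of splittings of the same set -/
theorem Q2_one (B : Finset ℕ) (a b : ℕ) :
    ∑ t ∈ SplB B a b, ∑ t' ∈ (SplB B a b).filter (fun t' => Mu t' = Mu t), iw (Mu t) ≤
      (∑ p ∈ B, 1 / (p : ℝ)) ^ (a + 2 * b) / (a.factorial * b.factorial ^ 2) *
        ((a + 2 * b).factorial / (a.factorial * b.factorial ^ 2)) := by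
  classical
  set μ : ℝ := (a + 2 * b).factorial / (a.factorial * b.factorial ^ 2) with hμ
  have hμ0 : 0 ≤ μ := by rw [hμ]; positivity
  have hiw : ∀ U : Finset ℕ, 0 ≤ iw U := fun U =>
    prod_nonneg fun p _ => inv_nonneg.2 (Nat.cast_nonneg p)
  have hmaps : ∀ t ∈ SplB B a b, Mu t ∈ B.powersetCard (a + 2 * b) := by
    intro t ht
    unfold SplB at ht
    rw [mem_filter, mem_product, mem_product, mem_powersetCard, mem_powersetCard,
      mem_powersetCard] at ht
    rw [mem_powersetCard]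
    show t.1 ∪ t.2.1 ∪ t.2.2 ⊆ B ∧ #(t.1 ∪ t.2.1 ∪ t.2.2) = a + 2 * b
    refine ⟨union_subset (union_subset ht.1.1.1 ht.1.2.1.1) ht.1.2.2.1, ?_⟩
    rw [card_union_of_disjoint (disjoint_union_left.2 ⟨ht.2.2.1, ht.2.2.2⟩),
      card_union_of_disjoint ht.2.1, ht.1.1.2, ht.1.2.1.2, ht.1.2.2.2]
    ring
  have hcard : ∀ M ∈ B.powersetCard (a + 2 * b),
      (#((SplB B a b).filter fun t => Mu t = M) : ℝ) ≤ μ := fun M hM =>
    Q2_count B M a b (mem_powersetCard.1 hM).2
  calc ∑ t ∈ SplB B a b, ∑ t' ∈ (SplB B a b).filter (fun t' => Mu t' = Mu t), iw (Mu t)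
      ≤ ∑ t ∈ SplB B a b, μ * iw (Mu t) := by
        refine sum_le_sum fun t ht => ?_
        rw [sum_const, nsmul_eq_mul]
        exact mul_le_mul_of_nonneg_right (hcard _ (hmaps t ht)) (hiw _)
    _ = μ * ∑ t ∈ SplB B a b, iw (Mu t) := by rw [mul_sum]
    _ = μ * ∑ M ∈ B.powersetCard (a + 2 * b),
          ∑ t ∈ (SplB B a b).filter (fun t => Mu t = M), iw (Mu t) := by
        rw [sum_fiberwise_of_maps_to hmaps]
    _ ≤ μ * ∑ M ∈ B.powersetCard (a + 2 * b), μ * iw M := by
        refine mul_le_mul_of_nonneg_left (sum_le_sum fun M hM => ?_) hμ0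
        have h1 : ∑ t ∈ (SplB B a b).filter (fun t => Mu t = M), iw (Mu t) =
            ∑ _t ∈ (SplB B a b).filter (fun t => Mu t = M), iw M :=
          sum_congr rfl fun t ht => by rw [(mem_filter.1 ht).2]
        rw [h1, sum_const, nsmul_eq_mul]
        exact mul_le_mul_of_nonneg_right (hcard M hM) (hiw M)
    _ = μ * (μ * ∑ M ∈ B.powersetCard (a + 2 * b), iw M) := by rw [← mul_sum]
    _ ≤ μ * (μ * ((∑ p ∈ B, 1 / (p : ℝ)) ^ (a + 2 * b) / (a + 2 * b).factorial)) := by
        have h1 := B5_esymm_le B (fun p => (p : ℝ)⁻¹)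
          (fun p _ => inv_nonneg.2 (Nat.cast_nonneg p)) (a + 2 * b)
        have h2 : ∑ p ∈ B, (p : ℝ)⁻¹ = ∑ p ∈ B, 1 / (p : ℝ) :=
          sum_congr rfl fun p _ => (one_div _).symm
        simp only [h2] at h1
        gcongr
        exact h1
    _ = (∑ p ∈ B, 1 / (p : ℝ)) ^ (a + 2 * b) / (a.factorial * b.factorial ^ 2) * μ := by
        rw [hμ]
        have h3 : ((a + 2 * b).factorial : ℝ) ≠ 0 := by positivity
        field_simp

end SP15
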