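import Pool.Agent.LibSP15.Defs2
import Pool.Agent.LibSP15.Q0s
import Pool.Agent.LibSP15.Q0m
import Pool.Agent.LibSP15.Q2

/-!
# SP15, row Q5a (size M)
-/

set_option autoImplicit false

namespace SP15

open Finset Filter

open Classical in
private noncomputable def Q5a_eq (s s' : Sp) : ℝ := if Mu s' = Mu s then iw (Mu s) else 0

private theorem Q5a_iw_nonneg (U : Finset ℕ) : 0 ≤ iw U :=
  Finset.prod_nonneg fun p _ => by positivity

private theorem Q5a_eq_nonneg (s s' : Sp) : 0 ≤ Q5a_eq s s' := by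
  unfold Q5a_eq
  split_ifs
  · exact Q5a_iw_nonneg _
  · exact le_rfl

theorem Q5a (T i j a b : ℕ) (hT : 1 ≤ T) (hij : i ≤ j) :
    ∑ s ∈ SplR T i j a b, ∑ _s' ∈ (SplR T i j a b).filter (fun s' => Mu s' = Mu s), iw (Mu s) ≤
      ∏ h ∈ Ico i j, ((∑ p ∈ Bin T h, 1 / (p : ℝ)) ^ (a + 2 * b) / (a.factorial * b.factorial ^ 2) *
        ((a + 2 * b).factorial / (a.factorial * b.factorial ^ 2))) := by
  have hconv : ∀ S : Finset Sp, ∑ s ∈ S, ∑ _s' ∈ S.filter (fun s' => Mu s' = Mu s), iw (Mu s) =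
      ∑ s ∈ S, ∑ s' ∈ S, Q5a_eq s s' := by
    intro S
    apply Finset.sum_congr rfl
    intro s _
    rw [Finset.sum_filter]
    apply Finset.sum_congr rfl
    intro s' _
    unfold Q5a_eq
    congr 1
  rw [hconv]
  induction j, hij using Nat.le_induction with
  | base =>
    rw [Finset.Ico_self, Finset.prod_empty]
    have key : ∀ e (U : Finset ℕ), U ∈ Rg T i i e → U = ∅ := by
      intro e U hU
      unfold Rg at hU
      rw [Finset.mem_filter, Finset.mem_powerset, Finset.Ico_self, Finset.biUnion_empty,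
        Finset.subset_empty] at hU
      exact hU.1
    have hsub : SplR T i i a b ⊆ {((∅, ∅, ∅) : Sp)} := by
      intro s hs
      unfold SplR at hs
      rw [Finset.mem_filter, Finset.mem_product, Finset.mem_product] at hs
      obtain ⟨⟨h1, h2, h3⟩, -⟩ := hs
      rw [Finset.mem_singleton]
      exact Prod.ext (key _ _ h1) (Prod.ext (key _ _ h2) (key _ _ h3))
    calc ∑ s ∈ SplR T i i a b, ∑ s' ∈ SplR T i i a b, Q5a_eq s s'
        ≤ ∑ s ∈ {((∅, ∅, ∅) : Sp)}, ∑ s' ∈ SplR T i i a b, Q5a_eq s s' :=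
          Finset.sum_le_sum_of_subset_of_nonneg hsub fun s _ _ =>
            Finset.sum_nonneg fun s' _ => Q5a_eq_nonneg s s'
      _ ≤ ∑ s ∈ {((∅, ∅, ∅) : Sp)}, ∑ s' ∈ {((∅, ∅, ∅) : Sp)}, Q5a_eq s s' :=
          Finset.sum_le_sum fun s _ => Finset.sum_le_sum_of_subset_of_nonneg hsub fun s' _ _ =>
            Q5a_eq_nonneg s s'
      _ = 1 := by
          rw [Finset.sum_singleton, Finset.sum_singleton]
          unfold Q5a_eq
          rw [if_pos rfl]
          simp [Mu, iw]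
      _ ≤ 1 := le_rfl
  | succ j hij ih =>
    rw [Q0_split T i j a b hT hij, Finset.prod_Ico_succ_top hij]
    set S := SplR T i j a b with hS
    set B := SplB (Bin T j) a b with hB
    have h2 : ∑ t ∈ B, ∑ t' ∈ B, Q5a_eq t t' ≤
        (∑ p ∈ Bin T j, 1 / (p : ℝ)) ^ (a + 2 * b) / (a.factorial * b.factorial ^ 2) *
        ((a + 2 * b).factorial / (a.factorial * b.factorial ^ 2)) := by
      rw [← hconv]
      exact Q2_one (Bin T j) a b
    have hmul : ∀ s ∈ S, ∀ s' ∈ S, ∑ t ∈ B, ∑ t' ∈ B, Q5a_eq (cu s t) (cu s' t') =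
        Q5a_eq s s' * ∑ t ∈ B, ∑ t' ∈ B, Q5a_eq t t' := by
      intro s hs s' hs'
      rw [Finset.mul_sum]
      apply Finset.sum_congr rfl
      intro t ht
      rw [Finset.mul_sum]
      apply Finset.sum_congr rfl
      intro t' ht'
      obtain ⟨h1, -, h3, -⟩ := Q0_mul T i j a b hT s s' t t' hs hs' ht ht'
      unfold Q5a_eq
      by_cases hc : Mu (cu s' t') = Mu (cu s t)
      · obtain ⟨m1, m2⟩ := h3.1 hc.symm
        rw [if_pos hc, if_pos m1.symm, if_pos m2.symm, h1]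
      · rw [if_neg hc]
        by_cases hc1 : Mu s' = Mu s
        · by_cases hc2 : Mu t' = Mu t
          · exact absurd (h3.2 ⟨hc1.symm, hc2.symm⟩).symm hc
          · rw [if_neg hc2, mul_zero]
        · rw [if_neg hc1, zero_mul]
    have hS0 : 0 ≤ ∑ s ∈ S, ∑ s' ∈ S, Q5a_eq s s' :=
      Finset.sum_nonneg fun s _ => Finset.sum_nonneg fun s' _ => Q5a_eq_nonneg s s'
    have hB0 : 0 ≤ ∑ t ∈ B, ∑ t' ∈ B, Q5a_eq t t' :=
      Finset.sum_nonneg fun s _ => Finset.sum_nonneg fun s' _ => Q5a_eq_nonneg s s'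
    calc ∑ s ∈ S, ∑ s' ∈ S, ∑ t ∈ B, ∑ t' ∈ B, Q5a_eq (cu s t) (cu s' t')
        = ∑ s ∈ S, ∑ s' ∈ S, Q5a_eq s s' * ∑ t ∈ B, ∑ t' ∈ B, Q5a_eq t t' :=
          Finset.sum_congr rfl fun s hs => Finset.sum_congr rfl fun s' hs' => hmul s hs s' hs'
      _ = (∑ s ∈ S, ∑ s' ∈ S, Q5a_eq s s') * ∑ t ∈ B, ∑ t' ∈ B, Q5a_eq t t' := by
          rw [Finset.sum_mul]
          apply Finset.sum_congr rfl
          intro s _
          rw [Finset.sum_mul]
      _ ≤ _ := mul_le_mul ih h2 hB0 (hS0.trans ih)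

end SP15
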