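import Pool.Agent.LibSP15.Defs2
import Pool.Agent.LibSP15.Q5a
import Pool.Agent.LibSP15.B1
import Pool.Agent.LibSP15.E1

/-!
# SP15, row Q5 (size M)

PLAN. Q5a with i = h0, j = h1: ∏ (σ_h^A/(a! b!²) mu) ≤ C (T^A/(a! b!²))^H mu^H = C Th Xi² mu^H, since ∏ (σ_h/T)^A ≤ C (B1). Filtered product sum = double sum.
-/

set_option autoImplicit false

namespace SP15

open Finset Filter

/-- products of the bin sums -/
theorem Q5_prod (P : Par) (A : ℕ) : ∃ C : ℝ, 1 ≤ C ∧ ∀ i j : ℕ,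
    ∏ h ∈ Ico i j, (∑ p ∈ Bin P.T h, 1 / (p : ℝ)) ^ A ≤ C * ((P.T : ℝ) ^ A) ^ (j - i) := by
  obtain ⟨C1, hC1, h1⟩ := B1_sum
  have hT1 : 1 ≤ P.T := by have := P.haT; have := P.ha; omega
  have hT : (1 : ℝ) ≤ P.T := by exact_mod_cast hT1
  refine ⟨Real.exp (A * (C1 * 2)), Real.one_le_exp (by positivity), fun i j => ?_⟩
  have hfac : ∀ h ∈ Ico i j, (∑ p ∈ Bin P.T h, 1 / (p : ℝ)) ^ A ≤
      (P.T : ℝ) ^ A * Real.exp (A * (C1 * Real.exp (-(1 : ℝ)) ^ h)) := by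
    intro h _
    have h2 := (abs_le.1 (h1 P.T h hT1)).2
    have h3 : Real.exp (-(h * P.T)) ≤ Real.exp (-(1 : ℝ)) ^ h := by
      rw [← Real.exp_nat_mul]
      apply Real.exp_le_exp.2
      have : (h : ℝ) * 1 ≤ h * P.T := mul_le_mul_of_nonneg_left hT (Nat.cast_nonneg _)
      linarith
    have h4 : ∑ p ∈ Bin P.T h, 1 / (p : ℝ) ≤ P.T * Real.exp (C1 * Real.exp (-(1 : ℝ)) ^ h) := by
      have h5 : C1 * Real.exp (-(1 : ℝ)) ^ h + 1 ≤ Real.exp (C1 * Real.exp (-(1 : ℝ)) ^ h) :=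
        Real.add_one_le_exp _
      have h6 : 0 ≤ C1 * Real.exp (-(1 : ℝ)) ^ h := by positivity
      have h7 : C1 * Real.exp (-(h * P.T)) ≤ C1 * Real.exp (-(1 : ℝ)) ^ h :=
        mul_le_mul_of_nonneg_left h3 (by linarith)
      nlinarith
    have h0 : 0 ≤ ∑ p ∈ Bin P.T h, 1 / (p : ℝ) := sum_nonneg fun p _ => by positivity
    refine (pow_le_pow_left₀ h0 h4 A).trans (le_of_eq ?_)
    rw [mul_pow, ← Real.exp_nat_mul]
  refine (prod_le_prod (fun h _ => pow_nonneg (sum_nonneg fun p _ => by positivity) _) hfac).trans ?_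
  rw [prod_mul_distrib, prod_const, Nat.card_Ico, ← Real.exp_sum, mul_comm]
  refine mul_le_mul_of_nonneg_right (Real.exp_le_exp.2 ?_) (by positivity)
  rw [← mul_sum, ← mul_sum]
  refine mul_le_mul_of_nonneg_left (mul_le_mul_of_nonneg_left ?_ (by linarith)) (Nat.cast_nonneg _)
  have hr : Real.exp (-(1 : ℝ)) ≤ 1 / 2 := by
    rw [Real.exp_neg]
    have := Real.add_one_le_exp (1 : ℝ)
    rw [inv_eq_one_div]
    exact one_div_le_one_div_of_le (by norm_num) (by linarith)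
  calc ∑ h ∈ Ico i j, Real.exp (-(1 : ℝ)) ^ h ≤ ∑ h ∈ Ico i j, (1 / 2 : ℝ) ^ h :=
        sum_le_sum fun h _ => pow_le_pow_left₀ (Real.exp_pos _).le hr h
    _ ≤ ∑ h ∈ range j, (1 / 2 : ℝ) ^ h := by
        refine sum_le_sum_of_subset_of_nonneg ?_ fun _ _ _ => by positivity
        intro h hh
        rw [mem_Ico] at hh
        exact mem_range.2 hh.2
    _ ≤ 2 := sum_geometric_two_le j

theorem Q5_pairs (P : Par) : ∃ C : ℝ, 1 ≤ C ∧ ∀ᶠ X : ℕ in atTop,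
    ∑ σ ∈ (Spl P X ×ˢ Spl P X).filter (fun σ => Mu σ.1 = Mu σ.2), iw (Mu σ.1) ≤
      C * (Th P X * Xi P X ^ 2 * mu P ^ HH P X) := by
  classical
  obtain ⟨CE, hCE1, hE⟩ := E1_scales P
  obtain ⟨C, hC, hprod⟩ := Q5_prod P (P.a + 2 * P.b)
  refine ⟨C, hC, ?_⟩
  filter_upwards [hE] with X hE
  obtain ⟨-, -, -, -, -, -, -, -, hh, -⟩ := hE
  have hT1 : 1 ≤ P.T := by have := P.haT; have := P.ha; omega
  have h1 : ∑ σ ∈ (Spl P X ×ˢ Spl P X).filter (fun σ => Mu σ.1 = Mu σ.2), iw (Mu σ.1) =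
      ∑ s ∈ SplR P.T (h0 P X) (h1 P X) P.a P.b,
        ∑ _s' ∈ (SplR P.T (h0 P X) (h1 P X) P.a P.b).filter (fun s' => Mu s' = Mu s), iw (Mu s) := by
    rw [sum_filter, sum_product]
    refine sum_congr rfl fun s _ => ?_
    rw [sum_filter]
    refine sum_congr rfl fun s' _ => ?_
    simp only [eq_comm]
  rw [h1]
  refine (Q5a P.T (h0 P X) (SP15.h1 P X) P.a P.b hT1 hh).trans ?_
  have h2 : ∏ h ∈ Ico (h0 P X) (SP15.h1 P X), ((∑ p ∈ Bin P.T h, 1 / (p : ℝ)) ^ (P.a + 2 * P.b) /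
      (P.a.factorial * P.b.factorial ^ 2) * ((P.a + 2 * P.b).factorial / (P.a.factorial * P.b.factorial ^ 2))) =
      (∏ h ∈ Ico (h0 P X) (SP15.h1 P X), (∑ p ∈ Bin P.T h, 1 / (p : ℝ)) ^ (P.a + 2 * P.b)) *
      ((1 / (P.a.factorial * P.b.factorial ^ 2 : ℝ)) ^ HH P X * mu P ^ HH P X) := by
    rw [← mul_pow]
    have h3 : ∀ h ∈ Ico (h0 P X) (SP15.h1 P X), ((∑ p ∈ Bin P.T h, 1 / (p : ℝ)) ^ (P.a + 2 * P.b) /
      (P.a.factorial * P.b.factorial ^ 2) * ((P.a + 2 * P.b).factorial / (P.a.factorial * P.b.factorial ^ 2))) =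
      (∑ p ∈ Bin P.T h, 1 / (p : ℝ)) ^ (P.a + 2 * P.b) *
      (1 / (P.a.factorial * P.b.factorial ^ 2 : ℝ) * mu P) := by
      intro h _
      unfold mu Par.A
      ring
    rw [prod_congr rfl h3, prod_mul_distrib, prod_const, Nat.card_Ico]
    rfl
  rw [h2]
  have hmu : 0 ≤ mu P := by unfold mu; positivity
  refine (mul_le_mul_of_nonneg_right (hprod _ _) (by positivity)).trans (le_of_eq ?_)
  have h4 : SP15.h1 P X - h0 P X = HH P X := rfl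
  rw [h4]
  unfold Th Xi
  rw [show C * ((P.T : ℝ) ^ (P.a + 2 * P.b)) ^ HH P X * ((1 / (P.a.factorial * P.b.factorial ^ 2 : ℝ)) ^ HH P X *
      mu P ^ HH P X) = C * ((((P.T : ℝ) ^ (P.a + 2 * P.b)) * (1 / (P.a.factorial * P.b.factorial ^ 2 : ℝ))) ^ HH P X *
      mu P ^ HH P X) by rw [mul_pow]; ring]
  have key : ((P.T : ℝ) ^ (P.a + 2 * P.b)) * (1 / (P.a.factorial * P.b.factorial ^ 2 : ℝ)) =
      (P.T : ℝ) ^ P.a / P.a.factorial * ((P.T : ℝ) ^ P.b / P.b.factorial) ^ 2 := by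
    rw [pow_add, mul_comm 2 P.b, pow_mul, div_pow]
    have := P.b.factorial_ne_zero
    have := P.a.factorial_ne_zero
    field_simp
  rw [key]
  set u := (P.T : ℝ) ^ P.a / P.a.factorial
  set v := (P.T : ℝ) ^ P.b / P.b.factorial
  rw [mul_pow, ← pow_mul, ← pow_mul, mul_comm 2]

end SP15
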