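import Pool.Agent.LibSP15.Defs2
import Pool.Agent.LibSP15.B5

/-!
# SP15, row Q1 (size S)

PLAN. iw (Mu t) = iw t.1 iw t.2.1 iw t.2.2 (disjoint); drop disjointness: product of three sums, B5.
-/

set_option autoImplicit false

namespace SP15

open Finset Filter

theorem Q1_iw_nonneg (U : Finset ℕ) : 0 ≤ iw U := Finset.prod_nonneg fun p _ => by positivity

theorem Q1_iw (t : Sp) (h1 : Disjoint t.1 t.2.1) (h2 : Disjoint t.1 t.2.2) (h3 : Disjoint t.2.1 t.2.2) :
    iw (Mu t) = iw t.1 * (iw t.2.1 * iw t.2.2) := by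
  unfold iw Mu
  rw [Finset.prod_union (Finset.disjoint_union_left.2 ⟨h2, h3⟩), Finset.prod_union h1, mul_assoc]

theorem Q1_B5 (B : Finset ℕ) (e : ℕ) :
    ∑ U ∈ B.powersetCard e, iw U ≤ (∑ p ∈ B, 1 / (p : ℝ)) ^ e / e.factorial := by
  have h := B5_esymm_le B (fun p => (p : ℝ)⁻¹) (fun p _ => by positivity) e
  simpa [iw, one_div] using h

/-- one bin: single splittings -/
theorem Q1_one (B : Finset ℕ) (a b : ℕ) :
    ∑ t ∈ SplB B a b, iw (Mu t) ≤ (∑ p ∈ B, 1 / (p : ℝ)) ^ (a + 2 * b) /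
      (a.factorial * b.factorial ^ 2) := by
  have h1 : ∑ t ∈ SplB B a b, iw (Mu t) ≤
      ∑ t ∈ B.powersetCard a ×ˢ B.powersetCard b ×ˢ B.powersetCard b, iw t.1 * (iw t.2.1 * iw t.2.2) := by
    unfold SplB
    rw [Finset.sum_congr rfl (g := fun t : Sp => iw t.1 * (iw t.2.1 * iw t.2.2))]
    · refine Finset.sum_le_sum_of_subset_of_nonneg (Finset.filter_subset _ _) fun t _ _ => ?_
      exact mul_nonneg (Q1_iw_nonneg _) (mul_nonneg (Q1_iw_nonneg _) (Q1_iw_nonneg _))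
    · intro t ht
      have h := (Finset.mem_filter.1 ht).2
      exact Q1_iw t h.1 h.2.1 h.2.2
  refine h1.trans ?_
  rw [Finset.sum_product]
  simp only [Finset.sum_product]
  have h2 : ∑ x ∈ B.powersetCard a, ∑ y ∈ B.powersetCard b, ∑ z ∈ B.powersetCard b, iw x * (iw y * iw z) =
      (∑ x ∈ B.powersetCard a, iw x) * ((∑ y ∈ B.powersetCard b, iw y) * (∑ z ∈ B.powersetCard b, iw z)) := by
    rw [Finset.sum_mul]
    refine Finset.sum_congr rfl fun x _ => ?_
    rw [Finset.sum_mul, Finset.mul_sum]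
    refine Finset.sum_congr rfl fun y _ => ?_
    rw [Finset.mul_sum, Finset.mul_sum]
  rw [h2]
  have hs : 0 ≤ ∑ p ∈ B, 1 / (p : ℝ) := Finset.sum_nonneg fun p _ => by positivity
  have ha := Q1_B5 B a
  have hb := Q1_B5 B b
  have hn : ∀ e, 0 ≤ ∑ U ∈ B.powersetCard e, iw U := fun e => Finset.sum_nonneg fun U _ => Q1_iw_nonneg U
  calc (∑ x ∈ B.powersetCard a, iw x) * ((∑ y ∈ B.powersetCard b, iw y) * (∑ z ∈ B.powersetCard b, iw z)) 
      ≤ ((∑ p ∈ B, 1 / (p : ℝ)) ^ a / a.factorial) *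
        (((∑ p ∈ B, 1 / (p : ℝ)) ^ b / b.factorial) * ((∑ p ∈ B, 1 / (p : ℝ)) ^ b / b.factorial)) := by
        have hna := hn a
        have hnb := hn b
        gcongr
    _ = _ := by
        rw [pow_add, pow_mul']
        field_simp

end SP15
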