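import Pool.Agent.LibSP15.Defs2
import Pool.Agent.LibSP15.B5

/-!
# SP15, row Q3 (size XL)

PLAN. t ≠ t' with Mu t = Mu t' =: M: some p ∈ M has different classes (W/U/U') in t, t'. Remove p from M: rest (M', restrictions). Rat t t' = Rat(rest) * p^e with e = e(class) - e(class'), e(W) = 0, e(U) = 1, e(U') = -1, so e ∈ {±1, ±2} and p lies in an interval [Q, KQ] determined by the rest, the two classes and θ (K^(1/|e|) ≤ K).
So the sum is ≤ ∑ over (class, class') ∈ 9, ∑ over rest ( ≤ ∑_{M' ∈ powersetCard (A-1) B} iw M' * 9^(A-1) ), of κ, ≤ 9 * 9^(A-1) (σ^(A-1)/(A-1)!) κ ≤ the claim. (A = a+2b; A = 0: no t ≠ t'.) Suggested: encode a pair (t,t') with union M as M with a function M → Fin 3 × Fin 3.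
-/

set_option autoImplicit false
set_option linter.unusedSimpArgs false

namespace SP15

open Finset Filter

namespace Q3

/-- disjoint components -/
def Dj (s : Sp) : Prop := Disjoint s.1 s.2.1 ∧ Disjoint s.1 s.2.2 ∧ Disjoint s.2.1 s.2.2

instance : DecidablePred Dj := fun s => by unfold Dj; infer_instance

/-- the components -/
def cmp (c : Fin 3) (s : Sp) : Finset ℕ := if c = 0 then s.1 else if c = 1 then s.2.1 else s.2.2

/-- insert `p` in the component `c` -/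
def ins (c : Fin 3) (p : ℕ) (s : Sp) : Sp :=
  (if c = 0 then insert p s.1 else s.1, if c = 1 then insert p s.2.1 else s.2.1,
    if c = 2 then insert p s.2.2 else s.2.2)

/-- erase `p` -/
def er (p : ℕ) (s : Sp) : Sp := (s.1.erase p, s.2.1.erase p, s.2.2.erase p)

theorem mem_Mu_iff (s : Sp) (p : ℕ) : p ∈ Mu s ↔ ∃ c, p ∈ cmp c s := by
  unfold Mu cmp
  rw [Fin.exists_fin_succ, Fin.exists_fin_two]
  simp [Finset.mem_union, or_assoc]

theorem ins_er {t : Sp} (ht : Dj t) {c : Fin 3} {p : ℕ} (hp : p ∈ cmp c t) :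
    ins c p (er p t) = t := by
  obtain ⟨h1, h2, h3⟩ := ht
  obtain ⟨a, b, d⟩ := t
  simp only at h1 h2 h3
  fin_cases c
  · simp only [cmp, ins, er] at hp ⊢
    simp only [Fin.zero_eta, Fin.isValue, ↓reduceIte] at hp
    simp [Finset.insert_erase hp, Finset.erase_eq_of_notMem (Finset.disjoint_left.1 h1 hp),
      Finset.erase_eq_of_notMem (Finset.disjoint_left.1 h2 hp)]
  · simp only [cmp, ins, er] at hp ⊢
    simp only [Fin.mk_one, Fin.isValue, one_ne_zero, ↓reduceIte] at hp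
    simp [Finset.insert_erase hp, Finset.erase_eq_of_notMem (Finset.disjoint_right.1 h1 hp),
      Finset.erase_eq_of_notMem (Finset.disjoint_left.1 h3 hp)]
  · simp only [cmp, ins, er] at hp ⊢
    have hp' : p ∈ d := by simpa using hp
    simp [Finset.insert_erase hp', Finset.erase_eq_of_notMem (Finset.disjoint_right.1 h2 hp'),
      Finset.erase_eq_of_notMem (Finset.disjoint_right.1 h3 hp')]

theorem Mu_er (t : Sp) (p : ℕ) : Mu (er p t) = (Mu t).erase p := by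
  ext q
  simp only [Mu, er, mem_union, mem_erase]
  tauto

theorem Dj_er {t : Sp} (ht : Dj t) (p : ℕ) : Dj (er p t) := by
  obtain ⟨h1, h2, h3⟩ := ht
  exact ⟨h1.mono (Finset.erase_subset _ _) (Finset.erase_subset _ _),
    h2.mono (Finset.erase_subset _ _) (Finset.erase_subset _ _),
    h3.mono (Finset.erase_subset _ _) (Finset.erase_subset _ _)⟩

theorem Mu_ins (s : Sp) (c : Fin 3) (p : ℕ) : Mu (ins c p s) = insert p (Mu s) := by
  ext q
  fin_cases c <;> simp [Mu, ins]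

theorem iw_ins {s : Sp} {c : Fin 3} {p : ℕ} (hp : p ∉ Mu s) :
    iw (Mu (ins c p s)) = iw (Mu s) * (1 / (p : ℝ)) := by
  rw [Mu_ins]
  unfold iw
  rw [Finset.prod_insert hp, one_div, mul_comm]

theorem ext_cmp {t t' : Sp} (h : ∀ c, cmp c t = cmp c t') : t = t' := by
  obtain ⟨a, b, d⟩ := t
  obtain ⟨a', b', d'⟩ := t'
  have h0 := h 0
  have h1 := h 1
  have h2 := h 2
  simp only [cmp] at h0 h1 h2
  simp at h0 h1 h2
  rw [h0, h1, h2]

theorem exists_diff {t t' : Sp} (hM : Mu t' = Mu t) (hne : t ≠ t') :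
    ∃ p c c', c ≠ c' ∧ p ∈ cmp c t ∧ p ∈ cmp c' t' := by
  by_contra hcon
  push Not at hcon
  apply hne
  apply ext_cmp
  intro c
  ext p
  constructor
  · intro hp
    have h1 : p ∈ Mu t' := by rw [hM, mem_Mu_iff]; exact ⟨c, hp⟩
    obtain ⟨c', hc'⟩ := (mem_Mu_iff _ _).1 h1
    by_cases h : c = c'
    · rw [h]; exact hc'
    · exact absurd hc' (hcon p c c' h hp)
  · intro hp
    have h1 : p ∈ Mu t := by rw [← hM, mem_Mu_iff]; exact ⟨c, hp⟩
    obtain ⟨c', hc'⟩ := (mem_Mu_iff _ _).1 h1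
    by_cases h : c' = c
    · rw [← h]; exact hc'
    · exact absurd hp (hcon p c' c h hc')

/-- disjoint triples in `B` with `k` elements -/
def ss (B : Finset ℕ) (k : ℕ) : Finset Sp :=
  (B.powerset ×ˢ B.powerset ×ˢ B.powerset).filter fun s => Dj s ∧ #(Mu s) = k

theorem mem_ss {B : Finset ℕ} {k : ℕ} {s : Sp} : s ∈ ss B k ↔
    (s.1 ⊆ B ∧ s.2.1 ⊆ B ∧ s.2.2 ⊆ B) ∧ Dj s ∧ #(Mu s) = k := by
  unfold ss
  simp only [mem_filter, mem_product, mem_powerset]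

theorem Mu_sub {B : Finset ℕ} {k : ℕ} {s : Sp} (h : s ∈ ss B k) : Mu s ⊆ B := by
  obtain ⟨⟨h1, h2, h3⟩, -, -⟩ := mem_ss.1 h
  exact Finset.union_subset (Finset.union_subset h1 h2) h3

theorem fiber_card (B : Finset ℕ) (k : ℕ) (M : Finset ℕ) (hM : M ∈ B.powersetCard k) :
    #((ss B k).filter fun s => Mu s = M) ≤ 3 ^ k := by
  classical
  have h1 : #((ss B k).filter fun s => Mu s = M) ≤ #(Finset.univ : Finset (M → Fin 3)) := by
    refine Finset.card_le_card_of_injOn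
      (fun s => fun p : M => if (p : ℕ) ∈ s.1 then 0 else if (p : ℕ) ∈ s.2.1 then 1 else 2)
      (fun _ _ => Finset.mem_coe.2 (Finset.mem_univ _)) ?_
    intro s hs s' hs' he
    simp only [coe_filter, Set.mem_ofPred_eq, mem_ss] at hs hs'
    obtain ⟨⟨-, ⟨d1, d2, d3⟩, -⟩, hMs⟩ := hs
    obtain ⟨⟨-, ⟨e1, e2, e3⟩, -⟩, hMs'⟩ := hs'
    have key : ∀ p ∈ M, (p ∈ s.1 ↔ p ∈ s'.1) ∧ (p ∈ s.2.1 ↔ p ∈ s'.2.1) ∧
        (p ∈ s.2.2 ↔ p ∈ s'.2.2) := by
      intro p hp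
      have h2 := congrFun he ⟨p, hp⟩
      simp only at h2
      have m1 : p ∈ s.1 ∨ p ∈ s.2.1 ∨ p ∈ s.2.2 := by
        rw [← hMs] at hp; simpa [Mu, or_assoc] using hp
      have m2 : p ∈ s'.1 ∨ p ∈ s'.2.1 ∨ p ∈ s'.2.2 := by
        rw [← hMs'] at hp; simpa [Mu, or_assoc] using hp
      have n1 : p ∈ s.1 → p ∉ s.2.1 := fun h => Finset.disjoint_left.1 d1 h
      have n2 : p ∈ s.1 → p ∉ s.2.2 := fun h => Finset.disjoint_left.1 d2 h
      have n3 : p ∈ s.2.1 → p ∉ s.2.2 := fun h => Finset.disjoint_left.1 d3 h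
      have k1 : p ∈ s'.1 → p ∉ s'.2.1 := fun h => Finset.disjoint_left.1 e1 h
      have k2 : p ∈ s'.1 → p ∉ s'.2.2 := fun h => Finset.disjoint_left.1 e2 h
      have k3 : p ∈ s'.2.1 → p ∉ s'.2.2 := fun h => Finset.disjoint_left.1 e3 h
      split_ifs at h2 <;> first | (exact absurd h2 (by decide)) | tauto
    have sub : ∀ q, (q ∈ s.1 → q ∈ M) ∧ (q ∈ s.2.1 → q ∈ M) ∧ (q ∈ s.2.2 → q ∈ M) := by
      intro q
      rw [← hMs]
      simp only [Mu, mem_union]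
      tauto
    have sub' : ∀ q, (q ∈ s'.1 → q ∈ M) ∧ (q ∈ s'.2.1 → q ∈ M) ∧ (q ∈ s'.2.2 → q ∈ M) := by
      intro q
      rw [← hMs']
      simp only [Mu, mem_union]
      tauto
    refine Prod.ext ?_ (Prod.ext ?_ ?_)
    · ext q
      exact ⟨fun h => (key q ((sub q).1 h)).1.1 h, fun h => (key q ((sub' q).1 h)).1.2 h⟩
    · ext q
      exact ⟨fun h => (key q ((sub q).2.1 h)).2.1.1 h, fun h => (key q ((sub' q).2.1 h)).2.1.2 h⟩
    · ext q
      exact ⟨fun h => (key q ((sub q).2.2 h)).2.2.1 h, fun h => (key q ((sub' q).2.2 h)).2.2.2 h⟩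
  refine h1.trans (le_of_eq ?_)
  rw [Finset.card_univ, Fintype.card_fun, Fintype.card_fin, Fintype.card_coe,
    (Finset.mem_powersetCard.1 hM).2]

theorem iw_nonneg' (U : Finset ℕ) : 0 ≤ iw U :=
  Finset.prod_nonneg fun p _ => inv_nonneg.2 (Nat.cast_nonneg p)

/-- the sum over the pairs with the same union -/
theorem pairs_le (B : Finset ℕ) (k : ℕ) :
    ∑ s ∈ ss B k, ∑ s' ∈ ss B k, (if Mu s' = Mu s then iw (Mu s) else 0) ≤
      9 ^ k * (∑ p ∈ B, 1 / (p : ℝ)) ^ k := by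
  classical
  have h1 : ∀ s ∈ ss B k, Mu s ∈ B.powersetCard k := fun s hs =>
    Finset.mem_powersetCard.2 ⟨Mu_sub hs, (mem_ss.1 hs).2.2⟩
  rw [← Finset.sum_fiberwise_of_maps_to h1]
  have h2 : ∀ M ∈ B.powersetCard k,
      ∑ s ∈ (ss B k).filter (fun s => Mu s = M), ∑ s' ∈ ss B k,
        (if Mu s' = Mu s then iw (Mu s) else 0) ≤ 9 ^ k * ∏ p ∈ M, 1 / (p : ℝ) := by
    intro M hM
    have h3 : ∀ s ∈ (ss B k).filter (fun s => Mu s = M), ∑ s' ∈ ss B k,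
        (if Mu s' = Mu s then iw (Mu s) else 0) ≤ 3 ^ k * iw M := by
      intro s hs
      rw [(mem_filter.1 hs).2, ← Finset.sum_filter, Finset.sum_const, nsmul_eq_mul]
      apply mul_le_mul_of_nonneg_right _ (iw_nonneg' M)
      exact_mod_cast fiber_card B k M hM
    refine (Finset.sum_le_sum h3).trans ?_
    rw [Finset.sum_const, nsmul_eq_mul]
    have h4 : ((#((ss B k).filter fun s => Mu s = M) : ℕ) : ℝ) ≤ 3 ^ k := by
      exact_mod_cast fiber_card B k M hM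
    have h5 : iw M = ∏ p ∈ M, 1 / (p : ℝ) := by
      unfold iw
      exact Finset.prod_congr rfl fun p _ => (one_div _).symm
    rw [← h5]
    calc ((#((ss B k).filter fun s => Mu s = M) : ℕ) : ℝ) * (3 ^ k * iw M)
        ≤ 3 ^ k * (3 ^ k * iw M) := by
          apply mul_le_mul_of_nonneg_right h4
          exact mul_nonneg (by positivity) (iw_nonneg' M)
      _ = 9 ^ k * iw M := by
          rw [← mul_assoc, ← mul_pow]; norm_num
  refine (Finset.sum_le_sum h2).trans ?_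
  rw [← Finset.mul_sum]
  apply mul_le_mul_of_nonneg_left _ (by positivity)
  refine (B5_esymm_le B (fun p => 1 / (p : ℝ)) (fun p _ => by positivity) k).trans ?_
  apply div_le_self
  · exact pow_nonneg (Finset.sum_nonneg fun p _ => by positivity) _
  · exact_mod_cast k.factorial_pos

/-- the possible `p` lie in a short interval -/
theorem interval_one {K θ R : ℝ} (hK : 1 ≤ K) (hθ : 0 < θ) (hR : 0 < R) :
    (∃ Q : ℝ, 0 < Q ∧ ∀ p : ℝ, 0 < p → θ ≤ R * p → R * p ≤ K * θ → Q ≤ p ∧ p ≤ K * Q) ∧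
    (∃ Q : ℝ, 0 < Q ∧ ∀ p : ℝ, 0 < p → θ ≤ R / p → R / p ≤ K * θ → Q ≤ p ∧ p ≤ K * Q) ∧
    (∃ Q : ℝ, 0 < Q ∧ ∀ p : ℝ, 0 < p → θ ≤ R * p ^ 2 → R * p ^ 2 ≤ K * θ → Q ≤ p ∧ p ≤ K * Q) ∧
    (∃ Q : ℝ, 0 < Q ∧ ∀ p : ℝ, 0 < p → θ ≤ R / p ^ 2 → R / p ^ 2 ≤ K * θ →
      Q ≤ p ∧ p ≤ K * Q) := by
  have hK0 : 0 < K := by linarith
  have sq : ∀ x y : ℝ, 0 < x → 0 < y → x ^ 2 ≤ y ^ 2 → x ≤ y := fun x y hx hy h =>
    (pow_le_pow_iff_left₀ hx.le hy.le two_ne_zero).1 h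
  refine ⟨⟨θ / R, by positivity, fun p hp h1 h2 => ⟨?_, ?_⟩⟩,
    ⟨R / (K * θ), by positivity, fun p hp h1 h2 => ⟨?_, ?_⟩⟩,
    ⟨Real.sqrt (θ / R), by positivity, fun p hp h1 h2 => ⟨?_, ?_⟩⟩,
    ⟨Real.sqrt (R / (K * θ)), by positivity, fun p hp h1 h2 => ⟨?_, ?_⟩⟩⟩
  · rw [div_le_iff₀ hR]; linarith
  · rw [mul_div_assoc', le_div_iff₀ hR]; linarith
  · rw [div_le_iff₀ hp] at h2
    rw [div_le_iff₀ (by positivity)]; linarith
  · rw [le_div_iff₀ hp] at h1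
    rw [mul_div_assoc', le_div_iff₀ (by positivity)]
    nlinarith
  · apply sq _ _ (by positivity) hp
    rw [Real.sq_sqrt (by positivity), div_le_iff₀ hR]; linarith
  · apply sq _ _ hp (by positivity)
    rw [mul_pow, Real.sq_sqrt (by positivity), mul_div_assoc', le_div_iff₀ hR]
    have : K * θ ≤ K ^ 2 * θ := by
      apply mul_le_mul_of_nonneg_right _ hθ.le
      nlinarith
    linarith
  · rw [div_le_iff₀ (by positivity)] at h2
    apply sq _ _ (by positivity) hp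
    rw [Real.sq_sqrt (by positivity), div_le_iff₀ (by positivity)]; linarith
  · rw [le_div_iff₀ (by positivity)] at h1
    apply sq _ _ hp (by positivity)
    rw [mul_pow, Real.sq_sqrt (by positivity), mul_div_assoc', le_div_iff₀ (by positivity)]
    have h3 : K * (θ * p ^ 2) ≤ K * R := mul_le_mul_of_nonneg_left h1 hK0.le
    have h4 : K * R ≤ K ^ 2 * R := by
      apply mul_le_mul_of_nonneg_right _ hR.le
      nlinarith
    linarith

theorem pr_insert' {U : Finset ℕ} {p : ℕ} (h : p ∉ U) : (pr (insert p U) : ℝ) = p * pr U := by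
  unfold pr
  rw [Finset.prod_insert h]
  push_cast
  ring

theorem pr_pos' {B U : Finset ℕ} (hB : ∀ p ∈ B, p.Prime) (h : U ⊆ B) : (0 : ℝ) < pr U := by
  unfold pr
  exact_mod_cast Finset.prod_pos fun p hp => (hB p (h hp)).pos

theorem interval_two {B : Finset ℕ} (hB : ∀ p ∈ B, p.Prime) {k : ℕ} {K θ : ℝ} (hK : 1 ≤ K)
    (hθ : 0 < θ) {s s' : Sp} (hs : s ∈ ss B k) (hs' : s' ∈ ss B k) (hM : Mu s' = Mu s)
    {c c' : Fin 3} (hc : c ≠ c') :
    ∃ Q : ℝ, 0 < Q ∧ ∀ p ∈ B, p ∉ Mu s → θ ≤ Rat (ins c p s) (ins c' p s') →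
      Rat (ins c p s) (ins c' p s') ≤ K * θ → Q ≤ p ∧ (p : ℝ) ≤ K * Q := by
  obtain ⟨⟨a1, a2, a3⟩, -, -⟩ := mem_ss.1 hs
  obtain ⟨⟨b1, b2, b3⟩, -, -⟩ := mem_ss.1 hs'
  have p1 := pr_pos' hB a2
  have p2 := pr_pos' hB a3
  have p3 := pr_pos' hB b2
  have p4 := pr_pos' hB b3
  have hR : 0 < Rat s s' := by unfold Rat; positivity
  obtain ⟨⟨Q1, h1, i1⟩, ⟨Q2, h2, i2⟩, ⟨Q3, h3, i3⟩, ⟨Q4, h4, i4⟩⟩ := interval_one hK hθ hR
  have hnot : ∀ p, p ∉ Mu s → p ∉ s.2.1 ∧ p ∉ s.2.2 ∧ p ∉ s'.2.1 ∧ p ∉ s'.2.2 := by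
    intro p hp
    have hp' : p ∉ Mu s' := by rw [hM]; exact hp
    simp only [Mu, mem_union, not_or] at hp hp'
    exact ⟨hp.1.2, hp.2, hp'.1.2, hp'.2⟩
  have hpos : ∀ p ∈ B, (0 : ℝ) < p := fun p hp => by exact_mod_cast (hB p hp).pos
  fin_cases c <;> fin_cases c'
  · exact absurd rfl hc
  · refine ⟨Q2, h2, fun p hp hpM l1 l2 => i2 p (hpos p hp) ?_ ?_⟩ <;>
    · obtain ⟨n1, n2, n3, n4⟩ := hnot p hpM
      have hp0 := hpos p hp
      have e : Rat s s' / (p : ℝ) = Rat (ins 0 p s) (ins 1 p s') := by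
        simp only [Rat, ins, Fin.isValue, zero_ne_one, one_ne_zero, ↓reduceIte, Fin.reduceEq,
          pr_insert' n3]
        field_simp
      rw [e]
      assumption
  · refine ⟨Q1, h1, fun p hp hpM l1 l2 => i1 p (hpos p hp) ?_ ?_⟩ <;>
    · obtain ⟨n1, n2, n3, n4⟩ := hnot p hpM
      have hp0 := hpos p hp
      have e : Rat s s' * (p : ℝ) = Rat (ins 0 p s) (ins 2 p s') := by
        simp only [Rat, ins, Fin.isValue, zero_ne_one, one_ne_zero, ↓reduceIte, Fin.reduceEq,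
          pr_insert' n4]
        field_simp
      rw [e]
      assumption
  · refine ⟨Q1, h1, fun p hp hpM l1 l2 => i1 p (hpos p hp) ?_ ?_⟩ <;>
    · obtain ⟨n1, n2, n3, n4⟩ := hnot p hpM
      have hp0 := hpos p hp
      have e : Rat s s' * (p : ℝ) = Rat (ins 1 p s) (ins 0 p s') := by
        simp only [Rat, ins, Fin.isValue, zero_ne_one, one_ne_zero, ↓reduceIte, Fin.reduceEq,
          pr_insert' n1]
        field_simp
      rw [e]
      assumption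
  · exact absurd rfl hc
  · refine ⟨Q3, h3, fun p hp hpM l1 l2 => i3 p (hpos p hp) ?_ ?_⟩ <;>
    · obtain ⟨n1, n2, n3, n4⟩ := hnot p hpM
      have hp0 := hpos p hp
      have e : Rat s s' * (p : ℝ) ^ 2 = Rat (ins 1 p s) (ins 2 p s') := by
        simp only [Rat, ins, Fin.isValue, zero_ne_one, one_ne_zero, ↓reduceIte, Fin.reduceEq,
          pr_insert' n1, pr_insert' n4]
        field_simp
      rw [e]
      assumption
  · refine ⟨Q2, h2, fun p hp hpM l1 l2 => i2 p (hpos p hp) ?_ ?_⟩ <;>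
    · obtain ⟨n1, n2, n3, n4⟩ := hnot p hpM
      have hp0 := hpos p hp
      have e : Rat s s' / (p : ℝ) = Rat (ins 2 p s) (ins 0 p s') := by
        simp only [Rat, ins, Fin.isValue, zero_ne_one, one_ne_zero, ↓reduceIte, Fin.reduceEq,
          pr_insert' n2]
        field_simp
      rw [e]
      assumption
  · refine ⟨Q4, h4, fun p hp hpM l1 l2 => i4 p (hpos p hp) ?_ ?_⟩ <;>
    · obtain ⟨n1, n2, n3, n4⟩ := hnot p hpM
      have hp0 := hpos p hp
      have e : Rat s s' / (p : ℝ) ^ 2 = Rat (ins 2 p s) (ins 1 p s') := by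
        simp only [Rat, ins, Fin.isValue, zero_ne_one, one_ne_zero, ↓reduceIte, Fin.reduceEq,
          pr_insert' n2, pr_insert' n3]
        field_simp
      rw [e]
      assumption
  · exact absurd rfl hc

end Q3

open Q3

/-- one bin: different splittings of the same set with a size condition -/
theorem Q3_one (B : Finset ℕ) (hB : ∀ p ∈ B, p.Prime) (a b : ℕ) (K κ : ℝ) (hK : 1 ≤ K) (hκ : 0 ≤ κ)
    (h : ∀ Q : ℝ, 0 < Q → ∑ p ∈ B.filter (fun p : ℕ => Q ≤ (p : ℝ) ∧ (p : ℝ) ≤ K * Q), 1 / (p : ℝ) ≤ κ)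
    (θ : ℝ) (hθ : 0 < θ) :
    ∑ t ∈ SplB B a b, ∑ t' ∈ (SplB B a b).filter (fun t' => Mu t' = Mu t ∧ t ≠ t' ∧ θ ≤ Rat t t' ∧
      Rat t t' ≤ K * θ), iw (Mu t) ≤
      9 ^ (a + 2 * b + 1) * (1 + ∑ p ∈ B, 1 / (p : ℝ)) ^ (a + 2 * b) * κ := by

  classical
  set A : ℕ := a + 2 * b with hA
  set σ : ℝ := ∑ p ∈ B, 1 / (p : ℝ) with hσ
  have hσ0 : 0 ≤ σ := Finset.sum_nonneg fun p _ => by positivity
  have hcard : ∀ t ∈ SplB B a b, (t.1 ⊆ B ∧ t.2.1 ⊆ B ∧ t.2.2 ⊆ B) ∧ Dj t ∧ #(Mu t) = A := by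
    intro t ht
    unfold SplB at ht
    simp only [mem_filter, mem_product, mem_powersetCard] at ht
    obtain ⟨⟨⟨q1, q2⟩, ⟨q3, q4⟩, q5, q6⟩, q7, q8, q9⟩ := ht
    refine ⟨⟨q1, q3, q5⟩, ⟨q7, q8, q9⟩, ?_⟩
    unfold Mu
    rw [Finset.card_union_of_disjoint, Finset.card_union_of_disjoint q7, q2, q4, q6]
    · omega
    · exact Finset.disjoint_union_left.2 ⟨q8, q9⟩
  set k : ℕ := A - 1 with hk
  set Y : Finset (Sp × Sp) := (SplB B a b ×ˢ SplB B a b).filter fun y =>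
    Mu y.2 = Mu y.1 ∧ y.1 ≠ y.2 ∧ θ ≤ Rat y.1 y.2 ∧ Rat y.1 y.2 ≤ K * θ with hY
  have hL : ∑ t ∈ SplB B a b, ∑ t' ∈ (SplB B a b).filter (fun t' => Mu t' = Mu t ∧ t ≠ t' ∧
      θ ≤ Rat t t' ∧ Rat t t' ≤ K * θ), iw (Mu t) = ∑ y ∈ Y, iw (Mu y.1) := by
    rw [hY, Finset.sum_filter, Finset.sum_product]
    exact Finset.sum_congr rfl fun t _ => Finset.sum_filter _ _
  rw [hL]
  set Z : Finset ((Fin 3 × Fin 3) × (Sp × Sp) × ℕ) :=
    ((Finset.univ : Finset (Fin 3 × Fin 3)) ×ˢ ((ss B k ×ˢ ss B k) ×ˢ B)).filter fun z =>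
      z.1.1 ≠ z.1.2 ∧ Mu z.2.1.2 = Mu z.2.1.1 ∧ z.2.2 ∉ Mu z.2.1.1 ∧
        θ ≤ Rat (ins z.1.1 z.2.2 z.2.1.1) (ins z.1.2 z.2.2 z.2.1.2) ∧
        Rat (ins z.1.1 z.2.2 z.2.1.1) (ins z.1.2 z.2.2 z.2.1.2) ≤ K * θ with hZ
  set G : (Fin 3 × Fin 3) × (Sp × Sp) × ℕ → Sp × Sp := fun z =>
    (ins z.1.1 z.2.2 z.2.1.1, ins z.1.2 z.2.2 z.2.1.2) with hG
  have hsub : Y ⊆ Z.image G := by
    intro y hy
    obtain ⟨hy1, hM, hne, l1, l2⟩ := Finset.mem_filter.1 hy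
    obtain ⟨ht, ht'⟩ := Finset.mem_product.1 hy1
    obtain ⟨⟨a1, a2, a3⟩, dj, ca⟩ := hcard _ ht
    obtain ⟨⟨b1, b2, b3⟩, dj', cb⟩ := hcard _ ht'
    obtain ⟨p, c, c', hcc, hpc, hpc'⟩ := exists_diff hM hne
    have hpM : p ∈ Mu y.1 := (mem_Mu_iff _ _).2 ⟨c, hpc⟩
    have hpM' : p ∈ Mu y.2 := by rw [hM]; exact hpM
    have hpB : p ∈ B := by
      have : Mu y.1 ⊆ B := Finset.union_subset (Finset.union_subset a1 a2) a3
      exact this hpM
    have e1 : ins c p (er p y.1) = y.1 := ins_er dj hpc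
    have e2 : ins c' p (er p y.2) = y.2 := ins_er dj' hpc'
    refine Finset.mem_image.2 ⟨((c, c'), (er p y.1, er p y.2), p), ?_, ?_⟩
    · rw [hZ, Finset.mem_filter]
      refine ⟨?_, hcc, ?_, ?_, ?_, ?_⟩
      · simp only [Finset.mem_product, Finset.mem_univ, true_and]
        refine ⟨⟨mem_ss.2 ⟨⟨?_, ?_, ?_⟩, Dj_er dj p, ?_⟩, mem_ss.2 ⟨⟨?_, ?_, ?_⟩, Dj_er dj' p, ?_⟩⟩,
          hpB⟩
        · exact (Finset.erase_subset _ _).trans a1
        · exact (Finset.erase_subset _ _).trans a2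
        · exact (Finset.erase_subset _ _).trans a3
        · rw [Mu_er, Finset.card_erase_of_mem hpM, ca]
        · exact (Finset.erase_subset _ _).trans b1
        · exact (Finset.erase_subset _ _).trans b2
        · exact (Finset.erase_subset _ _).trans b3
        · rw [Mu_er, Finset.card_erase_of_mem hpM', cb]
      · simp only [Mu_er, hM]
      · simp only [Mu_er]
        exact Finset.notMem_erase _ _
      · simp only [e1, e2]
        exact l1
      · simp only [e1, e2]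
        exact l2
    · simp only [hG, e1, e2]
  have h1 : ∑ y ∈ Y, iw (Mu y.1) ≤ ∑ z ∈ Z, iw (Mu (G z).1) :=
    (Finset.sum_le_sum_of_subset_of_nonneg hsub fun y _ _ => iw_nonneg' _).trans
      (Finset.sum_image_le_of_nonneg fun _ _ => iw_nonneg' _)
  refine h1.trans ?_
  rw [hZ, Finset.sum_filter, Finset.sum_product]
  have h2 : ∀ cc ∈ (Finset.univ : Finset (Fin 3 × Fin 3)),
      ∑ w ∈ (ss B k ×ˢ ss B k) ×ˢ B, (if cc.1 ≠ cc.2 ∧ Mu w.1.2 = Mu w.1.1 ∧ w.2 ∉ Mu w.1.1 ∧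
        θ ≤ Rat (ins cc.1 w.2 w.1.1) (ins cc.2 w.2 w.1.2) ∧
        Rat (ins cc.1 w.2 w.1.1) (ins cc.2 w.2 w.1.2) ≤ K * θ then
          iw (Mu (ins cc.1 w.2 w.1.1)) else 0) ≤ 9 ^ k * σ ^ k * κ := by
    intro cc _
    rw [Finset.sum_product, Finset.sum_product]
    refine le_trans ?_ (mul_le_mul_of_nonneg_right (pairs_le B k) hκ)
    rw [Finset.sum_mul]
    refine Finset.sum_le_sum fun s hs => ?_
    rw [Finset.sum_mul]
    refine Finset.sum_le_sum fun s' hs' => ?_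
    simp only
    by_cases hM : Mu s' = Mu s
    · rw [if_pos hM]
      by_cases hc : cc.1 = cc.2
      · refine (le_of_eq (Finset.sum_eq_zero fun p _ => ?_)).trans
          (mul_nonneg (iw_nonneg' _) hκ)
        rw [if_neg fun h => h.1 hc]
      · obtain ⟨Q, hQ0, hQ⟩ := interval_two hB hK hθ hs hs' hM hc
        have h3 : ∑ p ∈ B, (if cc.1 ≠ cc.2 ∧ Mu s' = Mu s ∧ p ∉ Mu s ∧
            θ ≤ Rat (ins cc.1 p s) (ins cc.2 p s') ∧
            Rat (ins cc.1 p s) (ins cc.2 p s') ≤ K * θ then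
              iw (Mu (ins cc.1 p s)) else 0) ≤
            ∑ p ∈ B, (if Q ≤ (p : ℝ) ∧ (p : ℝ) ≤ K * Q then iw (Mu s) * (1 / (p : ℝ)) else 0) := by
          refine Finset.sum_le_sum fun p hp => ?_
          have h4 : 0 ≤ iw (Mu s) * (1 / (p : ℝ)) := mul_nonneg (iw_nonneg' _) (by positivity)
          split_ifs with g1 g2 g2
          · rw [iw_ins g1.2.2.1]
          · exact absurd (hQ p hp g1.2.2.1 g1.2.2.2.1 g1.2.2.2.2) g2
          · exact h4
          · exact le_rfl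
        refine h3.trans ?_
        rw [← Finset.sum_filter, ← Finset.mul_sum]
        exact mul_le_mul_of_nonneg_left (h Q hQ0) (iw_nonneg' _)
    · rw [if_neg hM, zero_mul]
      refine le_of_eq (Finset.sum_eq_zero fun p _ => ?_)
      rw [if_neg fun h => hM h.2.1]
  refine (Finset.sum_le_sum h2).trans ?_
  rw [Finset.sum_const, Finset.card_univ, Fintype.card_prod, Fintype.card_fin, nsmul_eq_mul]
  have h5 : σ ^ k ≤ (1 + σ) ^ A :=
    (pow_le_pow_left₀ hσ0 (by linarith) k).trans (pow_le_pow_right₀ (by linarith) (by omega))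
  have h6 : (9 : ℝ) * 9 ^ k ≤ 9 ^ (A + 1) := by
    rw [← pow_succ']
    exact pow_le_pow_right₀ (by norm_num) (by omega)
  have h7 : (0 : ℝ) ≤ 9 * 9 ^ k := by positivity
  calc ((3 * 3 : ℕ) : ℝ) * (9 ^ k * σ ^ k * κ) = (9 * 9 ^ k) * σ ^ k * κ := by push_cast; ring
    _ ≤ 9 ^ (A + 1) * (1 + σ) ^ A * κ := by
        apply mul_le_mul_of_nonneg_right _ hκ
        exact mul_le_mul h6 h5 (pow_nonneg hσ0 k) (by positivity)

end SP15
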