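import Pool.Agent.LibSP15.Defs2
import Pool.Agent.LibSP15.Q0s
import Pool.Agent.LibSP15.Q0m
import Pool.Agent.LibSP15.Q1
import Pool.Agent.LibSP15.Q2
import Pool.Agent.LibSP15.Q3
import Pool.Agent.LibSP15.Q5a

/-!
# SP15, row Q6a (size L)
-/

set_option autoImplicit false

namespace SP15

open Finset Filter

private theorem Q6a_iw_nonneg (U : Finset ℕ) : 0 ≤ iw U :=
  Finset.prod_nonneg fun p _ => by positivity

private theorem Q6a_base (T i a b : ℕ) (s s' : Sp) (hs : s ∈ SplR T i i a b) (hs' : s' ∈ SplR T i i a b) :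
    s = s' := by
  have key : ∀ e (U : Finset ℕ), U ∈ Rg T i i e → U = ∅ := by
    intro e U hU
    unfold Rg at hU
    rw [Finset.mem_filter, Finset.mem_powerset, Finset.Ico_self, Finset.biUnion_empty,
      Finset.subset_empty] at hU
    exact hU.1
  unfold SplR at hs hs'
  rw [Finset.mem_filter, Finset.mem_product, Finset.mem_product] at hs hs'
  obtain ⟨⟨h1, h2, h3⟩, -⟩ := hs
  obtain ⟨⟨h1', h2', h3'⟩, -⟩ := hs'
  refine Prod.ext ?_ (Prod.ext ?_ ?_)
  · rw [key _ _ h1, key _ _ h1']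
  · rw [key _ _ h2, key _ _ h2']
  · rw [key _ _ h3, key _ _ h3']

private theorem Q6a_bin_prime (T h p : ℕ) (hp : p ∈ Bin T h) : p.Prime := by
  unfold Bin at hp
  rw [Finset.mem_filter] at hp
  exact hp.2.1

open Classical in
private noncomputable def Q6a_ind (K θ : ℝ) (s s' : Sp) : ℝ :=
  if Mu s' = Mu s ∧ s ≠ s' ∧ θ ≤ Rat s s' ∧ Rat s s' ≤ K * θ then iw (Mu s) else 0

open Classical in
private noncomputable def Q6a_eq (s s' : Sp) : ℝ := if Mu s' = Mu s then iw (Mu s) else 0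

private theorem Q6a_point (T i j a b : ℕ) (hT : 1 ≤ T) (K : ℝ) (θ : ℝ)
    (s s' t t' : Sp) (hs : s ∈ SplR T i j a b)
    (hs' : s' ∈ SplR T i j a b) (ht : t ∈ SplB (Bin T j) a b) (ht' : t' ∈ SplB (Bin T j) a b) :
    Q6a_ind K θ (cu s t) (cu s' t') ≤
      (if t = t' then iw (Mu t) * Q6a_ind K θ s s' else 0) +
        Q6a_eq s s' * Q6a_ind K (θ / Rat s s') t t' := by
  obtain ⟨h1, h2, h3, h4, h5, h6⟩ := Q0_mul T i j a b hT s s' t t' hs hs' ht ht'
  have hn1 := Q6a_iw_nonneg (Mu s)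
  have hn2 := Q6a_iw_nonneg (Mu t)
  have hind : ∀ (K θ : ℝ) (s s' : Sp), 0 ≤ Q6a_ind K θ s s' := by
    intro K θ s s'
    unfold Q6a_ind
    split_ifs
    · exact Q6a_iw_nonneg _
    · exact le_rfl
  have hr2 : 0 ≤ Q6a_eq s s' * Q6a_ind K (θ / Rat s s') t t' := by
    apply mul_nonneg _ (hind _ _ _ _)
    unfold Q6a_eq
    split_ifs
    · exact hn1
    · exact le_rfl
  have hr1 : 0 ≤ (if t = t' then iw (Mu t) * Q6a_ind K θ s s' else 0) := by
    split_ifs
    · exact mul_nonneg hn2 (hind _ _ _ _)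
    · exact le_rfl
  by_cases hc : Mu (cu s' t') = Mu (cu s t) ∧ cu s t ≠ cu s' t' ∧ θ ≤ Rat (cu s t) (cu s' t') ∧
      Rat (cu s t) (cu s' t') ≤ K * θ
  · have hL : Q6a_ind K θ (cu s t) (cu s' t') = iw (Mu s) * iw (Mu t) := by
      unfold Q6a_ind
      rw [if_pos hc, h1]
    obtain ⟨c1, c2, c3, c4⟩ := hc
    obtain ⟨m1, m2⟩ := h3.1 c1.symm
    rw [h2] at c3 c4
    rw [hL]
    by_cases htt : t = t'
    · have hss : s ≠ s' := fun h => c2 (h4.2 ⟨h, htt⟩)
      have hR : Rat t t' = 1 := by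
        rw [htt] at h6 ⊢
        unfold Rat at h6 ⊢
        have hne : ((pr t'.2.1 : ℝ) * pr t'.2.2) ≠ 0 := by
          intro h0
          rw [h0, zero_div] at h6
          exact lt_irrefl _ h6
        rw [mul_comm (pr t'.2.2 : ℝ) (pr t'.2.1 : ℝ)]
        exact div_self hne
      rw [hR, mul_one] at c3 c4
      have hI : Q6a_ind K θ s s' = iw (Mu s) := by
        unfold Q6a_ind
        rw [if_pos ⟨m1.symm, hss, c3, c4⟩]
      rw [if_pos htt, hI, mul_comm (iw (Mu s))]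
      linarith
    · have hI : Q6a_ind K (θ / Rat s s') t t' = iw (Mu t) := by
        unfold Q6a_ind
        rw [if_pos]
        refine ⟨m2.symm, htt, ?_, ?_⟩
        · rw [div_le_iff₀ h5]; linarith
        · rw [← mul_div_assoc, le_div_iff₀ h5]; linarith
      have hE : Q6a_eq s s' = iw (Mu s) := by
        unfold Q6a_eq
        rw [if_pos m1.symm]
      rw [hE, hI]
      linarith
  · have hL : Q6a_ind K θ (cu s t) (cu s' t') = 0 := by
      unfold Q6a_ind
      rw [if_neg hc]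
    rw [hL]
    linarith

/-- recursion over the bins -/
theorem Q6a (T i j a b : ℕ) (hT : 1 ≤ T) (hij : i ≤ j) (K : ℝ) (hK : 1 ≤ K) (κ : ℕ → ℝ) (hκ : ∀ h, 0 ≤ κ h)
    (h : ∀ h ∈ Ico i j, ∀ Q : ℝ, 0 < Q →
      ∑ p ∈ (Bin T h).filter (fun p : ℕ => Q ≤ (p : ℝ) ∧ (p : ℝ) ≤ K * Q), 1 / (p : ℝ) ≤ κ h)
    (θ : ℝ) (hθ : 0 < θ) :
    ∑ s ∈ SplR T i j a b, ∑ _s' ∈ (SplR T i j a b).filter (fun s' => Mu s' = Mu s ∧ s ≠ s' ∧ θ ≤ Rat s s' ∧
      Rat s s' ≤ K * θ), iw (Mu s) ≤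
      ∑ k ∈ Ico i j, (∏ h ∈ Ico (k + 1) j, ((∑ p ∈ Bin T h, 1 / (p : ℝ)) ^ (a + 2 * b) /
          (a.factorial * b.factorial ^ 2))) *
        (∏ h ∈ Ico i k, ((∑ p ∈ Bin T h, 1 / (p : ℝ)) ^ (a + 2 * b) / (a.factorial * b.factorial ^ 2) *
          ((a + 2 * b).factorial / (a.factorial * b.factorial ^ 2)))) *
        (9 ^ (a + 2 * b + 1) * (1 + ∑ p ∈ Bin T k, 1 / (p : ℝ)) ^ (a + 2 * b) * κ k) := by
  set lam : ℕ → ℝ := fun h => (∑ p ∈ Bin T h, 1 / (p : ℝ)) ^ (a + 2 * b) /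
          (a.factorial * b.factorial ^ 2) with hlam
  set mu' : ℝ := ((a + 2 * b).factorial / (a.factorial * b.factorial ^ 2)) with hmu'
  set ν : ℕ → ℝ := fun k => (9 ^ (a + 2 * b + 1) * (1 + ∑ p ∈ Bin T k, 1 / (p : ℝ)) ^ (a + 2 * b) * κ k)
    with hν
  have hlam0 : ∀ h, 0 ≤ lam h := fun h => by
    simp only [hlam]
    have : 0 ≤ ∑ p ∈ Bin T h, 1 / (p : ℝ) := Finset.sum_nonneg fun p _ => by positivity
    positivity
  -- the left side as a double sum
  have hD : ∀ (j : ℕ) (θ : ℝ), ∑ s ∈ SplR T i j a b, ∑ _s' ∈ (SplR T i j a b).filter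
      (fun s' => Mu s' = Mu s ∧ s ≠ s' ∧ θ ≤ Rat s s' ∧ Rat s s' ≤ K * θ), iw (Mu s) =
      ∑ s ∈ SplR T i j a b, ∑ s' ∈ SplR T i j a b, Q6a_ind K θ s s' := by
    intro j θ
    apply Finset.sum_congr rfl
    intro s _
    rw [Finset.sum_filter]
    apply Finset.sum_congr rfl
    intro s' _
    unfold Q6a_ind
    congr 1
  suffices hmain : ∀ j, i ≤ j → (∀ h ∈ Ico i j, ∀ Q : ℝ, 0 < Q →
      ∑ p ∈ (Bin T h).filter (fun p : ℕ => Q ≤ (p : ℝ) ∧ (p : ℝ) ≤ K * Q), 1 / (p : ℝ) ≤ κ h) →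
      ∀ θ : ℝ, 0 < θ → ∑ s ∈ SplR T i j a b, ∑ s' ∈ SplR T i j a b, Q6a_ind K θ s s' ≤
        ∑ k ∈ Ico i j, (∏ h ∈ Ico (k + 1) j, lam h) * (∏ h ∈ Ico i k, (lam h * mu')) * ν k by
    rw [hD]
    exact hmain j hij h θ hθ
  intro j hij
  induction j, hij using Nat.le_induction with
  | base =>
    intro _ θ _
    rw [Finset.Ico_self, Finset.sum_empty]
    apply le_of_eq
    apply Finset.sum_eq_zero
    intro s hs
    apply Finset.sum_eq_zero
    intro s' hs'
    unfold Q6a_ind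
    rw [if_neg]
    rintro ⟨-, h2, -⟩
    exact h2 (Q6a_base T i a b s s' hs hs')
  | succ j hij ih =>
    intro hh θ hθ
    have hh' : ∀ h ∈ Ico i j, ∀ Q : ℝ, 0 < Q →
        ∑ p ∈ (Bin T h).filter (fun p : ℕ => Q ≤ (p : ℝ) ∧ (p : ℝ) ≤ K * Q), 1 / (p : ℝ) ≤ κ h := by
      intro h hm
      rw [Finset.mem_Ico] at hm
      exact hh h (Finset.mem_Ico.2 ⟨hm.1, by omega⟩)
    have ih' := ih hh' θ hθ
    set S := SplR T i j a b with hS
    set B := SplB (Bin T j) a b with hB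
    rw [Q0_split T i j a b hT hij]
    have hQ3 : ∀ θ' : ℝ, 0 < θ' → ∑ t ∈ B, ∑ t' ∈ B, Q6a_ind K θ' t t' ≤ ν j := by
      intro θ' hθ'
      have h1 := Q3_one (Bin T j) (Q6a_bin_prime T j) a b K (κ j) hK (hκ j)
        (hh j (Finset.mem_Ico.2 ⟨hij, Nat.lt_succ_self j⟩)) θ' hθ'
      refine le_trans (le_of_eq ?_) h1
      apply Finset.sum_congr rfl
      intro s _
      rw [Finset.sum_filter]
      apply Finset.sum_congr rfl
      intro s' _
      unfold Q6a_ind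
      congr 1
    have hQ5 : ∑ s ∈ S, ∑ s' ∈ S, Q6a_eq s s' ≤ ∏ h ∈ Ico i j, (lam h * mu') := by
      refine le_trans (le_of_eq ?_) (Q5a T i j a b hT hij)
      apply Finset.sum_congr rfl
      intro s _
      rw [Finset.sum_filter]
      apply Finset.sum_congr rfl
      intro s' _
      unfold Q6a_eq
      congr 1
    have hQ1 : ∑ t ∈ B, iw (Mu t) ≤ lam j := Q1_one (Bin T j) a b
    have hpt : ∀ s ∈ S, ∀ s' ∈ S, ∑ t ∈ B, ∑ t' ∈ B, Q6a_ind K θ (cu s t) (cu s' t') ≤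
        lam j * Q6a_ind K θ s s' + Q6a_eq s s' * ν j := by
      intro s hs s' hs'
      have hind : 0 ≤ Q6a_ind K θ s s' := by
        unfold Q6a_ind
        split_ifs
        · exact Q6a_iw_nonneg _
        · exact le_rfl
      have heq : 0 ≤ Q6a_eq s s' := by
        unfold Q6a_eq
        split_ifs
        · exact Q6a_iw_nonneg _
        · exact le_rfl
      rcases B.eq_empty_or_nonempty with hBe | ⟨t0, ht0⟩
      · rw [hBe, Finset.sum_empty]
        have hν0 : 0 ≤ ν j := by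
          simp only [hν]
          have : 0 ≤ ∑ p ∈ Bin T j, 1 / (p : ℝ) := Finset.sum_nonneg fun p _ => by positivity
          have := hκ j
          positivity
        have := hlam0 j
        positivity
      have hpos : 0 < Rat s s' := (Q0_mul T i j a b hT s s' t0 t0 hs hs' ht0 ht0).2.2.2.2.1
      calc ∑ t ∈ B, ∑ t' ∈ B, Q6a_ind K θ (cu s t) (cu s' t')
          ≤ ∑ t ∈ B, ∑ t' ∈ B, ((if t = t' then iw (Mu t) * Q6a_ind K θ s s' else 0) +
              Q6a_eq s s' * Q6a_ind K (θ / Rat s s') t t') :=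
            Finset.sum_le_sum fun t ht => Finset.sum_le_sum fun t' ht' =>
              Q6a_point T i j a b hT K θ s s' t t' hs hs' ht ht'
        _ = (∑ t ∈ B, iw (Mu t)) * Q6a_ind K θ s s' +
              Q6a_eq s s' * ∑ t ∈ B, ∑ t' ∈ B, Q6a_ind K (θ / Rat s s') t t' := by
            simp_rw [Finset.sum_add_distrib, ← Finset.mul_sum]
            congr 1
            rw [Finset.sum_mul]
            apply Finset.sum_congr rfl
            intro t ht
            rw [Finset.sum_ite_eq, if_pos ht]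
        _ ≤ lam j * Q6a_ind K θ s s' + Q6a_eq s s' * ν j := by
            have := hQ3 (θ / Rat s s') (by positivity)
            gcongr
    have hν0 : 0 ≤ ν j := by
      simp only [hν]
      have : 0 ≤ ∑ p ∈ Bin T j, 1 / (p : ℝ) := Finset.sum_nonneg fun p _ => by positivity
      have := hκ j
      positivity
    calc ∑ s ∈ S, ∑ s' ∈ S, ∑ t ∈ B, ∑ t' ∈ B, Q6a_ind K θ (cu s t) (cu s' t')
        ≤ ∑ s ∈ S, ∑ s' ∈ S, (lam j * Q6a_ind K θ s s' + Q6a_eq s s' * ν j) :=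
          Finset.sum_le_sum fun s hs => Finset.sum_le_sum fun s' hs' => hpt s hs s' hs'
      _ = lam j * ∑ s ∈ S, ∑ s' ∈ S, Q6a_ind K θ s s' + (∑ s ∈ S, ∑ s' ∈ S, Q6a_eq s s') * ν j := by
          simp_rw [Finset.sum_add_distrib, ← Finset.mul_sum, ← Finset.sum_mul]
      _ ≤ lam j * (∑ k ∈ Ico i j, (∏ h ∈ Ico (k + 1) j, lam h) * (∏ h ∈ Ico i k, (lam h * mu')) * ν k) +
            (∏ h ∈ Ico i j, (lam h * mu')) * ν j := by
          have := hlam0 j
          gcongr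
      _ = ∑ k ∈ Ico i (j + 1), (∏ h ∈ Ico (k + 1) (j + 1), lam h) * (∏ h ∈ Ico i k, (lam h * mu')) * ν k := by
          rw [Finset.sum_Ico_succ_top hij, Finset.Ico_self, Finset.prod_empty, one_mul]
          congr 1
          rw [Finset.mul_sum]
          apply Finset.sum_congr rfl
          intro k hk
          rw [Finset.mem_Ico] at hk
          rw [Finset.prod_Ico_succ_top (by omega : k + 1 ≤ j)]
          ring

end SP15
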