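import Pool.Agent.LibSP15.Defs2
import Pool.Agent.LibSP15.Q4
import Pool.Agent.LibSP15.Q6a
import Pool.Agent.LibSP15.B1
import Pool.Agent.LibSP15.B2
import Pool.Agent.LibSP15.E1

/-!
# SP15, row Q6 (size L)

PLAN. s = s': Q4. s ≠ s': Q6a with θ = 1/64, K = 4096, κ h = C e^(-hT) (B2). λ_h := σ_h^A/(a! b!²); all λ_h ≥ 1 (σ_h ≥ max(a,b)), ∏_{h ≠ k} λ_h ≤ C λ^H with λ = T^A/(a! b!²), (1+σ_k)^A ≤ C. Sum ≤ C λ^H ∑_{k = h0}^{h1-1} mu^(k-h0) e^(-kT); each term ≤ e^(-h0 T) max(1, (mu e^(-T))^H)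
≤ 1 + mu^H e^(-h1 T) ≤ 1 + C L mu^H/log X (E1); H ≤ L terms.
-/

set_option autoImplicit false

namespace SP15

open Finset Filter

private theorem Q6_iw_nonneg (U : Finset ℕ) : 0 ≤ iw U := by
  unfold iw
  exact Finset.prod_nonneg fun p _ => inv_nonneg.mpr (Nat.cast_nonneg p)

private theorem Q6_geom (S : Finset ℕ) : ∑ h ∈ S, Real.exp (-(h : ℝ)) ≤ 2 := by
  have h1 : ∀ h : ℕ, Real.exp (-(h : ℝ)) = (Real.exp (-1)) ^ h := fun h => by
    rw [← Real.exp_nat_mul]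
    congr 1
    ring
  have h2 : Real.exp (-1) ≤ 1 / 2 := by
    rw [Real.exp_neg, one_div]
    refine inv_anti₀ two_pos ?_
    have := Real.add_one_le_exp (1 : ℝ)
    linarith
  calc ∑ h ∈ S, Real.exp (-(h : ℝ)) ≤ ∑ h ∈ S, ((1 : ℝ) / 2) ^ h :=
        Finset.sum_le_sum fun h _ => by
          rw [h1]
          exact pow_le_pow_left₀ (Real.exp_pos _).le h2 h
    _ ≤ ∑' h : ℕ, ((1 : ℝ) / 2) ^ h :=
        summable_geometric_two.sum_le_tsum S fun h _ => by positivity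
    _ = 2 := tsum_geometric_two

private theorem Q6_prod {T A : ℕ} (hT : 1 ≤ T) {C1 D : ℝ} (hC1 : 0 ≤ C1) (hD : 0 < D)
    (h1 : ∀ h : ℕ, |∑ p ∈ Bin T h, 1 / (p : ℝ) - T| ≤ C1 * Real.exp (-(h * T))) (S : Finset ℕ) :
    ∏ h ∈ S, ((∑ p ∈ Bin T h, 1 / (p : ℝ)) ^ A / D) ≤
      ((T : ℝ) ^ A / D) ^ #S * Real.exp (A * C1 * 2) := by
  have hTR : (1 : ℝ) ≤ T := by exact_mod_cast hT
  have h2 : ∀ h ∈ S, (∑ p ∈ Bin T h, 1 / (p : ℝ)) ^ A / D ≤
      ((T : ℝ) ^ A / D) * Real.exp (A * C1 * Real.exp (-(h : ℝ))) := by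
    intro h _
    have h3 : ∑ p ∈ Bin T h, 1 / (p : ℝ) ≤ T * Real.exp (C1 * Real.exp (-(h : ℝ))) := by
      have h4 := (abs_le.mp (h1 h)).2
      have h5 : Real.exp (-(h * T : ℝ)) ≤ Real.exp (-(h : ℝ)) := by
        refine Real.exp_le_exp.mpr (neg_le_neg ?_)
        exact le_mul_of_one_le_right (Nat.cast_nonneg h) hTR
      have h6 := Real.add_one_le_exp (C1 * Real.exp (-(h : ℝ)))
      have h7 : 0 ≤ C1 * Real.exp (-(h : ℝ)) := mul_nonneg hC1 (Real.exp_pos _).le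
      calc ∑ p ∈ Bin T h, 1 / (p : ℝ) ≤ T + C1 * Real.exp (-(h : ℝ)) := by
            have := mul_le_mul_of_nonneg_left h5 hC1
            linarith
        _ ≤ T * (C1 * Real.exp (-(h : ℝ)) + 1) := by nlinarith
        _ ≤ T * Real.exp (C1 * Real.exp (-(h : ℝ))) :=
            mul_le_mul_of_nonneg_left h6 (by linarith)
    have h8 : 0 ≤ ∑ p ∈ Bin T h, 1 / (p : ℝ) := Finset.sum_nonneg fun p _ => by positivity
    have h9 := pow_le_pow_left₀ h8 h3 A
    rw [mul_pow, ← Real.exp_nat_mul] at h9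
    calc (∑ p ∈ Bin T h, 1 / (p : ℝ)) ^ A / D ≤
          ((T : ℝ) ^ A * Real.exp (A * (C1 * Real.exp (-(h : ℝ))))) / D :=
          div_le_div_of_nonneg_right h9 hD.le
      _ = ((T : ℝ) ^ A / D) * Real.exp (A * C1 * Real.exp (-(h : ℝ))) := by
          rw [mul_div_right_comm, mul_assoc]
  calc ∏ h ∈ S, ((∑ p ∈ Bin T h, 1 / (p : ℝ)) ^ A / D)
      ≤ ∏ h ∈ S, (((T : ℝ) ^ A / D) * Real.exp (A * C1 * Real.exp (-(h : ℝ)))) :=
        Finset.prod_le_prod (fun h _ => div_nonneg (pow_nonneg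
          (Finset.sum_nonneg fun p _ => by positivity) _) hD.le) h2
    _ = ((T : ℝ) ^ A / D) ^ #S * Real.exp (∑ h ∈ S, A * C1 * Real.exp (-(h : ℝ))) := by
        rw [Finset.prod_mul_distrib, Finset.prod_const, Real.exp_sum]
    _ ≤ ((T : ℝ) ^ A / D) ^ #S * Real.exp (A * C1 * 2) := by
        refine mul_le_mul_of_nonneg_left (Real.exp_le_exp.mpr ?_) (by positivity)
        rw [← Finset.mul_sum]
        exact mul_le_mul_of_nonneg_left (Q6_geom S) (by positivity)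

private theorem Q6_term {m T : ℝ} (hm : 0 ≤ m) (hT : 0 ≤ T) {i j k : ℕ} (hik : i ≤ k) (hkj : k ≤ j) :
    m ^ (k - i) * Real.exp (-(k * T)) ≤ 1 + m ^ (j - i) * Real.exp (-(j * T)) := by
  have e1 : ∀ k : ℕ, i ≤ k → m ^ (k - i) * Real.exp (-(k * T)) =
      Real.exp (-(i * T)) * (m * Real.exp (-T)) ^ (k - i) := by
    intro k hk
    rw [mul_pow, ← Real.exp_nat_mul]
    have : Real.exp (-(k * T)) = Real.exp (-(i * T)) * Real.exp (((k - i : ℕ) : ℝ) * -T) := by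
      rw [← Real.exp_add]
      congr 1
      rw [Nat.cast_sub hk]
      ring
    rw [this]
    ring
  have h0 : 0 ≤ m * Real.exp (-T) := mul_nonneg hm (Real.exp_pos _).le
  rcases le_total (m * Real.exp (-T)) 1 with h | h
  · have h1 : Real.exp (-(i * T)) ≤ 1 := by
      rw [Real.exp_le_one_iff]
      have : 0 ≤ (i : ℝ) * T := mul_nonneg (Nat.cast_nonneg i) hT
      linarith
    have h2 : (m * Real.exp (-T)) ^ (k - i) ≤ 1 := pow_le_one₀ h0 h
    have h3 : 0 ≤ m ^ (j - i) * Real.exp (-(j * T)) :=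
      mul_nonneg (pow_nonneg hm _) (Real.exp_pos _).le
    rw [e1 k hik]
    have h4 := mul_le_one₀ h1 (pow_nonneg h0 _) h2
    linarith
  · rw [e1 k hik, e1 j (hik.trans hkj)]
    have h1 : (m * Real.exp (-T)) ^ (k - i) ≤ (m * Real.exp (-T)) ^ (j - i) :=
      pow_le_pow_right₀ h (by omega)
    have := mul_le_mul_of_nonneg_left h1 (Real.exp_pos (-(i * T))).le
    linarith

private theorem Q6_pow_fact {a T : ℕ} (h : a < T) : (1 : ℝ) ≤ (T : ℝ) ^ a / a.factorial := by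
  rw [one_le_div (by positivity)]
  have h1 : a.factorial ≤ a ^ a := Nat.factorial_le_pow a
  have h2 : a ^ a ≤ T ^ a := Nat.pow_le_pow_left h.le a
  exact_mod_cast h1.trans h2

theorem Q6_close (P : Par) : ∃ C : ℝ, 1 ≤ C ∧ ∀ᶠ X : ℕ in atTop,
    ∑ σ ∈ (Spl P X ×ˢ Spl P X).filter (fun σ => Mu σ.1 = Mu σ.2 ∧ 1 / 64 ≤ Rat σ.1 σ.2 ∧
      Rat σ.1 σ.2 ≤ 64), iw (Mu σ.1) ≤
      C * LL X ^ 2 * (Th P X * Xi P X ^ 2 * (1 + mu P ^ HH P X / Real.log X)) := by
  classical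
  have hT : 1 ≤ P.T := by
    have := P.haT
    omega
  have hTR : (1 : ℝ) ≤ P.T := by exact_mod_cast hT
  obtain ⟨C1, hC1, hB1⟩ := B1_sum
  obtain ⟨C2, hC2, hB2⟩ := B2_short 4096 (by norm_num)
  obtain ⟨C4, hC4, hQ4⟩ := Q4_single P
  obtain ⟨C3, hC3, hE1⟩ := E1_scales P
  set A : ℕ := P.a + 2 * P.b with hA
  set D : ℝ := ((P.a.factorial * P.b.factorial ^ 2 : ℝ)) with hD
  have hD0 : 0 < D := by positivity
  set lam : ℝ := (P.T : ℝ) ^ A / D with hlam
  have hlam1 : 1 ≤ lam := by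
    have h1 := Q6_pow_fact P.haT
    have h2 := Q6_pow_fact P.hbT
    have h3 : lam = ((P.T : ℝ) ^ P.a / P.a.factorial) *
        ((P.T : ℝ) ^ P.b / P.b.factorial) ^ 2 := by
      rw [hlam, hA, hD, pow_add, div_pow, ← pow_mul, mul_comm P.b 2]
      field_simp
    rw [h3]
    exact one_le_mul_of_one_le_of_one_le h1 (one_le_pow₀ h2)
  have hmu : mu P = A.factorial / D := rfl
  have hmu0 : 0 ≤ mu P := by rw [hmu]; positivity
  set E : ℝ := Real.exp (A * C1 * 2) with hE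
  have hE0 : 0 < E := Real.exp_pos _
  set K : ℝ := E * E * (9 ^ (A + 1) * (1 + (P.T + C1)) ^ A * C2) with hK
  have hK0 : 0 ≤ K := by positivity
  refine ⟨C4 + K * C3, by nlinarith [mul_nonneg hK0 (by linarith : (0 : ℝ) ≤ C3)], ?_⟩
  filter_upwards [hQ4, hE1, eventually_ge_atTop 3] with X q4 e1 hX3
  have hXR : (3 : ℝ) ≤ X := by exact_mod_cast hX3
  have hx1 : 1 ≤ Real.log X := by
    rw [Real.le_log_iff_exp_le (by linarith)]
    exact le_trans Real.exp_one_lt_d9.le (by linarith)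
  have hLL : 100 ≤ LL X := e1.1
  set i := h0 P X with hi
  set j := h1 P X with hj
  have hij : i ≤ j := e1.2.2.2.2.2.2.2.2.1
  have hH : HH P X = j - i := rfl
  have hHT : (HH P X * P.T : ℝ) ≤ LL X := e1.2.2.2.2.2.2.2.2.2.2.2.2.1
  have hexp : Real.exp (-(j * P.T)) ≤ C3 * LL X / Real.log X :=
    e1.2.2.2.2.2.2.2.2.2.2.2.2.2
  have hHL : (HH P X : ℝ) ≤ LL X :=
    le_trans (le_mul_of_one_le_right (Nat.cast_nonneg _) hTR) hHT
  have hThXi : Th P X * Xi P X ^ 2 = lam ^ HH P X := by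
    unfold Th Xi
    rw [← pow_mul, mul_comm (HH P X) 2, pow_mul, ← mul_pow]
    congr 1
    rw [hlam, hA, hD, pow_add, div_pow, ← pow_mul, mul_comm P.b 2]
    field_simp
  -- the sum over pairs
  have hsum : ∑ σ ∈ (Spl P X ×ˢ Spl P X).filter (fun σ => Mu σ.1 = Mu σ.2 ∧
      1 / 64 ≤ Rat σ.1 σ.2 ∧ Rat σ.1 σ.2 ≤ 64), iw (Mu σ.1) ≤
      ∑ s ∈ Spl P X, iw (Mu s) + ∑ s ∈ SplR P.T i j P.a P.b,
        ∑ _s' ∈ (SplR P.T i j P.a P.b).filter (fun s' => Mu s' = Mu s ∧ s ≠ s' ∧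
          (1 / 64 : ℝ) ≤ Rat s s' ∧ Rat s s' ≤ 4096 * (1 / 64 : ℝ)), iw (Mu s) := by
    rw [show SplR P.T i j P.a P.b = Spl P X from rfl, ← Finset.sum_add_distrib,
      Finset.sum_filter, Finset.sum_product]
    refine Finset.sum_le_sum fun s hs => ?_
    rw [← Finset.sum_filter]
    refine le_trans (Finset.sum_le_sum_of_subset_of_nonneg (t := insert s ((Spl P X).filter
      (fun s' => Mu s' = Mu s ∧ s ≠ s' ∧
          (1 / 64 : ℝ) ≤ Rat s s' ∧ Rat s s' ≤ 4096 * (1 / 64 : ℝ)))) ?_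
      (fun _ _ _ => Q6_iw_nonneg _)) ?_
    · intro s' hs'
      rw [mem_filter] at hs'
      obtain ⟨g1, g2, g3, g4⟩ := hs'
      rw [mem_insert, mem_filter]
      by_cases h : s = s'
      · exact Or.inl h.symm
      · refine Or.inr ⟨g1, g2.symm, h, g3, ?_⟩
        norm_num
        exact g4
    · rw [Finset.sum_insert (by simp)]
  refine le_trans hsum ?_
  have hrec := Q6a P.T i j P.a P.b hT hij 4096 (by norm_num)
    (fun h => C2 * Real.exp (-(h * P.T))) (fun h => by positivity)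
    (fun h _ Q hQ => hB2 P.T h Q hT hQ) (1 / 64) (by norm_num)
  -- bound of every term
  have hterm : ∀ k ∈ Ico i j, (∏ h ∈ Ico (k + 1) j, ((∑ p ∈ Bin P.T h, 1 / (p : ℝ)) ^
        (P.a + 2 * P.b) / (P.a.factorial * P.b.factorial ^ 2))) *
        (∏ h ∈ Ico i k, ((∑ p ∈ Bin P.T h, 1 / (p : ℝ)) ^ (P.a + 2 * P.b) /
          (P.a.factorial * P.b.factorial ^ 2) *
          ((P.a + 2 * P.b).factorial / (P.a.factorial * P.b.factorial ^ 2)))) *
        (9 ^ (P.a + 2 * P.b + 1) * (1 + ∑ p ∈ Bin P.T k, 1 / (p : ℝ)) ^ (P.a + 2 * P.b) *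
          (C2 * Real.exp (-(k * P.T)))) ≤
      lam ^ HH P X * (K * (C3 * LL X * (1 + mu P ^ HH P X / Real.log X))) := by
    intro k hk
    rw [mem_Ico] at hk
    have p1 := Q6_prod (A := A) hT (by linarith : (0 : ℝ) ≤ C1) hD0 (fun h => hB1 P.T h hT)
      (Ico (k + 1) j)
    have p2 := Q6_prod (A := A) hT (by linarith : (0 : ℝ) ≤ C1) hD0 (fun h => hB1 P.T h hT)
      (Ico i k)
    rw [Nat.card_Ico] at p1 p2
    have hσ : ∀ h : ℕ, 0 ≤ ∑ p ∈ Bin P.T h, 1 / (p : ℝ) := fun h =>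
      Finset.sum_nonneg fun p _ => by positivity
    have p3 : ∏ h ∈ Ico i k, ((∑ p ∈ Bin P.T h, 1 / (p : ℝ)) ^ A / D * (A.factorial / D)) ≤
        lam ^ (k - i) * E * mu P ^ (k - i) := by
      rw [Finset.prod_mul_distrib, Finset.prod_const, Nat.card_Ico, ← hmu]
      exact mul_le_mul_of_nonneg_right p2 (pow_nonneg hmu0 _)
    have p4 : (∏ h ∈ Ico (k + 1) j, ((∑ p ∈ Bin P.T h, 1 / (p : ℝ)) ^ A / D)) *
        ∏ h ∈ Ico i k, ((∑ p ∈ Bin P.T h, 1 / (p : ℝ)) ^ A / D * (A.factorial / D)) ≤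
        lam ^ HH P X * (E * E * mu P ^ (k - i)) := by
      refine le_trans (mul_le_mul p1 p3 (Finset.prod_nonneg fun h _ => by
        have := hσ h
        positivity) (by positivity)) ?_
      have h1 : lam ^ (j - (k + 1)) * lam ^ (k - i) ≤ lam ^ HH P X := by
        rw [← pow_add]
        exact pow_le_pow_right₀ hlam1 (by omega)
      calc lam ^ (j - (k + 1)) * E * (lam ^ (k - i) * E * mu P ^ (k - i))
          = (lam ^ (j - (k + 1)) * lam ^ (k - i)) * (E * E * mu P ^ (k - i)) := by ring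
        _ ≤ lam ^ HH P X * (E * E * mu P ^ (k - i)) :=
          mul_le_mul_of_nonneg_right h1 (by positivity)
    have p5 : 9 ^ (A + 1) * (1 + ∑ p ∈ Bin P.T k, 1 / (p : ℝ)) ^ A *
        (C2 * Real.exp (-(k * P.T))) ≤ 9 ^ (A + 1) * (1 + (P.T + C1)) ^ A *
        (C2 * Real.exp (-(k * P.T))) := by
      refine mul_le_mul_of_nonneg_right (mul_le_mul_of_nonneg_left (pow_le_pow_left₀
        (by linarith [hσ k]) ?_ A) (by positivity)) (by positivity)
      have h1 := (abs_le.mp (hB1 P.T k hT)).2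
      have h2 : Real.exp (-(k * P.T : ℝ)) ≤ 1 := by
        rw [Real.exp_le_one_iff]
        have : 0 ≤ (k : ℝ) * P.T := by positivity
        linarith
      have h3 : C1 * Real.exp (-(k * P.T : ℝ)) ≤ C1 * 1 :=
        mul_le_mul_of_nonneg_left h2 (by linarith)
      linarith
    have p6 := Q6_term hmu0 (by linarith : (0 : ℝ) ≤ P.T) hk.1 hk.2.le
    have p7 : mu P ^ (k - i) * Real.exp (-(k * P.T)) ≤
        C3 * LL X * (1 + mu P ^ HH P X / Real.log X) := by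
      refine le_trans p6 ?_
      rw [← hH]
      have h1 : mu P ^ HH P X * Real.exp (-(j * P.T)) ≤ mu P ^ HH P X * (C3 * LL X / Real.log X) :=
        mul_le_mul_of_nonneg_left hexp (pow_nonneg hmu0 _)
      have h2 : 1 ≤ C3 * LL X := one_le_mul_of_one_le_of_one_le hC3 (by linarith)
      calc 1 + mu P ^ HH P X * Real.exp (-(j * P.T))
          ≤ C3 * LL X + mu P ^ HH P X * (C3 * LL X / Real.log X) := by linarith
        _ = C3 * LL X * (1 + mu P ^ HH P X / Real.log X) := by ring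
    have hlamH : 0 ≤ lam ^ HH P X := by positivity
    calc _ ≤ lam ^ HH P X * (E * E * mu P ^ (k - i)) *
          (9 ^ (A + 1) * (1 + (P.T + C1)) ^ A * (C2 * Real.exp (-(k * P.T)))) := by
          refine mul_le_mul p4 p5 ?_ (by positivity)
          have := hσ k
          positivity
      _ = lam ^ HH P X * (K * (mu P ^ (k - i) * Real.exp (-(k * P.T)))) := by
          rw [hK]
          ring
      _ ≤ lam ^ HH P X * (K * (C3 * LL X * (1 + mu P ^ HH P X / Real.log X))) :=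
          mul_le_mul_of_nonneg_left (mul_le_mul_of_nonneg_left p7 hK0) hlamH
  have hrec2 := le_trans hrec (Finset.sum_le_sum hterm)
  rw [Finset.sum_const, Nat.card_Ico, ← hH, nsmul_eq_mul] at hrec2
  have hpos : 0 ≤ mu P ^ HH P X / Real.log X := by positivity
  have hlamH : 0 ≤ lam ^ HH P X := by positivity
  rw [hThXi]
  rw [hThXi] at q4
  have hR : 0 ≤ lam ^ HH P X * (1 + mu P ^ HH P X / Real.log X) := by positivity
  calc ∑ s ∈ Spl P X, iw (Mu s) + _ ≤ C4 * lam ^ HH P X +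
        HH P X * (lam ^ HH P X * (K * (C3 * LL X * (1 + mu P ^ HH P X / Real.log X)))) :=
        add_le_add q4 hrec2
    _ ≤ C4 * LL X ^ 2 * (lam ^ HH P X * (1 + mu P ^ HH P X / Real.log X)) +
        LL X * (lam ^ HH P X * (K * (C3 * LL X * (1 + mu P ^ HH P X / Real.log X)))) := by
        refine add_le_add ?_ (mul_le_mul_of_nonneg_right hHL (by positivity))
        have h1 : 1 ≤ LL X ^ 2 := one_le_pow₀ (by linarith)
        have h2 : lam ^ HH P X ≤ lam ^ HH P X * (1 + mu P ^ HH P X / Real.log X) :=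
          le_mul_of_one_le_right hlamH (by linarith)
        calc C4 * lam ^ HH P X ≤ C4 * (lam ^ HH P X * (1 + mu P ^ HH P X / Real.log X)) :=
              mul_le_mul_of_nonneg_left h2 (by linarith)
          _ ≤ C4 * LL X ^ 2 * (lam ^ HH P X * (1 + mu P ^ HH P X / Real.log X)) :=
              mul_le_mul_of_nonneg_right (le_mul_of_one_le_right (by linarith) h1) hR
    _ = (C4 + K * C3) * LL X ^ 2 * (lam ^ HH P X * (1 + mu P ^ HH P X / Real.log X)) := by ring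


end SP15
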