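import Pool.Agent.LibSP15.Defs2
import Pool.Agent.LibSP15.C6
import Pool.Agent.LibSP15.D3
import Pool.Agent.LibSP15.D4
import Pool.Agent.LibSP15.D5
import Pool.Agent.LibSP15.D6
import Pool.Agent.LibSP15.Q4
import Pool.Agent.LibSP15.Q5
import Pool.Agent.LibSP15.Q6
import Pool.Agent.LibSP15.B3
import Pool.Agent.LibSP15.E1

/-!
# SP15, row D8 (size M)

PLAN. Insert D4 into D3, sum over u by D5 (|De| ≤ X^20), over r by D6, over σ by Q6 (indicator part) and Q5 (rest): ≤ 2 #Cf + 2 * C L^12 X/(log X)^4 Xi² [C L² Th Xi² (1 + mu^H/log X) + C L³/log X * C Th Xi² mu^H]. F0 = X/(log X)³ Th Xi³, Xi ≤ exp(T H) ≤ log X (T^b/b! ≤ e^T). C6 for #Cf.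
-/

set_option autoImplicit false

namespace SP15

open Finset Filter

theorem D8_iw_nonneg (U : Finset ℕ) : 0 ≤ iw U := prod_nonneg fun p _ => by positivity

theorem D8_Xi_pos (P : Par) (X : ℕ) : 0 < Xi P X := by
  unfold Xi
  have : (0 : ℝ) < P.T := by
    have := P.haT
    have h2 := P.ha
    exact_mod_cast (by omega : 0 < P.T)
  positivity

theorem D8_Th_pos (P : Par) (X : ℕ) : 0 < Th P X := by
  unfold Th
  have : (0 : ℝ) < P.T := by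
    have := P.haT
    have h2 := P.ha
    exact_mod_cast (by omega : 0 < P.T)
  positivity

theorem D8_mu_pos (P : Par) : 0 < mu P := by
  unfold mu
  positivity

theorem D8_Xi_le (P : Par) (X : ℕ) (hX : 1 < Real.log X) (h : (HH P X * P.T : ℝ) ≤ LL X) :
    Xi P X ≤ Real.log X := by
  have h1 : (P.T : ℝ) ^ P.b / (P.b).factorial ≤ Real.exp P.T :=
    Real.pow_div_factorial_le_exp _ (Nat.cast_nonneg _) _
  have h2 : Xi P X ≤ Real.exp P.T ^ HH P X := by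
    unfold Xi
    exact pow_le_pow_left₀ (by positivity) h1 _
  rw [← Real.exp_nat_mul] at h2
  refine h2.trans ?_
  have h3 : Real.exp (LL X) = Real.log X := by
    unfold LL
    exact Real.exp_log (by linarith)
  rw [← h3]
  exact Real.exp_le_exp.2 h

/-- size of the determinant -/
theorem D8_De_le (P : Par) (X : ℕ) (hX : 2 ≤ X) (τ : Fin 3) (κ : Bool) (s s' : Sp) (r₂ r₃ : ℕ)
    (h1 : (pr s.2.1 : ℝ) ≤ X) (h2 : (pr s.2.2 : ℝ) ≤ X) (h3 : (pr s'.2.1 : ℝ) ≤ X)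
    (h4 : (pr s'.2.2 : ℝ) ≤ X) (hr2 : r₂ ≤ X) (hr3 : r₃ ≤ X) :
    |(De τ κ s s' r₂ r₃ : ℝ)| ≤ (X : ℝ) ^ 20 := by
  have hX' : (2 : ℝ) ≤ X := by exact_mod_cast hX
  have hr2' : (r₂ : ℝ) ≤ X := by exact_mod_cast hr2
  have hr3' : (r₃ : ℝ) ≤ X := by exact_mod_cast hr3
  have key : ∀ (c : ℝ) (u r : ℝ), |c| ≤ 2 → 0 ≤ u → u ≤ X → 0 ≤ r → r ≤ X → |c * u * r| ≤ 2 * (X * X) := by
    intro c u r hc hu hu' hr hr'
    rw [abs_mul, abs_mul, abs_of_nonneg hu, abs_of_nonneg hr, mul_assoc]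
    exact mul_le_mul hc (mul_le_mul hu' hr' hr (by linarith)) (by positivity) (by norm_num)
  have e1 : |(eA τ * gA τ : ℝ)| ≤ 2 := by
    unfold eA gA
    split_ifs <;> norm_num
  have e2 : |(eB τ * gB τ : ℝ)| ≤ 2 := by
    unfold eB gB
    split_ifs <;> norm_num
  have a1 : |(al τ s r₂ : ℝ)| ≤ 2 * ((X : ℝ) * X) := by
    unfold al
    push_cast
    exact key _ _ _ e1 (Nat.cast_nonneg _) h1 (Nat.cast_nonneg _) hr2'
  have a2 : |(be τ s r₃ : ℝ)| ≤ 2 * ((X : ℝ) * X) := by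
    unfold be
    push_cast
    exact key _ _ _ e2 (Nat.cast_nonneg _) h2 (Nat.cast_nonneg _) hr3'
  have a3 : |(al' τ κ s' r₃ : ℝ)| ≤ 2 * ((X : ℝ) * X) := by
    unfold al'
    cases κ
    · simp only [Bool.false_eq_true, if_false]
      push_cast
      exact key _ _ _ e1 (Nat.cast_nonneg _) h3 (Nat.cast_nonneg _) hr3'
    · simp only [if_true]
      push_cast
      exact key _ _ _ e2 (Nat.cast_nonneg _) h3 (Nat.cast_nonneg _) hr3'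
  have a4 : |(be' τ κ s' r₂ : ℝ)| ≤ 2 * ((X : ℝ) * X) := by
    unfold be'
    cases κ
    · simp only [Bool.false_eq_true, if_false]
      push_cast
      exact key _ _ _ e2 (Nat.cast_nonneg _) h4 (Nat.cast_nonneg _) hr2'
    · simp only [if_true]
      push_cast
      exact key _ _ _ e1 (Nat.cast_nonneg _) h4 (Nat.cast_nonneg _) hr2'
  have hXX : (0 : ℝ) ≤ 2 * ((X : ℝ) * X) := by positivity
  have b1 : |(De τ κ s s' r₂ r₃ : ℝ)| ≤ 2 * ((X : ℝ) * X) * (2 * (X * X)) + 2 * (X * X) * (2 * (X * X)) := by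
    unfold De
    push_cast
    refine (abs_sub _ _).trans ?_
    rw [abs_mul, abs_mul]
    exact add_le_add (mul_le_mul a1 a4 (abs_nonneg _) hXX) (mul_le_mul a3 a2 (abs_nonneg _) hXX)
  refine b1.trans ?_
  have h5 : 2 * ((X : ℝ) * X) * (2 * (X * X)) + 2 * (X * X) * (2 * (X * X)) = 2 ^ 3 * (X : ℝ) ^ 4 := by ring
  rw [h5]
  calc (2 : ℝ) ^ 3 * (X : ℝ) ^ 4 ≤ (X : ℝ) ^ 3 * (X : ℝ) ^ 4 := by gcongr
    _ = (X : ℝ) ^ 7 := by ring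
    _ ≤ (X : ℝ) ^ 20 := pow_le_pow_right₀ (by linarith) (by norm_num)

theorem D8_pairs (P : Par) : ∃ C : ℝ, 1 ≤ C ∧ ∀ᶠ X : ℕ in atTop, ∀ (t s : Finset ℕ → ℕ) (τ : Fin 3),
    (∀ W ∈ Reg P X P.a, P.l.Coprime (t W) ∧ P.l.Coprime (s W)) →
    (#{g ∈ Cf P X t s ×ˢ Cf P X t s | cmod P.l τ g.1 = cmod P.l τ g.2} : ℝ) ≤
      C * LL X ^ 15 * (F0 P X * (1 + Xi P X * mu P ^ HH P X / Real.log X ^ 2)) := by
  classical
  obtain ⟨CE, hCE1, hE⟩ := E1_scales P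
  obtain ⟨C0, hC01, hC0⟩ := C6_Cf_card P
  obtain ⟨C4, hC41, hC4⟩ := D4_Z P
  obtain ⟨C5, hC51, hC5⟩ := D5_Y P
  obtain ⟨C6, hC61, hC6⟩ := D6_R P
  obtain ⟨C7, hC71, hC7⟩ := Q5_pairs P
  obtain ⟨C8, hC81, hC8⟩ := Q6_close P
  refine ⟨2 * C0 + 4 * (C4 * C5) * (C8 + C6 * C7), by nlinarith [mul_nonneg (by linarith : (0:ℝ) ≤ C4) (by linarith : (0:ℝ) ≤ C5), mul_nonneg (by linarith : (0:ℝ) ≤ C6) (by linarith : (0:ℝ) ≤ C7)], ?_⟩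
  filter_upwards [hE, hC0, hC4, hC5, hC6, hC7, hC8, D3_keys P, B3_size P, E2_powers, eventually_ge_atTop 2]
    with X hE hC0 hC4 hC5 hC6 hC7 hC8 hD3 hB3 hE2 hX2
  intro t s τ hts
  obtain ⟨hL, -, -, -, -, -, -, -, -, -, -, -, hHT, -⟩ := hE
  have hx1 : 1 < Real.log X := by
    by_contra hcon
    push Not at hcon
    have h1 : 0 ≤ Real.log X := Real.log_natCast_nonneg X
    have : LL X ≤ 0 := Real.log_nonpos h1 hcon
    linarith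
  set x := Real.log X with hx
  have hx0 : 0 < x := by linarith
  set L := LL X with hLdef
  have hL1 : 1 ≤ L := by linarith
  set Ξ := Xi P X with hΞ
  set Θ := Th P X with hΘ
  set M := mu P ^ HH P X with hM
  have hΞ0 : 0 < Ξ := D8_Xi_pos P X
  have hΘ0 : 0 < Θ := D8_Th_pos P X
  have hM0 : 0 < M := pow_pos (D8_mu_pos P) _
  have hΞx : Ξ ≤ x := D8_Xi_le P X hx1 hHT
  have hX0 : (0 : ℝ) < X := by exact_mod_cast (by omega : 0 < X)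
  -- sizes
  have hpr : ∀ U ∈ Reg P X P.b, (pr U : ℝ) ≤ X := by
    intro U hU
    have h1 := (hB3 P.b (by unfold Par.A; omega) U hU).1
    have hX1 : (1 : ℝ) ≤ X := by exact_mod_cast (by omega : 1 ≤ X)
    have h2 : (zz X : ℝ) ≤ X := hE2.2.2.2.1.trans (by
      calc (X : ℝ) ^ (1 / 1000 : ℝ) ≤ (X : ℝ) ^ (1 : ℝ) :=
            Real.rpow_le_rpow_of_exponent_le hX1 (by norm_num)
        _ = X := Real.rpow_one _)
    calc (pr U : ℝ) ≤ (zz X : ℝ) ^ (1 / 20 : ℝ) := h1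
      _ ≤ (X : ℝ) ^ (1 / 20 : ℝ) := Real.rpow_le_rpow (Nat.cast_nonneg _) h2 (by norm_num)
      _ ≤ (X : ℝ) ^ (1 : ℝ) := Real.rpow_le_rpow_of_exponent_le hX1 (by norm_num)
      _ = X := Real.rpow_one _
  have hSpl : ∀ σ ∈ Spl P X, σ.1 ∈ Reg P X P.a ∧ σ.2.1 ∈ Reg P X P.b ∧ σ.2.2 ∈ Reg P X P.b := by
    intro σ hσ
    have h := (mem_filter.1 hσ).1
    rw [mem_product, mem_product] at h
    exact ⟨h.1, h.2.1, h.2.2⟩
  set K : ℝ := C4 * L ^ 12 * (X / x ^ 4) with hK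
  have hK0 : 0 ≤ K := by positivity
  -- sum over u
  have hu : ∀ κ : Bool, ∀ σ ∈ (Spl P X ×ˢ Spl P X).filter (fun σ => Mu σ.1 = Mu σ.2),
      ∀ r ∈ (RR X σ.1 σ.2).filter (fun r => De τ κ σ.1 σ.2 r.1 r.2 ≠ 0),
      ∑ u ∈ Reg P X P.b ×ˢ Reg P X P.b, (#(Zs P X τ κ σ.1 σ.2 r.1 r.2 u.1 u.2) : ℝ) ≤
        K * iw (Mu σ.1) * (C5 * Ξ ^ 2) * (1 / ((r.1 : ℝ) * r.2)) := by
    intro κ σ hσ r hr
    rw [mem_filter, mem_product] at hσ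
    rw [mem_filter] at hr
    obtain ⟨hs1, hs2, hs3⟩ := hSpl _ hσ.1.1
    obtain ⟨hs1', hs2', hs3'⟩ := hSpl _ hσ.1.2
    have hrr := hr.1
    unfold RR at hrr
    rw [mem_filter, mem_product, mem_Icc, mem_Icc] at hrr
    have hD : |(De τ κ σ.1 σ.2 r.1 r.2 : ℝ)| ≤ (X : ℝ) ^ 20 :=
      D8_De_le P X hX2 τ κ _ _ _ _ (hpr _ hs2) (hpr _ hs3) (hpr _ hs2') (hpr _ hs3') hrr.1.1.2 hrr.1.2.2
    have h1 := hC5 _ hr.2 hD
    have h2 : ∀ u ∈ Reg P X P.b ×ˢ Reg P X P.b, (#(Zs P X τ κ σ.1 σ.2 r.1 r.2 u.1 u.2) : ℝ) ≤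
        K * iw (Mu σ.1) * (1 / ((r.1 : ℝ) * r.2)) *
          (if (∀ p : ℕ, p ∈ u.1 ∩ u.2 → (p : ℤ) ∣ De τ κ σ.1 σ.2 r.1 r.2) then iw (u.1 ∪ u.2) else 0) := by
      intro u hu
      rw [mem_product] at hu
      have h3 := hC4 τ κ σ.1 σ.2 r.1 r.2 u.1 u.2 hσ.1.1 hσ.1.2 hr.1 hu.1 hu.2 hr.2
      refine h3.trans (le_of_eq ?_)
      split_ifs
      · rw [hK]; ring
      · ring
    refine (sum_le_sum h2).trans ?_
    rw [← mul_sum, ← sum_filter]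
    calc K * iw (Mu σ.1) * (1 / ((r.1 : ℝ) * r.2)) * _
        ≤ K * iw (Mu σ.1) * (1 / ((r.1 : ℝ) * r.2)) * (C5 * Ξ ^ 2) := by
          refine mul_le_mul_of_nonneg_left h1 ?_
          have := D8_iw_nonneg (Mu σ.1)
          positivity
      _ = _ := by ring
  -- sum over r
  have hrs : ∀ κ : Bool, ∀ σ ∈ (Spl P X ×ˢ Spl P X).filter (fun σ => Mu σ.1 = Mu σ.2),
      ∑ r ∈ (RR X σ.1 σ.2).filter (fun r => De τ κ σ.1 σ.2 r.1 r.2 ≠ 0),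
        ∑ u ∈ Reg P X P.b ×ˢ Reg P X P.b, (#(Zs P X τ κ σ.1 σ.2 r.1 r.2 u.1 u.2) : ℝ) ≤
        K * (C5 * Ξ ^ 2) * ((if 1 / 64 ≤ Rat σ.1 σ.2 ∧ Rat σ.1 σ.2 ≤ 64 then iw (Mu σ.1) else 0) +
          C6 * L ^ 3 / x * iw (Mu σ.1)) := by
    intro κ σ hσ
    have h0 := D8_iw_nonneg (Mu σ.1)
    have hσ' := hσ
    rw [mem_filter, mem_product] at hσ'
    refine (sum_le_sum (hu κ σ hσ)).trans ?_
    rw [← mul_sum]
    have h1 : ∑ r ∈ (RR X σ.1 σ.2).filter (fun r => De τ κ σ.1 σ.2 r.1 r.2 ≠ 0), 1 / ((r.1 : ℝ) * r.2) ≤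
        ∑ r ∈ RR X σ.1 σ.2, 1 / ((r.1 : ℝ) * r.2) :=
      sum_le_sum_of_subset_of_nonneg (filter_subset _ _) fun _ _ _ => by positivity
    have h2 := h1.trans (hC6 σ.1 σ.2 hσ'.1.1 hσ'.1.2)
    refine (mul_le_mul_of_nonneg_left h2 (by positivity)).trans (le_of_eq ?_)
    split_ifs <;> ring
  -- sum over σ
  have hσs : ∀ κ : Bool, ∑ σ ∈ (Spl P X ×ˢ Spl P X).filter (fun σ => Mu σ.1 = Mu σ.2),
      ∑ r ∈ (RR X σ.1 σ.2).filter (fun r => De τ κ σ.1 σ.2 r.1 r.2 ≠ 0),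
        ∑ u ∈ Reg P X P.b ×ˢ Reg P X P.b, (#(Zs P X τ κ σ.1 σ.2 r.1 r.2 u.1 u.2) : ℝ) ≤
        K * (C5 * Ξ ^ 2) * (C8 * L ^ 2 * (Θ * Ξ ^ 2 * (1 + M / x)) + C6 * L ^ 3 / x * (C7 * (Θ * Ξ ^ 2 * M))) := by
    intro κ
    refine (sum_le_sum (hrs κ)).trans ?_
    rw [← mul_sum, sum_add_distrib, ← mul_sum, ← sum_filter, filter_filter]
    refine mul_le_mul_of_nonneg_left ?_ (by positivity)
    refine add_le_add ?_ ?_
    · exact hC8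
    · exact mul_le_mul_of_nonneg_left hC7 (by positivity)
  -- total
  have hmain := hD3 t s τ hts
  have hmain' : (#{g ∈ Cf P X t s ×ˢ Cf P X t s | cmod P.l τ g.1 = cmod P.l τ g.2} : ℝ) ≤
      2 * #(Cf P X t s) + ∑ κ : Bool, ∑ σ ∈ (Spl P X ×ˢ Spl P X).filter (fun σ => Mu σ.1 = Mu σ.2),
        ∑ r ∈ (RR X σ.1 σ.2).filter (fun r => De τ κ σ.1 σ.2 r.1 r.2 ≠ 0),
          ∑ u ∈ Reg P X P.b ×ˢ Reg P X P.b, (#(Zs P X τ κ σ.1 σ.2 r.1 r.2 u.1 u.2) : ℝ) := by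
    exact_mod_cast hmain
  refine hmain'.trans ?_
  have hcf := hC0 t s hts
  have hκ : ∑ κ : Bool, ∑ σ ∈ (Spl P X ×ˢ Spl P X).filter (fun σ => Mu σ.1 = Mu σ.2),
        ∑ r ∈ (RR X σ.1 σ.2).filter (fun r => De τ κ σ.1 σ.2 r.1 r.2 ≠ 0),
          ∑ u ∈ Reg P X P.b ×ˢ Reg P X P.b, (#(Zs P X τ κ σ.1 σ.2 r.1 r.2 u.1 u.2) : ℝ) ≤
      2 * (K * (C5 * Ξ ^ 2) * (C8 * L ^ 2 * (Θ * Ξ ^ 2 * (1 + M / x)) + C6 * L ^ 3 / x * (C7 * (Θ * Ξ ^ 2 * M)))) := by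
    rw [Fintype.sum_bool]
    have := hσs true
    have := hσs false
    linarith
  set F := F0 P X with hF
  have hF' : F = X / x ^ 3 * (Θ * Ξ ^ 3) := rfl
  have hF0 : 0 < F := by rw [hF']; positivity
  -- algebra
  set q := Ξ * M / x ^ 2 with hq
  have hq0 : 0 ≤ q := by positivity
  have hy : Ξ / x ≤ 1 := (div_le_one hx0).2 hΞx
  have e1 : K * (C5 * Ξ ^ 2) * (C8 * L ^ 2 * (Θ * Ξ ^ 2 * (1 + M / x)) + C6 * L ^ 3 / x * (C7 * (Θ * Ξ ^ 2 * M))) =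
      (C4 * C5) * F * (C8 * L ^ 14 * (Ξ / x + q) + C6 * C7 * L ^ 15 * q) := by
    rw [hK, hF', hq]
    field_simp
  have hLp : L ^ 14 ≤ L ^ 15 := pow_le_pow_right₀ hL1 (by norm_num)
  have hL3 : L ^ 3 ≤ L ^ 15 := pow_le_pow_right₀ hL1 (by norm_num)
  have e2 : C8 * L ^ 14 * (Ξ / x + q) + C6 * C7 * L ^ 15 * q ≤ (C8 + C6 * C7) * L ^ 15 * (1 + q) * 1 := by
    have h1 : C8 * L ^ 14 * (Ξ / x + q) ≤ C8 * L ^ 15 * (1 + q) := by gcongr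
    have h2 : C6 * C7 * L ^ 15 * q ≤ C6 * C7 * L ^ 15 * (1 + q) := by
      have : 0 ≤ C6 * C7 * L ^ 15 := by positivity
      nlinarith
    nlinarith
  rw [e1] at hκ
  have e3 : (C4 * C5) * F * (C8 * L ^ 14 * (Ξ / x + q) + C6 * C7 * L ^ 15 * q) ≤
      (C4 * C5) * F * ((C8 + C6 * C7) * L ^ 15 * (1 + q) * 1) :=
    mul_le_mul_of_nonneg_left e2 (by positivity)
  have e4 : 2 * (#(Cf P X t s) : ℝ) ≤ 2 * C0 * L ^ 15 * (F * (1 + q)) := by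
    have h1 : C0 * L ^ 3 * F ≤ C0 * L ^ 15 * (F * (1 + q)) := by
      have h2 : F ≤ F * (1 + q) := by nlinarith
      have : 0 ≤ C0 := by linarith
      gcongr
    linarith
  have h9 : 0 ≤ (C4 * C5) * (C8 + C6 * C7) * L ^ 15 * (F * (1 + q)) := by positivity
  calc 2 * (#(Cf P X t s) : ℝ) + _ ≤ 2 * C0 * L ^ 15 * (F * (1 + q)) +
        2 * ((C4 * C5) * F * ((C8 + C6 * C7) * L ^ 15 * (1 + q) * 1)) := by linarith
    _ ≤ (2 * C0 + 4 * (C4 * C5) * (C8 + C6 * C7)) * L ^ 15 * (F * (1 + q)) := by linarith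

end SP15
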