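import Pool.Agent.LibSP15.Defs

/-!
# SP15: definitions for the second moment
-/

set_option autoImplicit false

namespace SP15

open Finset

/-- a splitting `(W, U, U')` -/
abbrev Sp : Type := Finset ℕ × Finset ℕ × Finset ℕ

/-- the splittings over the bins `i ≤ h < j` -/
noncomputable def SplR (T i j a b : ℕ) : Finset Sp :=
  (Rg T i j a ×ˢ Rg T i j b ×ˢ Rg T i j b).filter fun s =>
    Disjoint s.1 s.2.1 ∧ Disjoint s.1 s.2.2 ∧ Disjoint s.2.1 s.2.2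

noncomputable def Spl (P : Par) (X : ℕ) : Finset Sp := SplR P.T (h0 P X) (h1 P X) P.a P.b

/-- the splittings inside one finite set `B` -/
def SplB (B : Finset ℕ) (a b : ℕ) : Finset Sp :=
  (B.powersetCard a ×ˢ B.powersetCard b ×ˢ B.powersetCard b).filter fun s =>
    Disjoint s.1 s.2.1 ∧ Disjoint s.1 s.2.2 ∧ Disjoint s.2.1 s.2.2

/-- the union of a splitting -/
def Mu (s : Sp) : Finset ℕ := s.1 ∪ s.2.1 ∪ s.2.2

/-- componentwise union -/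
def cu (s t : Sp) : Sp := (s.1 ∪ t.1, s.2.1 ∪ t.2.1, s.2.2 ∪ t.2.2)

/-- `(u u^') / (u' u^)` -/
noncomputable def Rat (s t : Sp) : ℝ := ((pr s.2.1 : ℝ) * pr t.2.2) / (pr s.2.2 * pr t.2.1)

/-- all configurations: spectators `W` and good triples for the residues `t W`, `s W` -/
noncomputable def Cf (P : Par) (X : ℕ) (t s : Finset ℕ → ℕ) : Finset (Finset ℕ × ℕ × ℕ) :=
  (Reg P X P.a).biUnion fun W =>
    (Good P X (Nw P.l X (pr W)) (t W) W ∪ Good P X (Nw P.l X (pr W)) (s W) W).image fun x => (W, x)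

/-- first used number of a triple for the type `τ` -/
def nA (τ : Fin 3) (x : ℕ × ℕ) : ℕ := if τ = 2 then x.2 else x.1
/-- second used number -/
def nB (τ : Fin 3) (x : ℕ × ℕ) : ℕ := if τ = 0 then x.2 else x.1 + x.2
/-- third number -/
def nC (τ : Fin 3) (x : ℕ × ℕ) : ℕ := if τ = 0 then x.1 + x.2 else if τ = 1 then x.2 else x.1

/-- the modulus of type `τ` -/
def cmod (l : ℕ) (τ : Fin 3) (g : Finset ℕ × ℕ × ℕ) : ℕ := l * pr g.1 * (nA τ g.2 * nB τ g.2)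

/-- powers of two and signs: first and second used number -/
def gA (_τ : Fin 3) : ℤ := 1
def gB (τ : Fin 3) : ℤ := if τ = 0 then 1 else 2
def eA (τ : Fin 3) : ℤ := if τ = 0 then 1 else -1
def eB (_τ : Fin 3) : ℤ := 1

/-- the four coefficients; `κ = true` means that the two numbers of the second triple are swapped -/
def al (τ : Fin 3) (s : Sp) (r₂ : ℕ) : ℤ := eA τ * gA τ * pr s.2.1 * r₂
def be (τ : Fin 3) (s : Sp) (r₃ : ℕ) : ℤ := eB τ * gB τ * pr s.2.2 * r₃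
def al' (τ : Fin 3) (κ : Bool) (s' : Sp) (r₃ : ℕ) : ℤ :=
  (if κ then eB τ * gB τ else eA τ * gA τ) * pr s'.2.1 * r₃
def be' (τ : Fin 3) (κ : Bool) (s' : Sp) (r₂ : ℕ) : ℤ :=
  (if κ then eA τ * gA τ else eB τ * gB τ) * pr s'.2.2 * r₂

/-- the determinant -/
def De (τ : Fin 3) (κ : Bool) (s s' : Sp) (r₂ r₃ : ℕ) : ℤ :=
  al τ s r₂ * be' τ κ s' r₂ - al' τ κ s' r₃ * be τ s r₃

open Classical in
/-- the pairs `(r₁, r₄)` counted in lemma Z -/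
noncomputable def Zs (P : Par) (X : ℕ) (τ : Fin 3) (κ : Bool) (s s' : Sp) (r₂ r₃ : ℕ) (U U' : Finset ℕ) :
    Finset (ℕ × ℕ) :=
  (Icc 1 (4 * Nw P.l X (pr s.1) / (pr s.2.1 * r₂)) ×ˢ
    Icc 1 (4 * Nw P.l X (pr s.1) / (pr s.2.2 * r₃))).filter fun r =>
    (1 < r.1 ∧ 1 < r.2 ∧ Rough (zz X) r.1 ∧ Rough (zz X) r.2) ∧
    ((∀ p ∈ U, (p : ℤ) ∣ al τ s r₂ * r.1 + be τ s r₃ * r.2) ∧
      ∀ p ∈ PQ P.l (zz X), p ∉ U → ¬ (p : ℤ) ∣ al τ s r₂ * r.1 + be τ s r₃ * r.2) ∧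
    ((∀ p ∈ U', (p : ℤ) ∣ al' τ κ s' r₃ * r.1 + be' τ κ s' r₂ * r.2) ∧
      ∀ p ∈ PQ P.l (zz X), p ∉ U' → ¬ (p : ℤ) ∣ al' τ κ s' r₃ * r.1 + be' τ κ s' r₂ * r.2)

open Classical in
/-- the pairs `(r₂, r₃)` -/
noncomputable def RR (X : ℕ) (s s' : Sp) : Finset (ℕ × ℕ) :=
  (Icc 1 X ×ˢ Icc 1 X).filter fun r => Rough (zz X) r.1 ∧ Rough (zz X) r.2 ∧
    1 / 64 ≤ Rat s s' * ((r.1 : ℝ) / r.2) ^ 2 ∧ Rat s s' * ((r.1 : ℝ) / r.2) ^ 2 ≤ 64

/-- the rough part of `n` -/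
noncomputable def rp (l z n : ℕ) : ℕ := n / (Nat.gcd n 2 * pr (sm l z n))

end SP15
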