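import Pool.Agent.LibSP15.Defs2

/-!
# SP15, row G1 (size M)

PLAN. #{hits} ≤ ∑_{τ} ∑_{c ∈ A} r_τ(c), r_τ(c) = #{g : cmod τ g = c} (mods = the three cmod). Cauchy: (∑_{c ∈ A} r_τ(c))² ≤ #A ∑_c r_τ(c)² = #A #{pairs} ≤ #A B; the sum over three τ: square ≤ 9 #A B.
-/

set_option autoImplicit false

namespace SP15

open Finset Filter

theorem G1_one {α : Type*} [DecidableEq α] (S : Finset α) (f : α → ℕ) (A : Finset ℕ) (B : ℝ)
    (hB : (#{g ∈ S ×ˢ S | f g.1 = f g.2} : ℝ) ≤ B) :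
    (#{g ∈ S | f g ∈ A} : ℝ) ^ 2 ≤ #A * B := by
  classical
  have h1 : #{g ∈ S | f g ∈ A} = ∑ c ∈ A, #{g ∈ S | f g = c} := by
    rw [card_eq_sum_card_fiberwise (s := {g ∈ S | f g ∈ A}) (f := f) (t := A)
      (fun g hg => (mem_filter.1 (mem_coe.1 hg)).2)]
    refine sum_congr rfl fun c hc => ?_
    congr 1
    ext g
    simp only [mem_filter]
    constructor
    · rintro ⟨⟨h, -⟩, h'⟩
      exact ⟨h, h'⟩
    · rintro ⟨h, h'⟩
      exact ⟨⟨h, h' ▸ hc⟩, h'⟩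
  have h2 : ∑ c ∈ A, (#{g ∈ S | f g = c}) ^ 2 ≤ #{g ∈ S ×ˢ S | f g.1 = f g.2} := by
    have h3 : ∀ c ∈ A, (#{g ∈ S | f g = c}) ^ 2 = #({g ∈ S | f g = c} ×ˢ {g ∈ S | f g = c}) := by
      intro c _
      rw [card_product, sq]
    rw [sum_congr rfl h3, ← card_biUnion]
    · refine card_le_card ?_
      intro g hg
      rw [mem_biUnion] at hg
      obtain ⟨c, _, hg⟩ := hg
      rw [mem_product, mem_filter, mem_filter] at hg
      rw [mem_filter, mem_product]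
      exact ⟨⟨hg.1.1, hg.2.1⟩, hg.1.2.trans hg.2.2.symm⟩
    · intro c _ c' _ hcc
      rw [Function.onFun, disjoint_left]
      intro g hg hg'
      rw [mem_product, mem_filter, mem_filter] at hg hg'
      exact hcc (hg.1.2.symm.trans hg'.1.2)
  have h4 : (∑ c ∈ A, (#{g ∈ S | f g = c} : ℝ)) ^ 2 ≤ #A * ∑ c ∈ A, (#{g ∈ S | f g = c} : ℝ) ^ 2 :=
    sq_sum_le_card_mul_sum_sq
  have h5 : (#{g ∈ S | f g ∈ A} : ℝ) = ∑ c ∈ A, (#{g ∈ S | f g = c} : ℝ) := by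
    rw [h1]; push_cast; rfl
  rw [h5]
  refine h4.trans (mul_le_mul_of_nonneg_left ?_ (Nat.cast_nonneg _))
  refine le_trans ?_ hB
  exact_mod_cast h2

/-- Cauchy-Schwarz -/
theorem G1_cauchy (P : Par) (X : ℕ) (t s : Finset ℕ → ℕ) (A : Finset ℕ) (B : ℝ)
    (hB : ∀ τ : Fin 3, (#{g ∈ Cf P X t s ×ˢ Cf P X t s | cmod P.l τ g.1 = cmod P.l τ g.2} : ℝ) ≤ B) :
    (#{g ∈ Cf P X t s | ∃ c ∈ mods P.l (pr g.1) g.2, c ∈ A} : ℝ) ^ 2 ≤ #A * (9 * B) := by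
  classical
  have h : ∀ τ : Fin 3, (#{g ∈ Cf P X t s | cmod P.l τ g ∈ A} : ℝ) ^ 2 ≤ #A * B := fun τ =>
    G1_one (Cf P X t s) (cmod P.l τ) A B (by convert hB τ)
  have h1 : #{g ∈ Cf P X t s | ∃ c ∈ mods P.l (pr g.1) g.2, c ∈ A} ≤
      #{g ∈ Cf P X t s | cmod P.l 0 g ∈ A} + #{g ∈ Cf P X t s | cmod P.l 1 g ∈ A} +
        #{g ∈ Cf P X t s | cmod P.l 2 g ∈ A} := by
    refine le_trans (card_le_card (t := {g ∈ Cf P X t s | cmod P.l 0 g ∈ A} ∪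
      {g ∈ Cf P X t s | cmod P.l 1 g ∈ A} ∪ {g ∈ Cf P X t s | cmod P.l 2 g ∈ A}) ?_)
      ((card_union_le _ _).trans (Nat.add_le_add_right (card_union_le _ _) _))
    intro g hg
    rw [mem_filter] at hg
    obtain ⟨hg, c, hc, hcA⟩ := hg
    unfold mods at hc
    rw [mem_insert, mem_insert, mem_singleton] at hc
    rw [mem_union, mem_union, mem_filter, mem_filter, mem_filter]
    rcases hc with h | h | h
    · left; left
      refine ⟨hg, ?_⟩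
      have : cmod P.l 0 g = c := by rw [h]; rfl
      rw [this]; exact hcA
    · left; right
      refine ⟨hg, ?_⟩
      have : cmod P.l 1 g = c := by rw [h]; rfl
      rw [this]; exact hcA
    · right
      refine ⟨hg, ?_⟩
      have : cmod P.l 2 g = c := by rw [h]; rfl
      rw [this]; exact hcA
  have h2 : (#{g ∈ Cf P X t s | ∃ c ∈ mods P.l (pr g.1) g.2, c ∈ A} : ℝ) ≤
      (#{g ∈ Cf P X t s | cmod P.l 0 g ∈ A} : ℝ) + (#{g ∈ Cf P X t s | cmod P.l 1 g ∈ A} : ℝ) +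
        (#{g ∈ Cf P X t s | cmod P.l 2 g ∈ A} : ℝ) := by exact_mod_cast h1
  have a0 := h 0
  have a1 := h 1
  have a2 := h 2
  set x := (#{g ∈ Cf P X t s | cmod P.l 0 g ∈ A} : ℝ)
  set y := (#{g ∈ Cf P X t s | cmod P.l 1 g ∈ A} : ℝ)
  set z := (#{g ∈ Cf P X t s | cmod P.l 2 g ∈ A} : ℝ)
  have hx : 0 ≤ x := Nat.cast_nonneg _
  have hy : 0 ≤ y := Nat.cast_nonneg _
  have hz : 0 ≤ z := Nat.cast_nonneg _
  calc (#{g ∈ Cf P X t s | ∃ c ∈ mods P.l (pr g.1) g.2, c ∈ A} : ℝ) ^ 2 ≤ (x + y + z) ^ 2 :=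
        pow_le_pow_left₀ (Nat.cast_nonneg _) h2 2
    _ ≤ 3 * (x ^ 2 + y ^ 2 + z ^ 2) := by nlinarith [sq_nonneg (x - y), sq_nonneg (y - z), sq_nonneg (x - z)]
    _ ≤ #A * (9 * B) := by linarith

end SP15
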