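import Pool.Agent.LibSP15.Defs2
import Pool.Agent.LibSP15.A2
import Pool.Agent.LibSP15.A3
import Pool.Agent.LibSP15.C5
import Pool.Agent.LibSP15.C6
import Pool.Agent.LibSP15.C7
import Pool.Agent.LibSP15.D8
import Pool.Agent.LibSP15.G1
import Pool.Agent.LibSP15.B3

/-!
# SP15, row G2 (size M)

PLAN. t W, s W from A2 for w = pr W (choose; l coprime to pr W since l ∉ W). A := the filter set (for each sign). A3 + C7 give the hypothesis of C5 (c ∈ mods is ≤ X, squarefree, gcd | 2, and has the sign). C5, G1 with B = D8 bound: (c L^(-3) F0)² ≤ #A 9 C L^15 F0 (1+..). F0 > 0. t W % l ≠ s W % l since Kl > 0 > Kl.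
-/

set_option autoImplicit false

namespace SP15

open Finset Filter

theorem G2_alg (N F L C c q : ℝ) (hN : 0 ≤ N) (hF : 0 < F) (hL : 0 < L) (hC : 0 < C) (hc : 0 < c) (hq : 0 ≤ q) (h : ℝ)
    (h1 : c / L ^ 3 * F ≤ h) (h2 : h ^ 2 ≤ N * (9 * (C * L ^ 15 * (F * (1 + q))))) :
    c ^ 2 / (9 * C) / L ^ 21 * (F / (1 + q)) ≤ N := by
  have h3 : (c / L ^ 3 * F) ^ 2 ≤ h ^ 2 := pow_le_pow_left₀ (by positivity) h1 2
  have h4 := h3.trans h2
  have h5 : 0 < 9 * (C * L ^ 15 * (F * (1 + q))) := by positivity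
  have h6 : (c / L ^ 3 * F) ^ 2 / (9 * (C * L ^ 15 * (F * (1 + q)))) ≤ N := by
    rw [div_le_iff₀ h5]; exact h4
  refine le_trans (le_of_eq ?_) h6
  field_simp

/-- from the sign hypothesis to the count -/
theorem G2_core (P : Par) (a : ℤ) (ha : a ≠ 0) (hla : ¬ (P.l : ℤ) ∣ a) (S : ℝ → Prop)
    (hS : (∀ r, 0 < r → S r) ∨ ∀ r, r < 0 → S r) : ∃ c : ℝ, 0 < c ∧
    ∀ᶠ X : ℕ in atTop, ∀ A : Finset ℕ,
      (∀ c ∈ Icc 1 X, Squarefree c → Int.gcd a c ∣ 2 → S (Fre a c) → c ∈ A) →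
      c / LL X ^ 21 * (F0 P X / (1 + Xi P X * mu P ^ HH P X / Real.log X ^ 2)) ≤ #A := by
  classical
  haveI : Fact P.l.Prime := ⟨P.hl⟩
  obtain ⟨CE, hCE1, hE⟩ := E1_scales P
  obtain ⟨c5, hc5, h5⟩ := C5_hits P
  obtain ⟨C8, hC81, h8⟩ := D8_pairs P
  have hC80 : 0 < C8 := by linarith
  refine ⟨c5 ^ 2 / (9 * C8), by positivity, ?_⟩
  filter_upwards [hE, h5, h8, C7_mods P a ha hla, B3_size P, eventually_ge_atTop 2] with X hE h5 h8 h7 hB3 hX2
  intro A hA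
  have hcop : ∀ W ∈ Reg P X P.a, P.l.Coprime (pr W) := by
    intro W hW
    have h := (hB3 P.a (by unfold Par.A; omega) W hW).2.1
    unfold pr
    refine Nat.Coprime.prod_right fun p hp => ?_
    have h1 := (h p hp).2
    unfold PQ at h1
    rw [mem_filter] at h1
    exact (Nat.coprime_primes P.hl h1.2.1).2 (Ne.symm h1.2.2)
  have hA2 : ∀ W : Finset ℕ, ∃ ts : ℕ × ℕ, P.l.Coprime (pr W) →
      (ts.1 < P.l ∧ ts.2 < P.l ∧ P.l.Coprime ts.1 ∧ P.l.Coprime ts.2 ∧ 0 < Kl a P.l (pr W) ts.1 ∧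
        Kl a P.l (pr W) ts.2 < 0) := by
    intro W
    by_cases h : P.l.Coprime (pr W)
    · obtain ⟨t, s, h1, h2, h3, h4, h5, h6⟩ := A2_exists_t a P.l (pr W) P.h3 P.hl3 hla h
      exact ⟨(t, s), fun _ => ⟨h1, h2, h3, h4, h5, h6⟩⟩
    · exact ⟨(1, 1), fun h' => absurd h' h⟩
  choose ts hts using hA2
  have ht := fun W hW => hts W (hcop W hW)
  have hcond : ∀ W ∈ Reg P X P.a, P.l.Coprime ((fun W => (ts W).1) W) ∧ P.l.Coprime ((fun W => (ts W).2) W) ∧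
      ((fun W => (ts W).1) W) % P.l ≠ ((fun W => (ts W).2) W) % P.l := by
    intro W hW
    obtain ⟨h1, h2, h3, h4, h5, h6⟩ := ht W hW
    refine ⟨h3, h4, ?_⟩
    simp only
    rw [Nat.mod_eq_of_lt h1, Nat.mod_eq_of_lt h2]
    intro h
    rw [h] at h5
    linarith
  have hits := h5 (fun W => (ts W).1) (fun W => (ts W).2) A hcond (by
    intro W hW x hx m hm hxm1 hxm2
    obtain ⟨h1, h2, h3, h4, h5, h6⟩ := ht W hW
    have hx7 := h7 _ W hW h3 x hx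
    have hm7 := h7 _ W hW h4 m hm
    have hxT := (mem_filter.1 (mem_filter.1 hx).1).2.1
    have hmT := (mem_filter.1 (mem_filter.1 hm).1).2.1
    have key := A3_six a P.l (pr W) _ _ (by have := P.hl3; omega) x m hx7.1 hm7.1 ⟨hxT.2.2.1, hxT.2.2.2⟩
      ⟨hmT.2.2.1, hmT.2.2.2⟩ ⟨hxm1, hxm2⟩ h5 h6
    have hmem : ∀ c ∈ mods P.l (pr W) x ∪ mods P.l (pr W) m,
        1 ≤ c ∧ c ≤ X ∧ Squarefree c ∧ Int.gcd a c ∣ 2 := by
      intro c hc
      rcases mem_union.1 hc with hc | hc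
      · exact hx7.2 c hc
      · exact hm7.2 c hc
    rcases hS with hS | hS
    · obtain ⟨c, hc, hpos⟩ := key.1
      obtain ⟨g1, g2, g3, g4⟩ := hmem c hc
      exact ⟨c, hc, hA c (mem_Icc.2 ⟨g1, g2⟩) g3 g4 (hS _ hpos)⟩
    · obtain ⟨c, hc, hneg⟩ := key.2
      obtain ⟨g1, g2, g3, g4⟩ := hmem c hc
      exact ⟨c, hc, hA c (mem_Icc.2 ⟨g1, g2⟩) g3 g4 (hS _ hneg)⟩)
  have hB := G1_cauchy P X (fun W => (ts W).1) (fun W => (ts W).2) A _
    (fun τ => h8 (fun W => (ts W).1) (fun W => (ts W).2) τ fun W hW => ⟨(hcond W hW).1, (hcond W hW).2.1⟩)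
  have hL : 0 < LL X := by linarith [hE.1]
  have hx1 : 1 < Real.log X := by
    by_contra hcon
    push Not at hcon
    have h1 : 0 ≤ Real.log X := Real.log_natCast_nonneg X
    have : LL X ≤ 0 := Real.log_nonpos h1 hcon
    linarith
  have hX0 : (0 : ℝ) < X := by exact_mod_cast (by omega : 0 < X)
  have hF : 0 < F0 P X := by
    unfold F0
    have := D8_Xi_pos P X
    have := D8_Th_pos P X
    have : 0 < Real.log X := by linarith
    positivity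
  have hq : 0 ≤ Xi P X * mu P ^ HH P X / Real.log X ^ 2 := by
    have := D8_Xi_pos P X
    have := D8_mu_pos P
    positivity
  exact G2_alg _ _ _ _ _ _ (Nat.cast_nonneg _) hF hL hC80 hc5 hq _ hits hB

theorem G2_lower (P : Par) (a : ℤ) (ha : a ≠ 0) (hla : ¬ (P.l : ℤ) ∣ a) : ∃ c : ℝ, 0 < c ∧
    ∀ᶠ X : ℕ in atTop,
      c / LL X ^ 21 * (F0 P X / (1 + Xi P X * mu P ^ HH P X / Real.log X ^ 2)) ≤
        #((Icc 1 X).filter fun c : ℕ => Squarefree c ∧ Int.gcd a c ∣ 2 ∧ 0 < Fre a c) ∧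
      c / LL X ^ 21 * (F0 P X / (1 + Xi P X * mu P ^ HH P X / Real.log X ^ 2)) ≤
        #((Icc 1 X).filter fun c : ℕ => Squarefree c ∧ Int.gcd a c ∣ 2 ∧ Fre a c < 0) := by
  obtain ⟨c1, hc1, h1⟩ := G2_core P a ha hla (fun r => 0 < r) (Or.inl fun _ h => h)
  obtain ⟨c2, hc2, h2⟩ := G2_core P a ha hla (fun r => r < 0) (Or.inr fun _ h => h)
  refine ⟨min c1 c2, lt_min hc1 hc2, ?_⟩
  obtain ⟨CE, hCE1, hE⟩ := E1_scales P
  filter_upwards [h1, h2, hE, eventually_ge_atTop 2] with X h1 h2 hE hX2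
  have hL : 0 < LL X := by linarith [hE.1]
  have hq : 0 ≤ Xi P X * mu P ^ HH P X / Real.log X ^ 2 := by
    have := D8_Xi_pos P X
    have := D8_mu_pos P
    positivity
  have hF : 0 ≤ F0 P X / (1 + Xi P X * mu P ^ HH P X / Real.log X ^ 2) := by
    unfold F0
    have := D8_Xi_pos P X
    have := D8_Th_pos P X
    have : 0 ≤ Real.log X := Real.log_natCast_nonneg X
    positivity
  constructor
  · refine le_trans ?_ (h1 _ fun c hc g1 g2 g3 => mem_filter.2 ⟨hc, g1, g2, g3⟩)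
    gcongr
    exact min_le_left _ _
  · refine le_trans ?_ (h2 _ fun c hc g1 g2 g3 => mem_filter.2 ⟨hc, g1, g2, g3⟩)
    gcongr
    exact min_le_right _ _

end SP15
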