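import Pool.Agent.LibSP15.Defs

/-!
# SP15, row N1 (size M)

PLAN. GENERAL FIRST (never let Lean evaluate 45000!): n! ≤ e √n (n/e)^n (Stirling file or induction), so log(T^n/n!) ≥ n (1 + log(T/n)) - 1 - (1/2) log n. Then: 45000 (1 + log(8/9)) ≥ 40000 * .99249, 11000 (1 + log(40/11)) + 51000 (1 + log(40/17)) ≥ 40000 * 2.9959, and the corrections are
≤ 7 and ≤ 4 + 21/2 + ... ≤ 30. Needs log(9/8) ≤ .11779, log(40/11) ≥ 1.2909, log(40/17) ≥ .8556 (from exp bounds or Real.log_two and series; .0079*40000 = 316 of room: 40000*.992494 - 7 = 39692.8 ≥ 39684; 40000*2.99599 - 30 = 119809 ≥ 119684).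
-/

set_option autoImplicit false

namespace SP15

open Finset Filter

/-- `n! ≤ e √n (n/e)^n` in logarithmic form -/
private theorem N1_log_factorial (n : ℕ) (hn : 1 ≤ n) :
    Real.log (n.factorial : ℝ) ≤ 1 + Real.log n / 2 + n * Real.log n - n := by
  obtain ⟨m, rfl⟩ : ∃ m, n = m + 1 := ⟨n - 1, by omega⟩
  have h := Stirling.stirlingSeq'_antitone (Nat.zero_le m)
  simp only [Function.comp_apply] at h
  have hpos : (0 : ℝ) < ((m + 1 : ℕ) : ℝ) := by positivity
  have h1 : Stirling.stirlingSeq (Nat.succ 0) = Real.exp 1 / Real.sqrt 2 := Stirling.stirlingSeq_one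
  rw [h1] at h
  have h2 : Stirling.stirlingSeq (m.succ) = ((m + 1).factorial : ℝ) /
      (Real.sqrt (2 * ((m + 1 : ℕ) : ℝ)) * (((m + 1 : ℕ) : ℝ) / Real.exp 1) ^ (m + 1)) := by
    rw [Stirling.stirlingSeq]
  rw [h2] at h
  have hden : 0 < Real.sqrt (2 * ((m + 1 : ℕ) : ℝ)) * (((m + 1 : ℕ) : ℝ) / Real.exp 1) ^ (m + 1) := by
    positivity
  rw [div_le_iff₀ hden] at h
  have hfac : (0 : ℝ) < ((m + 1).factorial : ℝ) := by positivity
  have h3 := Real.log_le_log hfac h
  refine h3.trans ?_
  have hs2 : (0 : ℝ) < Real.sqrt 2 := by positivity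
  have hs : (0 : ℝ) < Real.sqrt (2 * ((m + 1 : ℕ) : ℝ)) := by positivity
  have he : (0 : ℝ) < Real.exp 1 := Real.exp_pos 1
  rw [Real.log_mul (by positivity) (by positivity), Real.log_div (by positivity) (by positivity),
    Real.log_mul (by positivity) (by positivity), Real.log_pow, Real.log_div (by positivity) (by positivity),
    Real.log_exp, Real.log_sqrt (by positivity), Real.log_sqrt (by positivity),
    Real.log_mul (by norm_num) (by positivity)]
  push_cast
  linarith

/-- lower bound for `log (T^n/n!)`; the real variables `T`, `m = n` are never evaluated -/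
private theorem N1_gen (n : ℕ) (hn : 1 ≤ n) (T m : ℝ) (hT : 0 < T) (hm : (n : ℝ) = m) :
    m * (1 + Real.log T - Real.log m) - 1 - Real.log m / 2 ≤
      Real.log (T ^ n / (n.factorial : ℝ)) := by
  have h := N1_log_factorial n hn
  rw [hm] at h
  rw [Real.log_div (by positivity) (by positivity), Real.log_pow, hm]
  linarith

private theorem N1_log_le (y x : ℝ) (hy : 0 < y) (hx : 0 ≤ x) (h : y ≤ (1 + x + x ^ 2 / 2) ^ 2) :
    Real.log y ≤ 2 * x := by
  rw [Real.log_le_iff_le_exp hy]
  refine h.trans ?_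
  have h2 : Real.exp (2 * x) = Real.exp x ^ 2 := by
    rw [← Real.exp_nat_mul]; norm_num
  rw [h2]
  have h3 := Real.quadratic_le_exp_of_nonneg hx
  gcongr

private theorem N1_log_nine_eight : Real.log (9 / 8) ≤ 0.11788 := by
  have := N1_log_le (9 / 8) 0.05894 (by norm_num) (by norm_num) (by norm_num)
  linarith

private theorem N1_log_eleven_ten : Real.log (11 / 10) ≤ 0.0954 := by
  have := N1_log_le (11 / 10) 0.0477 (by norm_num) (by norm_num) (by norm_num)
  linarith

private theorem N1_log_17_16 : Real.log (17 / 16) ≤ 0.0608 := by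
  have := N1_log_le (17 / 16) 0.0304 (by norm_num) (by norm_num) (by norm_num)
  linarith

private theorem N1_log_128_125 : Real.log (128 / 125) ≤ 0.0238 := by
  have := N1_log_le (128 / 125) 0.0119 (by norm_num) (by norm_num) (by norm_num)
  linarith

private theorem N1_logs :
    Real.log 40000 - Real.log 45000 ≥ -0.11788 ∧
    Real.log 40000 - Real.log 11000 ≥ 1.2908 ∧
    Real.log 40000 - Real.log 17000 ≥ 0.8554 ∧
    Real.log 45000 ≤ 12 ∧ Real.log 11000 ≤ 12 ∧ Real.log 17000 ≤ 12 := by
  have hl2a := Real.log_two_gt_d9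
  have hl2b := Real.log_two_lt_d9
  have e1 : Real.log 45000 = Real.log (9 / 8) + Real.log 40000 := by
    rw [← Real.log_mul (by norm_num) (by norm_num)]; norm_num
  have e2 : Real.log 11000 = Real.log (11 / 10) + Real.log 10000 := by
    rw [← Real.log_mul (by norm_num) (by norm_num)]; norm_num
  have e3 : Real.log 40000 = Real.log 2 + Real.log 2 + Real.log 10000 := by
    rw [← Real.log_mul (by norm_num) (by norm_num), ← Real.log_mul (by norm_num) (by norm_num)]
    norm_num
  have e4 : Real.log 17000 = Real.log (17 / 16) + 4 * Real.log 2 + Real.log 1000 := by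
    rw [show (4 : ℝ) * Real.log 2 = Real.log (2 ^ 4) by rw [Real.log_pow]; norm_num,
      ← Real.log_mul (by norm_num) (by norm_num), ← Real.log_mul (by norm_num) (by norm_num)]
    norm_num
  have e5 : Real.log 40000 = 3 * Real.log 2 + Real.log 5 + Real.log 1000 := by
    rw [show (3 : ℝ) * Real.log 2 = Real.log (2 ^ 3) by rw [Real.log_pow]; norm_num,
      ← Real.log_mul (by norm_num) (by norm_num), ← Real.log_mul (by norm_num) (by norm_num)]
    norm_num
  have e6 : Real.log (128 / 125) + 3 * Real.log 5 = 7 * Real.log 2 := by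
    rw [show (3 : ℝ) * Real.log 5 = Real.log (5 ^ 3) by rw [Real.log_pow]; norm_num,
      show (7 : ℝ) * Real.log 2 = Real.log (2 ^ 7) by rw [Real.log_pow]; norm_num,
      ← Real.log_mul (by norm_num) (by norm_num)]
    norm_num
  have e7 : Real.log 45000 ≤ 16 * Real.log 2 := by
    rw [show (16 : ℝ) * Real.log 2 = Real.log (2 ^ 16) by rw [Real.log_pow]; norm_num]
    exact Real.log_le_log (by norm_num) (by norm_num)
  have e8 : Real.log 11000 ≤ Real.log 45000 := Real.log_le_log (by norm_num) (by norm_num)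
  have e9 : Real.log 17000 ≤ Real.log 45000 := Real.log_le_log (by norm_num) (by norm_num)
  have b1 := N1_log_nine_eight
  have b2 := N1_log_eleven_ten
  have b3 := N1_log_17_16
  have b4 := N1_log_128_125
  refine ⟨by linarith, by linarith, by linarith, by linarith, by linarith, by linarith⟩

/-- the numbers of the bins -/
theorem N1_numbers :
    (40000 : ℝ) * (1 - 79 / 10000) ≤ Real.log ((40000 : ℝ) ^ 45000 / (Nat.factorial 45000 : ℝ)) ∧
    (40000 : ℝ) * (3 - 79 / 10000) ≤ Real.log ((40000 : ℝ) ^ 11000 / (Nat.factorial 11000 : ℝ)) +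
      3 * Real.log ((40000 : ℝ) ^ 17000 / (Nat.factorial 17000 : ℝ)) := by
  obtain ⟨a1, a2, a3, a4, a5, a6⟩ := N1_logs
  have g1 := N1_gen 45000 (by norm_num) 40000 45000 (by norm_num) Nat.cast_ofNat
  have g2 := N1_gen 11000 (by norm_num) 40000 11000 (by norm_num) Nat.cast_ofNat
  have g3 := N1_gen 17000 (by norm_num) 40000 17000 (by norm_num) Nat.cast_ofNat
  constructor
  · refine le_trans ?_ g1
    linarith
  · refine le_trans ?_ (add_le_add g2 (mul_le_mul_of_nonneg_left g3 (by norm_num : (0 : ℝ) ≤ 3)))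
    linarith

end SP15
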