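import Pool.Agent.LibSP15.Defs
import Pool.Agent.LibSP15.N1
import Pool.Agent.LibSP15.E1

/-!
# SP15, row N2 (size M)

PLAN. F0/(1+y) ≥ (1/2) min(F0, F0/y), y = Xi mu^H/(log X)². F0 = X (log X)^(-3) (T^a/a! (T^b/b!)³)^H ≥ X (log X)^(-3) exp(2.9921 T H) ≥ X (log X)^(-3) exp(2.9921 (L - C log L)) = X (log X)^(-.0079) L^(-2.9921 C). F0/y = X (log X)^(-1) (T^A/A!)^H similarly with .9921 (T^A/A! = T^a/a! (T^b/b!)²/mu). k := 3C + 1.
-/

set_option autoImplicit false

namespace SP15

open Finset Filter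

private theorem N2_aux (x L l H T al be aA lm C s X : ℝ) (hx : x = Real.exp L) (hl : L = Real.exp l)
    (hl0 : 0 ≤ l) (hL : 2 ≤ L) (hC : 1 ≤ C) (hH : 0 ≤ H) (hs : s = 79 / 10000)
    (h1 : T * (1 - s) ≤ aA) (h3 : T * (3 - s) ≤ al + 3 * be)
    (hlm : lm = al + 2 * be - aA) (hHT : L - C * l ≤ H * T) (hX : 0 ≤ X) :
    X / (x ^ s * L ^ (3 * C + 1)) ≤
      X / x ^ 3 * (Real.exp (H * al) * Real.exp (H * be) ^ 3) /
        (1 + Real.exp (H * be) * Real.exp (H * lm) / x ^ 2) := by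
  have hF : X / x ^ 3 * (Real.exp (H * al) * Real.exp (H * be) ^ 3) =
      X * Real.exp (H * (al + 3 * be) - 3 * L) := by
    have : Real.exp (H * al) * Real.exp (H * be) ^ 3 / Real.exp L ^ 3 =
        Real.exp (H * (al + 3 * be) - 3 * L) := by
      rw [← Real.exp_nat_mul, ← Real.exp_nat_mul, ← Real.exp_add, ← Real.exp_sub]
      congr 1
      push_cast
      ring
    rw [← this, hx]
    ring
  have hy : Real.exp (H * be) * Real.exp (H * lm) / x ^ 2 =
      Real.exp (H * be + H * lm - 2 * L) := by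
    rw [hx, ← Real.exp_nat_mul, ← Real.exp_add, ← Real.exp_sub]
    congr 1
  have hlhs : X / (x ^ s * L ^ (3 * C + 1)) = X * Real.exp (-(s * L) - (3 * C + 1) * l) := by
    have e1 : x ^ s = Real.exp (s * L) := by
      rw [hx, ← Real.exp_mul]; ring_nf
    have e2 : L ^ (3 * C + 1) = Real.exp ((3 * C + 1) * l) := by
      rw [hl, ← Real.exp_mul]; ring_nf
    rw [e1, e2, ← Real.exp_add, div_eq_mul_inv, ← Real.exp_neg]
    congr 2
    ring
  rw [hF, hy, hlhs, le_div_iff₀ (by positivity), mul_assoc]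
  refine mul_le_mul_of_nonneg_left ?_ hX
  have hsp : 0 < s := by rw [hs]; norm_num
  have hs1 : s < 1 := by rw [hs]; norm_num
  have hTl : 0 ≤ C * l := by positivity
  -- the two exponents
  have k3 : H * (T * (3 - s)) ≤ H * (al + 3 * be) := mul_le_mul_of_nonneg_left h3 hH
  have k1 : H * (T * (1 - s)) ≤ H * aA := mul_le_mul_of_nonneg_left h1 hH
  have k3' : (3 - s) * (L - C * l) ≤ H * (al + 3 * be) := by
    refine le_trans ?_ k3
    have := mul_le_mul_of_nonneg_left hHT (by linarith : (0 : ℝ) ≤ 3 - s)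
    linarith [this, mul_comm (3 - s) (H * T), mul_assoc H T (3 - s)]
  have k1' : (1 - s) * (L - C * l) ≤ H * aA := by
    refine le_trans ?_ k1
    have := mul_le_mul_of_nonneg_left hHT (by linarith : (0 : ℝ) ≤ 1 - s)
    linarith [this, mul_comm (1 - s) (H * T), mul_assoc H T (1 - s)]
  have hsC : 0 ≤ s * (C * l) := by positivity
  have f1 : -(s * L) - 3 * C * l ≤ H * (al + 3 * be) - 3 * L := by
    nlinarith [k3', hsC]
  have f2 : -(s * L) - 3 * C * l + (H * be + H * lm - 2 * L) ≤ H * (al + 3 * be) - 3 * L := by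
    rw [hlm]
    nlinarith [k1', hsC, hTl]
  have hhalf : Real.exp (-l) ≤ 1 / 2 := by
    rw [Real.exp_neg, ← hl]
    rw [inv_eq_one_div]
    exact one_div_le_one_div_of_le (by norm_num) hL
  have e1 : Real.exp (-(s * L) - (3 * C + 1) * l) ≤
      1 / 2 * Real.exp (H * (al + 3 * be) - 3 * L) := by
    have : Real.exp (-(s * L) - (3 * C + 1) * l) =
        Real.exp (-l) * Real.exp (-(s * L) - 3 * C * l) := by
      rw [← Real.exp_add]; congr 1; ring
    rw [this]
    exact mul_le_mul hhalf (Real.exp_le_exp.mpr f1) (Real.exp_pos _).le (by norm_num)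
  have e2 : Real.exp (-(s * L) - (3 * C + 1) * l) * Real.exp (H * be + H * lm - 2 * L) ≤
      1 / 2 * Real.exp (H * (al + 3 * be) - 3 * L) := by
    have : Real.exp (-(s * L) - (3 * C + 1) * l) * Real.exp (H * be + H * lm - 2 * L) =
        Real.exp (-l) * Real.exp (-(s * L) - 3 * C * l + (H * be + H * lm - 2 * L)) := by
      rw [← Real.exp_add, ← Real.exp_add]; congr 1; ring
    rw [this]
    exact mul_le_mul hhalf (Real.exp_le_exp.mpr f2) (Real.exp_pos _).le (by norm_num)
  rw [mul_add, mul_one]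
  linarith

theorem N2_exponent (P : Par) (hT : P.T = 40000) (hPa : P.a = 11000) (hPb : P.b = 17000) :
    ∃ k : ℝ, ∀ᶠ X : ℕ in atTop, (X : ℝ) / (Real.log X ^ (79 / 10000 : ℝ) * LL X ^ k) ≤
      F0 P X / (1 + Xi P X * mu P ^ HH P X / Real.log X ^ 2) := by
  obtain ⟨C, hC, hE⟩ := E1_scales P
  refine ⟨3 * C + 1, ?_⟩
  have hTr : (P.T : ℝ) = 40000 := by rw [hT]; exact Nat.cast_ofNat
  have hA : P.A = 45000 := by simp only [Par.A, hPa, hPb]
  have n1 : (P.T : ℝ) * (1 - 79 / 10000) ≤ Real.log ((P.T : ℝ) ^ P.A / (P.A.factorial : ℝ)) := by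
    rw [hTr, hA]; exact N1_numbers.1
  have n3 : (P.T : ℝ) * (3 - 79 / 10000) ≤ Real.log ((P.T : ℝ) ^ P.a / (P.a.factorial : ℝ)) +
      3 * Real.log ((P.T : ℝ) ^ P.b / (P.b.factorial : ℝ)) := by
    rw [hTr, hPa, hPb]; exact N1_numbers.2
  have hTpos : (0 : ℝ) < P.T := by rw [hTr]; norm_num
  clear hTr hA hT hPa hPb
  have hmupos : 0 < mu P := by unfold mu; positivity
  have hmu : Real.log (mu P) = Real.log ((P.T : ℝ) ^ P.a / (P.a.factorial : ℝ)) +
      2 * Real.log ((P.T : ℝ) ^ P.b / (P.b.factorial : ℝ)) -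
        Real.log ((P.T : ℝ) ^ P.A / (P.A.factorial : ℝ)) := by
    unfold mu
    rw [Real.log_div (by positivity) (by positivity), Real.log_div (by positivity) (by positivity),
      Real.log_div (by positivity) (by positivity), Real.log_div (by positivity) (by positivity),
      Real.log_mul (by positivity) (by positivity), Real.log_pow, Real.log_pow, Real.log_pow,
      Real.log_pow]
    have : (P.A : ℝ) = P.a + 2 * P.b := by unfold Par.A; push_cast; ring
    rw [this]
    push_cast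
    ring
  filter_upwards [hE] with X hX
  obtain ⟨h100, -, -, -, -, -, -, -, -, -, -, hHT, -, -⟩ := hX
  have hx0 : (0 : ℝ) ≤ Real.log X := Real.log_natCast_nonneg X
  have hx : 0 < Real.log X := by
    rcases hx0.eq_or_lt with h | h
    · exfalso
      have : LL X = 0 := by unfold LL; rw [← h, Real.log_zero]
      linarith
    · exact h
  have hLpos : 0 < LL X := by linarith
  have hXi : Xi P X = Real.exp ((HH P X : ℝ) * Real.log ((P.T : ℝ) ^ P.b / (P.b.factorial : ℝ))) := by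
    rw [Real.exp_nat_mul, Real.exp_log (by positivity)]; rfl
  have hTh : Th P X = Real.exp ((HH P X : ℝ) * Real.log ((P.T : ℝ) ^ P.a / (P.a.factorial : ℝ))) := by
    rw [Real.exp_nat_mul, Real.exp_log (by positivity)]; rfl
  have hmuH : mu P ^ HH P X = Real.exp ((HH P X : ℝ) * Real.log (mu P)) := by
    rw [Real.exp_nat_mul, Real.exp_log hmupos]
  have := N2_aux (Real.log X) (LL X) (Real.log (LL X)) (HH P X : ℝ) P.T
    (Real.log ((P.T : ℝ) ^ P.a / (P.a.factorial : ℝ))) (Real.log ((P.T : ℝ) ^ P.b / (P.b.factorial : ℝ)))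
    (Real.log ((P.T : ℝ) ^ P.A / (P.A.factorial : ℝ))) (Real.log (mu P)) C (79 / 10000) X
    (Real.exp_log hx).symm (Real.exp_log hLpos).symm (Real.log_nonneg (by linarith)) (by linarith) hC
    (Nat.cast_nonneg _) rfl n1 n3 hmu hHT (Nat.cast_nonneg _)
  unfold F0
  rw [hXi, hTh, hmuH]
  exact this

end SP15
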