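import Pool.Agent.LibSP15.Defs2
import Pool.Agent.LibSP15.G2
import Pool.Agent.LibSP15.N2

/-!
# SP15, row G3 (size S)

PLAN. Choose l ≡ 3 mod 4 prime, l > 3, l > |a| (Nat.exists_prime... mod 4 = 3 infinitely many; see how SignChanges.lean picks d), P := ⟨40000, 11000, 17000, l, ...⟩. c/L^21 * X/((log X)^(.0079) L^k) ≥ X/(log X)^(1/125) since (log X)^(.0001) = exp(.0001 L) beats powers of L.
-/

set_option autoImplicit false

namespace SP15

open Finset Filter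

theorem G3_LL : Tendsto (fun X : ℕ => LL X) atTop atTop := by
  unfold LL
  exact Real.tendsto_log_atTop.comp (Real.tendsto_log_atTop.comp tendsto_natCast_atTop_atTop)

/-- `exp(L/10000)` beats the powers of `L` -/
theorem G3_beat (c k : ℝ) (hc : 0 < c) : ∀ᶠ X : ℕ in atTop, ∀ F : ℝ,
    (X : ℝ) / (Real.log X ^ (79 / 10000 : ℝ) * LL X ^ k) ≤ F →
    (X : ℝ) / Real.log X ^ (1 / 125 : ℝ) ≤ c / LL X ^ 21 * F := by
  have h1 : Tendsto (fun y : ℝ => Real.exp (1 / 10000 * y) / y ^ (21 + k)) atTop atTop :=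
    tendsto_exp_mul_div_rpow_atTop (21 + k) (1 / 10000) (by norm_num)
  have h2 := (h1.comp G3_LL).eventually_ge_atTop (1 / c)
  filter_upwards [h2, G3_LL.eventually_ge_atTop 1, eventually_ge_atTop 2] with X h2 hL hX F hF
  have hL0 : 0 < LL X := by linarith
  have hx0 : 0 < Real.log X := by
    have h0 : 0 ≤ Real.log X := Real.log_natCast_nonneg X
    rcases h0.lt_or_eq with h | h
    · exact h
    · exfalso
      have : LL X = 0 := by unfold LL; rw [← h]; simp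
      linarith
  have hX0 : (0 : ℝ) < X := by exact_mod_cast (by omega : 0 < X)
  have h2' : 1 / c ≤ Real.exp (1 / 10000 * LL X) / LL X ^ (21 + k) := h2
  have e1 : Real.exp (1 / 10000 * LL X) = Real.log X ^ (1 / 10000 : ℝ) := by
    rw [Real.rpow_def_of_pos hx0]
    unfold LL
    ring_nf
  have e2 : LL X ^ (21 + k) = LL X ^ 21 * LL X ^ k := by
    rw [Real.rpow_add hL0]
    congr 1
    exact_mod_cast Real.rpow_natCast (LL X) 21
  have e3 : Real.log X ^ (1 / 125 : ℝ) = Real.log X ^ (79 / 10000 : ℝ) * Real.log X ^ (1 / 10000 : ℝ) := by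
    rw [← Real.rpow_add hx0]
    norm_num
  rw [e1, e2] at h2'
  have hk : 0 < LL X ^ k := Real.rpow_pos_of_pos hL0 _
  have hm : 0 < Real.log X ^ (79 / 10000 : ℝ) := Real.rpow_pos_of_pos hx0 _
  have hn : 0 < Real.log X ^ (1 / 10000 : ℝ) := Real.rpow_pos_of_pos hx0 _
  have h3 : c / LL X ^ 21 * ((X : ℝ) / (Real.log X ^ (79 / 10000 : ℝ) * LL X ^ k)) ≤ c / LL X ^ 21 * F :=
    mul_le_mul_of_nonneg_left hF (by positivity)
  refine le_trans ?_ h3
  rw [e3]
  rw [div_le_div_iff₀ hc (by positivity)] at h2'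
  rw [div_le_iff₀ (by positivity)]
  have h4 : c / LL X ^ 21 * ((X : ℝ) / (Real.log X ^ (79 / 10000 : ℝ) * LL X ^ k)) *
      (Real.log X ^ (79 / 10000 : ℝ) * Real.log X ^ (1 / 10000 : ℝ)) =
      X * ((Real.log X ^ (1 / 10000 : ℝ) * c) / (LL X ^ 21 * LL X ^ k)) := by
    field_simp
  rw [h4]
  have h5 : 1 ≤ (Real.log X ^ (1 / 10000 : ℝ) * c) / (LL X ^ 21 * LL X ^ k) := by
    rw [le_div_iff₀ (by positivity)]
    linarith
  nlinarith

theorem G3_main (a : ℤ) (ha : a ≠ 0) : ∀ᶠ X : ℕ in atTop,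
    (X : ℝ) / Real.log X ^ (1 / 125 : ℝ) ≤
      #((Icc 1 X).filter fun c : ℕ => Squarefree c ∧ Int.gcd a c ∣ 2 ∧ 0 < Fre a c) ∧
    (X : ℝ) / Real.log X ^ (1 / 125 : ℝ) ≤
      #((Icc 1 X).filter fun c : ℕ => Squarefree c ∧ Int.gcd a c ∣ 2 ∧ Fre a c < 0) := by
  obtain ⟨l, hlgt, hlp, hlm⟩ := Nat.forall_exists_prime_gt_and_modEq (a.natAbs + 3)
    (show (4 : ℕ) ≠ 0 by norm_num) (show Nat.Coprime 3 4 by norm_num)
  have h3 : l % 4 = 3 := hlm
  have hla : ¬ (l : ℤ) ∣ a := by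
    intro h
    have h1 := Int.natCast_dvd.1 h
    have h2 := Nat.le_of_dvd (by omega) h1
    omega
  set P : Par := ⟨40000, 11000, 17000, l, by norm_num, by norm_num, by norm_num, by norm_num, hlp, h3, by omega⟩
    with hP
  obtain ⟨c, hc, hG⟩ := G2_lower P a ha hla
  obtain ⟨k, hk⟩ := N2_exponent P rfl rfl rfl
  filter_upwards [hG, hk, G3_beat c k hc] with X h1 h2 h3
  have h4 := h3 _ h2
  exact ⟨h4.trans h1.1, h4.trans h1.2⟩

end SP15
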